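import Pool.Agent.H63.KO.Flags

/-! # KO.FlagConn : flags through given elements; connectivity of residues (paper B2)

`exists_through`: build the new flag from `φ` below `a`, from a chain from `v` to `φ.f (b+1)` (repeated `P.step`; ranks `a, a+1, ..., b`) between, and from `φ` above `b`.
It is convenient to prove it by induction on `b - a`: for `b = a` put `v` at `a` (`rk` and monotonicity are clear). For `a < b`: `P.step` for `v < φ.f (b+1)` gives `v < z ≤ φ.f (b+1)` of rank `a+1`;
`z < φ.f (b+1)` by rank. First find an element `v'` etc.: or directly define the chain `c : ℕ → L` by recursion with `P.step`.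

`conn_res`: induction on `b + 1 - a`. If `b < a` the flags are equal. Let `a ≤ b`, `x = φ.f (a-1)`, `y = φ.f (b+1)`. If `φ.f a = ψ.f a`: induction hypothesis for `(a+1, b)`. If `a = b` and
`φ.f a ≠ ψ.f a`: `ψ = rho a φ` (`eq_rho`). In general use `P.conn` for `x < y` (`P.rk x + 2 ≤ P.rk y`) and the predicate
`Q v := ∀ ψ, Agree a b φ ψ → ψ.f a = v → Linked a b φ ψ`: `Q (φ.f a)` is the induction hypothesis, and for `v, w < E ≤ y`: `Q v → Q w` : given `ψ` with `ψ.f a = w`; if `v = w` nothing to do; otherwise
choose `χ`, `Agree a b φ χ`, `χ.f a = w`, `χ.f (a+1) = E` (`exists_through` twice; if `a = b` then `E = y` and no second step is needed), then `rho a χ` has `(rho a χ).f a = v` (`P.diam`), so it is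
linked to `φ`, then `χ`, and `χ` is linked to `ψ` by the induction hypothesis for `(a+1, b)`. -/

namespace H63.KO

variable {L : Type} [PartialOrder L] {P : PolyLat L}

/-- `φ` and `ψ` agree outside the ranks `a, ..., b` -/
def Agree (a b : ℕ) (φ ψ : P.Fl) : Prop := ∀ j, (j < a ∨ b < j) → φ.f j = ψ.f j

/-- `ψ` is obtained from `φ` by a word in `rho a, ..., rho b` -/
def Linked (a b : ℕ) (φ ψ : P.Fl) : Prop :=
  Relation.ReflTransGen (fun p q : P.Fl => ∃ i, a ≤ i ∧ i ≤ b ∧ q = rho i p) φ ψ

/-- the next element of a chain going up to `y` -/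
private noncomputable def fcNxt (P : PolyLat L) (y x : L) : L := by
  classical
  exact if h : x < y then (P.step x y h).choose else x

private theorem fcNxt_spec (P : PolyLat L) {x y : L} (h : x ≤ y) :
    x ≤ fcNxt P y x ∧ fcNxt P y x ≤ y ∧ P.rk (fcNxt P y x) = min (P.rk x + 1) (P.rk y) := by
  unfold fcNxt
  split_ifs with hlt
  · obtain ⟨h1, h2, h3⟩ := (P.step x y hlt).choose_spec
    refine ⟨h1.le, h2, ?_⟩
    rw [h3]
    have := P.rk_lt x y hlt
    omega
  · have hxy : x = y := by
      rcases h.eq_or_lt with h | h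
      · exact h
      · exact absurd h hlt
    subst hxy
    refine ⟨le_rfl, le_rfl, ?_⟩
    omega

private theorem fcIter (P : PolyLat L) {x y : L} (h : x ≤ y) (n : ℕ) :
    (fcNxt P y)^[n] x ≤ y ∧ P.rk ((fcNxt P y)^[n] x) = min (P.rk x + n) (P.rk y) ∧
      (fcNxt P y)^[n] x ≤ (fcNxt P y)^[n + 1] x := by
  have key : ∀ n : ℕ, (fcNxt P y)^[n] x ≤ y ∧
      P.rk ((fcNxt P y)^[n] x) = min (P.rk x + n) (P.rk y) := by
    intro n
    induction n with
    | zero =>
      refine ⟨h, ?_⟩
      have := PolyLat.rk_le (P := P) h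
      simp only [Function.iterate_zero, id_eq]
      omega
    | succ n ih =>
      rw [Function.iterate_succ_apply']
      obtain ⟨h1, h2, h3⟩ := fcNxt_spec P ih.1
      refine ⟨h2, ?_⟩
      rw [h3, ih.2]
      omega
  refine ⟨(key n).1, (key n).2, ?_⟩
  rw [Function.iterate_succ_apply']
  exact (fcNxt_spec P (key n).1).1

/-- a flag which agrees with `φ` outside `[a, b]` and goes through `v` at rank `a` -/
theorem exists_through (φ : P.Fl) {a b : ℕ} (ha : 1 ≤ a) (hab : a ≤ b) (hb : b ≤ P.d) {v : L}
    (hv : φ.f (a - 1) < v) (hv' : v < φ.f (b + 1)) (hr : P.rk v = a) :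
    ∃ ψ : P.Fl, Agree a b φ ψ ∧ ψ.f a = v := by
  classical
  have hy : P.rk (φ.f (b + 1)) = b + 1 := φ.rk (by omega)
  refine ⟨⟨fun j => if j < a then φ.f j else if j ≤ b then
    (fcNxt P (φ.f (b + 1)))^[j - a] v else φ.f j, ?_, ?_⟩, ?_, ?_⟩
  · apply monotone_nat_of_le_succ
    intro j
    show (if j < a then φ.f j else if j ≤ b then
      (fcNxt P (φ.f (b + 1)))^[j - a] v else φ.f j) ≤ (if j + 1 < a then φ.f (j + 1) else
      if j + 1 ≤ b then (fcNxt P (φ.f (b + 1)))^[j + 1 - a] v else φ.f (j + 1))
    by_cases h1 : j + 1 < a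
    · rw [if_pos (show j < a by omega), if_pos h1]
      exact φ.mono (by omega)
    · by_cases h2 : j < a
      · have h3 : j = a - 1 := by omega
        rw [if_pos h2, if_neg h1, if_pos (show j + 1 ≤ b by omega)]
        have h4 : j + 1 - a = 0 := by omega
        rw [h4, h3]
        exact hv.le
      · rw [if_neg h2, if_neg h1]
        by_cases h3 : j + 1 ≤ b
        · rw [if_pos (show j ≤ b by omega), if_pos h3]
          have h4 : j + 1 - a = (j - a) + 1 := by omega
          rw [h4]
          exact (fcIter P hv'.le (j - a)).2.2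
        · rw [if_neg h3]
          by_cases h4 : j ≤ b
          · rw [if_pos h4]
            have h5 : j = b := by omega
            subst h5
            exact (fcIter P hv'.le (j - a)).1
          · rw [if_neg h4]
            exact φ.mono (by omega)
  · intro j
    show P.rk (if j < a then φ.f j else if j ≤ b then
      (fcNxt P (φ.f (b + 1)))^[j - a] v else φ.f j) = _
    split_ifs with h1 h2
    · exact φ.hrk j
    · rw [(fcIter P hv'.le (j - a)).2.1, hy, hr]
      omega
    · exact φ.hrk j
  · intro j hj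
    show φ.f j = (if j < a then φ.f j else if j ≤ b then
      (fcNxt P (φ.f (b + 1)))^[j - a] v else φ.f j)
    rcases hj with hj | hj
    · rw [if_pos hj]
    · rw [if_neg (show ¬ j < a by omega), if_neg (show ¬ j ≤ b by omega)]
  · show (if a < a then φ.f a else if a ≤ b then
      (fcNxt P (φ.f (b + 1)))^[a - a] v else φ.f a) = v
    rw [if_neg (lt_irrefl a), if_pos hab, Nat.sub_self]
    rfl

/-- for every element there is a flag through it -/
theorem exists_flag (v : L) : ∃ ψ : P.Fl, ψ.f (P.rk v) = v := by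
  classical
  have hvt : P.rk v ≤ P.d + 1 := by
    have := PolyLat.rk_le (P := P) (P.le_top v)
    rwa [P.rk_top] at this
  have hlast : (fcNxt P v)^[P.rk v] P.bot = v := by
    obtain ⟨h1, h2, -⟩ := fcIter P (P.bot_le v) (P.rk v)
    refine PolyLat.eq_of_le (P := P) h1 ?_
    rw [h2, P.rk_bot]
    omega
  refine ⟨⟨fun j => if j ≤ P.rk v then (fcNxt P v)^[j] P.bot else
    (fcNxt P P.top)^[j - P.rk v] v, ?_, ?_⟩, ?_⟩
  · apply monotone_nat_of_le_succ
    intro j
    show (if j ≤ P.rk v then (fcNxt P v)^[j] P.bot else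
      (fcNxt P P.top)^[j - P.rk v] v) ≤ (if j + 1 ≤ P.rk v then (fcNxt P v)^[j + 1] P.bot else
      (fcNxt P P.top)^[j + 1 - P.rk v] v)
    by_cases h1 : j + 1 ≤ P.rk v
    · rw [if_pos (show j ≤ P.rk v by omega), if_pos h1]
      exact (fcIter P (P.bot_le v) j).2.2
    · rw [if_neg h1]
      by_cases h2 : j ≤ P.rk v
      · have h3 : j = P.rk v := by omega
        rw [if_pos h2]
        have h4 : j + 1 - P.rk v = 0 + 1 := by omega
        rw [h4]
        refine le_trans (fcIter P (P.bot_le v) j).1 ?_
        exact (fcIter P (P.le_top v) 0).2.2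
      · rw [if_neg h2]
        have h4 : j + 1 - P.rk v = (j - P.rk v) + 1 := by omega
        rw [h4]
        exact (fcIter P (P.le_top v) (j - P.rk v)).2.2
  · intro j
    show P.rk (if j ≤ P.rk v then (fcNxt P v)^[j] P.bot else
      (fcNxt P P.top)^[j - P.rk v] v) = _
    split_ifs with h1
    · rw [(fcIter P (P.bot_le v) j).2.1, P.rk_bot]
      omega
    · rw [(fcIter P (P.le_top v) (j - P.rk v)).2.1, P.rk_top]
      omega
  · show (if P.rk v ≤ P.rk v then (fcNxt P v)^[P.rk v] P.bot else
      (fcNxt P P.top)^[P.rk v - P.rk v] v) = v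
    rw [if_pos le_rfl]
    exact hlast

private theorem fcLinked_mono {a a' b b' : ℕ} (h1 : a' ≤ a) (h2 : b ≤ b') {φ ψ : P.Fl}
    (h : Linked a b φ ψ) : Linked a' b' φ ψ := by
  unfold Linked at h ⊢
  refine Relation.ReflTransGen.mono ?_ _ _ h
  rintro p q ⟨i, hi1, hi2, hi3⟩
  exact ⟨i, by omega, by omega, hi3⟩

/-- (B2) residues are connected -/
theorem conn_res {a b : ℕ} (ha : 1 ≤ a) (hb : b ≤ P.d) {φ ψ : P.Fl} (h : Agree a b φ ψ) :
    Linked a b φ ψ := by
  obtain ⟨n, hn⟩ : ∃ n, n = b + 1 - a := ⟨_, rfl⟩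
  induction n generalizing a φ ψ with
  | zero =>
    have : φ = ψ := by
      apply PolyLat.Fl.ext'
      intro j
      exact h j (by omega)
    subst this
    exact Relation.ReflTransGen.refl
  | succ n ih =>
    have hab : a ≤ b := by omega
    have ih' : ∀ {φ ψ : P.Fl}, Agree (a + 1) b φ ψ → Linked a b φ ψ := by
      intro φ ψ h
      exact fcLinked_mono (by omega) le_rfl (ih (a := a + 1) (by omega) h (by omega))
    have hxr : P.rk (φ.f (a - 1)) = a - 1 := φ.rk (by omega)
    have hyr : P.rk (φ.f (b + 1)) = b + 1 := φ.rk (by omega)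
    have hxy : φ.f (a - 1) < φ.f (b + 1) := φ.lt (by omega) (by omega)
    have hcon := P.conn (φ.f (a - 1)) (φ.f (b + 1)) hxy (by omega)
      (fun v => ∀ ψ : P.Fl, Agree a b φ ψ → ψ.f a = v → Linked a b φ ψ) ?_
      (φ.f a) (ψ.f a) (φ.lt (by omega) (by omega)) (φ.mono (by omega))
      (by rw [φ.rk (by omega)]; omega)
      (by rw [h (a - 1) (by omega)]; exact ψ.lt (by omega) (by omega))
      (by rw [h (b + 1) (by omega)]; exact ψ.mono (by omega))
      (by rw [ψ.rk (by omega)]; omega) ?_
    · exact hcon ψ h rfl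
    · intro E v w hE hEr hv hvE hw hwE hQ ψ hψ hψw
      by_cases hvw : v = w
      · exact hQ ψ hψ (by rw [hψw, hvw])
      -- the flag `χ`
      obtain ⟨χ, hχ1, hχ2⟩ : ∃ χ : P.Fl, Agree (a + 1) b ψ χ ∧ χ.f (a + 1) = E := by
        by_cases hab' : a = b
        · refine ⟨ψ, fun j _ => rfl, ?_⟩
          rw [← hψ (a + 1) (by omega), hab']
          rw [hab'] at hEr hxr
          refine (PolyLat.eq_of_le (P := P) hE ?_).symm
          rw [hEr, hyr]
          omega
        · have hEy : E < ψ.f (b + 1) := by
            rw [← hψ (b + 1) (by omega)]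
            refine lt_of_le_of_ne hE ?_
            intro hh
            rw [hh] at hEr
            omega
          refine exists_through ψ (a := a + 1) (b := b) (by omega) (by omega) hb ?_ hEy (by omega)
          rw [show a + 1 - 1 = a by omega, hψw]
          exact hwE
      have hχa : χ.f a = w := by rw [← hχ1 a (by omega), hψw]
      have hχx : χ.f (a - 1) = φ.f (a - 1) := by
        rw [← hχ1 (a - 1) (by omega), ← hψ (a - 1) (by omega)]
      obtain ⟨z', -, -, -, hz'⟩ := P.diam (φ.f (a - 1)) E w hw hwE (by omega)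
      have hvz : v = z' := (hz' v hv hvE).resolve_left hvw
      have hρ : (rho a χ).f a = v := by
        rw [hvz]
        refine (hz' _ ?_ ?_).resolve_left ?_
        · rw [← hχx, ← rho_ne (show a - 1 ≠ a by omega) χ]
          exact (rho a χ).lt (by omega) (by omega)
        · rw [← hχ2, ← rho_ne (show a + 1 ≠ a by omega) χ]
          exact (rho a χ).lt (by omega) (by omega)
        · rw [← hχa]
          exact rho_self ha (by omega) χ
      have hag : Agree a b φ (rho a χ) := by
        intro j hj
        rw [rho_ne (show j ≠ a by omega), ← hχ1 j (by omega), ← hψ j hj]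
      have h1 : Linked a b φ (rho a χ) := hQ _ hag hρ
      have h2 : Linked a b φ χ := by
        refine Relation.ReflTransGen.tail h1 ?_
        exact ⟨a, le_rfl, hab, (rho_inv a χ).symm⟩
      have h3 : Linked a b χ ψ := ih' (fun j hj => (hχ1 j hj).symm)
      exact Relation.ReflTransGen.trans h2 h3
    · intro ψ hψ hψa
      apply ih'
      intro j hj
      by_cases hja : j = a
      · rw [hja, hψa]
      · exact hψ j (by omega)

/-- flags through the same element of rank `i` are connected by the `rho j`, `j ≠ i` -/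
theorem conn_through {i : ℕ} (hi : i ≤ P.d + 1) {φ ψ : P.Fl} (h : φ.f i = ψ.f i) :
    Relation.ReflTransGen (fun p q : P.Fl => ∃ j, j ≠ i ∧ q = rho j p) φ ψ := by
  classical
  obtain ⟨χ, hχ⟩ : ∃ χ : P.Fl, ∀ j, χ.f j = if j ≤ i then ψ.f j else φ.f j := by
    refine ⟨⟨fun j => if j ≤ i then ψ.f j else φ.f j, ?_, ?_⟩, fun j => rfl⟩
    · apply monotone_nat_of_le_succ
      intro j
      show (if j ≤ i then ψ.f j else φ.f j) ≤ (if j + 1 ≤ i then ψ.f (j + 1) else φ.f (j + 1))
      by_cases h1 : j + 1 ≤ i
      · rw [if_pos h1, if_pos (show j ≤ i by omega)]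
        exact ψ.mono (by omega)
      · rw [if_neg h1]
        by_cases h2 : j ≤ i
        · have h3 : j = i := by omega
          rw [if_pos h2, h3, ← h]
          exact φ.mono (by omega)
        · rw [if_neg h2]
          exact φ.mono (by omega)
    · intro j
      show P.rk (if j ≤ i then ψ.f j else φ.f j) = _
      split_ifs
      · exact ψ.hrk j
      · exact φ.hrk j
  have h1 : Linked 1 (i - 1) φ χ := by
    apply conn_res le_rfl (by omega)
    intro j hj
    rw [hχ j]
    rcases hj with hj | hj
    · have : j = 0 := by omega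
      subst this
      rw [if_pos (Nat.zero_le i), φ.zero, ψ.zero]
    · by_cases hji : j ≤ i
      · have : j = i := by omega
        rw [if_pos hji, this, h]
      · rw [if_neg hji]
  have h2 : Linked (i + 1) P.d χ ψ := by
    apply conn_res (by omega) le_rfl
    intro j hj
    rw [hχ j]
    rcases hj with hj | hj
    · rw [if_pos (by omega)]
    · by_cases hji : j ≤ i
      · rw [if_pos hji]
      · rw [if_neg hji, φ.top (by omega), ψ.top (by omega)]
  refine Relation.ReflTransGen.trans (Relation.ReflTransGen.mono ?_ _ _ h1)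
    (Relation.ReflTransGen.mono ?_ _ _ h2)
  · rintro p q ⟨j, hj1, hj2, hj3⟩
    exact ⟨j, by omega, hj3⟩
  · rintro p q ⟨j, hj1, hj2, hj3⟩
    exact ⟨j, by omega, hj3⟩

end H63.KO
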