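import Mathlib

/-! # KO.Tree : few colours connect `V` (paper C4)

`tree`: among the pairs `(W, J)` (`W : Finset V` with `v0 ∈ W`, `J.card + 1 ≤ W.card`, every `w ∈ W` reachable from `v0` by `s j`, `j ∈ J ⊆ [1, d]`) take one with `W.card` maximal. If `W` is not everything, `hconn` gives
`w ∈ W`, `i` with `s i w ∉ W` (walk from `v0` to a point outside `W`), and `(insert (s i w) W, insert i J)` is larger. So `W = univ`. Reachability is symmetric (`s i` involutions), so all pairs are connected. -/

namespace H63.KO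

private lemma tree_exit {V : Type} (W : Finset V) (R : V → V → Prop) {v w : V} (hv : v ∈ W)
    (hw : w ∉ W) (h : Relation.ReflTransGen R v w) : ∃ a ∈ W, ∃ b, b ∉ W ∧ R a b := by
  induction h with
  | refl => exact absurd hv hw
  | tail _ hbc ih =>
    rename_i b c _
    by_cases hb : b ∈ W
    · exact ⟨b, hb, c, hw, hbc⟩
    · exact ih hb

private lemma tree_aux {V : Type} [Finite V] (d : ℕ) (s : ℕ → V → V)
    (hconn : ∀ v w, Relation.ReflTransGen (fun p q => ∃ i, 1 ≤ i ∧ i ≤ d ∧ q = s i p) v w)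
    (v0 : V) (n : ℕ) : n + 1 ≤ Nat.card V →
    ∃ (W : Finset V) (J : Finset ℕ), W.card = n + 1 ∧ J.card ≤ n ∧ v0 ∈ W ∧
      (∀ j ∈ J, 1 ≤ j ∧ j ≤ d) ∧
      ∀ w ∈ W, Relation.ReflTransGen (fun p q => ∃ i ∈ J, q = s i p) v0 w := by
  classical
  have hfin := Fintype.ofFinite V
  induction n with
  | zero =>
    intro _
    refine ⟨{v0}, ∅, by simp, by simp, by simp, by simp, ?_⟩
    intro w hw
    rw [Finset.mem_singleton.mp hw]
  | succ n ih =>
    intro hn
    obtain ⟨W, J, hW, hJ, h0, hJd, hr⟩ := ih (by omega)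
    have hne : ∃ v, v ∉ W := by
      by_contra hcon
      push Not at hcon
      have h1 : W = Finset.univ := Finset.eq_univ_iff_forall.mpr hcon
      rw [h1, Finset.card_univ, ← Nat.card_eq_fintype_card] at hW
      omega
    obtain ⟨v, hv⟩ := hne
    obtain ⟨a, ha, b, hb, i, hi1, hi2, rfl⟩ := tree_exit W _ h0 hv (hconn v0 v)
    refine ⟨insert (s i a) W, insert i J, ?_, ?_, Finset.mem_insert_of_mem h0, ?_, ?_⟩
    · rw [Finset.card_insert_of_notMem hb, hW]
    · exact (Finset.card_insert_le _ _).trans (by omega)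
    · intro j hj
      rcases Finset.mem_insert.mp hj with rfl | hj
      · exact ⟨hi1, hi2⟩
      · exact hJd j hj
    · have hmono : ∀ w, Relation.ReflTransGen (fun p q => ∃ i ∈ J, q = s i p) v0 w →
          Relation.ReflTransGen (fun p q => ∃ j ∈ insert i J, q = s j p) v0 w := by
        intro w hw
        induction hw with
        | refl => exact Relation.ReflTransGen.refl
        | tail _ hbc ih2 =>
          obtain ⟨j, hj, e⟩ := hbc
          exact ih2.tail ⟨j, Finset.mem_insert_of_mem hj, e⟩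
      intro w hw
      rcases Finset.mem_insert.mp hw with rfl | hw
      · exact (hmono a (hr a ha)).tail ⟨i, Finset.mem_insert_self _ _, rfl⟩
      · exact hmono w (hr w hw)

theorem tree {V : Type} [Finite V] [Nonempty V] (d : ℕ) (s : ℕ → V → V)
    (hinv : ∀ i v, s i (s i v) = v)
    (hconn : ∀ v w, Relation.ReflTransGen (fun p q => ∃ i, 1 ≤ i ∧ i ≤ d ∧ q = s i p) v w) :
    ∃ J : Finset ℕ, J.card + 1 ≤ Nat.card V ∧ (∀ j ∈ J, 1 ≤ j ∧ j ≤ d) ∧
      ∀ v w, Relation.ReflTransGen (fun p q => ∃ i ∈ J, q = s i p) v w := by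
  classical
  have hfin := Fintype.ofFinite V
  obtain ⟨v0⟩ := (inferInstance : Nonempty V)
  have hpos : 0 < Nat.card V := Nat.card_pos
  obtain ⟨W, J, hW, hJ, h0, hJd, hr⟩ := tree_aux d s hconn v0 (Nat.card V - 1) (by omega)
  have hWu : W = Finset.univ := by
    apply Finset.eq_univ_of_card
    rw [← Nat.card_eq_fintype_card]
    omega
  refine ⟨J, by omega, hJd, ?_⟩
  have hall : ∀ w, Relation.ReflTransGen (fun p q => ∃ i ∈ J, q = s i p) v0 w := by
    intro w
    exact hr w (by rw [hWu]; exact Finset.mem_univ w)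
  have hsymm : ∀ v w, Relation.ReflTransGen (fun p q => ∃ i ∈ J, q = s i p) v w →
      Relation.ReflTransGen (fun p q => ∃ i ∈ J, q = s i p) w v := by
    intro v w h
    induction h with
    | refl => exact Relation.ReflTransGen.refl
    | tail _ hbc ih =>
      obtain ⟨i, hi, rfl⟩ := hbc
      exact Relation.ReflTransGen.head ⟨i, hi, (hinv i _).symm⟩ ih
  intro v w
  exact (hsymm _ _ (hall v)).trans (hall w)

end H63.KO
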