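import Pool.Agent.H63.KO.FlagAct

/-! # KO.AutoPerm : permutations of the flags commuting with all `rho i` (paper B4)

`auto_of_perm`: `g x := (θ φ).f (rk x)` for any flag `φ` through `x` (`exists_flag`), independent of `φ` by `conn_through` (`θ` commutes with `rho j`, and `rho j` does not change the rank `rk x` element for `j ≠ rk x`).
If `x ≤ y` there is one flag through both, so `g x ≤ g y`; the same for `θ.symm`, and the two maps are inverse to each other. -/

namespace H63.KO

variable {L : Type} [PartialOrder L] {P : PolyLat L}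

private theorem autoPerm_up : ∀ (n : ℕ) (φ : P.Fl) (i : ℕ) (y : L), i ≤ P.d + 1 → φ.f i ≤ y →
    P.rk y = i + n → ∃ ψ : P.Fl, (∀ j, j ≤ i → ψ.f j = φ.f j) ∧ ψ.f (P.rk y) = y := by
  intro n
  induction n with
  | zero =>
    intro φ i y hi hy hr
    refine ⟨φ, fun j _ => rfl, ?_⟩
    rw [hr, Nat.add_zero]
    refine PolyLat.eq_of_le (P := P) hy ?_
    rw [φ.rk hi, hr, Nat.add_zero]
  | succ n ih =>
    intro φ i y hi hy hr
    have hne : φ.f i ≠ y := by
      intro h
      have := φ.rk hi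
      rw [h, hr] at this
      omega
    have hlt : φ.f i < y := lt_of_le_of_ne hy hne
    obtain ⟨z, hz1, hz2, hz3⟩ := P.step _ _ hlt
    rw [φ.rk hi] at hz3
    have hzd : P.rk z ≤ P.d + 1 := by
      rw [← P.rk_top]
      exact PolyLat.rk_le (P.le_top z)
    by_cases hd : i + 1 = P.d + 1
    · have hzt : z = P.top := by
        refine PolyLat.eq_of_le (P := P) (P.le_top z) ?_
        rw [P.rk_top, hz3, hd]
      have hyt : y = P.top := le_antisymm (P.le_top y) (hzt ▸ hz2)
      refine ⟨φ, fun j _ => rfl, ?_⟩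
      rw [hyt, P.rk_top]
      exact φ.top le_rfl
    · have hid : i + 1 ≤ P.d := by omega
      have h1 : φ.f (i + 1 - 1) < z := by
        rw [Nat.add_sub_cancel]
        exact hz1
      have h2 : z < φ.f (P.d + 1) := by
        rw [φ.top le_rfl]
        refine lt_of_le_of_ne (P.le_top z) ?_
        intro h
        rw [h, P.rk_top] at hz3
        omega
      obtain ⟨ψ, hψ, hψa⟩ := exists_through φ (by omega) hid le_rfl h1 h2 hz3
      obtain ⟨χ, hχ1, hχ2⟩ := ih ψ (i + 1) y (by omega) (by rw [hψa]; exact hz2) (by omega)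
      refine ⟨χ, fun j hj => ?_, hχ2⟩
      rw [hχ1 j (by omega), ← hψ j (Or.inl (by omega))]

private theorem autoPerm_map (θ : P.Fl → P.Fl) (hθ : ∀ i φ, θ (rho i φ) = rho i (θ φ)) :
    ∃ g : L → L, Monotone g ∧ ∀ (φ : P.Fl) (i : ℕ), i ≤ P.d + 1 → (θ φ).f i = g (φ.f i) := by
  choose fl hfl using fun v : L => exists_flag (P := P) v
  have hrk : ∀ x : L, P.rk x ≤ P.d + 1 := by
    intro x
    rw [← P.rk_top]
    exact PolyLat.rk_le (P.le_top x)
  have key : ∀ (i : ℕ), i ≤ P.d + 1 → ∀ φ ψ : P.Fl, φ.f i = ψ.f i → (θ φ).f i = (θ ψ).f i := by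
    intro i hi φ ψ h
    have h1 := conn_through hi h
    clear h
    induction h1 with
    | refl => rfl
    | tail _ hq ih =>
      obtain ⟨j, hj, rfl⟩ := hq
      rw [ih, hθ, rho_ne (Ne.symm hj)]
  have hg : ∀ (φ : P.Fl) (i : ℕ), i ≤ P.d + 1 →
      (θ φ).f i = (θ (fl (φ.f i))).f (P.rk (φ.f i)) := by
    intro φ i hi
    have h1 : P.rk (φ.f i) = i := φ.rk hi
    have h2 := hfl (φ.f i)
    rw [h1] at h2 ⊢
    exact key i hi _ _ h2.symm
  refine ⟨fun x => (θ (fl x)).f (P.rk x), ?_, hg⟩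
  intro x y hxy
  have hle : P.rk x ≤ P.rk y := PolyLat.rk_le hxy
  obtain ⟨ψ, hψ1, hψ2⟩ := autoPerm_up (P.rk y - P.rk x) (fl x) (P.rk x) y (hrk x)
    (by rw [hfl x]; exact hxy) (by omega)
  have hψx : ψ.f (P.rk x) = x := by rw [hψ1 _ le_rfl, hfl x]
  have e1 : (θ (fl x)).f (P.rk x) = (θ ψ).f (P.rk x) :=
    key _ (hrk x) _ _ (by rw [hfl x, hψx])
  have e2 : (θ (fl y)).f (P.rk y) = (θ ψ).f (P.rk y) :=
    key _ (hrk y) _ _ (by rw [hfl y, hψ2])
  show (θ (fl x)).f (P.rk x) ≤ (θ (fl y)).f (P.rk y)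
  rw [e1, e2]
  exact (θ ψ).mono hle

/-- a permutation of the flags commuting with all `rho i` is induced by an automorphism -/
theorem auto_of_perm (θ : P.Fl ≃ P.Fl) (hθ : ∀ i φ, θ (rho i φ) = rho i (θ φ)) :
    ∃ g : L ≃o L, ∀ φ, θ φ = φ.act g := by
  have hθ' : ∀ i φ, θ.symm (rho i φ) = rho i (θ.symm φ) := by
    intro i φ
    rw [Equiv.symm_apply_eq, hθ, Equiv.apply_symm_apply]
  obtain ⟨g, hgm, hg⟩ := autoPerm_map (fun φ => θ φ) hθ
  obtain ⟨g', hgm', hg'⟩ := autoPerm_map (fun φ => θ.symm φ) hθ'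
  have hrk : ∀ x : L, P.rk x ≤ P.d + 1 := by
    intro x
    rw [← P.rk_top]
    exact PolyLat.rk_le (P.le_top x)
  have h1 : ∀ x, g' (g x) = x := by
    intro x
    obtain ⟨φ, hφ⟩ := exists_flag (P := P) x
    have e1 : g x = (θ φ).f (P.rk x) := by
      have := hg φ (P.rk x) (hrk x)
      rw [hφ] at this
      exact this.symm
    have e2 := hg' (θ φ) (P.rk x) (hrk x)
    simp only [Equiv.symm_apply_apply] at e2
    rw [e1, ← e2, hφ]
  have h2 : ∀ x, g (g' x) = x := by
    intro x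
    obtain ⟨φ, hφ⟩ := exists_flag (P := P) x
    have e1 : g' x = (θ.symm φ).f (P.rk x) := by
      have := hg' φ (P.rk x) (hrk x)
      rw [hφ] at this
      exact this.symm
    have e2 := hg (θ.symm φ) (P.rk x) (hrk x)
    simp only [Equiv.apply_symm_apply] at e2
    rw [e1, ← e2, hφ]
  let e : L ≃o L :=
    { toFun := g
      invFun := g'
      left_inv := h1
      right_inv := h2
      map_rel_iff' := by
        intro a b
        constructor
        · intro h
          have := hgm' h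
          simpa only [Equiv.coe_fn_mk, h1] using this
        · intro h
          exact hgm h }
  refine ⟨e, fun φ => PolyLat.Fl.ext' fun i => ?_⟩
  show (θ φ).f i = g (φ.f i)
  by_cases hi : i ≤ P.d + 1
  · exact hg φ i hi
  · have hi' : P.d + 1 ≤ i := by omega
    have e3 := hg φ (P.d + 1) le_rfl
    rw [(θ φ).top le_rfl, φ.top le_rfl] at e3
    rw [(θ φ).top hi', φ.top hi']
    exact e3

end H63.KO
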