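import Pool.Agent.H63.KO.Block

/-! # KO.Rev : reversal of the colours (paper C6)

`FSys.rev`: `ρ' i = ρ (d + 1 - i)` for `1 ≤ i ≤ d`, the identity otherwise. The condition `univ` for `[a, b]` follows from `univ` for `[d+1-b, d+1-a]` with the labels `g' i = g (d + 1 - i)` (the commutation hypothesis is symmetric in the two colours, the local potentials
are exchanged); `p3` in the other order follows from `p3` (`ρ_{j+1} ρ_j ρ_{j+1} ρ_j x = x` iff `ρ_j ρ_{j+1} ρ_j ρ_{j+1} x = x`). `per' i = per (d - i)` by `per_symm`. `Quo.rev` is the same quotient, `s' i = s (d + 1 - i)`.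
A block `(a, b)` becomes the block `(d + 1 - b, d + 1 - a)`. -/

namespace H63.KO

variable {X : Type} [Finite X]

/-- the reversed operations -/
private theorem rev_per_aux (S : FSys X) (i : ℕ) (hi : i ≤ S.d) (x : X) :
    Function.minimalPeriod (fun z => S.ρ (S.d + 1 - i) (S.ρ (S.d + 1 - (i + 1)) z)) x =
      S.per (S.d - i) x := by
  have h1 : S.d + 1 - i = (S.d - i) + 1 := by omega
  have h2 : S.d + 1 - (i + 1) = S.d - i := by omega
  rw [h1, h2]
  exact S.per_symm (S.d - i) x

/-- the reversed flag system -/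
private def revSys (S : FSys X) : FSys X where
  d := S.d
  ρ := fun i x => S.ρ (S.d + 1 - i) x
  inv := fun i x => S.inv _ x
  out := fun i h x => S.out _ (by omega) x
  fpf := fun i h1 h2 x => S.fpf _ (by omega) (by omega) x
  comm := by
    intro i j hij x
    by_cases hj : j ≤ S.d + 1
    · exact (S.comm (S.d + 1 - j) (S.d + 1 - i) (by omega) x).symm
    · have h0 : S.d + 1 - j = 0 := by omega
      show S.ρ (S.d + 1 - i) (S.ρ (S.d + 1 - j) x) = S.ρ (S.d + 1 - j) (S.ρ (S.d + 1 - i) x)
      rw [h0, S.out 0 (by omega), S.out 0 (by omega)]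
  p3 := by
    intro i h1 h2 x h
    have e1 : S.d + 1 - i = (S.d - i) + 1 := by omega
    have e2 : S.d + 1 - (i + 1) = S.d - i := by omega
    change S.ρ (S.d + 1 - i) (S.ρ (S.d + 1 - (i + 1)) (S.ρ (S.d + 1 - i)
      (S.ρ (S.d + 1 - (i + 1)) x))) = x at h
    rw [e1, e2] at h
    apply S.p3 (S.d - i) (by omega) (by omega) x
    conv_lhs => rw [← h]
    rw [S.inv, S.inv, S.inv, S.inv]
  conn := by
    intro x y
    have key : ∀ p q : X, (∃ i, 1 ≤ i ∧ i ≤ S.d ∧ q = S.ρ i p) →
        (∃ i, 1 ≤ i ∧ i ≤ S.d ∧ q = S.ρ (S.d + 1 - i) p) := by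
      rintro p q ⟨i, h1, h2, h3⟩
      refine ⟨S.d + 1 - i, by omega, by omega, ?_⟩
      have : S.d + 1 - (S.d + 1 - i) = i := by omega
      rw [this]; exact h3
    have h := S.conn x y
    induction h with
    | refl => exact Relation.ReflTransGen.refl
    | tail _ h2 ih => exact ih.tail (key _ _ h2)
  univ := by
    intro G _ a b R g ha hab hb hR hcomm hloc
    have back : ∀ i, i ≤ S.d + 1 → S.d + 1 - (S.d + 1 - i) = i := fun i hi => by omega
    obtain ⟨F, hF⟩ := S.univ G (S.d + 1 - b) (S.d + 1 - a) R (fun i x => g (S.d + 1 - i) x)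
      (by omega) (by omega) (by omega)
      (by
        intro i h1 h2 x hx
        have := hR (S.d + 1 - i) (by omega) (by omega) x hx
        rwa [back i (by omega)] at this)
      (by
        intro i j h1 h2 h3 x hx
        have := hcomm (S.d + 1 - j) (S.d + 1 - i) (by omega) (by omega) (by omega) x hx
        rw [back i (by omega), back j (by omega)] at this
        exact this.symm)
      (by
        intro i h1 h2
        obtain ⟨u, hu⟩ := hloc (S.d - i) (by omega) (by omega)
        refine ⟨u, fun x hx => ?_⟩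
        obtain ⟨h3, h4⟩ := hu x hx
        have e1 : S.d + 1 - (S.d - i) = i + 1 := by omega
        have e2 : S.d + 1 - (S.d - i + 1) = i := by omega
        have e3 : S.d + 1 - (i + 1) = S.d - i := by omega
        have e4 : S.d + 1 - i = S.d - i + 1 := by omega
        rw [e1] at h3
        rw [e2] at h4
        refine ⟨?_, ?_⟩
        · show u (S.ρ i x) = u x * g (S.d + 1 - i) x
          rw [e4]; exact h4
        · show u (S.ρ (i + 1) x) = u x * g (S.d + 1 - (i + 1)) x
          rw [e3]; exact h3)
    refine ⟨F, fun i h1 h2 x hx => ?_⟩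
    have := hF (S.d + 1 - i) (by omega) (by omega) x hx
    rw [back i (by omega)] at this
    exact this

theorem exists_rev (S : FSys X) {V : Type} (q : S.Quo V) {a b : ℕ} (hB : IsBlock q a b) :
    ∃ (S' : FSys X) (q' : S'.Quo V) (a' b' : ℕ), IsBlock q' a' b' ∧ a' = S.d + 1 - b ∧
      S'.d = S.d ∧ ∀ i, 1 ≤ i → i + 1 ≤ S.d → ∀ x, S'.per (S.d - i) x = S.per i x := by
  have hper : ∀ i, i ≤ S.d → ∀ x, (revSys S).per i x = S.per (S.d - i) x :=
    fun i hi x => rev_per_aux S i hi x
  have hpos := hB.pos
  have hlen := hB.len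
  have hle := hB.le
  let q' : (revSys S).Quo V :=
    { π := q.π
      s := fun i v => q.s (S.d + 1 - i) v
      surj := q.surj
      hs := fun i x => q.hs _ x
      hper := by
        intro i x y hxy
        by_cases hi : i ≤ S.d
        · rw [hper i hi x, hper i hi y]; exact q.hper _ x y hxy
        · have h1 : ∀ z, (revSys S).per i z = 1 := by
            intro z
            have e1 : S.d + 1 - i = 0 := by omega
            have e2 : S.d + 1 - (i + 1) = 0 := by omega
            show Function.minimalPeriod (fun z => S.ρ (S.d + 1 - i)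
              (S.ρ (S.d + 1 - (i + 1)) z)) z = 1
            rw [e1, e2]
            apply Function.minimalPeriod_eq_one_iff_isFixedPt.2
            show S.ρ 0 (S.ρ 0 z) = z
            exact S.inv 0 z
          rw [h1 x, h1 y] }
  refine ⟨revSys S, q', S.d + 1 - b, S.d + 1 - a, ?_, rfl, rfl, ?_⟩
  · refine ⟨by omega, by omega, ?_, ?_, ?_⟩
    · show S.d + 1 - a ≤ S.d
      omega
    · intro i h1 h2 v
      show q.s (S.d + 1 - i) v = q.s (S.d + 1 - (S.d + 1 - b)) v
      rw [hB.eq (S.d + 1 - i) (by omega) (by omega), hB.eq (S.d + 1 - (S.d + 1 - b)) (by omega)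
        (by omega)]
    · intro i h1 h2 x
      rw [hper i (by omega) x]
      exact hB.three _ (by omega) (by omega) x
  · intro i h1 h2 x
    rw [hper (S.d - i) (by omega) x]
    congr 1
    omega

end H63.KO
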