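import Pool.Agent.H63.KO.Right
import Pool.Agent.H63.KO.Rev

/-! # KO.Core : the core theorem (paper C6)

`core`: `exists_block`, `right_all` for `q` and for `q.rev`; every `i` has `a ≤ i` or `i < b`. -/

namespace H63.KO

variable {X : Type} [Finite X]

/-- the core theorem: all periods are constant -/
theorem core (S : FSys X) {V : Type} [Finite V] [Nonempty V] (q : S.Quo V) (k : ℕ)
    (hk : Nat.card V ≤ k) (hd : 11 * (k + Nat.log 2 k) ≤ S.d) :
    ∀ i, 1 ≤ i → i + 1 ≤ S.d → ∀ x y, S.per i x = S.per i y := by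
  obtain ⟨a, b, hB⟩ := exists_block q k hk hd
  intro i h1 h2 x y
  by_cases h : a ≤ i
  · exact right_all q hB i h h2 x y
  · obtain ⟨S', q', a', b', hB', ha', hd', hper⟩ := exists_rev S q hB
    have h4 := hB.len
    have h5 := hB.le
    rw [← hper i h1 h2 x, ← hper i h1 h2 y]
    exact right_all q' hB' (S.d - i) (by omega) (by omega) x y

end H63.KO
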