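import Pool.Agent.H63.KO.FlagAct

/-! # KO.FlagEquiv : functions against Mathlib flags (paper B4)

`toFlag`: the carrier is `Set.range φ.f`; it is a chain (monotone function from `ℕ`); maximal: if `z` is comparable with all `φ.f i`, then for `i = P.rk z ≤ d+1` the two comparable elements `z, φ.f i` have
the same rank, so are equal. Bijective: injective because the element of rank `i` of the chain is `φ.f i`. Surjective: let `C` be a maximal chain; it contains `bot`, `top` (comparable with everything).
For `i ≤ d+1` it contains an element of rank `i`: otherwise let `x` be the largest element of `C` with `rk x < i`, `y` the smallest with `rk y > i` (finite sets, chain; `L` is finite), `x < y`, no element of `C`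
strictly between; `P.step` gives `z`, `x < z ≤ y`, `rk z = rk x + 1 ≤ i < rk y`, so `z < y`; `z` is comparable with every element of `C`, so `z ∈ C`, contradiction. -/

namespace H63.KO

variable {L : Type} [PartialOrder L] {P : PolyLat L}

private theorem fl_cmp (φ : P.Fl) (i j : ℕ) : φ.f i ≤ φ.f j ∨ φ.f j ≤ φ.f i := by
  rcases le_total i j with h | h
  · exact Or.inl (φ.mono h)
  · exact Or.inr (φ.mono h)

/-- comparable elements of the same rank are equal -/
private theorem eq_of_cmp {x y : L} (h : x ≤ y ∨ y ≤ x) (h' : P.rk x = P.rk y) : x = y := by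
  rcases h with h | h
  · exact PolyLat.eq_of_le (P := P) h h'
  · exact (PolyLat.eq_of_le (P := P) h h'.symm).symm

private def toFlag (φ : P.Fl) : Flag L where
  carrier := Set.range φ.f
  Chain' := by
    rintro _ ⟨i, rfl⟩ _ ⟨j, rfl⟩ _
    exact fl_cmp φ i j
  max_chain' := by
    intro s hs hsub
    refine Set.Subset.antisymm hsub fun z hz => ?_
    have h1 : P.rk z ≤ P.d + 1 := by
      rw [← P.rk_top]
      exact PolyLat.rk_le (P.le_top z)
    have h2 : φ.f (P.rk z) ∈ s := hsub ⟨_, rfl⟩
    refine ⟨P.rk z, ?_⟩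
    exact eq_of_cmp (P := P) (hs.total h2 hz) (φ.rk h1)

private theorem mem_of_cmp (C : Flag L) (z : L) (h : ∀ c ∈ C, z ≤ c ∨ c ≤ z) : z ∈ C := by
  have h1 : IsChain (· ≤ ·) (insert z (C : Set L)) :=
    C.chain_le.insert fun b hb _ => h b hb
  have h2 := C.max_chain' h1 (Set.subset_insert _ _)
  have h3 : z ∈ C.carrier := by
    rw [h2]
    exact Set.mem_insert _ _
  exact h3

private theorem exists_rk [Finite L] (C : Flag L) (i : ℕ) (hi : i ≤ P.d + 1) :
    ∃ z ∈ C, P.rk z = i := by
  by_contra hcon
  push Not at hcon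
  have hbot : P.bot ∈ C := mem_of_cmp C _ fun c _ => Or.inl (P.bot_le c)
  have htop : P.top ∈ C := mem_of_cmp C _ fun c _ => Or.inr (P.le_top c)
  have h0 : P.rk P.bot < i := by
    have := hcon _ hbot
    rw [P.rk_bot] at this ⊢
    omega
  have h1 : i < P.rk P.top := by
    have := hcon _ htop
    rw [P.rk_top] at this ⊢
    omega
  obtain ⟨x, ⟨hxC, hxi⟩, hx⟩ := Set.exists_max_image {x | x ∈ C ∧ P.rk x < i} P.rk (Set.toFinite _)
    ⟨_, hbot, h0⟩
  obtain ⟨y, ⟨hyC, hyi⟩, hy⟩ := Set.exists_min_image {y | y ∈ C ∧ i < P.rk y} P.rk (Set.toFinite _)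
    ⟨_, htop, h1⟩
  have hxy : x < y := by
    rcases C.le_or_le hxC hyC with h | h
    · refine lt_of_le_of_ne h fun he => ?_
      rw [he] at hxi
      omega
    · have := PolyLat.rk_le (P := P) h
      omega
  obtain ⟨z, hxz, hzy, hz⟩ := P.step x y hxy
  have hzC : z ∈ C := by
    refine mem_of_cmp C z fun c hc => ?_
    rcases lt_or_gt_of_ne (hcon c hc) with h | h
    · right
      have h2 : P.rk c ≤ P.rk x := hx c ⟨hc, h⟩
      rcases C.le_or_le hc hxC with h3 | h3
      · exact h3.trans hxz.le
      · have h4 := PolyLat.eq_of_le (P := P) h3 (le_antisymm (PolyLat.rk_le h3) h2)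
        rw [← h4]
        exact hxz.le
    · left
      have h2 : P.rk y ≤ P.rk c := hy c ⟨hc, h⟩
      rcases C.le_or_le hc hyC with h3 | h3
      · have h4 := PolyLat.eq_of_le (P := P) h3 (le_antisymm (PolyLat.rk_le h3) h2)
        rw [h4]
        exact hzy
      · exact hzy.trans h3
  have h2 := hcon z hzC
  have h3 : P.rk z < i := by omega
  have h4 : P.rk z ≤ P.rk x := hx z ⟨hzC, h3⟩
  omega

/-- flag functions are the same as Mathlib flags, compatibly with automorphisms -/
theorem flagEquiv [Finite L] (P : PolyLat L) :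
    ∃ e : P.Fl ≃ Flag L, ∀ (g : L ≃o L) (φ : P.Fl), e (φ.act g) = g • e φ := by
  have hinj : Function.Injective (toFlag (P := P)) := by
    intro φ ψ h
    have h1 : Set.range φ.f = Set.range ψ.f := congrArg Flag.carrier h
    refine PolyLat.Fl.ext' fun i => ?_
    have h2 : φ.f i ∈ Set.range ψ.f := by
      rw [← h1]
      exact ⟨i, rfl⟩
    obtain ⟨j, hj⟩ := h2
    rw [← hj]
    refine eq_of_cmp (P := P) (fl_cmp ψ j i) ?_
    rw [hj, φ.hrk, ψ.hrk]
  have hsurj : Function.Surjective (toFlag (P := P)) := by
    intro C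
    choose z hzC hz using fun i : ℕ => exists_rk (P := P) C (min i (P.d + 1)) (min_le_right _ _)
    refine ⟨⟨z, ?_, hz⟩, ?_⟩
    · intro i j hij
      rcases C.le_or_le (hzC i) (hzC j) with h | h
      · exact h
      · have h1 := PolyLat.rk_le (P := P) h
        rw [hz, hz] at h1
        have h2 : P.rk (z j) = P.rk (z i) := by
          rw [hz, hz]
          omega
        exact (PolyLat.eq_of_le (P := P) h h2).symm.le
    · have h1 : Set.range z ⊆ (C : Set L) := by
        rintro _ ⟨i, rfl⟩
        exact hzC i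
      exact Flag.ext ((toFlag (P := P) ⟨z, _, hz⟩).max_chain' C.chain_le h1)
  refine ⟨Equiv.ofBijective toFlag ⟨hinj, hsurj⟩, fun g φ => ?_⟩
  refine Flag.ext ?_
  change Set.range (fun i => g (φ.f i)) = g '' Set.range φ.f
  rw [← Set.range_comp]
  rfl

end H63.KO
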