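import Pool.Agent.H63.KO.Flags

/-! # KO.FlagP3 : polygons have at least three vertices (paper B1)

Let `a = rho (i+1)`, `b = rho i`. Suppose `b a b a φ = φ` (`= rho i (rho (i+1) (rho i (rho (i+1) φ)))`). Write `v = φ.f i`, `E = φ.f (i+1)`. `φ1 = rho (i+1) φ` has `(v, E1)`, `E1 ≠ E`;
`φ2 = rho i φ1` has `(v1, E1)`, `v1 ≠ v`; `φ3 = rho (i+1) φ2 = rho i φ` (apply `rho i` to the equation) has rank `i` element `v1` and rank `i+1` element `E`. So `v, v1 < E` and `v, v1 < E1`.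
`P.meet E E1`: `C ≤ E, E1`, `v ≤ C`, `v1 ≤ C`. `rk C ≤ i` or `C = E`: `C ≤ E`; if `rk C = i+1` then `C = E = E1` (`PolyLat.eq_of_le`), contradiction; so `rk C ≤ i`, `C = v` and `C = v1`. Contradiction. -/

namespace H63.KO

variable {L : Type} [PartialOrder L] {P : PolyLat L}

theorem rho_p3 {i : ℕ} (h1 : 1 ≤ i) (h2 : i + 1 ≤ P.d) (φ : P.Fl) :
    rho i (rho (i + 1) (rho i (rho (i + 1) φ))) ≠ φ := by
  intro h
  have hii : i ≠ i + 1 := by omega
  -- the flags
  have h3 : rho (i + 1) (rho i (rho (i + 1) φ)) = rho i φ := by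
    have := congrArg (rho i) h
    rwa [rho_inv] at this
  have e1 : (rho (i + 1) φ).f i = φ.f i := rho_ne hii φ
  have e2 : (rho (i + 1) φ).f (i + 1) ≠ φ.f (i + 1) := rho_self (by omega) h2 φ
  have e3 : (rho i (rho (i + 1) φ)).f i ≠ φ.f i := by
    have := rho_self h1 (by omega) (rho (i + 1) φ)
    rwa [e1] at this
  have e4 : (rho i (rho (i + 1) φ)).f (i + 1) = (rho (i + 1) φ).f (i + 1) := rho_ne hii.symm _
  have e5 : (rho (i + 1) (rho i (rho (i + 1) φ))).f i = (rho i (rho (i + 1) φ)).f i :=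
    rho_ne hii _
  have e6 : (rho (i + 1) (rho i (rho (i + 1) φ))).f (i + 1) = φ.f (i + 1) := by
    rw [h3]
    exact rho_ne hii.symm φ
  have l1 : φ.f i ≤ φ.f (i + 1) := φ.mono (by omega)
  have l2 : φ.f i ≤ (rho (i + 1) φ).f (i + 1) := by
    rw [← e1]
    exact (rho (i + 1) φ).mono (by omega)
  have l3 : (rho i (rho (i + 1) φ)).f i ≤ (rho (i + 1) φ).f (i + 1) := by
    rw [← e4]
    exact (rho i (rho (i + 1) φ)).mono (by omega)
  have l4 : (rho i (rho (i + 1) φ)).f i ≤ φ.f (i + 1) := by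
    rw [← e5, ← e6]
    exact (rho (i + 1) (rho i (rho (i + 1) φ))).mono (by omega)
  obtain ⟨C, hC1, hC2, hC⟩ := P.meet (φ.f (i + 1)) ((rho (i + 1) φ).f (i + 1))
  have hv : φ.f i ≤ C := hC _ l1 l2
  have hv1 : (rho i (rho (i + 1) φ)).f i ≤ C := hC _ l4 l3
  have rE : P.rk (φ.f (i + 1)) = i + 1 := φ.rk (by omega)
  have rE1 : P.rk ((rho (i + 1) φ).f (i + 1)) = i + 1 := (rho (i + 1) φ).rk (by omega)
  have rv : P.rk (φ.f i) = i := φ.rk (by omega)
  have rv1 : P.rk ((rho i (rho (i + 1) φ)).f i) = i := (rho i (rho (i + 1) φ)).rk (by omega)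
  have r1 := PolyLat.rk_le (P := P) hC1
  have r2 := PolyLat.rk_le (P := P) hv
  rw [rE] at r1
  rw [rv] at r2
  rcases Nat.lt_or_ge (P.rk C) (i + 1) with hlt | hge
  · have hr : P.rk C = i := by omega
    have a1 : φ.f i = C := PolyLat.eq_of_le (P := P) hv (by rw [rv, hr])
    have a2 : (rho i (rho (i + 1) φ)).f i = C := PolyLat.eq_of_le (P := P) hv1 (by rw [rv1, hr])
    exact e3 (a2.trans a1.symm)
  · have hr : P.rk C = i + 1 := by omega
    have a1 : C = φ.f (i + 1) := PolyLat.eq_of_le (P := P) hC1 (by rw [rE, hr])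
    have a2 : C = (rho (i + 1) φ).f (i + 1) := PolyLat.eq_of_le (P := P) hC2 (by rw [rE1, hr])
    exact e2 (a2.symm.trans a1)

end H63.KO
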