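import Mathlib

/-! # KO.Sys : abstract flag systems (definitions, no sorry) -/

namespace H63.KO

/-- a flag system of rank `d` on the set `X`: commuting-type involutions with the potential theorem -/
structure FSys (X : Type) where
  d : ℕ
  ρ : ℕ → X → X
  inv : ∀ i x, ρ i (ρ i x) = x
  out : ∀ i, ¬ (1 ≤ i ∧ i ≤ d) → ∀ x, ρ i x = x
  fpf : ∀ i, 1 ≤ i → i ≤ d → ∀ x, ρ i x ≠ x
  comm : ∀ i j, i + 2 ≤ j → ∀ x, ρ i (ρ j x) = ρ j (ρ i x)
  p3 : ∀ i, 1 ≤ i → i + 1 ≤ d → ∀ x, ρ i (ρ (i + 1) (ρ i (ρ (i + 1) x))) ≠ x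
  conn : ∀ x y, Relation.ReflTransGen (fun p q => ∃ i, 1 ≤ i ∧ i ≤ d ∧ q = ρ i p) x y
  univ : ∀ (G : Type) [Group G] (a b : ℕ) (R : Set X) (g : ℕ → X → G), 1 ≤ a → a < b → b ≤ d →
    (∀ i, a ≤ i → i ≤ b → ∀ x ∈ R, ρ i x ∈ R) →
    (∀ i j, a ≤ i → i + 2 ≤ j → j ≤ b → ∀ x ∈ R, g i x * g j (ρ i x) = g j x * g i (ρ j x)) →
    (∀ i, a ≤ i → i + 1 ≤ b → ∃ u : X → G, ∀ x ∈ R,
      u (ρ i x) = u x * g i x ∧ u (ρ (i + 1) x) = u x * g (i + 1) x) →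
    ∃ F : X → G, ∀ i, a ≤ i → i ≤ b → ∀ x ∈ R, F (ρ i x) = F x * g i x

variable {X : Type} (S : FSys X)

/-- the number of vertices of the polygon `[x_{i-1}, x_{i+2}]` -/
noncomputable def FSys.per (i : ℕ) (x : X) : ℕ :=
  Function.minimalPeriod (fun z => S.ρ i (S.ρ (i + 1) z)) x

/-- `V` is a quotient of the flag system by (part of) its automorphisms, `s i` is the image of `ρ i` -/
structure FSys.Quo (V : Type) where
  π : X → V
  s : ℕ → V → V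
  surj : Function.Surjective π
  hs : ∀ i x, π (S.ρ i x) = s i (π x)
  hper : ∀ i x y, π x = π y → S.per i x = S.per i y

end H63.KO
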