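import Pool.Agent.H63.KO.UnivAll
import Pool.Agent.H63.KO.FlagP3
import Pool.Agent.H63.KO.Sys

/-! # KO.LatSys : the flag system of a `PolyLat` (glue) -/

namespace H63.KO

variable {L : Type} [PartialOrder L]

/-- the flag system of a `PolyLat` -/
noncomputable def PolyLat.sys (P : PolyLat L) : FSys P.Fl where
  d := P.d
  ρ := rho
  inv := rho_inv
  out := fun i h x => rho_out h x
  fpf := fun i h1 h2 x => rho_fpf h1 h2 x
  comm := fun i j h x => rho_comm h x
  p3 := fun i h1 h2 x => rho_p3 h1 h2 x
  conn := by
    intro x y
    have h := conn_res (P := P) (a := 1) (b := P.d) le_rfl le_rfl (φ := x) (ψ := y) (by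
      intro j hj
      rcases hj with hj | hj
      · have : j = 0 := by omega
        subst this
        rw [x.zero, y.zero]
      · rw [x.top (by omega), y.top (by omega)])
    exact h
  univ := by
    intro G _ a b R g ha hab hb hR hcomm hloc
    exact univ_all ha hab hb R g hR hcomm hloc

end H63.KO
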