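import Pool.Agent.H63.KO.PolyFam

/-! # KO.FaceIso : the exposed faces of a polytope are the faces of its vector family

`F ↦ {p | (p : E) ∈ F}`, inverse `A ↦ {x ∈ Q | l (x, 1) = 0}` for any `l` defining `A`, `Q = convexHull ℝ T`.
 * `F` exposed and nonempty, exposed by `l` with maximum `M`: the functional `(x, r) ↦ M r - l x` defines `{p | p ∈ F}`. `F = ∅`: the functional `(x, r) ↦ r` defines `∅`.
 * if `l` defines `A` then `{x ∈ Q | l (x,1) = 0}` is exposed by `x ↦ - l (x, 0)` (`l (x, 1) ≥ 0` on `Q`: `x` is a convex combination of points of `T`), and contains exactly the `p ∈ A` among `T`.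
 * an exposed `F` is the convex hull of `T ∩ F` (a point of `F` is a convex combination of points of `T`; those with positive weight have `l (p,1) = 0`, so lie in `F`), so
   `F ⊆ F'` iff `T ∩ F ⊆ T ∩ F'`. -/

namespace H63.KO

open Set

variable {E : Type} [NormedAddCommGroup E] [InnerProductSpace ℝ E] [FiniteDimensional ℝ E]

private theorem fi_comb {T : Finset E} {x : E} (hx : x ∈ convexHull ℝ (T : Set E))
    (l : Module.Dual ℝ (E × ℝ)) : ∃ w : E → ℝ, (∀ y ∈ T, 0 ≤ w y) ∧ ∑ y ∈ T, w y = 1 ∧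
      ∑ y ∈ T, w y • y = x ∧ l (x, 1) = ∑ y ∈ T, w y * l (y, 1) := by
  obtain ⟨w, h0, h1, h2⟩ := Finset.mem_convexHull'.1 hx
  refine ⟨w, h0, h1, h2, ?_⟩
  have h3 : ((x, 1) : E × ℝ) = ∑ y ∈ T, w y • ((y, 1) : E × ℝ) := by
    refine Prod.ext ?_ ?_
    · rw [Prod.fst_sum]
      exact h2.symm
    · rw [Prod.snd_sum]
      simp [h1]
  rw [h3, map_sum]
  refine Finset.sum_congr rfl fun y _ => ?_
  rw [map_smul, smul_eq_mul]

private theorem fi_nonneg {T : Finset E} {A : Set T} {l : Module.Dual ℝ (E × ℝ)}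
    (hl : Defn (polyFam T) A l) {x : E} (hx : x ∈ convexHull ℝ (T : Set E)) : 0 ≤ l (x, 1) := by
  obtain ⟨w, h0, _, _, h3⟩ := fi_comb hx l
  rw [h3]
  exact Finset.sum_nonneg fun y hy => mul_nonneg (h0 y hy) (hl.1 ⟨y, hy⟩)

private theorem fi_hull {T : Finset E} {A : Set T} {l : Module.Dual ℝ (E × ℝ)}
    (hl : Defn (polyFam T) A l) : convexHull ℝ ((fun p : T => (p : E)) '' A) =
      {x | x ∈ convexHull ℝ (T : Set E) ∧ l (x, 1) = 0} := by
  classical
  refine Set.Subset.antisymm ?_ ?_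
  · refine convexHull_min ?_ ?_
    · rintro _ ⟨p, hp, rfl⟩
      exact ⟨subset_convexHull ℝ _ p.2, (hl.2 p).1 hp⟩
    · intro x hx y hy a b ha hb hab
      refine ⟨convex_convexHull ℝ _ hx.1 hy.1 ha hb hab, ?_⟩
      have h1 : ((a • x + b • y, 1) : E × ℝ) = a • ((x, 1) : E × ℝ) + b • ((y, 1) : E × ℝ) := by
        refine Prod.ext rfl ?_
        simp [hab]
      rw [h1, map_add, map_smul, map_smul, hx.2, hy.2, smul_zero, smul_zero, add_zero]
  · rintro x ⟨hx, hx0⟩
    obtain ⟨w, h0, h1, h2, h3⟩ := fi_comb hx l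
    rw [hx0] at h3
    have h4 := (Finset.sum_eq_zero_iff_of_nonneg fun y hy =>
      mul_nonneg (h0 y hy) (hl.1 ⟨y, hy⟩)).1 h3.symm
    have h5 : ∀ y ∈ T, w y ≠ 0 → y ∈ (fun p : T => (p : E)) '' A := by
      intro y hy hw
      refine ⟨⟨y, hy⟩, (hl.2 ⟨y, hy⟩).2 ?_, rfl⟩
      exact (mul_eq_zero.1 (h4 y hy)).resolve_left hw
    have h6 : ∑ y ∈ T.filter (fun y => w y ≠ 0), w y • y = x := by
      rw [← h2]
      refine Finset.sum_filter_of_ne fun y _ hy hw => hy ?_
      rw [hw, zero_smul]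
    have h7 : ∑ y ∈ T.filter (fun y => w y ≠ 0), w y = 1 := by
      rw [← h1]
      exact Finset.sum_filter_of_ne fun y _ hy => hy
    rw [← h6]
    refine (convex_convexHull ℝ _).sum_mem (fun y hy => h0 y (Finset.mem_filter.1 hy).1) h7 ?_
    intro y hy
    exact subset_convexHull ℝ _ (h5 y (Finset.mem_filter.1 hy).1 (Finset.mem_filter.1 hy).2)

private theorem fi_face {T : Finset E} {F : Set E} (hF : IsExposed ℝ (convexHull ℝ (T : Set E)) F) :
    IsFace (polyFam T) {p : T | (p : E) ∈ F} := by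
  rcases F.eq_empty_or_nonempty with rfl | hne
  · have := isFace_empty (polyFam_pos T)
    exact this
  · obtain ⟨l, hl⟩ := hF hne
    obtain ⟨x0, hx0⟩ := hne
    rw [hl] at hx0
    have hQ : ∀ p : T, (p : E) ∈ convexHull ℝ (T : Set E) := fun p => subset_convexHull ℝ _ p.2
    refine ⟨(l x0) • LinearMap.snd ℝ E ℝ - (l : E →ₗ[ℝ] ℝ).comp (LinearMap.fst ℝ E ℝ),
      fun p => ?_, fun p => ?_⟩
    · have := hx0.2 p (hQ p)
      simp only [polyFam, LinearMap.sub_apply, LinearMap.smul_apply, LinearMap.snd_apply,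
        LinearMap.comp_apply, LinearMap.fst_apply, smul_eq_mul, mul_one,
        ContinuousLinearMap.coe_coe]
      linarith
    · simp only [polyFam, LinearMap.sub_apply, LinearMap.smul_apply, LinearMap.snd_apply,
        LinearMap.comp_apply, LinearMap.fst_apply, smul_eq_mul, mul_one,
        ContinuousLinearMap.coe_coe]
      constructor
      · intro h
        have h1 : (p : E) ∈ F := h
        rw [hl] at h1
        have h2 := h1.2 x0 hx0.1
        have h3 := hx0.2 p (hQ p)
        linarith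
      · intro h
        change (p : E) ∈ F
        rw [hl]
        refine ⟨hQ p, fun y hy => ?_⟩
        have h2 := hx0.2 y hy
        linarith

private theorem fi_exposed {T : Finset E} {A : Set T} {l : Module.Dual ℝ (E × ℝ)}
    (hl : Defn (polyFam T) A l) : IsExposed ℝ (convexHull ℝ (T : Set E))
      {x | x ∈ convexHull ℝ (T : Set E) ∧ l (x, 1) = 0} := by
  rintro ⟨x0, hx0, hx0'⟩
  refine ⟨LinearMap.toContinuousLinearMap (-(l.comp (LinearMap.inl ℝ E ℝ))), ?_⟩
  have key : ∀ x : E, l (x, 1) = l (x, 0) + l (0, 1) := by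
    intro x
    rw [← map_add]
    simp
  ext x
  simp only [Set.mem_setOf_eq, LinearMap.coe_toContinuousLinearMap', LinearMap.neg_apply,
    LinearMap.comp_apply, LinearMap.inl_apply]
  constructor
  · rintro ⟨hx, hx1⟩
    refine ⟨hx, fun y hy => ?_⟩
    have h1 := fi_nonneg hl hy
    rw [key] at h1 hx1
    linarith
  · rintro ⟨hx, hx1⟩
    refine ⟨hx, ?_⟩
    have h1 := fi_nonneg hl hx
    have h2 := hx1 x0 hx0
    rw [key] at h1 hx0'
    rw [key]
    linarith

private theorem fi_eq_hull {T : Finset E} {F : Set E}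
    (hF : IsExposed ℝ (convexHull ℝ (T : Set E)) F) :
    F ⊆ convexHull ℝ ((fun p : T => (p : E)) '' {p : T | (p : E) ∈ F}) := by
  classical
  intro x hx
  obtain ⟨l, hl⟩ := hF ⟨x, hx⟩
  have hx' : x ∈ {x ∈ convexHull ℝ (T : Set E) | ∀ y ∈ convexHull ℝ (T : Set E), l y ≤ l x} := by
    rw [← hl]; exact hx
  -- the functional of the face
  have hdef : Defn (polyFam T) {p : T | (p : E) ∈ F}
      ((l x) • LinearMap.snd ℝ E ℝ - (l : E →ₗ[ℝ] ℝ).comp (LinearMap.fst ℝ E ℝ)) := by
    have hQ : ∀ p : T, (p : E) ∈ convexHull ℝ (T : Set E) := fun p => subset_convexHull ℝ _ p.2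
    refine ⟨fun p => ?_, fun p => ?_⟩
    · have := hx'.2 p (hQ p)
      simp only [polyFam, LinearMap.sub_apply, LinearMap.smul_apply, LinearMap.snd_apply,
        LinearMap.comp_apply, LinearMap.fst_apply, smul_eq_mul, mul_one,
        ContinuousLinearMap.coe_coe]
      linarith
    · simp only [polyFam, LinearMap.sub_apply, LinearMap.smul_apply, LinearMap.snd_apply,
        LinearMap.comp_apply, LinearMap.fst_apply, smul_eq_mul, mul_one,
        ContinuousLinearMap.coe_coe]
      constructor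
      · intro h
        have h1 : (p : E) ∈ F := h
        rw [hl] at h1
        have h2 := h1.2 x hx'.1
        have h3 := hx'.2 p (hQ p)
        linarith
      · intro h
        change (p : E) ∈ F
        rw [hl]
        refine ⟨hQ p, fun y hy => ?_⟩
        have h2 := hx'.2 y hy
        linarith
  rw [fi_hull hdef]
  refine ⟨hx'.1, ?_⟩
  simp

/-- the exposed faces of a polytope are the faces of its vector family -/
theorem faceIso (T : Finset E) :
    Nonempty ({F : Set E // IsExposed ℝ (convexHull ℝ (T : Set E)) F} ≃o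
      {A : Set T // IsFace (polyFam T) A}) := by
  have hle : ∀ F F' : {F : Set E // IsExposed ℝ (convexHull ℝ (T : Set E)) F},
      (⟨{p : T | (p : E) ∈ F.1}, fi_face F.2⟩ : {A : Set T // IsFace (polyFam T) A}) ≤
        ⟨{p : T | (p : E) ∈ F'.1}, fi_face F'.2⟩ ↔ F ≤ F' := by
    intro F F'
    constructor
    · intro h
      have h1 : ∀ p : T, (p : E) ∈ F.1 → (p : E) ∈ F'.1 := fun p hp => h hp
      change F.1 ⊆ F'.1
      refine (fi_eq_hull F.2).trans (convexHull_min ?_ (F'.2.convex (convex_convexHull ℝ _)))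
      rintro _ ⟨p, hp, rfl⟩
      exact h1 p hp
    · intro h p hp
      exact h hp
  let f : {F : Set E // IsExposed ℝ (convexHull ℝ (T : Set E)) F} ↪o
      {A : Set T // IsFace (polyFam T) A} :=
    OrderEmbedding.ofMapLEIff (fun F => ⟨{p : T | (p : E) ∈ F.1}, fi_face F.2⟩) hle
  refine ⟨RelIso.ofSurjective f ?_⟩
  rintro ⟨A, hA⟩
  obtain ⟨l, hl⟩ := hA
  refine ⟨⟨{x | x ∈ convexHull ℝ (T : Set E) ∧ l (x, 1) = 0}, fi_exposed hl⟩, ?_⟩
  apply Subtype.ext
  ext p
  change ((p : E) ∈ convexHull ℝ (T : Set E) ∧ l ((p : E), 1) = 0) ↔ p ∈ A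
  rw [hl.2 p]
  constructor
  · intro h
    exact h.2
  · intro h
    exact ⟨subset_convexHull ℝ _ p.2, h⟩

end H63.KO
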