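import Pool.Agent.H63.KO.PolyFam

/-! # KO.RkPoly : the rank of the whole family

If `Q` has interior the vectors `(p,1)` span `E × ℝ`: a functional vanishing on all of them vanishes on `(x,1)` for `x ∈ Q`, so it is constant along an open set, so its linear part is `0` (an open set spans: `x + ε v ∈ Q`), so it is `0`. -/

namespace H63.KO

open Set

variable {E : Type} [NormedAddCommGroup E] [InnerProductSpace ℝ E] [FiniteDimensional ℝ E]

/-- the rank of the whole family -/
theorem rk_polyFam (T : Finset E) (hT : (interior (convexHull ℝ (T : Set E))).Nonempty) :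
    rkF (polyFam T) univ = Module.finrank ℝ E + 1 := by
  classical
  have hspan : Submodule.span ℝ (polyFam T '' univ) = ⊤ := by
    by_contra hne
    obtain ⟨l, hl0, hl⟩ := Submodule.exists_le_ker_of_lt_top _ (lt_top_iff_ne_top.2 hne)
    -- `l (x, 1) = 0` on the convex hull
    have h1 : ∀ x ∈ convexHull ℝ (T : Set E), l (x, (1 : ℝ)) = 0 := by
      have hconv : Convex ℝ {x : E | l (x, (1 : ℝ)) = 0} := by
        intro x hx y hy a b ha hb hab
        show l (a • x + b • y, (1 : ℝ)) = 0
        have : ((a • x + b • y, (1 : ℝ)) : E × ℝ) = a • (x, (1 : ℝ)) + b • (y, (1 : ℝ)) := by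
          refine Prod.ext rfl ?_
          show (1 : ℝ) = a • (1 : ℝ) + b • (1 : ℝ)
          rw [smul_eq_mul, smul_eq_mul, mul_one, mul_one, hab]
        rw [this, map_add, map_smul, map_smul, hx, hy, smul_zero, smul_zero, add_zero]
      have hT2 : (T : Set E) ⊆ {x : E | l (x, (1 : ℝ)) = 0} := by
        intro x hx
        exact hl (Submodule.subset_span ⟨⟨x, hx⟩, mem_univ _, rfl⟩)
      exact fun x hx => convexHull_min hT2 hconv hx
    obtain ⟨x, hx⟩ := hT
    rw [mem_interior_iff_mem_nhds, Metric.mem_nhds_iff] at hx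
    obtain ⟨ε, hε, hball⟩ := hx
    have h2 : ∀ v : E, l (v, (0 : ℝ)) = 0 := by
      intro v
      by_cases hv : v = 0
      · rw [hv]
        exact map_zero l
      have hvn : 0 < ‖v‖ := norm_pos_iff.2 hv
      set δ : ℝ := ε / 2 / ‖v‖ with hδ
      have hδ0 : 0 < δ := by positivity
      have h3 : x + δ • v ∈ Metric.ball x ε := by
        rw [Metric.mem_ball, dist_eq_norm, add_sub_cancel_left, norm_smul, Real.norm_eq_abs,
          abs_of_pos hδ0, hδ, div_mul_cancel₀ _ hvn.ne']
        linarith
      have h4 := h1 _ (hball h3)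
      have h5 := h1 _ (hball (Metric.mem_ball_self hε))
      have h6 : ((x + δ • v, (1 : ℝ)) : E × ℝ) = (x, (1 : ℝ)) + δ • (v, (0 : ℝ)) := by
        refine Prod.ext rfl ?_
        show (1 : ℝ) = 1 + δ • (0 : ℝ)
        rw [smul_zero, add_zero]
      rw [h6, map_add, h5, zero_add, map_smul, smul_eq_mul] at h4
      exact (mul_eq_zero.1 h4).resolve_left hδ0.ne'
    apply hl0
    refine LinearMap.ext fun q => ?_
    have h5 := h1 _ (hball (Metric.mem_ball_self hε))
    have h6 : q = q.2 • (x, (1 : ℝ)) + (q.1 - q.2 • x, (0 : ℝ)) := by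
      refine Prod.ext ?_ ?_
      · show q.1 = q.2 • x + (q.1 - q.2 • x)
        rw [add_sub_cancel]
      · show q.2 = q.2 • (1 : ℝ) + 0
        rw [smul_eq_mul, mul_one, add_zero]
    rw [h6, map_add, map_smul, h5, h2, smul_zero, add_zero]
    rfl
  unfold rkF
  rw [hspan, finrank_top, Module.finrank_prod, Module.finrank_self]

end H63.KO
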