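import Pool.Agent.H63.KO.FamLat
import Pool.Agent.H63.KO.FaceIso
import Pool.Agent.H63.KO.RkPoly

/-! # KO.PolyLatFin : the `PolyLat` of a polytope (glue)

`faceIso`, `polyFam_pos`, `rk_polyFam`, `famLat`, `PolyLat.comap`; finiteness: the type of faces of a family over the finite index type `T` is a subtype of `Set T`. -/

namespace H63.KO

/-- the exposed faces of a full dimensional polytope form a finite `PolyLat` of rank `d` -/
theorem polytope_lat {E : Type} [NormedAddCommGroup E] [InnerProductSpace ℝ E]
    [FiniteDimensional ℝ E] (T : Finset E)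
    (hT : (interior (convexHull ℝ (T : Set E))).Nonempty) :
    Finite {F : Set E // IsExposed ℝ (convexHull ℝ (T : Set E)) F} ∧
    ∃ P : PolyLat {F : Set E // IsExposed ℝ (convexHull ℝ (T : Set E)) F},
      P.d = Module.finrank ℝ E := by
  obtain ⟨e⟩ := faceIso T
  obtain ⟨P, hP⟩ := famLat (polyFam T) (polyFam_pos T) (Module.finrank ℝ E) (rk_polyFam T hT)
  obtain ⟨Q, hQ⟩ := PolyLat.comap e P
  refine ⟨?_, Q, hQ.trans hP⟩
  have : Finite (Set T) := inferInstance
  have : Finite {A : Set T // IsFace (polyFam T) A} := inferInstance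
  exact Finite.of_injective e e.injective

end H63.KO
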