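import Pool.Agent.H63.KO.Sys

/-! # KO.Per : elementary facts on the periods (paper C, beginning)

`f z = ρ i (ρ (i+1) z)` is a bijection of the finite set `X`, `per i x = minimalPeriod f x > 0`. `per ≥ 3`: `f x ≠ x` (otherwise `ρ (i+1) x = ρ i x`, so `f (f x) = ...` contradicts `p3`) and `f (f x) ≠ x` (`p3`).
`per_self`: `f^n (ρ i x) = ρ i ((f⁻¹)^n x)`; so `f^n (ρ i x) = ρ i x ↔ f^n x = x`; the same for `ρ (i+1)`. `per_far`: `ρ j` commutes with `f` for `j + 2 ≤ i` and for `i + 3 ≤ j`. -/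

namespace H63.KO

variable {X : Type} [Finite X] (S : FSys X)

omit [Finite X] in
private theorem FSys.per_left (i : ℕ) :
    Function.LeftInverse (fun z => S.ρ i (S.ρ (i + 1) z)) (fun z => S.ρ (i + 1) (S.ρ i z)) := by
  intro z
  simp only [S.inv]

omit [Finite X] in
private theorem FSys.per_right (i : ℕ) :
    Function.LeftInverse (fun z => S.ρ (i + 1) (S.ρ i z)) (fun z => S.ρ i (S.ρ (i + 1) z)) := by
  intro z
  simp only [S.inv]

omit [Finite X] in
private theorem FSys.per_swap (i n : ℕ) (x : X) :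
    (fun z => S.ρ (i + 1) (S.ρ i z))^[n] x = x ↔ (fun z => S.ρ i (S.ρ (i + 1) z))^[n] x = x := by
  constructor
  · intro h
    have h1 := (S.per_left i).iterate n x
    rw [h] at h1
    exact h1
  · intro h
    have h1 := (S.per_right i).iterate n x
    rw [h] at h1
    exact h1

omit [Finite X] in
private theorem FSys.per_of_semi (i j : ℕ) (x : X)
    (h : Function.Semiconj (S.ρ j) (fun z => S.ρ (i + 1) (S.ρ i z))
      (fun z => S.ρ i (S.ρ (i + 1) z))) : S.per i (S.ρ j x) = S.per i x := by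
  unfold FSys.per
  rw [Function.minimalPeriod_eq_minimalPeriod_iff]
  intro n
  have h1 := (h.iterate_right n) x
  unfold Function.IsPeriodicPt Function.IsFixedPt
  rw [← h1, ← S.per_swap i n x]
  constructor
  · intro h2
    have h3 := congrArg (S.ρ j) h2
    rwa [S.inv, S.inv] at h3
  · intro h2
    rw [h2]

theorem FSys.per_pos (i : ℕ) (x : X) : 0 < S.per i x := by
  apply Function.minimalPeriod_pos_of_mem_periodicPts
  exact (S.per_right i).injective.mem_periodicPts x

/-- the defining property: `(ρ i ρ (i+1))^per` fixes `x` -/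
theorem FSys.per_iter (i : ℕ) (x : X) : (fun z => S.ρ i (S.ρ (i + 1) z))^[S.per i x] x = x :=
  Function.isPeriodicPt_minimalPeriod _ x

theorem FSys.three_le_per {i : ℕ} (h1 : 1 ≤ i) (h2 : i + 1 ≤ S.d) (x : X) : 3 ≤ S.per i x := by
  have h0 := S.per_pos i x
  have hit := S.per_iter i x
  by_contra hcon
  have h3 : S.per i x = 1 ∨ S.per i x = 2 := by omega
  apply S.p3 i h1 h2 x
  rcases h3 with h3 | h3
  · rw [h3] at hit
    simp only [Function.iterate_one] at hit
    rw [hit, hit]
  · rw [h3] at hit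
    exact hit

theorem FSys.per_self (i : ℕ) (x : X) : S.per i (S.ρ i x) = S.per i x := by
  apply S.per_of_semi
  intro z
  simp only

theorem FSys.per_succ (i : ℕ) (x : X) : S.per i (S.ρ (i + 1) x) = S.per i x := by
  apply S.per_of_semi
  intro z
  simp only [S.inv]

theorem FSys.per_far {i j : ℕ} (h : j + 2 ≤ i ∨ i + 3 ≤ j) (x : X) :
    S.per i (S.ρ j x) = S.per i x := by
  unfold FSys.per
  have hsemi : Function.Semiconj (S.ρ j) (fun z => S.ρ i (S.ρ (i + 1) z))
      (fun z => S.ρ i (S.ρ (i + 1) z)) := by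
    intro z
    rcases h with h | h
    · simp only
      rw [S.comm j i h, S.comm j (i + 1) (by omega)]
    · simp only
      rw [← S.comm i j (by omega), ← S.comm (i + 1) j (by omega)]
  rw [Function.minimalPeriod_eq_minimalPeriod_iff]
  intro n
  have h1 := (hsemi.iterate_right n) x
  unfold Function.IsPeriodicPt Function.IsFixedPt
  rw [← h1]
  constructor
  · intro h2
    have h3 := congrArg (S.ρ j) h2
    rwa [S.inv, S.inv] at h3
  · intro h2
    rw [h2]

/-- the period does not depend on the order of the two involutions -/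
theorem FSys.per_symm (i : ℕ) (x : X) :
    Function.minimalPeriod (fun z => S.ρ (i + 1) (S.ρ i z)) x = S.per i x := by
  unfold FSys.per
  rw [Function.minimalPeriod_eq_minimalPeriod_iff]
  intro n
  exact S.per_swap i n x

variable {S}

/-- the period as a function on the quotient -/
noncomputable def FSys.Quo.per {V : Type} (q : S.Quo V) (i : ℕ) (v : V) : ℕ :=
  S.per i (Function.surjInv q.surj v)

theorem FSys.Quo.per_π {V : Type} (q : S.Quo V) (i : ℕ) (x : X) : q.per i (q.π x) = S.per i x := by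
  exact q.hper i _ _ (Function.surjInv_eq q.surj (q.π x))

theorem FSys.Quo.s_inv {V : Type} (q : S.Quo V) (i : ℕ) (v : V) : q.s i (q.s i v) = v := by
  obtain ⟨x, rfl⟩ := q.surj v
  rw [← q.hs, ← q.hs, S.inv]

theorem FSys.Quo.s_out {V : Type} (q : S.Quo V) {i : ℕ} (h : ¬ (1 ≤ i ∧ i ≤ S.d)) (v : V) :
    q.s i v = v := by
  obtain ⟨x, rfl⟩ := q.surj v
  rw [← q.hs, S.out i h]

theorem FSys.Quo.s_comm {V : Type} (q : S.Quo V) {i j : ℕ} (h : i + 2 ≤ j ∨ j + 2 ≤ i) (v : V) :
    q.s i (q.s j v) = q.s j (q.s i v) := by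
  obtain ⟨x, rfl⟩ := q.surj v
  rcases h with h | h
  · rw [← q.hs, ← q.hs, ← q.hs, ← q.hs, S.comm i j h]
  · rw [← q.hs, ← q.hs, ← q.hs, ← q.hs, ← S.comm j i h]

/-- at an element of type `3` commuting images coincide -/
theorem FSys.Quo.eq_of_three {V : Type} (q : S.Quo V) {i : ℕ} {v : V} (h3 : q.per i v = 3)
    (hc : ∀ w, q.s i (q.s (i + 1) w) = q.s (i + 1) (q.s i w)) : q.s i v = q.s (i + 1) v := by
  obtain ⟨x, rfl⟩ := q.surj v
  rw [q.per_π] at h3
  have h1 := S.per_iter i x
  rw [h3] at h1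
  have h2 : q.π (S.ρ i (S.ρ (i + 1) (S.ρ i (S.ρ (i + 1) (S.ρ i (S.ρ (i + 1) x)))))) = q.π x :=
    congrArg q.π h1
  simp only [q.hs] at h2
  have h4 : ∀ w, q.s i (q.s (i + 1) (q.s i (q.s (i + 1) w))) = w := by
    intro w
    rw [← hc, q.s_inv, q.s_inv]
  rw [h4] at h2
  have h5 := congrArg (q.s i) h2
  rw [q.s_inv] at h5
  exact h5.symm

end H63.KO
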