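import Pool.Agent.H63.KO.Cyc
import Pool.Agent.H63.KO.Per

/-! # KO.Regular : constant periods give a transitive group (paper C7)

`P i : Equiv.Perm X` the permutation `S.ρ i` (`inv`). `S.univ` with `G = Equiv.Perm X`, `[1, d]`, `R = univ`, `g i x = P i` (constant): commutation by `comm`, local potentials by `pot_const`: `(P i * P (i+1)) ^ per i x = 1` as permutations, because `per i` is constant
(`per_iter` at every point). So `F (ρ i z) = F z * P i`. Let `A z = (F z)⁻¹ * F x` : `A x = 1`, `A (ρ i z) = P i * A z` (`P i` is an involution). `θ z := A z y'`... precisely `θ z = (A z) y`: `θ (ρ i z) = ρ i (θ z)`, `θ x = y`. `θ` is surjective by `S.conn`, so bijective (`X` finite).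
For `i` outside `[1, d]` `ρ i = id`. (`1 < d` is assumed.) -/

namespace H63.KO

variable {X : Type} [Finite X]

theorem regular (S : FSys X) (hd : 2 ≤ S.d)
    (hper : ∀ i, 1 ≤ i → i + 1 ≤ S.d → ∀ x y, S.per i x = S.per i y) (x y : X) :
    ∃ θ : X ≃ X, (∀ i z, θ (S.ρ i z) = S.ρ i (θ z)) ∧ θ x = y := by
  classical
  let P : ℕ → Equiv.Perm X := fun i => Function.Involutive.toPerm (S.ρ i) (S.inv i)
  have hP : ∀ i z, P i z = S.ρ i z := fun _ _ => rfl
  have hPP : ∀ i, P i * P i = 1 := fun i => by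
    ext z
    rw [Equiv.Perm.mul_apply, hP, hP, S.inv, Equiv.Perm.one_apply]
  have hPinv : ∀ i, (P i)⁻¹ = P i := fun i => inv_eq_of_mul_eq_one_left (hPP i)
  obtain ⟨F, hF⟩ := S.univ (Equiv.Perm X) 1 S.d Set.univ (fun i _ => P i) le_rfl (by omega) le_rfl
    (fun _ _ _ _ _ => Set.mem_univ _)
    (fun i j _ hij _ z _ => by
      ext w
      rw [Equiv.Perm.mul_apply, Equiv.Perm.mul_apply, hP, hP, hP, hP]
      exact S.comm i j hij w)
    (fun i h1 h2 => by
      refine S.pot_const h1 h2 Set.univ (fun _ _ => Set.mem_univ _) (fun _ _ => Set.mem_univ _)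
        (fun _ => P i) (fun _ => P (i + 1)) (P i) (P (i + 1)) (hPP i) (hPP (i + 1))
        (fun _ _ => rfl) (fun _ _ => rfl) (fun z _ => ?_)
      ext w
      rw [← Equiv.Perm.iterate_eq_pow, Equiv.Perm.one_apply, hper i h1 h2 z w]
      have h := S.per_iter i w
      exact h)
  let θ : X → X := fun z => (F z)⁻¹ (F x y)
  have hθx : θ x = y := by
    change (F x)⁻¹ (F x y) = y
    rw [← Equiv.Perm.mul_apply, inv_mul_cancel, Equiv.Perm.one_apply]
  have hθ : ∀ i z, θ (S.ρ i z) = S.ρ i (θ z) := by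
    intro i z
    by_cases hi : 1 ≤ i ∧ i ≤ S.d
    · change (F (S.ρ i z))⁻¹ (F x y) = S.ρ i ((F z)⁻¹ (F x y))
      rw [hF i hi.1 hi.2 z (Set.mem_univ _), mul_inv_rev, Equiv.Perm.mul_apply, hPinv, hP]
    · rw [S.out i hi, S.out i hi]
  have hsurj : Function.Surjective θ := by
    intro w
    have h := S.conn y w
    induction h with
    | refl => exact ⟨x, hθx⟩
    | tail _ hq ih =>
      obtain ⟨z, rfl⟩ := ih
      obtain ⟨i, _, _, rfl⟩ := hq
      exact ⟨S.ρ i z, hθ i z⟩
  have hbij : Function.Bijective θ := ⟨Finite.injective_iff_surjective.2 hsurj, hsurj⟩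
  exact ⟨Equiv.ofBijective θ hbij, hθ, hθx⟩

end H63.KO
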