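import Mathlib

/-! # KO.Stmt : the definitions of the statement of MP_166b83_co (no sorry) -/

namespace KOrbit

/-- Euclidean `d`-space -/
abbrev Euc (d : ℕ) : Type := EuclideanSpace ℝ (Fin d)

/-- the faces of `Q` (exposed faces; the empty set and `Q` are included), ordered by inclusion -/
abbrev Face {d : ℕ} (Q : Set (Euc d)) : Type := {F : Set (Euc d) // IsExposed ℝ Q F}

/-- a convex `d`-polytope in Euclidean `d`-space: the convex hull of finitely many points, with
nonempty interior -/
def IsPolytope {d : ℕ} (Q : Set (Euc d)) : Prop :=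
  (∃ T : Finset (Euc d), Q = convexHull ℝ (T : Set (Euc d))) ∧ (interior Q).Nonempty

/-- the number of orbits of the automorphism group of the face lattice on the flags
(maximal chains of faces) -/
noncomputable def combOrbits {d : ℕ} (Q : Set (Euc d)) : ℕ :=
  Nat.card (MulAction.orbitRel.Quotient (Face Q ≃o Face Q) (Flag (Face Q)))

/-- two flags are exchanged by a symmetry of `Q` (an isometry of the space which maps `Q` onto
itself); `φ` is the permutation of the faces induced by the isometry `g` -/
def GeomEquiv {d : ℕ} (Q : Set (Euc d)) (Φ Ψ : Flag (Face Q)) : Prop :=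
  ∃ g : Euc d ≃ᵢ Euc d, g '' Q = Q ∧ ∃ φ : Face Q ≃o Face Q,
    (∀ F : Face Q, ((φ F : Face Q) : Set (Euc d)) = g '' (F : Set (Euc d))) ∧ φ • Φ = Ψ

/-- the number of orbits of the symmetry group on the flags -/
noncomputable def geomOrbits {d : ℕ} (Q : Set (Euc d)) : ℕ := Nat.card (Quot (GeomEquiv Q))

/-- property (R): every combinatorially `k`-orbit convex `d`-polytope is isomorphic to a
geometrically `k`-orbit convex `d`-polytope -/
def PropertyR (k d : ℕ) : Prop :=
  ∀ Q : Set (Euc d), IsPolytope Q → combOrbits Q = k →
    ∃ Q' : Set (Euc d), IsPolytope Q' ∧ Nonempty (Face Q ≃o Face Q') ∧ geomOrbits Q' = k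

end KOrbit
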