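import Mathlib

/-! # KO.Lat : the combinatorial properties of face lattices used below (structure `PolyLat`, no sorry) -/

namespace H63.KO

/-- a finite graded poset with the properties of the face lattice of a convex polytope of dimension `d`
(rank = dimension + 1) -/
structure PolyLat (L : Type) [PartialOrder L] where
  rk : L → ℕ
  d : ℕ
  bot : L
  top : L
  bot_le : ∀ x : L, bot ≤ x
  le_top : ∀ x : L, x ≤ top
  rk_bot : rk bot = 0
  rk_top : rk top = d + 1
  rk_lt : ∀ x y : L, x < y → rk x < rk y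
  step : ∀ x y : L, x < y → ∃ z, x < z ∧ z ≤ y ∧ rk z = rk x + 1
  diam : ∀ x y z : L, x < z → z < y → rk y = rk x + 2 →
    ∃ z', x < z' ∧ z' < y ∧ z' ≠ z ∧ ∀ w, x < w → w < y → w = z ∨ w = z'
  meet : ∀ A B : L, ∃ C : L, C ≤ A ∧ C ≤ B ∧ ∀ z : L, z ≤ A → z ≤ B → z ≤ C
  conn : ∀ x y : L, x < y → rk x + 2 ≤ rk y → ∀ P : L → Prop,
    (∀ E v w, E ≤ y → rk E = rk x + 2 → x < v → v < E → x < w → w < E → P v → P w) →
    ∀ v w, x < v → v ≤ y → rk v = rk x + 1 → x < w → w ≤ y → rk w = rk x + 1 → P v → P w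
  sc : ∀ x y : L, x < y → rk x + 4 ≤ rk y → ∀ (G : Type) [Group G] (h : L → L → L → G),
    (∀ S, x < S → S ≤ y → rk S = rk x + 3 → ∃ t : L → G, ∀ E v w, E ≤ S → rk E = rk x + 2 →
      x < v → v < E → x < w → w < E → v ≠ w → t w = t v * h E v w) →
    ∃ t : L → G, ∀ E v w, E ≤ y → rk E = rk x + 2 →
      x < v → v < E → x < w → w < E → v ≠ w → t w = t v * h E v w

end H63.KO
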