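import Pool.Agent.H63.KO.ScF
import Pool.Agent.H63.KO.Lat

/-! # KO.FamLat : the faces of an acyclic vector family form a `PolyLat`; transport along an order isomorphism

`famLat`: `rk A = rkF s A.1`, `bot = ∅`, `top = univ`; the fields are `isFace_empty`, `isFace_univ`, `rkF_lt`, `step`, `diamF`, `IsFace.inter`, `connF`, `scF`
(`<` on the subtype is `⊂`; for `conn` and `sc`: an element strictly between `x` and `E` with `rkF s E = rkF s x + 2` is an `AtomOver`; extend `P` and `h` from the subtype to all sets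
by `fun A => ∃ hA, P ⟨A, hA⟩` and by `if`/`dite` with value `1`). `PolyLat.comap`: everything is transported by `e`. -/

namespace H63.KO

open Set

variable {V : Type} [AddCommGroup V] [Module ℝ V] {ι : Type}

/-- the face lattice of an acyclic family -/
theorem famLat [FiniteDimensional ℝ V] [Finite ι] (s : ι → V)
    (h0 : ∃ l : Module.Dual ℝ V, ∀ i, 0 < l (s i)) (n : ℕ) (hn : rkF s univ = n + 1) :
    ∃ P : PolyLat {A : Set ι // IsFace s A}, P.d = n := by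
  classical
  have hrk0 : rkF s (∅ : Set ι) = 0 := by simp [rkF]
  have hat : ∀ x v E : {A : Set ι // IsFace s A}, x < v → v < E → rkF s E.1 = rkF s x.1 + 2 →
      AtomOver s x.1 v.1 := by
    intro x v E h1 h2 h3
    have h4 := rkF_lt x.2 h1
    have h5 := rkF_lt v.2 h2
    exact ⟨v.2, h1, by omega⟩
  refine ⟨{
    rk := fun A => rkF s A.1
    d := n
    bot := ⟨∅, isFace_empty h0⟩
    top := ⟨univ, isFace_univ⟩
    bot_le := fun x => Set.empty_subset x.1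
    le_top := fun x => Set.subset_univ x.1
    rk_bot := hrk0
    rk_top := hn
    rk_lt := fun x y hxy => rkF_lt x.2 hxy
    step := fun x y hxy => ?_
    diam := fun x y z hxz hzy hrk => ?_
    meet := fun A B => ⟨⟨A.1 ∩ B.1, A.2.inter B.2⟩, fun i hi => hi.1, fun i hi => hi.2,
      fun z h1 h2 i hi => ⟨h1 hi, h2 hi⟩⟩
    conn := fun x y hxy hrk P hP v w hxv hvy hrv hxw hwy hrw hPv => ?_
    sc := fun x y hxy hrk G _ h hloc => ?_ }, rfl⟩
  · obtain ⟨z, hz, hzy⟩ := H63.KO.step x.2 y.2 hxy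
    exact ⟨⟨z, hz.1⟩, hz.2.1, hzy, hz.2.2⟩
  · obtain ⟨z', hz', h1, h2, h3, h4⟩ := diamF x.2 y.2 z.2 hxz hzy hrk
    refine ⟨⟨z', hz'⟩, h1, h2, fun h => h3 (congrArg Subtype.val h), fun w hw1 hw2 => ?_⟩
    rcases h4 w.1 w.2 hw1 hw2 with h | h
    · exact Or.inl (Subtype.ext h)
    · exact Or.inr (Subtype.ext h)
  · obtain ⟨_, h⟩ := connF x.2 y.2 hxy hrk (fun A => ∃ hA : IsFace s A, P ⟨A, hA⟩)
      (fun E v w hE hEy hrE hv hvE hw hwE hP1 => by
        obtain ⟨h1, h2⟩ := hP1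
        exact ⟨hw.1, hP ⟨E, hE⟩ ⟨v, h1⟩ ⟨w, hw.1⟩ hEy hrE hv.2.1 hvE hw.2.1 hwE h2⟩)
      ⟨v.2, hxv, hrv⟩ hvy ⟨w.2, hxw, hrw⟩ hwy ⟨v.2, hPv⟩
    exact h
  · obtain ⟨t, ht⟩ := scF x.2 y.2 hxy hrk
      (fun A B C => if hA : IsFace s A ∧ IsFace s B ∧ IsFace s C then
        h ⟨A, hA.1⟩ ⟨B, hA.2.1⟩ ⟨C, hA.2.2⟩ else 1)
      (fun S hS hxS hSy hrS => by
        obtain ⟨t, ht⟩ := hloc ⟨S, hS⟩ hxS hSy hrS
        refine ⟨fun A => if hA : IsFace s A then t ⟨A, hA⟩ else 1, ?_⟩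
        rintro E v w ⟨hE1, hE2, hE3, hv, hvE, hw, hwE, hne⟩
        change (if hA : IsFace s w then t ⟨w, hA⟩ else 1) =
          (if hA : IsFace s v then t ⟨v, hA⟩ else 1) *
          (if hA : IsFace s E ∧ IsFace s v ∧ IsFace s w then
            h ⟨E, hA.1⟩ ⟨v, hA.2.1⟩ ⟨w, hA.2.2⟩ else 1)
        rw [dif_pos hw.1, dif_pos hv.1, dif_pos (⟨hE1, hv.1, hw.1⟩ : IsFace s E ∧ IsFace s v ∧ IsFace s w)]
        exact ht ⟨E, hE1⟩ ⟨v, hv.1⟩ ⟨w, hw.1⟩ hE2 hE3 hv.2.1 hvE hw.2.1 hwE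
          (fun h => hne (congrArg Subtype.val h)))
    refine ⟨fun A => t A.1, fun E v w hEy hrE hxv hvE hxw hwE hne => ?_⟩
    have h1 := ht E.1 v.1 w.1 ⟨E.2, hEy, hrE, hat x v E hxv hvE hrE, hvE, hat x w E hxw hwE hrE, hwE,
      fun h => hne (Subtype.ext h)⟩
    change t w.1 = t v.1 *
      (if hA : IsFace s E.1 ∧ IsFace s v.1 ∧ IsFace s w.1 then
        h ⟨E.1, hA.1⟩ ⟨v.1, hA.2.1⟩ ⟨w.1, hA.2.2⟩ else 1) at h1
    rw [dif_pos (⟨E.2, v.2, w.2⟩ : IsFace s E.1 ∧ IsFace s v.1 ∧ IsFace s w.1)] at h1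
    exact h1

/-- transport of a `PolyLat` along an order isomorphism -/
theorem PolyLat.comap {L L' : Type} [PartialOrder L] [PartialOrder L'] (e : L ≃o L')
    (P : PolyLat L') : ∃ Q : PolyLat L, Q.d = P.d := by
  have h1 : ∀ (x : L) (z : L'), e x < z → x < e.symm z := fun x z h => (e.lt_symm_apply).2 h
  have h2 : ∀ (x : L) (z : L'), z < e x → e.symm z < x := fun x z h => (e.symm_apply_lt).2 h
  have h3 : ∀ (x : L) (z : L'), e x ≤ z → x ≤ e.symm z := fun x z h => (e.le_symm_apply).2 h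
  have h4 : ∀ (x : L) (z : L'), z ≤ e x → e.symm z ≤ x := fun x z h => (e.symm_apply_le).2 h
  have h5 : ∀ z z' : L', z < z' → e.symm z < e.symm z' := fun z z' h => e.symm.lt_iff_lt.2 h
  have h6 : ∀ z z' : L', z ≤ z' → e.symm z ≤ e.symm z' := fun z z' h => e.symm.le_iff_le.2 h
  have h7 : ∀ x x' : L, x < x' → e x < e x' := fun x x' h => e.lt_iff_lt.2 h
  have h8 : ∀ x x' : L, x ≤ x' → e x ≤ e x' := fun x x' h => e.le_iff_le.2 h
  have h9 : ∀ z : L', P.rk (e (e.symm z)) = P.rk z := fun z => by rw [e.apply_symm_apply]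
  refine ⟨{
    rk := fun x => P.rk (e x)
    d := P.d
    bot := e.symm P.bot
    top := e.symm P.top
    bot_le := fun x => h4 _ _ (P.bot_le _)
    le_top := fun x => h3 _ _ (P.le_top _)
    rk_bot := by rw [h9]; exact P.rk_bot
    rk_top := by rw [h9]; exact P.rk_top
    rk_lt := fun x y hxy => P.rk_lt _ _ (h7 _ _ hxy)
    step := fun x y hxy => ?_
    diam := fun x y z hxz hzy hrk => ?_
    meet := fun A B => ?_
    conn := fun x y hxy hrk Q hQ v w hxv hvy hrv hxw hwy hrw hQv => ?_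
    sc := fun x y hxy hrk G _ h hloc => ?_ }, rfl⟩
  · obtain ⟨z, hz1, hz2, hz3⟩ := P.step _ _ (h7 _ _ hxy)
    exact ⟨e.symm z, h1 _ _ hz1, h4 _ _ hz2, by rw [h9]; exact hz3⟩
  · obtain ⟨z', hz1, hz2, hz3, hz4⟩ := P.diam _ _ _ (h7 _ _ hxz) (h7 _ _ hzy) hrk
    refine ⟨e.symm z', h1 _ _ hz1, h2 _ _ hz2, fun h => hz3 ?_, fun w hw1 hw2 => ?_⟩
    · rw [← h, e.apply_symm_apply]
    · rcases hz4 _ (h7 _ _ hw1) (h7 _ _ hw2) with h | h
      · exact Or.inl (e.injective h)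
      · exact Or.inr (by rw [← h, e.symm_apply_apply])
  · obtain ⟨C, hC1, hC2, hC3⟩ := P.meet (e A) (e B)
    exact ⟨e.symm C, h4 _ _ hC1, h4 _ _ hC2, fun z hz1 hz2 => h3 _ _ (hC3 _ (h8 _ _ hz1) (h8 _ _ hz2))⟩
  · have h := P.conn _ _ (h7 _ _ hxy) hrk (fun z => Q (e.symm z))
      (fun E v w hEy hrE hxv hvE hxw hwE hQ1 => hQ (e.symm E) (e.symm v) (e.symm w) (h4 _ _ hEy)
        (by rw [h9]; exact hrE) (h1 _ _ hxv) (h5 _ _ hvE) (h1 _ _ hxw) (h5 _ _ hwE) hQ1)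
      (e v) (e w) (h7 _ _ hxv) (h8 _ _ hvy) hrv (h7 _ _ hxw) (h8 _ _ hwy) hrw
      (by rw [e.symm_apply_apply]; exact hQv)
    rw [e.symm_apply_apply] at h
    exact h
  · obtain ⟨t, ht⟩ := P.sc _ _ (h7 _ _ hxy) hrk G (fun a b c => h (e.symm a) (e.symm b) (e.symm c))
      (fun S hxS hSy hrS => by
        obtain ⟨t, ht⟩ := hloc (e.symm S) (h1 _ _ hxS) (h4 _ _ hSy) (by rw [h9]; exact hrS)
        exact ⟨fun a => t (e.symm a), fun E v w hES hrE hxv hvE hxw hwE hne =>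
          ht (e.symm E) (e.symm v) (e.symm w) (h6 _ _ hES) (by rw [h9]; exact hrE) (h1 _ _ hxv)
            (h5 _ _ hvE) (h1 _ _ hxw) (h5 _ _ hwE) (fun h => hne (e.symm.injective h))⟩)
    refine ⟨fun a => t (e a), fun E v w hEy hrE hxv hvE hxw hwE hne => ?_⟩
    have h10 := ht (e E) (e v) (e w) (h8 _ _ hEy) hrE (h7 _ _ hxv) (h7 _ _ hvE) (h7 _ _ hxw)
      (h7 _ _ hwE) (fun h => hne (e.injective h))
    simp only [e.symm_apply_apply] at h10
    exact h10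

end H63.KO
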