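import Mathlib

/-! # KO.Fam : faces of a finite vector family (definitions and the basic linear programming facts)

Paper: `/team-store/h63_korbit_paper.md`, section A1. -/

namespace H63.KO

open Set

variable {V : Type} [AddCommGroup V] [Module ℝ V] {ι : Type}

/-- the functional `l` defines the face `A` of the family `s` -/
def Defn (s : ι → V) (A : Set ι) (l : Module.Dual ℝ V) : Prop :=
  (∀ i, 0 ≤ l (s i)) ∧ ∀ i, i ∈ A ↔ l (s i) = 0

/-- `A` is a face of the family `s` -/
def IsFace (s : ι → V) (A : Set ι) : Prop := ∃ l : Module.Dual ℝ V, Defn s A l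

/-- the rank of a set of indices: the dimension of the span of the vectors -/
noncomputable def rkF (s : ι → V) (A : Set ι) : ℕ :=
  Module.finrank ℝ (Submodule.span ℝ (s '' A))

/-- the ratio `l / lx` at the atom `v` over `x` (the value at any index of `v` outside `x`) -/
noncomputable def rat (s : ι → V) (lx l : Module.Dual ℝ V) (x v : Set ι) : ℝ := by
  classical
  exact if h : ∃ i, i ∈ v ∧ i ∉ x then l (s h.choose) / lx (s h.choose) else 0

/-- `v` is a face, of rank one more than `x`, strictly above `x` -/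
def AtomOver (s : ι → V) (x v : Set ι) : Prop :=
  IsFace s v ∧ x ⊂ v ∧ rkF s v = rkF s x + 1

variable {s : ι → V} {x y z v w : Set ι}

theorem isFace_empty (h0 : ∃ l : Module.Dual ℝ V, ∀ i, 0 < l (s i)) : IsFace s ∅ := by
  obtain ⟨l, hl⟩ := h0
  exact ⟨l, fun i => (hl i).le, fun i => ⟨fun h => h.elim, fun h => absurd h (hl i).ne'⟩⟩

theorem isFace_univ : IsFace s (univ : Set ι) := by
  exact ⟨0, fun i => by simp, fun i => by simp⟩

theorem IsFace.inter (hx : IsFace s x) (hy : IsFace s y) : IsFace s (x ∩ y) := by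
  obtain ⟨l, hl, hl'⟩ := hx
  obtain ⟨m, hm, hm'⟩ := hy
  refine ⟨l + m, fun i => ?_, fun i => ?_⟩
  · rw [LinearMap.add_apply]; exact add_nonneg (hl i) (hm i)
  · rw [LinearMap.add_apply, mem_inter_iff, hl', hm']
    constructor
    · rintro ⟨h1, h2⟩; rw [h1, h2, add_zero]
    · intro h
      have h1 := hl i
      have h2 := hm i
      constructor <;> linarith

/-- (K1) a functional nonnegative on the face `y` cuts a face out of `y`
(add a large multiple of the functional defining `y`) -/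
theorem IsFace.sub [Finite ι] (hy : IsFace s y) (l : Module.Dual ℝ V)
    (hl : ∀ i ∈ y, 0 ≤ l (s i)) : IsFace s {i | i ∈ y ∧ l (s i) = 0} := by
  classical
  obtain ⟨m, hm, hm'⟩ := hy
  cases nonempty_fintype ι
  -- a number `c` with `0 < c * m (s i) + l (s i)` for all `i` outside `y`
  obtain ⟨c, hc⟩ : ∃ c : ℝ, ∀ i, i ∉ y → 0 < c * m (s i) + l (s i) := by
    have key : ∀ i, ∃ c0 : ℝ, ∀ c, c0 ≤ c → i ∉ y → 0 < c * m (s i) + l (s i) := by
      intro i
      by_cases hi : i ∈ y
      · exact ⟨0, fun c _ h => absurd hi h⟩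
      · have h1 : 0 < m (s i) := lt_of_le_of_ne (hm i) (fun h => hi ((hm' i).2 h.symm))
        refine ⟨(1 - l (s i)) / m (s i), fun c hc _ => ?_⟩
        have := mul_le_mul_of_nonneg_right hc h1.le
        rw [div_mul_cancel₀ _ h1.ne'] at this
        linarith
    choose c0 hc0 using key
    refine ⟨∑ i, |c0 i|, fun i hi => hc0 i _ ?_ hi⟩
    exact le_trans (le_abs_self _) (Finset.single_le_sum (f := fun i => |c0 i|)
      (fun j _ => abs_nonneg _) (Finset.mem_univ i))
  refine ⟨c • m + l, fun i => ?_, fun i => ?_⟩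
  · rw [LinearMap.add_apply, LinearMap.smul_apply, smul_eq_mul]
    by_cases hi : i ∈ y
    · rw [(hm' i).1 hi, mul_zero, zero_add]; exact hl i hi
    · exact (hc i hi).le
  · rw [LinearMap.add_apply, LinearMap.smul_apply, smul_eq_mul, mem_setOf_eq]
    by_cases hi : i ∈ y
    · rw [(hm' i).1 hi, mul_zero, zero_add]; simp [hi]
    · constructor
      · rintro ⟨h, _⟩; exact absurd h hi
      · intro h; exact absurd h (hc i hi).ne'

/-- (K2) the maximum of the ratio `l / lx` on `y` is attained on a face strictly above `x` -/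
theorem IsFace.ratio [Finite ι] {lx : Module.Dual ℝ V} (hx : Defn s x lx) (hy : IsFace s y)
    (hxy : x ⊂ y) (l : Module.Dual ℝ V) (hl : ∀ i ∈ x, l (s i) = 0) :
    ∃ t : ℝ, (∀ i ∈ y, l (s i) ≤ t * lx (s i)) ∧
      IsFace s {i | i ∈ y ∧ l (s i) = t * lx (s i)} ∧
      x ⊂ {i | i ∈ y ∧ l (s i) = t * lx (s i)} := by
  classical
  obtain ⟨hx1, hx2⟩ := hx
  have hfin : (y \ x).Finite := Set.toFinite _
  have hne : (y \ x).Nonempty := by
    obtain ⟨i, hi, hi'⟩ := (Set.ssubset_iff_of_subset hxy.1).1 hxy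
    exact ⟨i, hi, hi'⟩
  obtain ⟨j, hj, hjmax⟩ := hfin.exists_maximalFor (fun i => l (s i) / lx (s i)) (y \ x) hne
  have hpos : ∀ i, i ∉ x → 0 < lx (s i) := fun i hi =>
    lt_of_le_of_ne (hx1 i) (fun h => hi ((hx2 i).2 h.symm))
  set t := l (s j) / lx (s j) with ht
  have hle : ∀ i ∈ y, l (s i) ≤ t * lx (s i) := by
    intro i hi
    by_cases hix : i ∈ x
    · rw [hl i hix, (hx2 i).1 hix, mul_zero]
    · have h1 : l (s i) / lx (s i) ≤ t := by
        by_contra hcon
        push Not at hcon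
        exact absurd (hjmax ⟨hi, hix⟩ hcon.le) (not_le.2 hcon)
      rwa [div_le_iff₀ (hpos i hix)] at h1
  refine ⟨t, hle, ?_, ?_⟩
  · have := hy.sub (t • lx - l) (fun i hi => by
      rw [LinearMap.sub_apply, LinearMap.smul_apply, smul_eq_mul]; linarith [hle i hi])
    convert this using 3
    rw [LinearMap.sub_apply, LinearMap.smul_apply, smul_eq_mul]
    constructor
    · rintro ⟨h1, h2⟩; exact ⟨h1, by linarith⟩
    · rintro ⟨h1, h2⟩; exact ⟨h1, by linarith⟩
  · rw [Set.ssubset_iff_of_subset]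
    · refine ⟨j, ⟨hj.1, ?_⟩, hj.2⟩
      rw [ht, div_mul_cancel₀ _ (hpos j hj.2).ne']
    · intro i hi
      exact ⟨hxy.1 hi, by rw [hl i hi, (hx2 i).1 hi, mul_zero]⟩

/-- the rank is strictly monotone above a face -/
theorem rkF_lt [FiniteDimensional ℝ V] (hx : IsFace s x) (hxy : x ⊂ y) :
    rkF s x < rkF s y := by
  obtain ⟨l, hl1, hl2⟩ := hx
  apply Submodule.finrank_lt_finrank_of_lt
  obtain ⟨i, hi, hi'⟩ := (Set.ssubset_iff_of_subset hxy.1).1 hxy
  refine lt_of_le_of_ne (Submodule.span_mono (Set.image_mono hxy.1)) ?_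
  intro h
  have h1 : s i ∈ Submodule.span ℝ (s '' x) := by
    rw [h]; exact Submodule.subset_span ⟨i, hi, rfl⟩
  have h2 : Submodule.span ℝ (s '' x) ≤ LinearMap.ker l := by
    rw [Submodule.span_le]
    rintro _ ⟨j, hj, rfl⟩
    exact (hl2 j).1 hj
  exact hi' ((hl2 i).2 (h2 h1))

/-- two different atoms over `x` meet in `x` -/
theorem AtomOver.inter [FiniteDimensional ℝ V] (hx : IsFace s x) (hv : AtomOver s x v)
    (hw : AtomOver s x w) (hvw : v ≠ w) : v ∩ w = x := by
  obtain ⟨hv1, hv2, hv3⟩ := hv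
  obtain ⟨hw1, hw2, hw3⟩ := hw
  by_contra hne
  have h1 : x ⊂ v ∩ w := by
    refine lt_of_le_of_ne (subset_inter hv2.1 hw2.1) (fun h => hne h.symm)
  have h2 : v ∩ w ⊂ v := by
    refine lt_of_le_of_ne inter_subset_left (fun h => ?_)
    have h3 : v ⊆ w := by rw [← h]; exact inter_subset_right
    have h4 : v ⊂ w := lt_of_le_of_ne h3 hvw
    have := rkF_lt hv1 h4
    omega
  have h3 := rkF_lt hx h1
  have h4 := rkF_lt (hv1.inter hw1) h2
  omega

end H63.KO
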