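import Mathlib

/-! # KO.Double : doubling (paper C4)

`double`: the group `C` of permutations commuting with all `t ∈ T` acts freely (`g v0 = v0` implies `g = 1`, by transitivity), so every subgroup `H ≤ C` has `Nat.card H ≤ Nat.card V` (`g ↦ g v0` is injective). If no `g n` is in the closure
of the other ones, then by induction on `F ⊆ Q`: `2 ^ F.card ≤ Nat.card (closure (g '' F))` (the closure for `insert n F` is strictly larger, and its order is a multiple: Lagrange). -/

namespace H63.KO

theorem double {V : Type} [Finite V] [Nonempty V] (T : Set (Equiv.Perm V))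
    (hT : ∀ v w, Relation.ReflTransGen (fun p q => ∃ t ∈ T, q = t p) v w) (Q : Finset ℕ)
    (g : ℕ → Equiv.Perm V) (hcomm : ∀ n ∈ Q, ∀ t ∈ T, g n * t = t * g n)
    (hcard : Nat.card V < 2 ^ Q.card) :
    ∃ n ∈ Q, g n ∈ Subgroup.closure (g '' {k | k ∈ Q ∧ k ≠ n}) := by
  classical
  by_contra hno
  have hno : ∀ n ∈ Q, g n ∉ Subgroup.closure (g '' {k | k ∈ Q ∧ k ≠ n}) := by
    intro n hn h
    exact hno ⟨n, hn, h⟩
  obtain ⟨v0⟩ := (inferInstance : Nonempty V)
  -- elements commuting with `T` act freely
  have hfree : ∀ h : Equiv.Perm V, (∀ t ∈ T, h * t = t * h) → h v0 = v0 → h = 1 := by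
    intro h hh h0
    have key : ∀ w, h w = w := by
      intro w
      have := hT v0 w
      induction this with
      | refl => exact h0
      | @tail w1 w2 _ h2 ih =>
        obtain ⟨t, ht, rfl⟩ := h2
        have h3 := congrArg (fun s : Equiv.Perm V => s w1) (hh t ht)
        simp only [Equiv.Perm.mul_apply] at h3
        rw [h3, ih]
    ext w
    rw [key w]
    rfl
  have hsub : ∀ H : Subgroup (Equiv.Perm V), (∀ h ∈ H, ∀ t ∈ T, h * t = t * h) →
      Nat.card H ≤ Nat.card V := by
    intro H hH
    apply Nat.card_le_card_of_injective (fun h : H => h.1 v0)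
    rintro ⟨h1, hh1⟩ ⟨h2, hh2⟩ h
    have h3 : (h2⁻¹ * h1) v0 = v0 := by
      rw [Equiv.Perm.mul_apply]
      change h2⁻¹ (h1 v0) = v0
      rw [show h1 v0 = h2 v0 from h]
      simp
    have h4 := hfree _ (hH _ (H.mul_mem (H.inv_mem hh2) hh1)) h3
    apply Subtype.ext
    exact (inv_mul_eq_one.1 h4).symm
  have hclos : ∀ F : Finset ℕ, F ⊆ Q →
      ∀ h ∈ Subgroup.closure (g '' (F : Set ℕ)), ∀ t ∈ T, h * t = t * h := by
    intro F hF h hh
    induction hh using Subgroup.closure_induction with
    | mem x hx =>
      obtain ⟨n, hn, rfl⟩ := hx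
      exact hcomm n (hF hn)
    | one => intro t _; simp
    | mul x y _ _ hx hy =>
      intro t ht
      rw [mul_assoc, hy t ht, ← mul_assoc, hx t ht, mul_assoc]
    | inv x _ hx =>
      intro t ht
      have := hx t ht
      calc x⁻¹ * t = x⁻¹ * (t * x) * x⁻¹ := by group
        _ = x⁻¹ * (x * t) * x⁻¹ := by rw [this]
        _ = t * x⁻¹ := by group
  have hmain : ∀ F : Finset ℕ, F ⊆ Q →
      2 ^ F.card ≤ Nat.card (Subgroup.closure (g '' (F : Set ℕ))) := by
    intro F
    induction F using Finset.induction_on with
    | empty =>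
      intro _
      simp only [Finset.card_empty, pow_zero]
      exact Nat.card_pos
    | insert n F hn ih =>
      intro hF
      have ih' := ih (fun x hx => hF (Finset.mem_insert_of_mem hx))
      rw [Finset.card_insert_of_notMem hn, pow_succ]
      set H := Subgroup.closure (g '' (F : Set ℕ)) with hH
      set K := Subgroup.closure (g '' ((insert n F : Finset ℕ) : Set ℕ)) with hK
      have hle : H ≤ K := by
        apply Subgroup.closure_mono
        apply Set.image_mono
        intro x hx
        exact Finset.mem_coe.2 (Finset.mem_insert_of_mem (Finset.mem_coe.1 hx))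
      have hgK : g n ∈ K := Subgroup.subset_closure ⟨n, Finset.mem_coe.2 (Finset.mem_insert_self _ _), rfl⟩
      have hgH : g n ∉ H := by
        intro h
        apply hno n (hF (Finset.mem_insert_self _ _))
        apply Subgroup.closure_mono _ h
        apply Set.image_mono
        intro x hx
        exact ⟨hF (Finset.mem_insert_of_mem (Finset.mem_coe.1 hx)), fun e => hn (e ▸ Finset.mem_coe.1 hx)⟩
      have hdvd := Subgroup.card_dvd_of_le hle
      obtain ⟨c, hc⟩ := hdvd
      have hpos : 0 < Nat.card K := Nat.card_pos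
      have hc0 : c ≠ 0 := by
        rintro rfl
        rw [mul_zero] at hc
        omega
      have hc1 : c ≠ 1 := by
        rintro rfl
        rw [mul_one] at hc
        have := Subgroup.eq_of_le_of_card_ge hle (le_of_eq hc)
        exact hgH (this ▸ hgK)
      have hc2 : 2 ≤ c := by omega
      rw [hc]
      exact Nat.mul_le_mul ih' hc2
  have h1 := hmain Q (le_refl _)
  have h2 := hsub _ (hclos Q (le_refl _))
  omega

end H63.KO
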