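import Mathlib

/-! # KO.FreeBlocks : free blocks (paper C4)

`free_blocks`: the intervals `[11 n + 1, 11 n + 11]`, `n < J.card + m`, are disjoint, each `j ∈ J` lies in at most one, so at most `J.card` of them meet `J`. -/

namespace H63.KO

theorem free_blocks (J : Finset ℕ) (m : ℕ) :
    ∃ Q : Finset ℕ, (∀ n ∈ Q, n < J.card + m) ∧ m ≤ Q.card ∧
      ∀ n ∈ Q, ∀ j ∈ J, ¬ (11 * n + 1 ≤ j ∧ j ≤ 11 * n + 11) := by
  classical
  refine ⟨Finset.range (J.card + m) \ J.image (fun j => (j - 1) / 11), ?_, ?_, ?_⟩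
  · intro n hn
    have := (Finset.mem_sdiff.1 hn).1
    exact Finset.mem_range.1 this
  · have h1 := Finset.le_card_sdiff (J.image (fun j => (j - 1) / 11)) (Finset.range (J.card + m))
    have h2 : (J.image (fun j => (j - 1) / 11)).card ≤ J.card := Finset.card_image_le
    rw [Finset.card_range] at h1
    omega
  · intro n hn j hj hjn
    apply (Finset.mem_sdiff.1 hn).2
    rw [Finset.mem_image]
    refine ⟨j, hj, ?_⟩
    show (j - 1) / 11 = n
    omega

end H63.KO
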