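import Pool.Agent.H63.KO.String
import Pool.Agent.H63.KO.Tree
import Pool.Agent.H63.KO.FreeBlocks
import Pool.Agent.H63.KO.Double

/-! # KO.Block : existence of a block (paper C4)

`J` from `tree` (for `q.s`), `m = Nat.log 2 k + 1`, `2 ^ m > k ≥ Nat.card V` (`Nat.lt_pow_succ_log_self`). `free_blocks J m`: blocks `[11 n + 1, 11 n + 11]`, `n ∈ Q`, `n < J.card + m ≤ k + Nat.log 2 k` so all blocks are inside `[1, d]`.
For `n ∈ Q` let `A = 11 n + 1`. (1) For `A + 1 ≤ i ≤ A + 8` `S.per i` is constant on `X`: as a function on `V` (`q.per i`) it is invariant under `q.s j`, `j ∈ J` (`per_far`, `per_self`, `per_succ`; `j` is outside `[A, A+10]`, so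
`j ≠ i-1, i+2`), and `J` is transitive. (2) `FSys.string` with `R = univ`: `S.per i x = 3` for `A + 2 ≤ i ≤ A + 7`. (3) `q.s i` for `A + 1 ≤ i ≤ A + 9` commutes with `q.s j`, `j ∈ J` (`s_comm`). `double` with `T` = the permutations `q.s j`, `j ∈ J`,
`g n` = the permutation `q.s (11 n + 4)`: some `n ∈ Q` with `g n` in the closure of the other ones. All the other `g k` commute with `q.s (11 n + 3)` (`|11 k + 4 - (11 n + 3)| ≥ 2` for `k ≠ n`), so `q.s (A + 3)` and `q.s (A + 2)` commute
(`A + 3 = 11 n + 4`), and `eq_of_three` (`S.per (A+2) = 3`): `q.s (A+2) = q.s (A+3)`. (4) `q.s i = q.s (i+1)` and `q.s (i+2)` commutes with `q.s i`, so with `q.s (i+1)`; `eq_of_three` at `i+1`: `q.s (i+1) = q.s (i+2)`: this gives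
`q.s i = q.s (A+2)` for `A + 2 ≤ i ≤ A + 8`. The block is `(A + 2, A + 8)`. -/

namespace H63.KO

variable {X : Type} [Finite X] {S : FSys X}

/-- a block: all `q.s i`, `a ≤ i ≤ b` are equal, and the periods are `3` -/
structure IsBlock {V : Type} (q : S.Quo V) (a b : ℕ) : Prop where
  pos : 1 ≤ a
  len : a + 6 ≤ b
  le : b ≤ S.d
  eq : ∀ i, a ≤ i → i ≤ b → ∀ v, q.s i v = q.s a v
  three : ∀ i, a ≤ i → i < b → ∀ x, S.per i x = 3

private theorem block_const {V : Type} {s : ℕ → V → V} {J : Finset ℕ}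
    (hJ : ∀ v w, Relation.ReflTransGen (fun p q => ∃ i ∈ J, q = s i p) v w) {α : Type}
    (f : V → α) (hf : ∀ j ∈ J, ∀ v, f (s j v) = f v) (v w : V) : f w = f v := by
  have h := hJ v w
  induction h with
  | refl => rfl
  | tail _ h2 ih =>
    obtain ⟨i, hi, rfl⟩ := h2
    rw [hf i hi, ih]

/-- the permutation `q.s i` -/
private def blockPerm {V : Type} (q : S.Quo V) (i : ℕ) : Equiv.Perm V :=
  ⟨q.s i, q.s i, q.s_inv i, q.s_inv i⟩

private theorem blockPerm_comm {V : Type} (q : S.Quo V) {i j : ℕ} (h : i + 2 ≤ j ∨ j + 2 ≤ i) :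
    blockPerm q i * blockPerm q j = blockPerm q j * blockPerm q i := by
  apply Equiv.ext
  intro v
  exact q.s_comm h v

theorem exists_block {V : Type} [Finite V] [Nonempty V] (q : S.Quo V) (k : ℕ)
    (hk : Nat.card V ≤ k) (hd : 11 * (k + Nat.log 2 k) ≤ S.d) : ∃ a b, IsBlock q a b := by
  classical
  have hconn : ∀ v w, Relation.ReflTransGen
      (fun p p' => ∃ i, 1 ≤ i ∧ i ≤ S.d ∧ p' = q.s i p) v w := by
    intro v w
    obtain ⟨x, rfl⟩ := q.surj v
    obtain ⟨y, rfl⟩ := q.surj w
    have h := S.conn x y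
    induction h with
    | refl => exact Relation.ReflTransGen.refl
    | tail _ h2 ih =>
      obtain ⟨i, h3, h4, rfl⟩ := h2
      exact ih.tail ⟨i, h3, h4, q.hs i _⟩
  obtain ⟨J, hJc, hJr, hJ⟩ := tree S.d q.s q.s_inv hconn
  obtain ⟨Q, hQ1, hQ2, hQ3⟩ := free_blocks J (Nat.log 2 k + 1)
  have hTT : ∀ v w, Relation.ReflTransGen
      (fun p p' => ∃ t ∈ {t : Equiv.Perm V | ∃ j ∈ J, t = blockPerm q j}, p' = t p) v w := by
    intro v w
    have h := hJ v w
    induction h with
    | refl => exact Relation.ReflTransGen.refl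
    | tail _ h2 ih =>
      obtain ⟨i, h3, rfl⟩ := h2
      exact ih.tail ⟨blockPerm q i, ⟨i, h3, rfl⟩, rfl⟩
  obtain ⟨n, hn, hg⟩ := double {t : Equiv.Perm V | ∃ j ∈ J, t = blockPerm q j} hTT Q
    (fun n => blockPerm q (11 * n + 4))
    (by
      rintro n hn t ⟨j, hj, rfl⟩
      have h := hQ3 n hn j hj
      exact blockPerm_comm q (by omega))
    (by
      calc Nat.card V ≤ k := hk
        _ < 2 ^ (Nat.log 2 k + 1) := Nat.lt_pow_succ_log_self (by norm_num) k
        _ ≤ 2 ^ Q.card := Nat.pow_le_pow_right (by norm_num) hQ2)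
  have hnd : 11 * n + 11 ≤ S.d := by
    have h1 := hQ1 n hn
    have h2 : n + 1 ≤ k + Nat.log 2 k := by omega
    omega
  have hx0 : Nonempty X := by
    obtain ⟨v⟩ := (inferInstance : Nonempty V)
    obtain ⟨x, -⟩ := q.surj v
    exact ⟨x⟩
  obtain ⟨x0⟩ := hx0
  -- (1) the periods are constant
  have hconst : ∀ i, 11 * n + 2 ≤ i → i ≤ 11 * n + 9 → ∀ x y, S.per i x = S.per i y := by
    intro i h1 h2 x y
    rw [← q.per_π i x, ← q.per_π i y]
    refine block_const hJ (q.per i) ?_ (q.π y) (q.π x)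
    intro j hj v
    obtain ⟨z, rfl⟩ := q.surj v
    rw [← q.hs, q.per_π, q.per_π]
    have h := hQ3 n hn j hj
    exact S.per_far (by omega) z
  -- (2) they are equal to three
  have hthree : ∀ i, 11 * n + 3 ≤ i → i ≤ 11 * n + 8 → ∀ x, S.per i x = 3 := by
    intro i h1 h2 x
    by_cases h3 : i ≤ 11 * n + 7
    · have h := S.string (a := i - 1) (by omega) (by omega) Set.univ ⟨x0, trivial⟩
        (fun _ _ _ _ _ => trivial) (fun j => S.per (i - 1 + j) x)
        (fun j y _ => hconst _ (by omega) (by have := j.2; omega) y x)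
      have h4 := h.1
      have e : i - 1 + ((1 : Fin 4) : ℕ) = i := by
        have : ((1 : Fin 4) : ℕ) = 1 := rfl
        omega
      simp only [e] at h4
      exact h4
    · have h := S.string (a := i - 2) (by omega) (by omega) Set.univ ⟨x0, trivial⟩
        (fun _ _ _ _ _ => trivial) (fun j => S.per (i - 2 + j) x)
        (fun j y _ => hconst _ (by omega) (by have := j.2; omega) y x)
      have h4 := h.2.1
      have e : i - 2 + ((2 : Fin 4) : ℕ) = i := by
        have : ((2 : Fin 4) : ℕ) = 2 := rfl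
        omega
      simp only [e] at h4
      exact h4
  -- (3) two neighbouring images commute
  have hcent : blockPerm q (11 * n + 4) ∈
      Subgroup.centralizer ({blockPerm q (11 * n + 3)} : Set (Equiv.Perm V)) := by
    refine (Subgroup.closure_le _).2 ?_ hg
    rintro _ ⟨j, ⟨hj1, hj2⟩, rfl⟩
    rw [SetLike.mem_coe, Subgroup.mem_centralizer_singleton_iff]
    exact blockPerm_comm q (by omega)
  rw [Subgroup.mem_centralizer_singleton_iff] at hcent
  have hper3 : ∀ i, 11 * n + 3 ≤ i → i ≤ 11 * n + 8 → ∀ v, q.per i v = 3 := by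
    intro i h1 h2 v
    obtain ⟨x, rfl⟩ := q.surj v
    rw [q.per_π]; exact hthree i h1 h2 x
  have hchain : ∀ t, t ≤ 5 → ∀ v, q.s (11 * n + 3 + t) v = q.s (11 * n + 3 + t + 1) v := by
    intro t
    induction t with
    | zero =>
      intro _ v
      refine q.eq_of_three (hper3 _ (by omega) (by omega) v) ?_
      intro w
      have := congrArg (fun p : Equiv.Perm V => p w) hcent
      exact this.symm
    | succ t ih =>
      intro ht v
      refine q.eq_of_three (hper3 _ (by omega) (by omega) v) ?_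
      intro w
      have e : ∀ u, q.s (11 * n + 3 + (t + 1)) u = q.s (11 * n + 3 + t) u :=
        fun u => (ih (by omega) u).symm
      rw [e, e]
      exact q.s_comm (Or.inl (by omega)) w
  have hall : ∀ t, t ≤ 6 → ∀ v, q.s (11 * n + 3 + t) v = q.s (11 * n + 3) v := by
    intro t
    induction t with
    | zero => intro _ v; rfl
    | succ t ih =>
      intro ht v
      rw [← ih (by omega) v]
      exact (hchain t (by omega) v).symm
  refine ⟨11 * n + 3, 11 * n + 9, by omega, by omega, by omega, ?_, ?_⟩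
  · intro i h1 h2 v
    have := hall (i - (11 * n + 3)) (by omega) v
    have e : 11 * n + 3 + (i - (11 * n + 3)) = i := by omega
    rwa [e] at this
  · intro i h1 h2 x
    exact hthree i h1 (by omega) x

end H63.KO
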