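import Pool.Agent.H63.KO.Refl

/-! # KO.ClosedFin : a closed finite set gives a finite reflection group (paper C2)

`closed_finite`: fix `f ∈ F`; `{g | f * g ∈ F}` contains `1`; the closure of the reflections is contained in it (`Subgroup.closure_induction`, each `r_n` is its own inverse: show by induction that for all `g` in the closure
and all `f ∈ F`, `f * g ∈ F`); `g ↦ f * g` is injective, `F` is finite. -/

namespace H63.KO

variable {N : Type} [Fintype N] [DecidableEq N]

theorem Gram.closed_finite (A : Gram N) (F : Set ((N → ℝ) ≃ₗ[ℝ] (N → ℝ))) (hF : F.Finite)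
    (hne : F.Nonempty) (hcl : ∀ f ∈ F, ∀ n, f * A.r n ∈ F) :
    (Subgroup.closure (Set.range A.r) : Set ((N → ℝ) ≃ₗ[ℝ] (N → ℝ))).Finite := by
  have main : ∀ g ∈ Subgroup.closure (Set.range A.r), ∀ f ∈ F, f * g ∈ F := by
    intro g hg
    induction hg using Subgroup.closure_induction with
    | mem x hx =>
      obtain ⟨n, rfl⟩ := hx
      exact fun f hf => hcl f hf n
    | one => exact fun f hf => by rwa [mul_one]
    | mul x y _ _ hx hy =>
      intro f hf
      rw [← mul_assoc]
      exact hy _ (hx _ hf)
    | inv x _ hx =>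
      intro f hf
      have h1 : Set.MapsTo (fun f => f * x) F F := hx
      have h2 : Set.InjOn (fun f => f * x) F := fun a _ b _ hab => mul_right_cancel hab
      have h3 := (hF.injOn_iff_bijOn_of_mapsTo h1).1 h2
      obtain ⟨g, hg, hgf⟩ := h3.surjOn hf
      have : g = f * x⁻¹ := eq_mul_inv_of_mul_eq hgf
      exact this ▸ hg
  obtain ⟨f, hf⟩ := hne
  refine (hF.preimage (f := fun g => f * g) ?_).subset ?_
  · exact fun a _ b _ hab => mul_left_cancel hab
  · intro g hg
    exact main g hg f hf

end H63.KO
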