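import Pool.Agent.H63.KO.Up

/-! # KO.Conn : the atoms of an interval are connected through its edges (paper A5)

Strong induction on `rkF s y`. Let `v, w ⊆ y` be atoms over `x`, `P v`. Let `l` define `v`: its ratio at `v` is `0`. `IsFace.ratio` for
`x ⊂ y` and `l`: maximum `t`, face `z = {i ∈ y | l = t lx}`; `t > 0` because `v ⊂ y` (ranks), so `z ≠ y` (on `v \ x` `l = 0 < t lx`).
`climb` for `P` from `v`: an atom `v'` with `P v'` and maximal ratio, so `v' ⊆ z`. `climb` for `fun u => (P u ∨ ... )`: for `w` use the predicate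
`Q u := (P u → P w)` (preserved upwards because `hP` is symmetric in the two atoms): an atom `w' ⊆ z` with `P w' → P w`. If `z` is an atom
then `v' = z = w'` (equal ranks and `v' ⊆ z`); otherwise `rkF s x + 2 ≤ rkF s z < rkF s y` and the induction hypothesis gives `P v' → P w'`. -/

namespace H63.KO

open Set

variable {V : Type} [AddCommGroup V] [Module ℝ V] {ι : Type}
variable {s : ι → V} {x y z v w : Set ι}

private theorem conn_pos {lx : Module.Dual ℝ V} (hx : Defn s x lx) {i : ι} (hi : i ∉ x) :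
    0 < lx (s i) :=
  lt_of_le_of_ne (hx.1 i) fun h => hi ((hx.2 i).2 h.symm)

/-- an atom of maximal ratio is contained in the face where the maximum is attained -/
private theorem conn_sub [FiniteDimensional ℝ V] {lx l : Module.Dual ℝ V} (hx : Defn s x lx)
    (hl : ∀ i ∈ x, l (s i) = 0) {t : ℝ} (ht : ∀ i ∈ y, l (s i) ≤ t * lx (s i))
    (hz : x ⊂ {i | i ∈ y ∧ l (s i) = t * lx (s i)})
    (hv : AtomOver s x v) (hvy : v ⊆ y)
    (hmax : ∀ i ∈ y, l (s i) ≤ rat s lx l x v * lx (s i)) :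
    v ⊆ {i | i ∈ y ∧ l (s i) = t * lx (s i)} := by
  obtain ⟨i0, hi0, hi0'⟩ := (Set.ssubset_iff_of_subset hz.1).1 hz
  obtain ⟨i1, hi1, hi1'⟩ := (Set.ssubset_iff_of_subset hv.2.1.1).1 hv.2.1
  have hsp := rat_spec hx hv l hl
  have h1 : t ≤ rat s lx l x v := by
    have h2 := hmax i0 hi0.1
    rw [hi0.2] at h2
    exact le_of_mul_le_mul_right h2 (conn_pos hx hi0')
  have h3 : rat s lx l x v ≤ t := by
    have h4 := ht i1 (hvy hi1)
    rw [hsp i1 hi1] at h4
    exact le_of_mul_le_mul_right h4 (conn_pos hx hi1')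
  have h5 : rat s lx l x v = t := le_antisymm h3 h1
  intro i hi
  refine ⟨hvy hi, ?_⟩
  rw [hsp i hi, h5]

private theorem conn_aux [FiniteDimensional ℝ V] [Finite ι] (hx : IsFace s x) (P : Set ι → Prop)
    (n : ℕ) : ∀ (y v w : Set ι), rkF s y = n → IsFace s y → x ⊂ y → rkF s x + 2 ≤ rkF s y →
    (∀ E v w, IsFace s E → E ⊆ y → rkF s E = rkF s x + 2 → AtomOver s x v → v ⊂ E →
      AtomOver s x w → w ⊂ E → P v → P w) →
    AtomOver s x v → v ⊆ y → AtomOver s x w → w ⊆ y → P v → P w := by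
  induction n using Nat.strong_induction_on with
  | _ n ih =>
  intro y v w hn hy hxy hrk hP hv hvy hw hwy hPv
  obtain ⟨lx, hlx⟩ := hx
  have hvy' : v ⊂ y := by
    refine lt_of_le_of_ne hvy fun h => ?_
    have := hv.2.2
    rw [h] at this
    omega
  obtain ⟨l, hl⟩ := hv.1
  have hlx0 : ∀ i ∈ x, l (s i) = 0 := fun i hi => (hl.2 i).1 (hv.2.1.1 hi)
  obtain ⟨t, ht, hz, hxz⟩ := hy.ratio hlx hxy l hlx0
  have htpos : 0 < t := by
    obtain ⟨i, hi, hi'⟩ := (Set.ssubset_iff_of_subset hvy'.1).1 hvy'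
    have h1 : 0 < l (s i) := conn_pos hl hi'
    have h2 : 0 < lx (s i) := conn_pos hlx fun h => hi' (hv.2.1.1 h)
    have h3 := ht i hi
    by_contra hc
    push Not at hc
    have := mul_nonpos_of_nonpos_of_nonneg hc h2.le
    linarith
  set z : Set ι := {i | i ∈ y ∧ l (s i) = t * lx (s i)} with hzdef
  have hzy : z ⊆ y := fun i hi => hi.1
  have hzne : z ⊂ y := by
    refine lt_of_le_of_ne hzy fun h => ?_
    obtain ⟨i, hi, hi'⟩ := (Set.ssubset_iff_of_subset hv.2.1.1).1 hv.2.1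
    have h1 : i ∈ z := by rw [h]; exact hvy hi
    have h2 : l (s i) = t * lx (s i) := h1.2
    rw [(hl.2 i).1 hi] at h2
    have h3 : 0 < lx (s i) := conn_pos hlx hi'
    have := mul_pos htpos h3
    linarith
  have hzrk : rkF s z < rkF s y := rkF_lt hz hzne
  -- climb from `v`
  obtain ⟨v', hv', hv'y, hPv', _, hmaxv⟩ := climb hlx hy l hlx0 P
    (fun E a b hE hEy hEr ha haE hb hbE _ h => hP E a b hE hEy hEr ha haE hb hbE h) hv hvy hPv
  have hv'z : v' ⊆ z := conn_sub hlx hlx0 ht hxz hv' hv'y hmaxv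
  -- climb from `w`
  obtain ⟨w', hw', hw'y, hQw', _, hmaxw⟩ := climb hlx hy l hlx0 (fun u => P u → P w)
    (fun E a b hE hEy hEr ha haE hb hbE _ h h' => h (hP E b a hE hEy hEr hb hbE ha haE h'))
    hw hwy (fun h => h)
  have hw'z : w' ⊆ z := conn_sub hlx hlx0 ht hxz hw' hw'y hmaxw
  refine hQw' ?_
  have hxz' := rkF_lt ⟨lx, hlx⟩ hxz
  have hatom : ∀ u, AtomOver s x u → u ⊆ z → rkF s z = rkF s x + 1 → u = z := by
    intro u hu huz hr
    by_contra hne
    have h1 := rkF_lt hu.1 (lt_of_le_of_ne huz hne)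
    have h2 := hu.2.2
    omega
  by_cases hr : rkF s z = rkF s x + 1
  · rw [hatom w' hw' hw'z hr, ← hatom v' hv' hv'z hr]
    exact hPv'
  · exact ih (rkF s z) (by omega) z v' w' rfl hz hxz (by omega)
      (fun E a b hE hEz hEr ha haE hb hbE h => hP E a b hE (hEz.trans hzy) hEr ha haE hb hbE h)
      hv' hv'z hw' hw'z hPv'

/-- (A5) CONN -/
theorem connF [FiniteDimensional ℝ V] [Finite ι] (hx : IsFace s x) (hy : IsFace s y) (hxy : x ⊂ y)
    (hrk : rkF s x + 2 ≤ rkF s y) (P : Set ι → Prop)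
    (hP : ∀ E v w, IsFace s E → E ⊆ y → rkF s E = rkF s x + 2 → AtomOver s x v → v ⊂ E →
      AtomOver s x w → w ⊂ E → P v → P w)
    (hv : AtomOver s x v) (hvy : v ⊆ y) (hw : AtomOver s x w) (hwy : w ⊆ y) (hPv : P v) : P w := by
  exact conn_aux hx P (rkF s y) y v w rfl hy hxy hrk hP hv hvy hw hwy hPv

end H63.KO
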