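import Pool.Agent.H63.KO.Sys

/-! # KO.Cyc : local potentials on the residues of two involutions (paper C1)

Let `A (x, h) = (α x, h * ga x)`, `B (x, h) = (β x, h * gb x)` on `R × G` (extend by the identity outside `R`, or work with words). They are involutions by `ia`, `ib`, and commute with left multiplication
of the second coordinate. `(A ∘ B)^p (x, h) = (x, h)` for `p = minimalPeriod (α ∘ β) x` is the hypothesis `hc`. Elements of the group generated by `A, B` are `(AB)^n` and `A (AB)^n`, `n ∈ ℤ`.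
If `(AB)^n (x, 1) = (x, h)` then `p ∣ n`, so `h = 1`. `A (AB)^n (x,1)` never lies over `x`: `α (αβ)^n x = x` would give a fixed point of `α` or `β`
(`(αβ)^m x` is fixed by `α` or `β` for a suitable `m`, because `α (αβ)^n = (αβ)^(-m) γ (αβ)^m`, `γ ∈ {α, β}`). So over every point of the orbit of `x` there is exactly one point of the orbit of `(x, 1)`.
Choose a representative `x` in every orbit and let `u y` be the second coordinate of the point over `y` in the orbit of `(x, 1)`.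
(An alternative with less group theory: `X` is finite, so let `u` be defined along `n ↦ (αβ)^n x` and `n ↦ β (αβ)^n x` for `0 ≤ n < p`.) -/

namespace H63.KO

section CycAux

variable {Y Z : Type} (A B : Equiv.Perm Y)

/-- `y` is in the orbit of `y0` under the dihedral group generated by `A`, `B` -/
private def cycOrb (y0 y : Y) : Prop := ∃ n : ℤ, y = ((A * B) ^ n) y0 ∨ y = A (((A * B) ^ n) y0)

private theorem cycOrb_refl (y : Y) : cycOrb A B y y := ⟨0, Or.inl rfl⟩

private theorem cycOrb_A (hA : ∀ y, A (A y) = y) {y0 y : Y} (h : cycOrb A B y0 y) :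
    cycOrb A B y0 (A y) := by
  obtain ⟨n, h | h⟩ := h
  · exact ⟨n, Or.inr (by rw [h])⟩
  · exact ⟨n, Or.inl (by rw [h, hA])⟩

private theorem cycOrb_inv (hA : ∀ y, A (A y) = y) (hB : ∀ y, B (B y) = y) (y : Y) :
    ((A * B)⁻¹) y = B (A y) := by
  rw [Equiv.Perm.inv_eq_iff_eq]
  simp only [Equiv.Perm.coe_mul, Function.comp_apply, hA, hB]

private theorem cycOrb_B (hA : ∀ y, A (A y) = y) (hB : ∀ y, B (B y) = y) {y0 y : Y}
    (h : cycOrb A B y0 y) : cycOrb A B y0 (B y) := by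
  obtain ⟨n, h | h⟩ := h
  · refine ⟨n + 1, Or.inr ?_⟩
    rw [add_comm, zpow_add, zpow_one, h]
    simp only [Equiv.Perm.coe_mul, Function.comp_apply, hA]
  · refine ⟨n - 1, Or.inl ?_⟩
    rw [sub_eq_add_neg, add_comm, zpow_add, zpow_neg_one, Equiv.Perm.coe_mul, Function.comp_apply,
      cycOrb_inv A B hA hB, h]

private theorem cycOrb_no (hA : ∀ y, A (A y) = y) (hB : ∀ y, B (B y) = y) (fA : ∀ y, A y ≠ y)
    (fB : ∀ y, B y ≠ y) (n : ℤ) (y : Y) : A (((A * B) ^ n) y) ≠ y := by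
  -- `A T^n = T^(-n) A`
  have hc : ∀ m : ℤ, ∀ z, A (((A * B) ^ m) z) = ((A * B) ^ (-m)) (A z) := by
    have hA2 : A * A = 1 := Equiv.ext fun z => hA z
    have hB2 : B * B = 1 := Equiv.ext fun z => hB z
    have hAi : A⁻¹ = A := inv_eq_of_mul_eq_one_left hA2
    have hBi : B⁻¹ = B := inv_eq_of_mul_eq_one_left hB2
    have h1 : A * (A * B) * A⁻¹ = (A * B)⁻¹ := by
      rw [mul_inv_rev, hAi, hBi, ← mul_assoc, hA2, one_mul]
    intro m z
    have h2 : A * (A * B) ^ m * A⁻¹ = (A * B) ^ (-m) := by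
      rw [← conj_zpow, h1, inv_zpow, zpow_neg]
    have h3 : A * (A * B) ^ m = (A * B) ^ (-m) * A := by
      rw [← h2, inv_mul_cancel_right]
    exact congrArg (fun e : Equiv.Perm Y => e z) h3
  intro h
  rcases Int.even_or_odd n with ⟨m, hm⟩ | ⟨m, hm⟩
  · apply fA (((A * B) ^ m) y)
    rw [hm, zpow_add, Equiv.Perm.coe_mul, Function.comp_apply, hc m] at h
    have h4 := congrArg ((A * B) ^ m) h
    rw [← Equiv.Perm.mul_apply, ← zpow_add, add_neg_cancel, zpow_zero, Equiv.Perm.one_apply] at h4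
    exact h4
  · apply fB (((A * B) ^ m) y)
    have hm' : n = m + (1 + m) := by omega
    rw [hm', zpow_add, Equiv.Perm.coe_mul, Function.comp_apply, hc m, zpow_add, zpow_one,
      Equiv.Perm.coe_mul, Function.comp_apply, Equiv.Perm.coe_mul, Function.comp_apply, hA] at h
    have h4 := congrArg ((A * B) ^ m) h
    rw [← Equiv.Perm.mul_apply, ← zpow_add, add_neg_cancel, zpow_zero, Equiv.Perm.one_apply] at h4
    exact h4

private theorem cycOrb_proj (a b : Equiv.Perm Z) (f : Y → Z) (hA : ∀ y, A (A y) = y)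
    (hB : ∀ y, B (B y) = y) (ha : ∀ y, a (a y) = y) (hb : ∀ y, b (b y) = y)
    (fa : ∀ y, f (A y) = a (f y)) (fb : ∀ y, f (B y) = b (f y)) (n : ℤ) :
    ∀ y, f (((A * B) ^ n) y) = ((a * b) ^ n) (f y) := by
  induction n using Int.induction_on with
  | zero => intro y; rfl
  | succ n ih =>
    intro y
    rw [zpow_add_one, zpow_add_one, Equiv.Perm.mul_apply, Equiv.Perm.mul_apply, ih,
      Equiv.Perm.mul_apply, Equiv.Perm.mul_apply, fa, fb]
  | pred n ih =>
    intro y
    rw [zpow_sub_one, zpow_sub_one, Equiv.Perm.mul_apply, Equiv.Perm.mul_apply, ih,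
      cycOrb_inv A B hA hB, cycOrb_inv a b ha hb, fb, fa]

end CycAux

theorem cyc {X G : Type} [Finite X] [Group G] (α β : X → X) (hα : ∀ x, α (α x) = x)
    (hβ : ∀ x, β (β x) = x) (fα : ∀ x, α x ≠ x) (fβ : ∀ x, β x ≠ x) (R : Set X)
    (hRα : ∀ x ∈ R, α x ∈ R) (hRβ : ∀ x ∈ R, β x ∈ R) (ga gb : X → G)
    (ia : ∀ x ∈ R, ga x * ga (α x) = 1) (ib : ∀ x ∈ R, gb x * gb (β x) = 1)
    (hc : ∀ x ∈ R, ∀ h : G, (fun p : X × G => (α (β p.1), p.2 * gb p.1 * ga (β p.1)))^[
      Function.minimalPeriod (fun z => α (β z)) x] (x, h) = (x, h)) :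
    ∃ u : X → G, ∀ x ∈ R, u (α x) = u x * ga x ∧ u (β x) = u x * gb x := by
  classical
  have eα : ∀ x : R, (⟨α (⟨α x.1, hRα x.1 x.2⟩ : R).1, hRα _ (hRα x.1 x.2)⟩ : R) = x :=
    fun x => Subtype.ext (hα x.1)
  have eβ : ∀ x : R, (⟨β (⟨β x.1, hRβ x.1 x.2⟩ : R).1, hRβ _ (hRβ x.1 x.2)⟩ : R) = x :=
    fun x => Subtype.ext (hβ x.1)
  let a : Equiv.Perm R := ⟨fun x => ⟨α x.1, hRα x.1 x.2⟩, fun x => ⟨α x.1, hRα x.1 x.2⟩, eα, eα⟩
  let b : Equiv.Perm R := ⟨fun x => ⟨β x.1, hRβ x.1 x.2⟩, fun x => ⟨β x.1, hRβ x.1 x.2⟩, eβ, eβ⟩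
  have ha : ∀ x, a (a x) = x := eα
  have hb : ∀ x, b (b x) = x := eβ
  have fa : ∀ x, a x ≠ x := fun x h => fα x.1 (congrArg Subtype.val h)
  have fb : ∀ x, b x ≠ x := fun x h => fβ x.1 (congrArg Subtype.val h)
  have eA : ∀ y : R × G, ((a (a y.1, y.2 * ga y.1.1).1, (a y.1, y.2 * ga y.1.1).2 *
      ga (a y.1, y.2 * ga y.1.1).1.1) : R × G) = y := by
    rintro ⟨x, g⟩
    refine Prod.ext (ha x) ?_
    show g * ga x.1 * ga (α x.1) = g
    rw [mul_assoc, ia x.1 x.2, mul_one]
  have eB : ∀ y : R × G, ((b (b y.1, y.2 * gb y.1.1).1, (b y.1, y.2 * gb y.1.1).2 *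
      gb (b y.1, y.2 * gb y.1.1).1.1) : R × G) = y := by
    rintro ⟨x, g⟩
    refine Prod.ext (hb x) ?_
    show g * gb x.1 * gb (β x.1) = g
    rw [mul_assoc, ib x.1 x.2, mul_one]
  let A : Equiv.Perm (R × G) :=
    ⟨fun y => (a y.1, y.2 * ga y.1.1), fun y => (a y.1, y.2 * ga y.1.1), eA, eA⟩
  let B : Equiv.Perm (R × G) :=
    ⟨fun y => (b y.1, y.2 * gb y.1.1), fun y => (b y.1, y.2 * gb y.1.1), eB, eB⟩
  have hA : ∀ y, A (A y) = y := eA
  have hB : ∀ y, B (B y) = y := eB
  have pr : ∀ (n : ℤ) (y : R × G), (((A * B) ^ n) y).1 = ((a * b) ^ n) y.1 := fun n =>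
    cycOrb_proj A B a b Prod.fst hA hB ha hb (fun _ => rfl) (fun _ => rfl) n
  -- periods
  have hper : ∀ (x : R) (g : G) (n : ℤ), ((a * b) ^ n) x = x → ((A * B) ^ n) (x, g) = (x, g) := by
    intro x g n hn
    set p := Function.minimalPeriod (fun z => α (β z)) x.1 with hp
    have h1 : Function.minimalPeriod ((a * b) • ·) x = p := by
      rw [hp, Function.minimalPeriod_eq_minimalPeriod_iff]
      intro k
      have h2 : Function.Semiconj (Subtype.val : R → X) ((a * b) • ·) (fun z => α (β z)) :=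
        fun z => rfl
      have h3 := (h2.iterate_right k) x
      constructor
      · intro h
        show (fun z => α (β z))^[k] x.1 = x.1
        rw [← h3]
        exact congrArg Subtype.val h
      · intro h
        refine Subtype.ext ?_
        rw [h3]
        exact h
    have h4 : (p : ℤ) ∣ n := by
      rw [← h1]
      exact MulAction.zpow_smul_eq_iff_minimalPeriod_dvd.1 hn
    have h5 : ((A * B) ^ (p : ℤ)) (x, g) = (x, g) := by
      have h6 : Function.Semiconj (fun q : R × G => ((q.1.1, q.2) : X × G)) (A * B)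
          (fun q : X × G => (α (β q.1), q.2 * gb q.1 * ga (β q.1))) := fun z => rfl
      have h7 := (h6.iterate_right p) (x, g)
      rw [hc x.1 x.2 g] at h7
      have h8 : (A * B)^[p] (x, g) = (x, g) := by
        have h71 : (((A * B)^[p] (x, g)).1.1 : X) = x.1 := congrArg (fun q : X × G => q.1) h7
        have h72 : ((A * B)^[p] (x, g)).2 = g := congrArg (fun q : X × G => q.2) h7
        exact Prod.ext (Subtype.ext h71) h72
      rw [zpow_natCast, Equiv.Perm.coe_pow]
      exact h8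
    obtain ⟨k, rfl⟩ := h4
    rw [zpow_mul]
    have h9 : Function.IsFixedPt ((A * B) ^ (p : ℤ)) (x, g) := h5
    exact h9.perm_zpow k
  -- uniqueness
  have huniq : ∀ (y0 : R × G) (x : R) (g g' : G), cycOrb A B y0 (x, g) → cycOrb A B y0 (x, g') →
      g = g' := by
    have tt : ∀ (y0 : R × G) (n m : ℤ), (((A * B) ^ n) y0).1 = (((A * B) ^ m) y0).1 →
        ((A * B) ^ n) y0 = ((A * B) ^ m) y0 := by
      intro y0 n m h
      rw [pr, pr] at h
      have h1 : ((a * b) ^ (-m + n)) y0.1 = y0.1 := by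
        rw [zpow_add, Equiv.Perm.mul_apply, h, ← Equiv.Perm.mul_apply, ← zpow_add, neg_add_cancel,
          zpow_zero, Equiv.Perm.one_apply]
      have h2 := hper y0.1 y0.2 _ h1
      have h3 := congrArg ((A * B) ^ m) h2
      rw [← Equiv.Perm.mul_apply, ← zpow_add] at h3
      have h4 : m + (-m + n) = n := by omega
      rw [h4] at h3
      exact h3
    have ta : ∀ (y0 : R × G) (n m : ℤ), (((A * B) ^ n) y0).1 ≠ (A (((A * B) ^ m) y0)).1 := by
      intro y0 n m h
      have h1 : (A (((A * B) ^ m) y0)).1 = a ((((A * B) ^ m) y0).1) := rfl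
      rw [h1, pr, pr] at h
      apply cycOrb_no a b ha hb fa fb (m - n) (((a * b) ^ n) y0.1)
      rw [← Equiv.Perm.mul_apply ((a * b) ^ (m - n)), ← zpow_add, sub_add_cancel]
      exact h.symm
    intro y0 x g g' h h'
    obtain ⟨n, h | h⟩ := h <;> obtain ⟨m, h' | h'⟩ := h'
    · have h1 := tt y0 n m (by rw [← h, ← h'])
      rw [← h, ← h'] at h1
      exact congrArg Prod.snd h1
    · exact absurd (by rw [← h, ← h']) (ta y0 n m)
    · exact absurd (by rw [← h, ← h']) (ta y0 m n)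
    · have h2 := congrArg A h
      have h2' := congrArg A h'
      rw [hA] at h2 h2'
      have h1 := tt y0 n m (by rw [← h2, ← h2']; rfl)
      rw [← h2, ← h2'] at h1
      have h3 := A.injective h1
      exact congrArg Prod.snd h3
  -- existence over the orbit
  have hex : ∀ (r x : R), cycOrb a b r x → ∃ g, cycOrb A B (r, 1) (x, g) := by
    rintro r x ⟨n, h | h⟩
    · refine ⟨(((A * B) ^ n) (r, 1)).2, n, Or.inl ?_⟩
      refine Prod.ext ?_ rfl
      rw [pr]
      exact h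
    · refine ⟨(A (((A * B) ^ n) (r, 1))).2, n, Or.inr ?_⟩
      refine Prod.ext ?_ rfl
      show x = a ((((A * B) ^ n) (r, 1)).1)
      rw [pr]
      exact h
  -- representatives
  have hrep : ∃ rep : R → R, (∀ x, cycOrb a b (rep x) x) ∧ (∀ x, rep (a x) = rep x) ∧
      ∀ x, rep (b x) = rep x := by
    have hne : ∀ x : R, ∃ z, cycOrb a b z x := fun x => ⟨x, cycOrb_refl a b x⟩
    have key : ∀ x x' : R, (∀ z, cycOrb a b z x ↔ cycOrb a b z x') →
        (hne x).choose = (hne x').choose := by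
      intro x x' h
      have h1 : (fun z => cycOrb a b z x) = fun z => cycOrb a b z x' := funext fun z => propext (h z)
      have : ∀ (P Q : R → Prop) (hP : ∃ z, P z) (hQ : ∃ z, Q z), P = Q → hP.choose = hQ.choose := by
        intro P Q hP hQ hPQ
        subst hPQ
        rfl
      exact this _ _ (hne x) (hne x') h1
    refine ⟨fun x => (hne x).choose, fun x => (hne x).choose_spec, fun x => key _ _ ?_,
      fun x => key _ _ ?_⟩
    · intro z
      refine ⟨fun h => ?_, fun h => cycOrb_A a b ha h⟩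
      have := cycOrb_A a b ha h
      rwa [ha] at this
    · intro z
      refine ⟨fun h => ?_, fun h => cycOrb_B a b ha hb h⟩
      have := cycOrb_B a b ha hb h
      rwa [hb] at this
  obtain ⟨rep, hr, hra, hrb⟩ := hrep
  have hu : ∀ x : R, ∃ g, cycOrb A B (rep x, 1) (x, g) := fun x => hex _ _ (hr x)
  choose u hu using hu
  refine ⟨fun x => if h : x ∈ R then u ⟨x, h⟩ else 1, fun x hx => ⟨?_, ?_⟩⟩
  · show (if h : α x ∈ R then u ⟨α x, h⟩ else 1) = (if h : x ∈ R then u ⟨x, h⟩ else 1) * ga x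
    rw [dif_pos hx, dif_pos (hRα x hx)]
    have h1 := cycOrb_A A B hA (hu ⟨x, hx⟩)
    have h2 := hu (a ⟨x, hx⟩)
    rw [hra] at h2
    exact (huniq _ _ _ _ h1 h2).symm
  · show (if h : β x ∈ R then u ⟨β x, h⟩ else 1) = (if h : x ∈ R then u ⟨x, h⟩ else 1) * gb x
    rw [dif_pos hx, dif_pos (hRβ x hx)]
    have h1 := cycOrb_B A B hA hB (hu ⟨x, hx⟩)
    have h2 := hu (b ⟨x, hx⟩)
    rw [hrb] at h2
    exact (huniq _ _ _ _ h1 h2).symm

variable {X : Type} [Finite X] (S : FSys X)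

/-- constant involutory labels `r`, `t` with `(r t)^per = 1` -/
theorem FSys.pot_const {G : Type} [Group G] {i : ℕ} (h1 : 1 ≤ i) (h2 : i + 1 ≤ S.d) (R : Set X)
    (hR1 : ∀ x ∈ R, S.ρ i x ∈ R) (hR2 : ∀ x ∈ R, S.ρ (i + 1) x ∈ R) (ga gb : X → G) (r t : G)
    (hr : r * r = 1) (ht : t * t = 1) (ha : ∀ x ∈ R, ga x = r) (hb : ∀ x ∈ R, gb x = t)
    (hper : ∀ x ∈ R, (r * t) ^ S.per i x = 1) :
    ∃ u : X → G, ∀ x ∈ R, u (S.ρ i x) = u x * ga x ∧ u (S.ρ (i + 1) x) = u x * gb x := by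
  refine cyc (S.ρ i) (S.ρ (i + 1)) (S.inv i) (S.inv (i + 1)) (S.fpf i h1 (by omega))
    (S.fpf (i + 1) (by omega) h2) R hR1 hR2 ga gb ?_ ?_ ?_
  · intro x hx
    rw [ha x hx, ha _ (hR1 x hx), hr]
  · intro x hx
    rw [hb x hx, hb _ (hR2 x hx), ht]
  · intro x hx h
    have key : ∀ k : ℕ, (fun p : X × G => (S.ρ i (S.ρ (i + 1) p.1),
        p.2 * gb p.1 * ga (S.ρ (i + 1) p.1)))^[k] (x, h) =
        ((fun z => S.ρ i (S.ρ (i + 1) z))^[k] x, h * (t * r) ^ k) ∧
        (fun z => S.ρ i (S.ρ (i + 1) z))^[k] x ∈ R := by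
      intro k
      induction k with
      | zero => exact ⟨by simp, hx⟩
      | succ k ih =>
        rw [Function.iterate_succ_apply', Function.iterate_succ_apply', ih.1]
        refine ⟨Prod.ext rfl ?_, hR1 _ (hR2 _ ih.2)⟩
        show h * (t * r) ^ k * gb _ * ga _ = h * (t * r) ^ (k + 1)
        rw [hb _ ih.2, ha _ (hR2 _ ih.2), pow_succ]
        simp only [mul_assoc]
    have h3 : (t * r) ^ S.per i x = 1 := by
      have h4 : t * r = t * (r * t) * t⁻¹ := by
        rw [← mul_assoc, mul_inv_cancel_right]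
      rw [h4, conj_pow, hper x hx, mul_one, mul_inv_cancel]
    have h5 := (key (S.per i x)).1
    rw [h3, mul_one] at h5
    refine h5.trans (Prod.ext ?_ rfl)
    exact Function.iterate_minimalPeriod

end H63.KO
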