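import Pool.Agent.H63.KO.Step

/-! # KO.Diam : the diamond property (paper A3)

Existence: let `lz` define `z`. Apply `IsFace.ratio` for `x ⊂ y` and the functional `lz` (it vanishes on `x ⊆ z`): the face
`z' = {i ∈ y | lz = t * lx}` is strictly above `x`; `t > 0` (otherwise `lz ≤ 0` on `y`, so `y ⊆ z`), so `z'` meets `z` only in `x`
(on `z \ x` `lz = 0 < t * lx`), so `z' ≠ y`, `z' ≠ z`.
Uniqueness: let `w` be a face, `x ⊂ w ⊂ y`, `w ≠ z, z'`. All of `z, z', w` have rank `rkF s x + 1` (strictly between). Let `lw` define `w`, and let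
`a` = ratio of `lw` at `z`, `> 0`, `b` = ratio of `lw` at `z'`, `> 0` (`w ∩ z = x`, `w ∩ z' = x` by `AtomOver.inter`), `c` = ratio of `lz` at `w`, `0 < c`, `c ≤ t`.
The functional `m = lw - a lx - ((b - a)/t) lz` vanishes on `z` and on `z'`, hence on `span (s '' z) + span (s '' z')`, which is
`span (s '' y)` (its dimension is at least `rkF s x + 2 = rkF s y`: `z ⊂ z ∪ z'`, `rkF_lt`). On `w`: `0 = lw = (a + (b-a) c/t) lx`, but
`a + (b - a) c / t = a (1 - c/t) + b c/t > 0`. Contradiction. -/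

namespace H63.KO

open Set

variable {V : Type} [AddCommGroup V] [Module ℝ V] {ι : Type}
variable {s : ι → V} {x y z v w : Set ι}

/-- (A3) the diamond property -/
theorem diamF [FiniteDimensional ℝ V] [Finite ι] (hx : IsFace s x) (hy : IsFace s y) (hz : IsFace s z)
    (hxz : x ⊂ z) (hzy : z ⊂ y) (hrk : rkF s y = rkF s x + 2) :
    ∃ z', IsFace s z' ∧ x ⊂ z' ∧ z' ⊂ y ∧ z' ≠ z ∧
      ∀ w, IsFace s w → x ⊂ w → w ⊂ y → w = z ∨ w = z' := by
  obtain ⟨lx, hlx⟩ := id hx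
  obtain ⟨lz, hlz⟩ := id hz
  have hposx : ∀ i, i ∉ x → 0 < lx (s i) := fun i hi =>
    lt_of_le_of_ne (hlx.1 i) (fun h => hi ((hlx.2 i).2 h.symm))
  have hposz : ∀ i, i ∉ z → 0 < lz (s i) := fun i hi =>
    lt_of_le_of_ne (hlz.1 i) (fun h => hi ((hlz.2 i).2 h.symm))
  have hxy : x ⊂ y := hxz.trans hzy
  obtain ⟨t, ht1, ht2, ht3⟩ := IsFace.ratio hlx hy hxy lz (fun i hi => (hlz.2 i).1 (hxz.1 hi))
  set z' : Set ι := {i | i ∈ y ∧ lz (s i) = t * lx (s i)} with hz'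
  have ht : 0 < t := by
    obtain ⟨i, hi, hi'⟩ := (Set.ssubset_iff_of_subset hzy.1).1 hzy
    have h1 := ht1 i hi
    have h2 := hposz i hi'
    have h3 := hlx.1 i
    by_contra hcon
    push Not at hcon
    have h4 : t * lx (s i) ≤ 0 := mul_nonpos_of_nonpos_of_nonneg hcon h3
    linarith
  have hzz' : ∀ i, i ∈ z → i ∈ z' → i ∈ x := by
    intro i hi hi'
    have h1 := (hlz.2 i).1 hi
    have h2 := hi'.2
    rw [h1] at h2
    rcases mul_eq_zero.1 h2.symm with h3 | h3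
    · exact absurd h3 ht.ne'
    · exact (hlx.2 i).2 h3
  obtain ⟨i0, hi0, hi0'⟩ := (Set.ssubset_iff_of_subset hxz.1).1 hxz
  have hi0z' : i0 ∉ z' := fun h => hi0' (hzz' i0 hi0 h)
  have hne : z' ≠ z := fun h => hi0z' (h ▸ hi0)
  have hz'y : z' ⊂ y := by
    rw [Set.ssubset_iff_of_subset (fun i hi => hi.1)]
    exact ⟨i0, hzy.1 hi0, hi0z'⟩
  refine ⟨z', ht2, ht3, hz'y, hne, ?_⟩
  intro w hw hxw hwy
  by_contra hcon
  push Not at hcon
  obtain ⟨hwz, hwz'⟩ := hcon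
  have mkAtom : ∀ u, IsFace s u → x ⊂ u → u ⊂ y → AtomOver s x u := by
    intro u hu hxu huy
    refine ⟨hu, hxu, ?_⟩
    have h1 := rkF_lt hx hxu
    have h2 := rkF_lt hu huy
    omega
  have hAz := mkAtom z hz hxz hzy
  have hAz' := mkAtom z' ht2 ht3 hz'y
  have hAw := mkAtom w hw hxw hwy
  obtain ⟨lw, hlw⟩ := id hw
  have hposw : ∀ i, i ∉ w → 0 < lw (s i) := fun i hi =>
    lt_of_le_of_ne (hlw.1 i) (fun h => hi ((hlw.2 i).2 h.symm))
  have hwz1 : w ∩ z = x := AtomOver.inter hx hAw hAz hwz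
  have hwz2 : w ∩ z' = x := AtomOver.inter hx hAw hAz' hwz'
  obtain ⟨a, ha⟩ := atom_eq hlx hAz lw (fun i hi => (hlw.2 i).1 (hxw.1 hi))
  obtain ⟨b, hb⟩ := atom_eq hlx hAz' lw (fun i hi => (hlw.2 i).1 (hxw.1 hi))
  obtain ⟨c, hc⟩ := atom_eq hlx hAw lz (fun i hi => (hlz.2 i).1 (hxz.1 hi))
  have posOf : ∀ (r : ℝ) (i : ι), i ∉ x → 0 < r * lx (s i) → 0 < r := by
    intro r i hi hr
    exact (pos_iff_pos_of_mul_pos hr).2 (hposx i hi)
  have ha0 : 0 < a := by
    apply posOf a i0 hi0'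
    rw [← ha i0 hi0]
    exact hposw i0 (fun h => hi0' (hwz1 ▸ ⟨h, hi0⟩))
  have hb0 : 0 < b := by
    obtain ⟨j, hj, hj'⟩ := (Set.ssubset_iff_of_subset ht3.1).1 ht3
    apply posOf b j hj'
    rw [← hb j hj]
    exact hposw j (fun h => hj' (hwz2 ▸ ⟨h, hj⟩))
  obtain ⟨k, hk, hk'⟩ := (Set.ssubset_iff_of_subset hxw.1).1 hxw
  have hkz : k ∉ z := fun h => hk' (hwz1 ▸ ⟨hk, h⟩)
  have hc0 : 0 < c := by
    apply posOf c k hk'
    rw [← hc k hk]
    exact hposz k hkz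
  have hct : c ≤ t := by
    have h1 := ht1 k (hwy.1 hk)
    rw [hc k hk] at h1
    exact le_of_mul_le_mul_right h1 (hposx k hk')
  -- the functional
  let m : Module.Dual ℝ V := lw - a • lx - ((b - a) / t) • lz
  have hm : ∀ i, m (s i) = lw (s i) - a * lx (s i) - ((b - a) / t) * lz (s i) := fun i => by
    simp only [m, LinearMap.sub_apply, LinearMap.smul_apply, smul_eq_mul]
  have hmz : ∀ i ∈ z, m (s i) = 0 := by
    intro i hi
    rw [hm, ha i hi, (hlz.2 i).1 hi]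
    ring
  have hmz' : ∀ i ∈ z', m (s i) = 0 := by
    intro i hi
    rw [hm, hb i hi, hi.2]
    field_simp
    ring
  have hle : Submodule.span ℝ (s '' (z ∪ z')) ≤ Submodule.span ℝ (s '' y) :=
    Submodule.span_mono (Set.image_mono (Set.union_subset hzy.1 hz'y.1))
  have hssub : z ⊂ z ∪ z' := by
    rw [Set.ssubset_iff_of_subset Set.subset_union_left]
    obtain ⟨j, hj, hj'⟩ := (Set.ssubset_iff_of_subset ht3.1).1 ht3
    exact ⟨j, Or.inr hj, fun h => hj' (hzz' j h hj)⟩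
  have h1 := rkF_lt hz hssub
  have hspan : Submodule.span ℝ (s '' (z ∪ z')) = Submodule.span ℝ (s '' y) := by
    apply Submodule.eq_of_le_of_finrank_le hle
    have h2 := hAz.2.2
    unfold rkF at h1 h2 hrk
    omega
  have hker : Submodule.span ℝ (s '' (z ∪ z')) ≤ LinearMap.ker m := by
    rw [Submodule.span_le]
    rintro _ ⟨j, hj, rfl⟩
    rcases hj with hj | hj
    · exact hmz j hj
    · exact hmz' j hj
  have hmk : m (s k) = 0 := by
    apply hker
    rw [hspan]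
    exact Submodule.subset_span ⟨k, hwy.1 hk, rfl⟩
  rw [hm, (hlw.2 k).1 hk, hc k hk] at hmk
  have h5 : (a + (b - a) / t * c) * lx (s k) = 0 := by linarith
  have h6 : a + (b - a) / t * c = 0 := by
    rcases mul_eq_zero.1 h5 with h | h
    · exact h
    · exact absurd h (hposx k hk').ne'
  have h7 : a + (b - a) / t * c = (a * (t - c) + b * c) / t := by
    field_simp
    ring
  rw [h7] at h6
  have h8 : 0 < (a * (t - c) + b * c) / t := by
    apply div_pos _ ht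
    have h9 : 0 ≤ a * (t - c) := mul_nonneg ha0.le (by linarith)
    have h10 : 0 < b * c := mul_pos hb0 hc0
    linarith
  linarith

end H63.KO
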