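import Pool.Agent.H63.KO.FlagConn

/-! # KO.FlagAct : automorphisms act on flag functions (paper B4)

`rk_auto`: `g` preserves `<`, so a chain of `rk x` steps below `x` (from a flag through `x`, `exists_flag`) is mapped to such a chain below `g x`: `rk x ≤ rk (g x)` (strict monotonicity of `rk` along the
chain); the same for `g.symm`.
`act_rho`: `eq_rho` for `φ.act g` (outside `[1, d]` both sides are `φ.act g`, `rho_out`). `finite_fl`: a flag is determined by its values at `0, ..., d + 1` (`Fl.top`). -/

namespace H63.KO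

variable {L : Type} [PartialOrder L] {P : PolyLat L}

private theorem rk_le_auto (g : L ≃o L) (x : L) : P.rk x ≤ P.rk (g x) := by
  obtain ⟨ψ, hψ⟩ := exists_flag (P := P) x
  have hx : P.rk x ≤ P.d + 1 := P.rk_top ▸ PolyLat.rk_le (P.le_top x)
  have key : ∀ i, i ≤ P.d + 1 → i ≤ P.rk (g (ψ.f i)) := by
    intro i
    induction i with
    | zero => intro _; exact Nat.zero_le _
    | succ i ih =>
      intro hi
      have h1 := ih (by omega)
      have h2 : g (ψ.f i) < g (ψ.f (i + 1)) := g.strictMono (ψ.lt (Nat.lt_succ_self i) (by omega))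
      have h3 := P.rk_lt _ _ h2
      omega
  have h4 := key (P.rk x) hx
  rwa [hψ] at h4

theorem rk_auto (g : L ≃o L) (x : L) : P.rk (g x) = P.rk x := by
  refine le_antisymm ?_ (rk_le_auto g x)
  have h := rk_le_auto (P := P) g.symm (g x)
  rwa [OrderIso.symm_apply_apply] at h

/-- the action of an automorphism on a flag function -/
def PolyLat.Fl.act (g : L ≃o L) (φ : P.Fl) : P.Fl where
  f := fun i => g (φ.f i)
  mono := fun i j h => g.monotone (φ.mono h)
  hrk := fun i => by rw [rk_auto, φ.hrk]

theorem act_rho (g : L ≃o L) (i : ℕ) (φ : P.Fl) : (rho i φ).act g = rho i (φ.act g) := by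
  by_cases h : 1 ≤ i ∧ i ≤ P.d
  · apply eq_rho
    · intro j hj
      show g ((rho i φ).f j) = g (φ.f j)
      rw [rho_ne hj]
    · intro hcon
      exact rho_self h.1 h.2 φ (g.injective hcon)
  · rw [rho_out h, rho_out h]

theorem finite_fl [Finite L] (P : PolyLat L) : Finite P.Fl := by
  refine Finite.of_injective (fun φ : P.Fl => fun i : Fin (P.d + 2) => φ.f i) ?_
  intro φ ψ h
  apply PolyLat.Fl.ext'
  intro i
  by_cases hi : i ≤ P.d + 1
  · exact congrFun h ⟨i, by omega⟩
  · rw [φ.top (by omega), ψ.top (by omega)]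

end H63.KO
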