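import Pool.Agent.H63.KO.Lat

/-! # KO.Flags : flags of a `PolyLat` as functions, and the operations `rho i` (paper B1)

Everything here is elementary; the four characteristic properties of `rho` are `rho_ne`, `rho_self`, `rho_out`, `eq_rho`; `rho_inv`, `rho_fpf`, `rho_comm` follow from them. -/

namespace H63.KO

variable {L : Type} [PartialOrder L] (P : PolyLat L)

/-- flags: `φ i` has rank `i` for `i ≤ d + 1` and is the top element afterwards -/
structure PolyLat.Fl : Type where
  f : ℕ → L
  mono : Monotone f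
  hrk : ∀ i, P.rk (f i) = min i (P.d + 1)

variable {P}

theorem PolyLat.rk_le {x y : L} (h : x ≤ y) : P.rk x ≤ P.rk y := by
  rcases h.eq_or_lt with h | h
  · rw [h]
  · exact (P.rk_lt x y h).le

theorem PolyLat.eq_of_le {x y : L} (h : x ≤ y) (h' : P.rk x = P.rk y) : x = y := by
  rcases h.eq_or_lt with h | h
  · exact h
  · have := P.rk_lt x y h; omega

theorem PolyLat.Fl.ext' {φ ψ : P.Fl} (h : ∀ i, φ.f i = ψ.f i) : φ = ψ := by
  cases φ; cases ψ; congr; exact funext h

theorem PolyLat.Fl.lt (φ : P.Fl) {i j : ℕ} (hij : i < j) (hj : i ≤ P.d) : φ.f i < φ.f j := by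
  refine lt_of_le_of_ne (φ.mono hij.le) (fun h => ?_)
  have h1 := φ.hrk i
  have h2 := φ.hrk j
  rw [h, h2] at h1
  omega

theorem PolyLat.Fl.zero (φ : P.Fl) : φ.f 0 = P.bot := by
  refine (PolyLat.eq_of_le (P := P) (P.bot_le _) ?_).symm
  rw [P.rk_bot, φ.hrk]; simp

theorem PolyLat.Fl.top (φ : P.Fl) {i : ℕ} (hi : P.d + 1 ≤ i) : φ.f i = P.top := by
  refine PolyLat.eq_of_le (P := P) (P.le_top _) ?_
  rw [P.rk_top, φ.hrk]; omega

theorem PolyLat.Fl.rk (φ : P.Fl) {i : ℕ} (hi : i ≤ P.d + 1) : P.rk (φ.f i) = i := by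
  rw [φ.hrk]; omega

/-- the other element strictly between `x` and `y` -/
noncomputable def other (x y z : L) : L := by
  classical
  exact if h : ∃ z', x < z' ∧ z' < y ∧ z' ≠ z then h.choose else z

theorem other_spec {x y z : L} (hxz : x < z) (hzy : z < y) (hr : P.rk y = P.rk x + 2) :
    x < other x y z ∧ other x y z < y ∧ other x y z ≠ z := by
  obtain ⟨z', h1, h2, h3, -⟩ := P.diam x y z hxz hzy hr
  have h : ∃ z', x < z' ∧ z' < y ∧ z' ≠ z := ⟨z', h1, h2, h3⟩
  unfold other
  rw [dif_pos h]
  exact h.choose_spec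

open Classical in
/-- the flag which differs from `φ` exactly at rank `i` (for `1 ≤ i ≤ d`) -/
noncomputable def rho (i : ℕ) (φ : P.Fl) : P.Fl :=
  if h : 1 ≤ i ∧ i ≤ P.d then
    ⟨Function.update φ.f i (other (φ.f (i - 1)) (φ.f (i + 1)) (φ.f i)), by
      have hlt1 : φ.f (i - 1) < φ.f i := φ.lt (by omega) (by omega)
      have hlt2 : φ.f i < φ.f (i + 1) := φ.lt (by omega) (by omega)
      have hr : P.rk (φ.f (i + 1)) = P.rk (φ.f (i - 1)) + 2 := by
        rw [φ.rk (by omega), φ.rk (by omega)]; omega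
      obtain ⟨h1, h2, h3⟩ := other_spec (P := P) hlt1 hlt2 hr
      intro a b hab
      by_cases ha : a = i
      · by_cases hb : b = i
        · rw [ha, hb]
        · rw [ha, Function.update_self, Function.update_of_ne hb]
          exact h2.le.trans (φ.mono (by omega))
      · by_cases hb : b = i
        · rw [hb, Function.update_self, Function.update_of_ne ha]
          exact le_trans (φ.mono (by omega)) h1.le
        · rw [Function.update_of_ne ha, Function.update_of_ne hb]
          exact φ.mono hab, by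
      have hlt1 : φ.f (i - 1) < φ.f i := φ.lt (by omega) (by omega)
      have hlt2 : φ.f i < φ.f (i + 1) := φ.lt (by omega) (by omega)
      have hr : P.rk (φ.f (i + 1)) = P.rk (φ.f (i - 1)) + 2 := by
        rw [φ.rk (by omega), φ.rk (by omega)]; omega
      obtain ⟨h1, h2, h3⟩ := other_spec (P := P) hlt1 hlt2 hr
      intro j
      by_cases hj : j = i
      · rw [hj, Function.update_self]
        have h4 := P.rk_lt _ _ h1
        have h5 := P.rk_lt _ _ h2
        rw [φ.rk (by omega)] at h4 h5
        omega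
      · rw [Function.update_of_ne hj]; exact φ.hrk j⟩
  else φ

theorem rho_out {i : ℕ} (h : ¬ (1 ≤ i ∧ i ≤ P.d)) (φ : P.Fl) : rho i φ = φ := by
  unfold rho; rw [dif_neg h]

theorem rho_ne {i j : ℕ} (h : j ≠ i) (φ : P.Fl) : (rho i φ).f j = φ.f j := by
  unfold rho
  split_ifs with hi
  · exact Function.update_of_ne h _ _
  · rfl

theorem rho_self {i : ℕ} (h1 : 1 ≤ i) (h2 : i ≤ P.d) (φ : P.Fl) : (rho i φ).f i ≠ φ.f i := by
  have hlt1 : φ.f (i - 1) < φ.f i := φ.lt (by omega) (by omega)
  have hlt2 : φ.f i < φ.f (i + 1) := φ.lt (by omega) (by omega)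
  have hr : P.rk (φ.f (i + 1)) = P.rk (φ.f (i - 1)) + 2 := by
    rw [φ.rk (by omega), φ.rk (by omega)]; omega
  unfold rho
  rw [dif_pos ⟨h1, h2⟩]
  show Function.update φ.f i _ i ≠ _
  rw [Function.update_self]
  exact (other_spec (P := P) hlt1 hlt2 hr).2.2

/-- a flag which agrees with `φ` outside `i` is `φ` or `rho i φ` -/
theorem eq_rho {i : ℕ} {φ ψ : P.Fl} (h : ∀ j, j ≠ i → ψ.f j = φ.f j) (hne : ψ.f i ≠ φ.f i) :
    ψ = rho i φ := by
  have hi : 1 ≤ i ∧ i ≤ P.d := by
    constructor
    · by_contra hcon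
      have : i = 0 := by omega
      subst this
      rw [φ.zero, ψ.zero] at hne; exact hne rfl
    · by_contra hcon
      rw [φ.top (by omega), ψ.top (by omega)] at hne; exact hne rfl
  obtain ⟨h1, h2⟩ := hi
  have hlt1 : φ.f (i - 1) < φ.f i := φ.lt (by omega) (by omega)
  have hlt2 : φ.f i < φ.f (i + 1) := φ.lt (by omega) (by omega)
  have hr : P.rk (φ.f (i + 1)) = P.rk (φ.f (i - 1)) + 2 := by
    rw [φ.rk (by omega), φ.rk (by omega)]; omega
  obtain ⟨z', -, -, -, hz'⟩ := P.diam _ _ _ hlt1 hlt2 hr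
  have key : ∀ χ : P.Fl, (∀ j, j ≠ i → χ.f j = φ.f j) → χ.f i ≠ φ.f i → χ.f i = z' := by
    intro χ hχ hχ'
    have h3 : φ.f (i - 1) < χ.f i := by
      rw [← hχ (i - 1) (by omega)]; exact χ.lt (by omega) (by omega)
    have h4 : χ.f i < φ.f (i + 1) := by
      rw [← hχ (i + 1) (by omega)]; exact χ.lt (by omega) (by omega)
    exact (hz' _ h3 h4).resolve_left hχ'
  apply PolyLat.Fl.ext'
  intro j
  by_cases hj : j = i
  · rw [hj, key ψ h hne, key (rho i φ) (fun j hj => rho_ne hj φ) (rho_self h1 h2 φ)]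
  · rw [h j hj, rho_ne hj]

theorem rho_inv (i : ℕ) (φ : P.Fl) : rho i (rho i φ) = φ := by
  by_cases h : 1 ≤ i ∧ i ≤ P.d
  · symm
    apply eq_rho
    · intro j hj; rw [rho_ne hj]
    · exact (rho_self h.1 h.2 φ).symm
  · rw [rho_out h, rho_out h]

theorem rho_fpf {i : ℕ} (h1 : 1 ≤ i) (h2 : i ≤ P.d) (φ : P.Fl) : rho i φ ≠ φ := by
  intro h
  exact rho_self h1 h2 φ (by rw [h])

theorem rho_comm {i j : ℕ} (hij : i + 2 ≤ j) (φ : P.Fl) :
    rho i (rho j φ) = rho j (rho i φ) := by
  by_cases hi : 1 ≤ i ∧ i ≤ P.d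
  · by_cases hj : 1 ≤ j ∧ j ≤ P.d
    · -- the values at `i` and `j` depend only on the neighbours
      symm
      apply eq_rho
      · intro m hm
        by_cases hmj : m = j
        · subst hmj
          -- both sides are the other element at rank `j`
          have h1 : (rho m (rho i φ)).1 m ≠ φ.f m := by
            have := rho_self hj.1 hj.2 (rho i φ)
            rwa [rho_ne (show m ≠ i by omega) φ] at this
          have hlt1 : φ.f (m - 1) < φ.f m := φ.lt (by omega) (by omega)
          have hlt2 : φ.f m < φ.f (m + 1) := φ.lt (by omega) (by omega)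
          have hr : P.rk (φ.f (m + 1)) = P.rk (φ.f (m - 1)) + 2 := by
            rw [φ.rk (by omega), φ.rk (by omega)]; omega
          obtain ⟨z', -, -, -, hz'⟩ := P.diam _ _ _ hlt1 hlt2 hr
          have e1 : (rho m φ).f m = z' := by
            refine (hz' _ ?_ ?_).resolve_left (rho_self hj.1 hj.2 φ)
            · have := (rho m φ).lt (show m - 1 < m by omega) (by omega)
              rwa [rho_ne (show m - 1 ≠ m by omega)] at this
            · have := (rho m φ).lt (show m < m + 1 by omega) (by omega)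
              rwa [rho_ne (show m + 1 ≠ m by omega)] at this
          have e2 : (rho m (rho i φ)).1 m = z' := by
            refine (hz' _ ?_ ?_).resolve_left h1
            · have := (rho m (rho i φ)).lt (show m - 1 < m by omega) (by omega)
              rwa [rho_ne (show m - 1 ≠ m by omega), rho_ne (show m - 1 ≠ i by omega)] at this
            · have := (rho m (rho i φ)).lt (show m < m + 1 by omega) (by omega)
              rwa [rho_ne (show m + 1 ≠ m by omega), rho_ne (show m + 1 ≠ i by omega)] at this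
          rw [e1, e2]
        · rw [rho_ne hmj, rho_ne hm, rho_ne hmj]
      · have hij' : i ≠ j := by omega
        rw [rho_ne hij', rho_ne hij']
        exact rho_self hi.1 hi.2 φ
    · rw [rho_out hj, rho_out hj]
  · rw [rho_out hi, rho_out hi]

end H63.KO
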