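import Pool.Agent.H63.KO.Step

/-! # KO.Gen : a generic functional (paper A6)

For atoms `v ≠ w` over `x` choose `i ∈ v \ x`, `j ∈ w \ x` and put `om = lx (s j) • s i - lx (s i) • s j`. The functional `lv` defining `v` vanishes on
`x`, and `lv om = - lx (s i) * lv (s j) ≠ 0` (`j ∉ v` by `AtomOver.inter`). On the finite dimensional space `D` of functionals vanishing on all `s i`, `i ∈ x`,
evaluation at `om` is therefore a nonzero linear form; there are finitely many pairs `(v, w)` (`ι` finite), so some `l ∈ D` is nonzero at all the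
vectors `om` (a finite family of nonzero linear forms over an infinite field has a common non-zero: `Module.Dual.exists_forall_mem_ne_zero_of_forall_exists`
in `Mathlib/Algebra/Module/Submodule/Union.lean`, or `Subspace.biUnion_ne_univ_of_top_notMem`). Then `l (s i) / lx (s i) ≠ l (s j) / lx (s j)`, the two ratios. -/

namespace H63.KO

open Set

variable {V : Type} [AddCommGroup V] [Module ℝ V] {ι : Type}
variable {s : ι → V} {x y z v w : Set ι}

/-- (A6) GENERIC -/
theorem generic [FiniteDimensional ℝ V] [Finite ι] {lx : Module.Dual ℝ V} (hx : Defn s x lx) :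
    ∃ l : Module.Dual ℝ V, (∀ i ∈ x, l (s i) = 0) ∧
      ∀ v w, AtomOver s x v → AtomOver s x w → v ≠ w → rat s lx l x v ≠ rat s lx l x w := by
  classical
  have hpos : ∀ i, i ∉ x → 0 < lx (s i) := fun i hi =>
    lt_of_le_of_ne (hx.1 i) (fun h => hi ((hx.2 i).2 h.symm))
  -- the submodule of the functionals vanishing on `x`
  let D : Submodule ℝ (Module.Dual ℝ V) :=
    { carrier := {l | ∀ i ∈ x, l (s i) = 0}
      add_mem' := by
        intro a b ha hb i hi
        rw [LinearMap.add_apply, ha i hi, hb i hi, add_zero]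
      zero_mem' := by
        intro i _
        rfl
      smul_mem' := by
        intro c a ha i hi
        rw [LinearMap.smul_apply, ha i hi, smul_zero] }
  let I : Type := {p : Set ι × Set ι // AtomOver s x p.1 ∧ AtomOver s x p.2 ∧ p.1 ≠ p.2}
  have hex : ∀ v, AtomOver s x v → ∃ i, i ∈ v ∧ i ∉ x := by
    intro v hv
    obtain ⟨i, hi, hi'⟩ := (Set.ssubset_iff_of_subset hv.2.1.1).1 hv.2.1
    exact ⟨i, hi, hi'⟩
  choose a ha using hex
  let om : I → V := fun p => lx (s (a p.1.2 p.2.2.1)) • s (a p.1.1 p.2.1) -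
    lx (s (a p.1.1 p.2.1)) • s (a p.1.2 p.2.2.1)
  obtain ⟨l, hl, hl'⟩ := Module.Dual.exists_forall_mem_ne_zero_of_forall_exists D
    (fun p : I => Module.Dual.eval ℝ V (om p)) (by
      rintro ⟨⟨v, w⟩, hv, hw, hvw⟩
      simp only at hv hw hvw
      obtain ⟨lv, hlv1, hlv2⟩ := hv.1
      refine ⟨lv, fun i hi => (hlv2 i).1 (hv.2.1.1 hi), ?_⟩
      have h1 : lv (s (a v hv)) = 0 := (hlv2 _).1 (ha v hv).1
      have h2 : lv (s (a w hw)) ≠ 0 := by
        intro h
        have h3 : a w hw ∈ v ∩ w := ⟨(hlv2 _).2 h, (ha w hw).1⟩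
        rw [AtomOver.inter ⟨lx, hx⟩ hv hw hvw] at h3
        exact (ha w hw).2 h3
      have h4 := hpos _ (ha v hv).2
      change lv (lx (s (a w hw)) • s (a v hv) - lx (s (a v hv)) • s (a w hw)) ≠ 0
      rw [map_sub, map_smul, map_smul, h1, smul_zero, zero_sub, smul_eq_mul]
      exact neg_ne_zero.2 (mul_ne_zero h4.ne' h2))
  refine ⟨l, hl, fun v w hv hw hvw heq => ?_⟩
  have h5 := hl' ⟨(v, w), hv, hw, hvw⟩
  change l (lx (s (a w hw)) • s (a v hv) - lx (s (a v hv)) • s (a w hw)) ≠ 0 at h5
  apply h5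
  rw [map_sub, map_smul, map_smul, rat_spec hx hv l hl _ (ha v hv).1,
    rat_spec hx hw l hl _ (ha w hw).1, heq, smul_eq_mul, smul_eq_mul]
  ring

end H63.KO
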