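import Pool.Agent.H63.KO.Pot

/-! # KO.IncIff : increasing edges and minimal faces (paper A7 (ii))

`m = l - rat v * lx`, `lv` defines `v`; `m` vanishes on `v`.
`inc_iff`: for an edge `E` with atoms `v, w` and `i ∈ w \ x` (so `i ∉ v`): `m (s i) = (rat w - rat v) lx (s i)`, and `m (s i) = rat s lv m v E * lv (s i)`
(`rat_spec` over `v`: `E` is an atom over `v`), with `lx (s i), lv (s i) > 0`.
`min_of_pos`: let all atoms `E` over `v` below `S` have ratio `rat s lv m v E > 0`. `IsFace.ratio` for `v ⊂ S` and `-m`: `-m ≤ t lv` on `S` with equality on a face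
`z ⊋ v`; `step` gives an atom `E ⊆ z` over `v`, so `rat s lv m v E = -t`, `t < 0`. So `m > 0` on `S \ v`, and for an atom `w ⊆ S` over `x`, `w ≠ v`, `i ∈ w \ x`:
`i ∉ v`, `0 < m (s i) = (rat w - rat v) lx (s i)`. -/

namespace H63.KO

open Set

variable {V : Type} [AddCommGroup V] [Module ℝ V] {ι : Type} {G : Type} [Group G]
variable {s : ι → V} {x y z v w : Set ι}

theorem inc_iff [FiniteDimensional ℝ V] [Finite ι] {lx lv : Module.Dual ℝ V} (hx : Defn s x lx)
    (hlv : Defn s v lv) (l : Module.Dual ℝ V) (hl : ∀ i ∈ x, l (s i) = 0) {E : Set ι}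
    (hE : EdgeIn s x y E v w) :
    rat s lx l x v < rat s lx l x w ↔ 0 < rat s lv (l - rat s lx l x v • lx) v E := by
  obtain ⟨hEf, -, hrk, hv, hvE, hw, hwE, hvw⟩ := hE
  have hxF : IsFace s x := ⟨lx, hx⟩
  have hrv := rat_spec hx hv l hl
  have hvEA : AtomOver s v E := ⟨hEf, hvE, by rw [hrk, hv.2.2]⟩
  obtain ⟨i, hi, hix⟩ := (Set.ssubset_iff_of_subset hw.2.1.1).1 hw.2.1
  have hiv : i ∉ v := by
    intro h
    have h1 := AtomOver.inter hxF hv hw hvw
    exact hix (by rw [← h1]; exact ⟨h, hi⟩)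
  have h1 : 0 < lv (s i) := lt_of_le_of_ne (hlv.1 i) (fun h => hiv ((hlv.2 i).2 h.symm))
  have h2 : 0 < lx (s i) := lt_of_le_of_ne (hx.1 i) (fun h => hix ((hx.2 i).2 h.symm))
  have hm : ∀ i, (l - rat s lx l x v • lx) (s i) = l (s i) - rat s lx l x v * lx (s i) :=
    fun i => by rw [LinearMap.sub_apply, LinearMap.smul_apply, smul_eq_mul]
  have h3 := rat_spec hlv hvEA (l - rat s lx l x v • lx) (fun i hi => by
    rw [hm, hrv i hi, sub_self]) i (hwE.1 hi)
  have h4 := rat_spec hx hw l hl i hi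
  rw [hm, h4] at h3
  have h5 : (rat s lx l x w - rat s lx l x v) * lx (s i) =
      rat s lv (l - rat s lx l x v • lx) v E * lv (s i) := by rw [← h3]; ring
  rw [← sub_pos, ← mul_pos_iff_of_pos_right h2, h5, mul_pos_iff_of_pos_right h1]

theorem min_of_pos [FiniteDimensional ℝ V] [Finite ι] {lx lv : Module.Dual ℝ V} (hx : Defn s x lx)
    (hlv : Defn s v lv) (l : Module.Dual ℝ V) (hl : ∀ i ∈ x, l (s i) = 0) (hv : AtomOver s x v)
    {S : Set ι} (hS : IsFace s S) (hvS : v ⊂ S)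
    (hpos : ∀ E, AtomOver s v E → E ⊆ S → 0 < rat s lv (l - rat s lx l x v • lx) v E) :
    ∀ w, AtomOver s x w → w ⊆ S → w ≠ v → rat s lx l x v < rat s lx l x w := by
  intro w hw hwS hwv
  have hxF : IsFace s x := ⟨lx, hx⟩
  have hrv := rat_spec hx hv l hl
  have hm : ∀ i, (l - rat s lx l x v • lx) (s i) = l (s i) - rat s lx l x v * lx (s i) :=
    fun i => by rw [LinearMap.sub_apply, LinearMap.smul_apply, smul_eq_mul]
  have hmv : ∀ i ∈ v, (l - rat s lx l x v • lx) (s i) = 0 := fun i hi => by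
    rw [hm, hrv i hi, sub_self]
  obtain ⟨t, ht1, ht2, ht3⟩ := IsFace.ratio hlv hS hvS (-(l - rat s lx l x v • lx))
    (fun i hi => by rw [LinearMap.neg_apply, hmv i hi, neg_zero])
  obtain ⟨E, hE, hEz⟩ := step hv.1 ht2 ht3
  obtain ⟨j, hj, hjv⟩ := (Set.ssubset_iff_of_subset hE.2.1.1).1 hE.2.1
  have hj1 : 0 < lv (s j) := lt_of_le_of_ne (hlv.1 j) (fun h => hjv ((hlv.2 j).2 h.symm))
  have hEr := rat_spec hlv hE (l - rat s lx l x v • lx) hmv j hj
  have hEp := hpos E hE (fun i hi => (hEz hi).1)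
  have hj2 := (hEz hj).2
  rw [LinearMap.neg_apply, hEr] at hj2
  have ht : t < 0 := by
    have h1 : 0 < rat s lv (l - rat s lx l x v • lx) v E * lv (s j) := mul_pos hEp hj1
    have h2 : t * lv (s j) < 0 := by linarith
    by_contra hcon
    push Not at hcon
    exact absurd (mul_nonneg hcon hj1.le) (not_le.2 h2)
  obtain ⟨i, hi, hix⟩ := (Set.ssubset_iff_of_subset hw.2.1.1).1 hw.2.1
  have hiv : i ∉ v := by
    intro h
    have h1 := AtomOver.inter hxF hv hw (Ne.symm hwv)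
    exact hix (by rw [← h1]; exact ⟨h, hi⟩)
  have h1 : 0 < lv (s i) := lt_of_le_of_ne (hlv.1 i) (fun h => hiv ((hlv.2 i).2 h.symm))
  have h2 : 0 < lx (s i) := lt_of_le_of_ne (hx.1 i) (fun h => hix ((hx.2 i).2 h.symm))
  have h3 := ht1 i (hwS hi)
  rw [LinearMap.neg_apply, hm, rat_spec hx hw l hl i hi] at h3
  have h4 : t * lv (s i) < 0 := mul_neg_of_neg_of_pos ht h1
  have h5 : 0 < (rat s lx l x w - rat s lx l x v) * lx (s i) := by nlinarith
  have h6 := (pos_iff_pos_of_mul_pos h5).2 h2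
  linarith

end H63.KO
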