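import Pool.Agent.H63.KO.TwoFace
import Pool.Agent.H63.KO.IncIff

/-! # KO.IncConn : all increasing edges at `v` give the same value (paper A7 (ii))

`m = l - rat v * lx`, `lv` defines `v`; `m` vanishes on `v`.
`inc_conn`: `climb` over `v` in `y` for `m` from `E` with the predicate `P E1 := AtomOver s v E1 ∧ ∃ w1, EdgeIn s x y E1 v w1 ∧ rat v < rat w1 ∧ t w1 * h E1 w1 v = t w * h E w v`
: for `S` of rank `rkF s v + 2 = rkF s x + 3`, `E1, E2 ⊂ S` atoms over `v`, the ratio at `E1` smaller than at `E2`: `E1, E2` are the only atoms over `v` in `S` (`diamF`), both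
have positive ratio (`inc_iff`), so `min_of_pos` and `two_face` (with the local potential of `S`; `w2` := the other atom of `[x, E2]`, `diamF`) give `P E2`. The same from `E'`.
The two final atoms `E1, E1'` over `v` have the same maximal ratio `T > 0` on `y`; `z = {i ∈ y | m = T lv}` is a face (`IsFace.ratio`, same `T`), `E1, E1' ⊆ z`. If `z` is an atom
over `v` then `E1 = z = E1'`; otherwise `connF` for `v ⊂ z` and `P` gives `P E1'` (every atom over `v` below `z` has ratio `T > 0`, so `min_of_pos`, `two_face` apply to all `S ⊆ z`).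
The second atom of `E1'` is unique (`diamF`), so the two values are equal. -/

namespace H63.KO

open Set

variable {V : Type} [AddCommGroup V] [Module ℝ V] {ι : Type} {G : Type} [Group G]
variable {s : ι → V} {x y z v w : Set ι}

private theorem edge_atom [FiniteDimensional ℝ V] {E : Set ι} (hE : EdgeIn s x y E v w) :
    AtomOver s v E := by
  obtain ⟨h1, _, h3, h4, h5, _, _, _⟩ := hE
  exact ⟨h1, h5, by rw [h3, h4.2.2]⟩

/-- the second atom of an edge -/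
private theorem other [FiniteDimensional ℝ V] [Finite ι] (hx : IsFace s x) {E : Set ι}
    (hv : AtomOver s x v) (hE : AtomOver s v E) (hEy : E ⊆ y) : ∃ w, EdgeIn s x y E v w := by
  have hr : rkF s E = rkF s x + 2 := by rw [hE.2.2, hv.2.2]
  obtain ⟨w, hw1, hw2, hw3, hw4, _⟩ := diamF hx hE.1 hv.1 hv.2.1 hE.2.1 hr
  have hr1 := rkF_lt hx hw2
  have hr2 := rkF_lt hw1 hw3
  exact ⟨w, hE.1, hEy, hr, hv, hE.2.1, ⟨hw1, hw2, by omega⟩, hw3, fun h => hw4 h.symm⟩

private theorem other_unique [FiniteDimensional ℝ V] [Finite ι] (hx : IsFace s x) {E w' : Set ι}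
    (h : EdgeIn s x y E v w) (h' : EdgeIn s x y E v w') : w = w' := by
  obtain ⟨h1, _, h3, h4, h5, h6, h7, h8⟩ := h
  obtain ⟨_, _, _, _, _, h6', h7', h8'⟩ := h'
  obtain ⟨z, _, _, _, _, hz⟩ := diamF hx h1 h4.1 h4.2.1 h5 h3
  rcases hz w h6.1 h6.2.1 h7 with h | h
  · exact absurd h.symm h8
  · rcases hz w' h6'.1 h6'.2.1 h7' with h' | h'
    · exact absurd h'.symm h8'
    · rw [h, h']

private theorem key [FiniteDimensional ℝ V] [Finite ι] {lx lv : Module.Dual ℝ V} (hx : Defn s x lx)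
    (hlv : Defn s v lv) (l : Module.Dual ℝ V) (hl : ∀ i ∈ x, l (s i) = 0)
    (hinj : ∀ v w, AtomOver s x v → AtomOver s x w → v ≠ w → rat s lx l x v ≠ rat s lx l x w)
    {h : Set ι → Set ι → Set ι → G}
    (hloc : ∀ S, IsFace s S → x ⊂ S → S ⊆ y → rkF s S = rkF s x + 3 → ∃ tS, Pot s x S h tS)
    {t : Set ι → G} (ht : PotUp s lx l x y h t (rat s lx l x v)) (hv : AtomOver s x v)
    {S E1 E2 w1 : Set ι} (hS : IsFace s S) (hSy : S ⊆ y) (hrS : rkF s S = rkF s v + 2)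
    (hE1 : AtomOver s v E1) (hE1S : E1 ⊂ S) (hE2 : AtomOver s v E2) (hE2S : E2 ⊂ S)
    (hr1 : 0 < rat s lv (l - rat s lx l x v • lx) v E1)
    (hr2 : 0 < rat s lv (l - rat s lx l x v • lx) v E2)
    (hw1 : EdgeIn s x y E1 v w1) (hc1 : rat s lx l x v < rat s lx l x w1) :
    ∃ w2, EdgeIn s x y E2 v w2 ∧ rat s lx l x v < rat s lx l x w2 ∧
      t w2 * h E2 w2 v = t w1 * h E1 w1 v := by
  by_cases h12 : E1 = E2
  · subst h12
    exact ⟨w1, hw1, hc1, rfl⟩
  have hvS : v ⊂ S := hE1.2.1.trans hE1S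
  obtain ⟨z, _, _, _, _, hz⟩ := diamF hv.1 hS hE1.1 hE1.2.1 hE1S hrS
  have hz2 : z = E2 := by
    rcases hz E2 hE2.1 hE2.2.1 hE2S with h | h
    · exact absurd h.symm h12
    · exact h.symm
  have hpos : ∀ E, AtomOver s v E → E ⊆ S → 0 < rat s lv (l - rat s lx l x v • lx) v E := by
    intro E hE hES
    have hES' : E ⊂ S := by
      refine lt_of_le_of_ne hES (fun h => ?_)
      have := hE.2.2
      rw [h, hrS] at this
      omega
    rcases hz E hE.1 hE.2.1 hES' with h | h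
    · rw [h]; exact hr1
    · rw [h, hz2]; exact hr2
  have hmin := min_of_pos hx hlv l hl hv hS hvS hpos
  have hxS : x ⊂ S := hv.2.1.trans hvS
  obtain ⟨tS, htS⟩ := hloc S hS hxS hSy (by rw [hrS, hv.2.2])
  obtain ⟨w2, hw2⟩ := other (y := y) ⟨lx, hx⟩ hv hE2 (hE2S.1.trans hSy)
  have e1 : EdgeIn s x S E1 v w1 :=
    ⟨hw1.1, hE1S.1, hw1.2.2.1, hw1.2.2.2.1, hw1.2.2.2.2.1, hw1.2.2.2.2.2.1, hw1.2.2.2.2.2.2.1,
      hw1.2.2.2.2.2.2.2⟩
  have e2 : EdgeIn s x S E2 v w2 :=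
    ⟨hw2.1, hE2S.1, hw2.2.2.1, hw2.2.2.2.1, hw2.2.2.2.2.1, hw2.2.2.2.2.2.1, hw2.2.2.2.2.2.2.1,
      hw2.2.2.2.2.2.2.2⟩
  refine ⟨w2, hw2, ?_, ?_⟩
  · exact hmin w2 e2.2.2.2.2.2.1 (e2.2.2.2.2.2.2.1.1.trans hE2S.1) (fun h => e2.2.2.2.2.2.2.2 h.symm)
  · exact two_face hx l hl hinj hS hSy hmin ht htS e2 e1

theorem inc_conn [FiniteDimensional ℝ V] [Finite ι] {lx : Module.Dual ℝ V} (hx : Defn s x lx)
    (hy : IsFace s y) (l : Module.Dual ℝ V) (hl : ∀ i ∈ x, l (s i) = 0)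
    (hinj : ∀ v w, AtomOver s x v → AtomOver s x w → v ≠ w → rat s lx l x v ≠ rat s lx l x w)
    {h : Set ι → Set ι → Set ι → G}
    (hloc : ∀ S, IsFace s S → x ⊂ S → S ⊆ y → rkF s S = rkF s x + 3 → ∃ tS, Pot s x S h tS)
    {t : Set ι → G} (ht : PotUp s lx l x y h t (rat s lx l x v))
    {E w E' w' : Set ι} (hE : EdgeIn s x y E v w) (hE' : EdgeIn s x y E' v w')
    (hw : rat s lx l x v < rat s lx l x w) (hw' : rat s lx l x v < rat s lx l x w') :
    t w * h E w v = t w' * h E' w' v := by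
  have hv : AtomOver s x v := hE.2.2.2.1
  have hxf : IsFace s x := ⟨lx, hx⟩
  obtain ⟨lv, hlv⟩ := hv.1
  obtain ⟨m, hm⟩ : ∃ m : Module.Dual ℝ V, m = l - rat s lx l x v • lx := ⟨_, rfl⟩
  have hmv : ∀ i ∈ v, m (s i) = 0 := by
    intro i hi
    rw [hm, LinearMap.sub_apply, LinearMap.smul_apply, smul_eq_mul,
      rat_spec hx hv l hl i hi, sub_self]
  have lvpos : ∀ i, i ∉ v → 0 < lv (s i) := fun i hi =>
    lt_of_le_of_ne (hlv.1 i) (fun h => hi ((hlv.2 i).2 h.symm))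
  -- climbing from an increasing edge
  have hclimb : ∀ E w, EdgeIn s x y E v w → rat s lx l x v < rat s lx l x w →
      ∃ E1 w1, AtomOver s v E1 ∧ E1 ⊆ y ∧ EdgeIn s x y E1 v w1 ∧
        rat s lx l x v < rat s lx l x w1 ∧ t w1 * h E1 w1 v = t w * h E w v ∧
        0 < rat s lv m v E1 ∧ ∀ i ∈ y, m (s i) ≤ rat s lv m v E1 * lv (s i) := by
    intro E w hE hw
    have hr : 0 < rat s lv m v E := by rw [hm]; exact (inc_iff hx hlv l hl hE).1 hw
    obtain ⟨E1, a1, a2, ⟨w1, a3, a4, a5⟩, a6, a7⟩ := climb hlv hy m hmv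
      (fun E1 => ∃ w1, EdgeIn s x y E1 v w1 ∧ rat s lx l x v < rat s lx l x w1 ∧
        t w1 * h E1 w1 v = t w * h E w v)
      (by
        rintro S E1 E2 hS hSy hrS hE1 hE1S hE2 hE2S hlt ⟨w1, b1, b2, b3⟩
        have hr1 : 0 < rat s lv m v E1 := by rw [hm]; exact (inc_iff hx hlv l hl b1).1 b2
        have hr2 : 0 < rat s lv m v E2 := hr1.trans hlt
        rw [hm] at hr1 hr2
        obtain ⟨w2, c1, c2, c3⟩ := key hx hlv l hl hinj hloc ht hv hS hSy hrS hE1 hE1S hE2 hE2S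
          hr1 hr2 b1 b2
        exact ⟨w2, c1, c2, c3.trans b3⟩)
      (edge_atom hE) hE.2.1 ⟨w, hE, hw, rfl⟩
    exact ⟨E1, w1, a1, a2, a3, a4, a5, lt_of_lt_of_le hr a6, a7⟩
  obtain ⟨E1, w1, a1, a2, a3, a4, a5, a6, a7⟩ := hclimb E w hE hw
  obtain ⟨E2, w2, b1, b2, b3, b4, b5, b6, b7⟩ := hclimb E' w' hE' hw'
  obtain ⟨T, hT⟩ : ∃ T, T = rat s lv m v E1 := ⟨_, rfl⟩
  rw [← hT] at a6 a7
  have hspec1 : ∀ i ∈ E1, m (s i) = T * lv (s i) := by
    rw [hT]; exact rat_spec hlv a1 m hmv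
  have hspec2 := rat_spec hlv b1 m hmv
  have hTT : rat s lv m v E2 = T := by
    obtain ⟨i, hi, hi'⟩ := (Set.ssubset_iff_of_subset a1.2.1.1).1 a1.2.1
    obtain ⟨j, hj, hj'⟩ := (Set.ssubset_iff_of_subset b1.2.1.1).1 b1.2.1
    have e1 := b7 i (a2 hi)
    rw [hspec1 i hi] at e1
    have e2 := a7 j (b2 hj)
    rw [hspec2 j hj] at e2
    have f1 := le_of_mul_le_mul_right e1 (lvpos i hi')
    have f2 := le_of_mul_le_mul_right e2 (lvpos j hj')
    exact le_antisymm f2 f1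
  rw [hTT] at hspec2
  -- the face of maximal ratio
  obtain ⟨z, hz⟩ : ∃ z : Set ι, z = {i | i ∈ y ∧ m (s i) = T * lv (s i)} := ⟨_, rfl⟩
  have hzf : IsFace s z := by
    have := hy.sub (T • lv - m) (fun i hi => by
      rw [LinearMap.sub_apply, LinearMap.smul_apply, smul_eq_mul]; linarith [a7 i hi])
    rw [hz]
    convert this using 3
    rw [LinearMap.sub_apply, LinearMap.smul_apply, smul_eq_mul]
    constructor
    · rintro ⟨h1, h2⟩; exact ⟨h1, by linarith⟩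
    · rintro ⟨h1, h2⟩; exact ⟨h1, by linarith⟩
  have hzy : z ⊆ y := by rw [hz]; exact fun i hi => hi.1
  have hE1z : E1 ⊆ z := by rw [hz]; exact fun i hi => ⟨a2 hi, hspec1 i hi⟩
  have hE2z : E2 ⊆ z := by rw [hz]; exact fun i hi => ⟨b2 hi, hspec2 i hi⟩
  have hvz : v ⊂ z := lt_of_lt_of_le a1.2.1 hE1z
  have hrat : ∀ E0, AtomOver s v E0 → E0 ⊆ z → rat s lv m v E0 = T := by
    intro E0 h0 h0z
    obtain ⟨i, hi, hi'⟩ := (Set.ssubset_iff_of_subset h0.2.1.1).1 h0.2.1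
    have hiz := h0z hi
    rw [hz] at hiz
    exact rat_eq hlv h0 m hmv hi hi' hiz.2
  -- the value at `E1` is found again at `E2`
  have hfin : ∃ w3, EdgeIn s x y E2 v w3 ∧ rat s lx l x v < rat s lx l x w3 ∧
      t w3 * h E2 w3 v = t w * h E w v := by
    by_cases hrz : rkF s z = rkF s v + 1
    · have hz1 : E1 = z := by
        by_contra hne
        have := rkF_lt a1.1 (lt_of_le_of_ne hE1z hne)
        rw [a1.2.2, hrz] at this
        omega
      have hz2 : E2 = z := by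
        by_contra hne
        have := rkF_lt b1.1 (lt_of_le_of_ne hE2z hne)
        rw [b1.2.2, hrz] at this
        omega
      rw [hz2, ← hz1]
      exact ⟨w1, a3, a4, a5⟩
    · have hrz' := rkF_lt hv.1 hvz
      exact connF hv.1 hzf hvz (by omega)
        (fun E0 => ∃ w3, EdgeIn s x y E0 v w3 ∧ rat s lx l x v < rat s lx l x w3 ∧
          t w3 * h E0 w3 v = t w * h E w v)
        (by
          rintro S F1 F2 hS hSz hrS hF1 hF1S hF2 hF2S ⟨u1, c1, c2, c3⟩
          have r1 : 0 < rat s lv m v F1 := by rw [hrat F1 hF1 (hF1S.1.trans hSz)]; exact a6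
          have r2 : 0 < rat s lv m v F2 := by rw [hrat F2 hF2 (hF2S.1.trans hSz)]; exact a6
          rw [hm] at r1 r2
          obtain ⟨u2, d1, d2, d3⟩ := key hx hlv l hl hinj hloc ht hv hS (hSz.trans hzy) hrS
            hF1 hF1S hF2 hF2S r1 r2 c1 c2
          exact ⟨u2, d1, d2, d3.trans c3⟩)
        a1 hE1z b1 hE2z ⟨w1, a3, a4, a5⟩
  obtain ⟨w3, f1, _, f3⟩ := hfin
  have : w3 = w2 := other_unique hxf f1 b3
  rw [← f3, ← b5, this]

end H63.KO
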