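import Pool.Agent.H63.KO.LatSys
import Pool.Agent.H63.KO.FlagEquiv
import Pool.Agent.H63.KO.AutoPerm
import Pool.Agent.H63.KO.Core
import Pool.Agent.H63.KO.Regular

/-! # KO.OneOrbit : few flag orbits imply one flag orbit (glue)

`V = MulAction.orbitRel.Quotient (L ≃o L) (Flag L)`, `π φ = ⟦e φ⟧` (`flagEquiv`), `s i` : `Quotient.lift`-type map (automorphisms commute with `rho i`, `act_rho`; define `s i v := π (rho i (surjInv v))` and check), `hper`: automorphisms commute with all `rho i`, so preserve the periods.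
`core`, `regular` for `P.sys`, `auto_of_perm`: any two flags are in one orbit, so `Nat.card V = 1`. -/

namespace H63.KO

private theorem oneOrbit_inj {L : Type} [PartialOrder L] {P : PolyLat L} (g : L ≃o L) :
    Function.Injective (PolyLat.Fl.act (P := P) g) := by
  intro x y h
  apply PolyLat.Fl.ext'
  intro i
  have h1 : g (x.f i) = g (y.f i) := by
    have := congrArg (fun z : P.Fl => z.f i) h
    exact this
  exact g.injective h1

theorem one_orbit {L : Type} [PartialOrder L] [Finite L] (P : PolyLat L) (k : ℕ) (hk1 : 1 ≤ k)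
    (hk : Nat.card (MulAction.orbitRel.Quotient (L ≃o L) (Flag L)) ≤ k)
    (hd : 11 * (k + Nat.log 2 k) ≤ P.d) :
    Nat.card (MulAction.orbitRel.Quotient (L ≃o L) (Flag L)) = 1 := by
  have hfl : Finite P.Fl := finite_fl P
  obtain ⟨e, he⟩ := flagEquiv P
  have hFlag : Finite (Flag L) := Finite.of_equiv _ e
  have hrel : ∀ x y : P.Fl,
      ((⟦e x⟧ : MulAction.orbitRel.Quotient (L ≃o L) (Flag L)) = ⟦e y⟧) ↔
        ∃ g : L ≃o L, x = y.act g := by
    intro x y
    rw [Quotient.eq]
    constructor
    · intro h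
      obtain ⟨g, hg⟩ : e x ∈ MulAction.orbit (L ≃o L) (e y) := h
      refine ⟨g, e.injective ?_⟩
      rw [he]
      exact hg.symm
    · rintro ⟨g, rfl⟩
      show e (y.act g) ∈ MulAction.orbit (L ≃o L) (e y)
      exact ⟨g, (he g y).symm⟩
  let π : P.Fl → MulAction.orbitRel.Quotient (L ≃o L) (Flag L) := fun φ => ⟦e φ⟧
  have hsurj : Function.Surjective π := by
    intro v
    induction v using Quotient.inductionOn with
    | h c => exact ⟨e.symm c, by simp [π]⟩
  have hfinV : Finite (MulAction.orbitRel.Quotient (L ≃o L) (Flag L)) :=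
    Finite.of_surjective π hsurj
  have hneV : Nonempty (MulAction.orbitRel.Quotient (L ≃o L) (Flag L)) := by
    obtain ⟨c⟩ : Nonempty (Flag L) := inferInstance
    exact ⟨⟦c⟧⟩
  let q : P.sys.Quo (MulAction.orbitRel.Quotient (L ≃o L) (Flag L)) :=
    { π := π
      s := fun i v => π (rho i (Function.surjInv hsurj v))
      surj := hsurj
      hs := by
        intro i x
        have h1 : π (Function.surjInv hsurj (π x)) = π x := Function.surjInv_eq hsurj (π x)
        obtain ⟨g, hg⟩ := (hrel _ _).1 h1
        show π (rho i x) = π (rho i (Function.surjInv hsurj (π x)))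
        rw [hg, ← act_rho]
        exact ((hrel _ _).2 ⟨g, rfl⟩).symm
      hper := by
        intro i x y h
        obtain ⟨g, rfl⟩ := (hrel _ _).1 h
        unfold FSys.per
        rw [Function.minimalPeriod_eq_minimalPeriod_iff]
        intro n
        have hc : ∀ z : P.Fl, (fun z => P.sys.ρ i (P.sys.ρ (i + 1) z)) (z.act g) =
            ((fun z => P.sys.ρ i (P.sys.ρ (i + 1) z)) z).act g := by
          intro z
          show rho i (rho (i + 1) (z.act g)) = (rho i (rho (i + 1) z)).act g
          rw [act_rho, act_rho]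
        have hit : ∀ (n : ℕ) (z : P.Fl), (fun z => P.sys.ρ i (P.sys.ρ (i + 1) z))^[n] (z.act g) =
            ((fun z => P.sys.ρ i (P.sys.ρ (i + 1) z))^[n] z).act g := by
          intro n
          induction n with
          | zero => intro z; rfl
          | succ n ih =>
            intro z
            rw [Function.iterate_succ_apply, Function.iterate_succ_apply]
            exact (congrArg _ (hc z)).trans (ih _)
        unfold Function.IsPeriodicPt Function.IsFixedPt
        rw [hit]
        exact ⟨fun h => oneOrbit_inj g h, fun h => by rw [h]⟩ }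
  have hper := core P.sys q k hk hd
  have hd2 : 2 ≤ P.d := by
    have : 11 * 1 ≤ 11 * (k + Nat.log 2 k) := Nat.mul_le_mul_left _ (by omega)
    omega
  rw [Nat.card_eq_one_iff_unique]
  refine ⟨⟨fun u v => ?_⟩, hneV⟩
  obtain ⟨x, rfl⟩ := hsurj u
  obtain ⟨y, rfl⟩ := hsurj v
  obtain ⟨θ, hθ, hxy⟩ := regular P.sys hd2 hper y x
  obtain ⟨g, hg⟩ := auto_of_perm θ hθ
  refine (hrel _ _).2 ⟨g, ?_⟩
  rw [← hg, hxy]

end H63.KO
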