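import Pool.Agent.H63.KO.Stmt
import Pool.Agent.H63.KO.OneOrbit
import Pool.Agent.H63.KO.PolyLatFin

/-! # KO.Main : the main theorem (glue) -/

namespace H63.KO

open KOrbit

theorem main_one (k d : ℕ) (hk : 1 ≤ k) (hd : 11 * (k + Nat.log 2 k) ≤ d) (Q : Set (Euc d))
    (hQ : IsPolytope Q) (hk' : combOrbits Q ≤ k) : combOrbits Q = 1 := by
  obtain ⟨⟨T, rfl⟩, hint⟩ := hQ
  obtain ⟨hfin, P, hP⟩ := polytope_lat T hint
  refine one_orbit P k hk hk' ?_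
  rw [hP, finrank_euclideanSpace, Fintype.card_fin]
  exact hd

theorem main_all (k d : ℕ) (hk : 1 ≤ k) (hd : 11 * (k + Nat.log 2 k) ≤ d) :
    (∀ Q : Set (Euc d), IsPolytope Q → combOrbits Q ≤ k → combOrbits Q = 1) ∧
    (2 ≤ k → (¬ ∃ Q : Set (Euc d), IsPolytope Q ∧ combOrbits Q = k) ∧ PropertyR k d) := by
  have h1 := main_one k d hk hd
  have h2 : 2 ≤ k → ¬ ∃ Q : Set (Euc d), IsPolytope Q ∧ combOrbits Q = k := by
    rintro h ⟨Q, hQ, hQ'⟩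
    have := h1 Q hQ (le_of_eq hQ')
    omega
  refine ⟨h1, fun h => ⟨h2 h, fun Q hQ hQ' => ?_⟩⟩
  exact absurd ⟨Q, hQ, hQ'⟩ (h2 h)

end H63.KO
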