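import Pool.Agent.H63.KO.MixDef

/-! # KO.MixComm : commutation of the labels (paper C5, mixed case, `l ≥ 2`)

`R = {x | q.π x ∈ D.K}` is closed under `ρ i`, `b - e ≤ i ≤ b + 2`: `ρ i` acts on `V` as `s = q.s a` for `a ≤ i ≤ b` (`IsBlock.eq`), as `t`, `o` for `b+1`, `b+2`. `s` commutes with `t` and `o` (`s_comm`, `a + 2 ≤ b + 1`).
`D.pos (s v) = D.pos v`, `D.pos (t (s v)) = D.pos (s (t v)) = D.pos (t v)`, the same for `o`.
COMMUTATION `i + 2 ≤ j`. `j < b`: `hcc`, `Gram.r_comm`. `i < b`, `j = b`: `i ≤ b - 2`: `hcx`. `i < b < j`: the label of `j` is the same at `x` and `ρ i x`, `hcy` (or it is `1`). `i = b`, `j = b + 2`: the label of `b+2` is the same at `x` and `ρ b x`.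
If `pos (o v) = pos v` (then `pos v` is even and nonzero, by `odd_o`, `zero_o`, so `= 2 j + 2`): `heven` and `Gram.r_comm`, and the label of `b` is the same at `x` and `ρ (b+2) x`. Otherwise the label of `b + 2` is `1` and `pos v / 2 = pos (o v) / 2`:
`odd_o`, `even_o`, `zero_o`. -/

namespace H63.KO

variable {X : Type} [Finite X] {S : FSys X} {V : Type}
variable {N : Type} [Fintype N] [DecidableEq N]

omit [Finite X] in
private theorem lab_lt (q : S.Quo V) {a b : ℕ} (D : BPos q a b) (e : ℕ)
    (A : Gram N) (c xn : ℕ → N) (y : N) {i : ℕ} (h : i < b) (x : X) :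
    mixLab q D e A c xn y i x = A.r (c (i - (b - e))) := by
  unfold mixLab
  rw [if_pos h]

omit [Finite X] in
private theorem lab_b (q : S.Quo V) {a b : ℕ} (D : BPos q a b) (e : ℕ)
    (A : Gram N) (c xn : ℕ → N) (y : N) (x : X) :
    mixLab q D e A c xn y b x = A.r (xn (D.pos (q.π x) / 2)) := by
  unfold mixLab
  rw [if_neg (lt_irrefl b), if_pos rfl]

omit [Finite X] in
private theorem lab_gt (q : S.Quo V) {a b : ℕ} (D : BPos q a b) (e : ℕ)
    (A : Gram N) (c xn : ℕ → N) (y : N) {i : ℕ} (h : b < i) (x : X) :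
    mixLab q D e A c xn y i x =
      if D.pos (q.s i (q.π x)) = D.pos (q.π x) then A.r y else 1 := by
  unfold mixLab
  rw [if_neg (not_lt.2 h.le), if_neg h.ne']

omit [Finite X] in
private theorem pi_low (q : S.Quo V) {a b : ℕ} (hB : IsBlock q a b) {k : ℕ} (h1 : a ≤ k)
    (h2 : k ≤ b) (x : X) : q.π (S.ρ k x) = q.s a (q.π x) := by
  rw [q.hs, hB.eq k h1 h2]

private theorem s_swap (q : S.Quo V) {a b : ℕ} (hB : IsBlock q a b) {j : ℕ} (hj : b + 1 ≤ j)
    (v : V) : q.s j (q.s a v) = q.s a (q.s j v) :=
  q.s_comm (Or.inr (by have := hB.len; omega)) v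

/-- the label of `b+1`, `b+2` does not change under `ρ k`, `a ≤ k ≤ b` -/
private theorem lab_gt_low (q : S.Quo V) {a b : ℕ} (hB : IsBlock q a b) (D : BPos q a b) (e : ℕ)
    (A : Gram N) (c xn : ℕ → N) (y : N) {i k : ℕ} (h : i = b + 1 ∨ i = b + 2) (h1 : a ≤ k)
    (h2 : k ≤ b) (x : X) (hx : q.π x ∈ D.K) :
    mixLab q D e A c xn y i (S.ρ k x) = mixLab q D e A c xn y i x := by
  have hbi : b < i := by omega
  rw [lab_gt q D e A c xn y hbi, lab_gt q D e A c xn y hbi, pi_low q hB h1 h2,
    s_swap q hB (by omega : b + 1 ≤ i), D.pos_s _ hx]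
  have hK : q.s i (q.π x) ∈ D.K := by
    rcases h with rfl | rfl
    · exact D.Kt _ hx
    · exact D.Ko _ hx
  rw [D.pos_s _ hK]

theorem mix_comm (q : S.Quo V) {a b : ℕ} (hB : IsBlock q a b) (D : BPos q a b) {e : ℕ}
    {A : Gram N} {c xn : ℕ → N} {y : N} (H : MixHyp q a b D e A c xn y) :
    ∀ i j, b - e ≤ i → i + 2 ≤ j → j ≤ b + 2 → ∀ x, q.π x ∈ D.K →
      mixLab q D e A c xn y i x * mixLab q D e A c xn y j (S.ρ i x) =
        mixLab q D e A c xn y j x * mixLab q D e A c xn y i (S.ρ j x) := by
  intro i j hi hij hj x hx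
  have hea := H.hea
  have he := H.he
  have hai : a ≤ i := by omega
  rcases lt_trichotomy j b with hjb | hjb | hjb
  · have hib : i < b := by omega
    rw [lab_lt q D e A c xn y hib, lab_lt q D e A c xn y hjb, lab_lt q D e A c xn y hjb,
      lab_lt q D e A c xn y hib]
    exact A.r_comm (H.hcc _ _ (by omega) (by omega))
  · subst hjb
    have hib : i < j := by omega
    rw [lab_lt q D e A c xn y hib, lab_lt q D e A c xn y hib, lab_b, lab_b,
      pi_low q hB hai hib.le, D.pos_s _ hx]
    exact A.r_comm (H.hcx _ _ (by omega))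
  · have hj2 : j = b + 1 ∨ j = b + 2 := by omega
    rw [lab_gt_low q hB D e A c xn y hj2 hai (by omega) x hx]
    rcases lt_or_ge i b with hib | hib
    · rw [lab_lt q D e A c xn y hib, lab_lt q D e A c xn y hib, lab_gt q D e A c xn y hjb]
      split
      · exact A.r_comm (H.hcy _ (by omega))
      · rw [mul_one, one_mul]
    · have hib' : i = b := by omega
      have hjb' : j = b + 2 := by omega
      subst hib' hjb'
      rw [lab_b, lab_b, lab_gt q D e A c xn y hjb, q.hs]
      split
      · rename_i hpos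
        rw [hpos]
        rcases Nat.even_or_odd (D.pos (q.π x)) with hev | hod
        · have h0 : D.pos (q.π x) ≠ 0 := by
            intro h0
            have := D.zero_o _ hx h0
            omega
          obtain ⟨m, hm⟩ := hev
          obtain ⟨m', rfl⟩ : ∃ m', m = m' + 1 := ⟨m - 1, by omega⟩
          have e1 : D.pos (q.π x) / 2 = m' + 1 := by omega
          rw [e1]
          exact A.r_comm (H.heven _ hx m' (by omega) (by omega))
        · have := D.odd_o _ hx hod
          omega
      · rename_i hpos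
        rw [mul_one, one_mul]
        have e1 : D.pos (q.s (i + 2) (q.π x)) / 2 = D.pos (q.π x) / 2 := by
          rcases Nat.even_or_odd (D.pos (q.π x)) with hev | hod
          · by_cases h0 : D.pos (q.π x) = 0
            · have := D.zero_o _ hx h0
              omega
            · rcases D.even_o _ hx hev h0 with h | h
              · exact absurd h hpos
              · obtain ⟨m, hm⟩ := hev
                omega
          · have h := D.odd_o _ hx hod
            obtain ⟨m, hm⟩ := hod
            omega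
        rw [e1]

end H63.KO
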