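import Mathlib

/-! # KO.Pos : the position function of the mixed case (paper C5)

`u (j+1) = o (u j)` for even `j`, `t (u j)` for odd `j`; `v ~ w` means `w = v ∨ w = s v` (an equivalence relation respected by `t`, `o`, `s`); `K = {v | ∃ j, v ~ u j}`, `pos v` = the least such `j`.
For `v ~ u j`: `o v ~ u (j+1)` and `t v ~ u (j-1)` if `j` is even `≥ 2` (for `j = 0`: `t v ~ u 0` because `t u0 = s u0`); `t v ~ u (j+1)`, `o v ~ u (j-1)` if `j` is odd. So `pos (o v), pos (t v) ≤ pos v + 1`, and applying this to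
`o v`, `t v`: the differences are at most one. The clauses `odd_o`, `even_t`, `zero_t` follow; `odd_t`: if `pos (t v) = pos v - 1 = j - 1` (even), then `even_t`/`zero_t` for `t v` gives `pos (t (t v)) < j`, contradiction; the same for `even_o`.
`zero_o`: `o v ~ o u0` is not of type `T3` but everything at position `0` is. `type`: `T3 v` gives `t v = s v ~ v`.
`tie`: if `u (j+1) ~ u j` then all positions are `≤ j` (induction along `u`). -/

namespace H63.KO

/-- the position function: see `exists_pos` -/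
structure PosData {V : Type} (s t o : V → V) (T3 : V → Prop) where
  K : Set V
  pos : V → ℕ
  u0 : V
  mem_u0 : u0 ∈ K
  pos_u0 : pos u0 = 0
  Ks : ∀ v ∈ K, s v ∈ K
  Kt : ∀ v ∈ K, t v ∈ K
  Ko : ∀ v ∈ K, o v ∈ K
  pos_s : ∀ v ∈ K, pos (s v) = pos v
  odd_o : ∀ v ∈ K, Odd (pos v) → pos (o v) + 1 = pos v
  odd_t : ∀ v ∈ K, Odd (pos v) → pos (t v) = pos v ∨ pos (t v) = pos v + 1
  even_t : ∀ v ∈ K, Even (pos v) → pos v ≠ 0 → pos (t v) + 1 = pos v
  zero_t : ∀ v ∈ K, pos v = 0 → pos (t v) = 0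
  even_o : ∀ v ∈ K, Even (pos v) → pos v ≠ 0 → pos (o v) = pos v ∨ pos (o v) = pos v + 1
  zero_o : ∀ v ∈ K, pos v = 0 → pos (o v) = 1
  type_zero : ∀ v ∈ K, pos v = 0 → T3 v
  type_one : ∀ v ∈ K, pos v = 1 → ¬ T3 v
  type : ∀ v ∈ K, 0 < pos v → T3 v → pos (t v) = pos v
  /-- `v` and `w` with the same position are equal or exchanged by `s` -/
  same : ∀ v ∈ K, ∀ w ∈ K, pos v = pos w → w = v ∨ w = s v
  tie_t : ∀ v ∈ K, Odd (pos v) → pos (t v) = pos v → ∀ w ∈ K, pos w ≤ pos v
  tie_o : ∀ v ∈ K, Even (pos v) → pos (o v) = pos v → ∀ w ∈ K, pos w ≤ pos v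
  /-- `K` is generated from `u0` -/
  gen : ∀ Q : V → Prop, Q u0 → (∀ v, Q v → Q (s v)) → (∀ v, Q v → Q (t v)) →
    (∀ v, Q v → Q (o v)) → ∀ v ∈ K, Q v

/-- the alternating path -/
private def posU {V : Type} (t o : V → V) (u0 : V) : ℕ → V
  | 0 => u0
  | j + 1 => if j % 2 = 0 then o (posU t o u0 j) else t (posU t o u0 j)

private theorem posU_even {V : Type} (t o : V → V) (u0 : V) {j : ℕ} (h : j % 2 = 0) :
    posU t o u0 (j + 1) = o (posU t o u0 j) := by
  rw [posU, if_pos h]

private theorem posU_odd {V : Type} (t o : V → V) (u0 : V) {j : ℕ} (h : j % 2 = 1) :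
    posU t o u0 (j + 1) = t (posU t o u0 j) := by
  rw [posU, if_neg (by omega)]

/-- being at the place `j` of the path, up to `s` -/
private def posR {V : Type} (s t o : V → V) (u0 v : V) (j : ℕ) : Prop :=
  v = posU t o u0 j ∨ v = s (posU t o u0 j)

/-- the least place -/
private noncomputable def posF {V : Type} (s t o : V → V) (u0 v : V) : ℕ :=
  sInf {j | posR s t o u0 v j}

theorem exists_pos {V : Type} (s t o : V → V) (T3 : V → Prop) (hs : ∀ v, s (s v) = v)
    (ht : ∀ v, t (t v) = v) (ho : ∀ v, o (o v) = v) (hst : ∀ v, s (t v) = t (s v))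
    (hso : ∀ v, s (o v) = o (s v)) (h3 : ∀ v, T3 v → t v = s v) (h3s : ∀ v, T3 v → T3 (s v))
    (u0 : V) (hu0 : T3 u0) (hu1 : ¬ T3 (o u0)) :
    ∃ D : PosData s t o T3, D.u0 = u0 := by
  classical
  set R := posR s t o u0 with hR
  set pos := posF s t o u0 with hpos
  set u := posU t o u0 with hu
  have Rdef : ∀ v j, R v j ↔ (v = u j ∨ v = s (u j)) := fun v j => Iff.rfl
  -- closure properties
  have Rs : ∀ v j, R v j → R (s v) j := by
    intro v j h
    rcases (Rdef v j).1 h with h | h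
    · exact (Rdef _ _).2 (Or.inr (by rw [h]))
    · exact (Rdef _ _).2 (Or.inl (by rw [h, hs]))
  have Rs' : ∀ v j, R (s v) j → R v j := by
    intro v j h
    have := Rs _ _ h
    rwa [hs] at this
  have RoE : ∀ v j, j % 2 = 0 → R v j → R (o v) (j + 1) := by
    intro v j hj h
    rcases (Rdef v j).1 h with h | h
    · exact (Rdef _ _).2 (Or.inl (by rw [h, hu, posU_even t o u0 hj]))
    · exact (Rdef _ _).2 (Or.inr (by rw [h, hu, posU_even t o u0 hj, hso]))
  have RtO : ∀ v j, j % 2 = 1 → R v j → R (t v) (j + 1) := by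
    intro v j hj h
    rcases (Rdef v j).1 h with h | h
    · exact (Rdef _ _).2 (Or.inl (by rw [h, hu, posU_odd t o u0 hj]))
    · exact (Rdef _ _).2 (Or.inr (by rw [h, hu, posU_odd t o u0 hj, hst]))
  have RoO : ∀ v j, j % 2 = 0 → R v (j + 1) → R (o v) j := by
    intro v j hj h
    rcases (Rdef _ _).1 h with h | h
    · refine (Rdef _ _).2 (Or.inl ?_)
      rw [h, hu, posU_even t o u0 hj, ho]
    · refine (Rdef _ _).2 (Or.inr ?_)
      rw [h, hu, posU_even t o u0 hj, ← hso, ho]
  have RtE : ∀ v j, j % 2 = 1 → R v (j + 1) → R (t v) j := by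
    intro v j hj h
    rcases (Rdef _ _).1 h with h | h
    · refine (Rdef _ _).2 (Or.inl ?_)
      rw [h, hu, posU_odd t o u0 hj, ht]
    · refine (Rdef _ _).2 (Or.inr ?_)
      rw [h, hu, posU_odd t o u0 hj, ← hst, ht]
  have Rt0 : ∀ v, R v 0 → R (t v) 0 := by
    intro v h
    have e0 : u 0 = u0 := rfl
    rcases (Rdef _ _).1 h with h | h
    · refine (Rdef _ _).2 (Or.inr ?_)
      rw [h, e0, h3 u0 hu0]
    · refine (Rdef _ _).2 (Or.inl ?_)
      rw [h, e0, ← hst, h3 u0 hu0, hs]
  -- the next places are at most one further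
  have Ro1 : ∀ v j, R v j → ∃ i, i ≤ j + 1 ∧ R (o v) i := by
    intro v j h
    rcases Nat.mod_two_eq_zero_or_one j with hj | hj
    · exact ⟨j + 1, le_rfl, RoE v j hj h⟩
    · obtain ⟨i, rfl⟩ : ∃ i, j = i + 1 := ⟨j - 1, by omega⟩
      exact ⟨i, by omega, RoO v i (by omega) h⟩
  have Rt1 : ∀ v j, R v j → ∃ i, i ≤ j + 1 ∧ R (t v) i := by
    intro v j h
    rcases Nat.mod_two_eq_zero_or_one j with hj | hj
    · rcases Nat.eq_zero_or_pos j with h0 | h0
      · subst h0
        exact ⟨0, by omega, Rt0 v h⟩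
      · obtain ⟨i, rfl⟩ : ∃ i, j = i + 1 := ⟨j - 1, by omega⟩
        exact ⟨i, by omega, RtE v i (by omega) h⟩
    · exact ⟨j + 1, le_rfl, RtO v j hj h⟩
  -- position
  have pos_mem : ∀ v, (∃ j, R v j) → R v (pos v) := by
    intro v h
    exact Nat.sInf_mem (s := {j | posR s t o u0 v j}) h
  have pos_le : ∀ v j, R v j → pos v ≤ j := by
    intro v j h
    exact Nat.sInf_le h
  set K : Set V := {v | ∃ j, R v j} with hK
  have KR : ∀ v, v ∈ K → R v (pos v) := fun v h => pos_mem v h
  have Ks : ∀ v ∈ K, s v ∈ K := by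
    rintro v ⟨j, hj⟩
    exact ⟨j, Rs _ _ hj⟩
  have Kt : ∀ v ∈ K, t v ∈ K := by
    rintro v ⟨j, hj⟩
    obtain ⟨i, _, hi⟩ := Rt1 v j hj
    exact ⟨i, hi⟩
  have Ko : ∀ v ∈ K, o v ∈ K := by
    rintro v ⟨j, hj⟩
    obtain ⟨i, _, hi⟩ := Ro1 v j hj
    exact ⟨i, hi⟩
  have pos_s : ∀ v ∈ K, pos (s v) = pos v := by
    intro v hv
    apply le_antisymm
    · exact pos_le _ _ (Rs _ _ (KR v hv))
    · exact pos_le _ _ (Rs' _ _ (KR _ (Ks v hv)))
  have pos_o1 : ∀ v ∈ K, pos (o v) ≤ pos v + 1 := by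
    intro v hv
    obtain ⟨i, hi, hi'⟩ := Ro1 v _ (KR v hv)
    exact (pos_le _ _ hi').trans hi
  have pos_t1 : ∀ v ∈ K, pos (t v) ≤ pos v + 1 := by
    intro v hv
    obtain ⟨i, hi, hi'⟩ := Rt1 v _ (KR v hv)
    exact (pos_le _ _ hi').trans hi
  have pos_o2 : ∀ v ∈ K, pos v ≤ pos (o v) + 1 := by
    intro v hv
    have := pos_o1 (o v) (Ko v hv)
    rwa [ho] at this
  have pos_t2 : ∀ v ∈ K, pos v ≤ pos (t v) + 1 := by
    intro v hv
    have := pos_t1 (t v) (Kt v hv)
    rwa [ht] at this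
  have odd_o : ∀ v ∈ K, Odd (pos v) → pos (o v) + 1 = pos v := by
    intro v hv hodd
    have h1 := Nat.odd_iff.1 hodd
    obtain ⟨i, hi⟩ : ∃ i, pos v = i + 1 := ⟨pos v - 1, by omega⟩
    have h2 := KR v hv
    rw [hi] at h2
    have h3 := pos_le _ _ (RoO v i (by omega) h2)
    have h4 := pos_o2 v hv
    omega
  have even_t : ∀ v ∈ K, Even (pos v) → pos v ≠ 0 → pos (t v) + 1 = pos v := by
    intro v hv hev h0
    have h1 := Nat.even_iff.1 hev
    obtain ⟨i, hi⟩ : ∃ i, pos v = i + 1 := ⟨pos v - 1, by omega⟩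
    have h2 := KR v hv
    rw [hi] at h2
    have h3 := pos_le _ _ (RtE v i (by omega) h2)
    have h4 := pos_t2 v hv
    omega
  have zero_t : ∀ v ∈ K, pos v = 0 → pos (t v) = 0 := by
    intro v hv h0
    have h2 := KR v hv
    rw [h0] at h2
    have h3 := pos_le _ _ (Rt0 v h2)
    omega
  have type_zero : ∀ v ∈ K, pos v = 0 → T3 v := by
    intro v hv h0
    have h2 := KR v hv
    rw [h0] at h2
    rcases (Rdef _ _).1 h2 with h | h
    · rw [h]
      exact hu0
    · rw [h]
      exact h3s _ hu0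
  have u_one : u 1 = o u0 := rfl
  have type_one : ∀ v ∈ K, pos v = 1 → ¬ T3 v := by
    intro v hv h0 hT
    have h2 := KR v hv
    rw [h0] at h2
    rcases (Rdef _ _).1 h2 with h | h
    · rw [h, u_one] at hT
      exact hu1 hT
    · rw [h, u_one] at hT
      have := h3s _ hT
      rw [hs] at this
      exact hu1 this
  -- ties
  have tie : ∀ j, (∀ v, R v (j + 1) → R v j) → ∀ w ∈ K, pos w ≤ j := by
    intro j hj
    have h1 : ∀ i, ∃ i', i' ≤ j ∧ R (u i) i' := by
      intro i
      induction i with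
      | zero => exact ⟨0, Nat.zero_le _, (Rdef _ _).2 (Or.inl rfl)⟩
      | succ i ih =>
        obtain ⟨i', hi', hR'⟩ := ih
        have h2 : ∃ i'', i'' ≤ i' + 1 ∧ R (u (i + 1)) i'' := by
          rcases Nat.mod_two_eq_zero_or_one i with h | h
          · have e : u (i + 1) = o (u i) := posU_even t o u0 h
            rw [e]
            exact Ro1 _ _ hR'
          · have e : u (i + 1) = t (u i) := posU_odd t o u0 h
            rw [e]
            exact Rt1 _ _ hR'
        obtain ⟨i'', hi'', hR''⟩ := h2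
        rcases Nat.lt_or_ge j i'' with h | h
        · have e : i'' = j + 1 := by omega
          rw [e] at hR''
          exact ⟨j, le_rfl, hj _ hR''⟩
        · exact ⟨i'', h, hR''⟩
    rintro w ⟨i, hi⟩
    obtain ⟨i', hi', hR'⟩ := h1 i
    refine (pos_le w i' ?_).trans hi'
    rcases (Rdef _ _).1 hi with h | h
    · rw [h]
      exact hR'
    · rw [h]
      exact Rs _ _ hR'
  -- two places related
  have Rtrans : ∀ x i j, R x i → R x j → ∀ v, R v i → R v j := by
    intro x i j h1 h2 v h3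
    have h4 : v = x ∨ v = s x := by
      rcases (Rdef _ _).1 h1 with h1 | h1 <;> rcases (Rdef _ _).1 h3 with h3 | h3
      · exact Or.inl (by rw [h1, h3])
      · exact Or.inr (by rw [h1, h3])
      · exact Or.inr (by rw [h1, h3, hs])
      · exact Or.inl (by rw [h1, h3])
    rcases h4 with h4 | h4
    · rw [h4]
      exact h2
    · rw [h4]
      exact Rs _ _ h2
  have Ku0 : u0 ∈ K := ⟨0, (Rdef _ _).2 (Or.inl rfl)⟩
  refine ⟨{
    K := K
    pos := pos
    u0 := u0
    mem_u0 := Ku0
    pos_u0 := ?_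
    Ks := Ks
    Kt := Kt
    Ko := Ko
    pos_s := pos_s
    odd_o := odd_o
    odd_t := ?_
    even_t := even_t
    zero_t := zero_t
    even_o := ?_
    zero_o := ?_
    type_zero := type_zero
    type_one := type_one
    type := ?_
    same := ?_
    tie_t := ?_
    tie_o := ?_
    gen := ?_ }, rfl⟩
  · have := pos_le u0 0 ((Rdef _ _).2 (Or.inl rfl))
    omega
  · intro v hv hodd
    have h1 := Nat.odd_iff.1 hodd
    have h2 := pos_t1 v hv
    have h3 := pos_t2 v hv
    by_contra hcon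
    have h4 : pos (t v) + 1 = pos v := by omega
    by_cases h5 : pos (t v) = 0
    · have h6 := zero_t (t v) (Kt v hv) h5
      rw [ht] at h6
      omega
    · have h6 := even_t (t v) (Kt v hv) (Nat.even_iff.2 (by omega)) h5
      rw [ht] at h6
      omega
  · intro v hv hev h0
    have h1 := Nat.even_iff.1 hev
    have h2 := pos_o1 v hv
    have h3 := pos_o2 v hv
    by_contra hcon
    have h4 : pos (o v) + 1 = pos v := by omega
    have h6 := odd_o (o v) (Ko v hv) (Nat.odd_iff.2 (by omega))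
    rw [ho] at h6
    omega
  · intro v hv h0
    have h2 := pos_o1 v hv
    by_contra hcon
    have h4 : pos (o v) = 0 := by omega
    have h5 := type_zero (o v) (Ko v hv) h4
    have h6 := KR v hv
    rw [h0] at h6
    rcases (Rdef _ _).1 h6 with h | h
    · rw [h] at h5
      exact hu1 h5
    · rw [h, ← hso] at h5
      have := h3s _ h5
      rw [hs] at this
      exact hu1 this
  · intro v hv _ hT
    rw [h3 v hT, pos_s v hv]
  · intro v hv w hw h
    have h1 := KR v hv
    have h2 := KR w hw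
    rw [← h] at h2
    generalize pos v = j at h1 h2
    rcases (Rdef _ _).1 h1 with h1 | h1 <;> rcases (Rdef _ _).1 h2 with h2 | h2
    · exact Or.inl (by rw [h1, h2])
    · exact Or.inr (by rw [h2, h1])
    · exact Or.inr (by rw [h2, h1, hs])
    · exact Or.inl (by rw [h2, h1])
  · intro v hv hodd h
    have h1 := Nat.odd_iff.1 hodd
    refine tie _ (Rtrans (t v) _ _ (RtO v _ h1 (KR v hv)) ?_)
    have := KR (t v) (Kt v hv)
    rwa [h] at this
  · intro v hv hev h
    have h1 := Nat.even_iff.1 hev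
    refine tie _ (Rtrans (o v) _ _ (RoE v _ h1 (KR v hv)) ?_)
    have := KR (o v) (Ko v hv)
    rwa [h] at this
  · intro Q hQ0 hQs hQt hQo v hv
    have h1 : ∀ i, Q (u i) := by
      intro i
      induction i with
      | zero => exact hQ0
      | succ i ih =>
        rcases Nat.mod_two_eq_zero_or_one i with h | h
        · have e : u (i + 1) = o (u i) := posU_even t o u0 h
          rw [e]
          exact hQo _ ih
        · have e : u (i + 1) = t (u i) := posU_odd t o u0 h
          rw [e]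
          exact hQt _ ih
    obtain ⟨j, hj⟩ := hv
    rcases (Rdef _ _).1 hj with h | h
    · rw [h]
      exact h1 j
    · rw [h]
      exact hQs _ (h1 j)

end H63.KO
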