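import Pool.Agent.H63.KO.Cyc
import Pool.Agent.H63.KO.Per

/-! # KO.Pots : three more local potentials (paper C5)

`pot_glue`: `u x := u_(κ x) x`. `pot_alt`, `pot_par`: apply `cyc` with `α = ρ i`, `β = ρ (i+1)`; let `f z = α (β z)`, `Φ (x, h) = (f x, h * gb x * ga (β x))`.
`pot_alt`: `f` exchanges `κ` and its negation on `R`, so `S.per i x` is even, and `Φ (Φ (x,h)) = (f (f x), h * r * t)` or `h * t * r`: `Φ^per (x,h) = (x, h (r t)^(per/2))` or `(x, h (t r)^(per/2))`; `(t r)^n = 1` iff `(r t)^n = 1`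
(`t r = t (r t) t⁻¹`). `pot_par`: `Φ^n (x, h) = (f^n x, h * y^(pos x + pos (f^n x)))` by induction (`y * y = 1`), so for `n = per`: `h * y^(2 pos x) = h`. The involution conditions `ia`, `ib` are immediate (`y^(even) = 1`). -/

namespace H63.KO

theorem pot_glue {X G : Type} [Group G] (α β : X → X) (R : Set X) (κ : X → ℕ)
    (hα : ∀ x ∈ R, κ (α x) = κ x) (hβ : ∀ x ∈ R, κ (β x) = κ x) (ga gb : X → G)
    (h : ∀ n, ∃ u : X → G, ∀ x ∈ R, κ x = n → u (α x) = u x * ga x ∧ u (β x) = u x * gb x) :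
    ∃ u : X → G, ∀ x ∈ R, u (α x) = u x * ga x ∧ u (β x) = u x * gb x := by
  choose u hu using h
  refine ⟨fun x => u (κ x) x, fun x hx => ?_⟩
  have h1 := hu (κ x) x hx rfl
  simp only [hα x hx, hβ x hx]
  exact h1

variable {X : Type} [Finite X] (S : FSys X)

omit [Finite X] in
private theorem iter_mem {f : X → X} {R : Set X} (hf : ∀ x ∈ R, f x ∈ R) (n : ℕ) :
    ∀ x ∈ R, f^[n] x ∈ R := by
  induction n with
  | zero => intro x hx; simpa using hx
  | succ n ih => intro x hx; rw [Function.iterate_succ_apply]; exact ih _ (hf x hx)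

/-- in the situation of `pot_alt` the period is even -/
private theorem per_even_aux {i : ℕ} (R : Set X)
    (hR1 : ∀ x ∈ R, S.ρ i x ∈ R) (hR2 : ∀ x ∈ R, S.ρ (i + 1) x ∈ R) (κ : X → Prop)
    (hκ1 : ∀ x ∈ R, κ (S.ρ i x) ↔ κ x) (hκ2 : ∀ x ∈ R, κ (S.ρ (i + 1) x) ↔ ¬ κ x) :
    ∀ x ∈ R, Even (S.per i x) := by
  intro x hx
  have hf : ∀ z ∈ R, S.ρ i (S.ρ (i + 1) z) ∈ R := fun z hz => hR1 _ (hR2 z hz)
  have key : ∀ n, κ ((fun z => S.ρ i (S.ρ (i + 1) z))^[n] x) ↔ (if Even n then κ x else ¬ κ x) := by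
    intro n
    induction n with
    | zero => simp
    | succ n ih =>
      have hm := iter_mem hf n x hx
      rw [Function.iterate_succ_apply', hκ1 _ (hR2 _ hm), hκ2 _ hm, ih]
      by_cases hn : Even n
      · have : ¬ Even (n + 1) := by rw [Nat.even_add_one]; simpa using hn
        simp [hn, this]
      · have : Even (n + 1) := by rw [Nat.even_add_one]; exact hn
        simp [hn, this]
  by_contra hne
  have h1 := key (S.per i x)
  rw [S.per_iter, if_neg hne] at h1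
  by_cases h2 : κ x
  · exact (h1.mp h2) h2
  · exact h2 (h1.mpr h2)

theorem FSys.pot_alt {G : Type} [Group G] {i : ℕ} (h1 : 1 ≤ i) (h2 : i + 1 ≤ S.d) (R : Set X)
    (hR1 : ∀ x ∈ R, S.ρ i x ∈ R) (hR2 : ∀ x ∈ R, S.ρ (i + 1) x ∈ R) (κ : X → Prop)
    (hκ1 : ∀ x ∈ R, κ (S.ρ i x) ↔ κ x) (hκ2 : ∀ x ∈ R, κ (S.ρ (i + 1) x) ↔ ¬ κ x)
    (ga gb : X → G) (r t : G) (hr : r * r = 1) (ht : t * t = 1) (ha : ∀ x ∈ R, κ x → ga x = r)
    (ha' : ∀ x ∈ R, ¬ κ x → ga x = t) (hb : ∀ x ∈ R, gb x = 1)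
    (hper : ∀ x ∈ R, (r * t) ^ (S.per i x / 2) = 1) :
    ∃ u : X → G, ∀ x ∈ R, u (S.ρ i x) = u x * ga x ∧ u (S.ρ (i + 1) x) = u x * gb x := by
  classical
  have hf : ∀ z ∈ R, S.ρ i (S.ρ (i + 1) z) ∈ R := fun z hz => hR1 _ (hR2 z hz)
  have hinv : (r * t)⁻¹ = t * r := by
    rw [mul_inv_rev, inv_eq_of_mul_eq_one_right hr, inv_eq_of_mul_eq_one_right ht]
  refine cyc (S.ρ i) (S.ρ (i + 1)) (S.inv i) (S.inv (i + 1)) (S.fpf i h1 (by omega))
    (S.fpf (i + 1) (by omega) h2) R hR1 hR2 ga gb ?_ ?_ ?_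
  · intro x hx
    by_cases hk : κ x
    · rw [ha x hx hk, ha _ (hR1 x hx) ((hκ1 x hx).mpr hk), hr]
    · rw [ha' x hx hk, ha' _ (hR1 x hx) (fun h => hk ((hκ1 x hx).mp h)), ht]
  · intro x hx
    rw [hb x hx, hb _ (hR2 x hx), mul_one]
  · intro x hx h
    change (fun p : X × G => (S.ρ i (S.ρ (i + 1) p.1), p.2 * gb p.1 * ga (S.ρ (i + 1) p.1)))^[
      S.per i x] (x, h) = (x, h)
    set Φ : X × G → X × G :=
      fun p => (S.ρ i (S.ρ (i + 1) p.1), p.2 * gb p.1 * ga (S.ρ (i + 1) p.1)) with hΦ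
    have step1 : ∀ z ∈ R, κ z → ∀ k : G, Φ (z, k) = (S.ρ i (S.ρ (i + 1) z), k * t) := by
      intro z hz hk k
      simp only [hΦ]
      rw [hb z hz, mul_one, ha' _ (hR2 z hz) (fun hh => ((hκ2 z hz).mp hh) hk)]
    have step2 : ∀ z ∈ R, ¬ κ z → ∀ k : G, Φ (z, k) = (S.ρ i (S.ρ (i + 1) z), k * r) := by
      intro z hz hk k
      simp only [hΦ]
      rw [hb z hz, mul_one, ha _ (hR2 z hz) ((hκ2 z hz).mpr hk)]
    have fl : ∀ z ∈ R, κ (S.ρ i (S.ρ (i + 1) z)) ↔ ¬ κ z := fun z hz => by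
      rw [hκ1 _ (hR2 z hz), hκ2 z hz]
    have two : ∀ z ∈ R, ∀ k : G, Φ^[2] (z, k) =
        ((fun z => S.ρ i (S.ρ (i + 1) z))^[2] z, k * (if κ z then t * r else r * t)) := by
      intro z hz k
      rw [Function.iterate_succ_apply, Function.iterate_one]
      by_cases hk : κ z
      · rw [step1 z hz hk, step2 _ (hf z hz) (fun hh => ((fl z hz).mp hh) hk), if_pos hk]
        simp [Function.iterate_succ_apply, mul_assoc]
      · rw [step2 z hz hk, step1 _ (hf z hz) ((fl z hz).mpr hk), if_neg hk]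
        simp [Function.iterate_succ_apply, mul_assoc]
    have κ2 : ∀ z ∈ R, κ ((fun z => S.ρ i (S.ρ (i + 1) z))^[2] z) ↔ κ z := by
      intro z hz
      have : (fun z => S.ρ i (S.ρ (i + 1) z))^[2] z =
          S.ρ i (S.ρ (i + 1) (S.ρ i (S.ρ (i + 1) z))) := rfl
      rw [this, fl _ (hf z hz), fl z hz, not_not]
    have many : ∀ m : ℕ, ∀ z ∈ R, ∀ k : G, Φ^[2 * m] (z, k) =
        ((fun z => S.ρ i (S.ρ (i + 1) z))^[2 * m] z, k * (if κ z then t * r else r * t) ^ m) := by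
      intro m
      induction m with
      | zero => intro z _ k; simp
      | succ m ih =>
        intro z hz k
        rw [show 2 * (m + 1) = 2 * m + 2 by ring, Function.iterate_add_apply, two z hz,
          ih _ (iter_mem hf 2 z hz)]
        refine Prod.ext ?_ ?_
        · change _ = _
          rw [← Function.iterate_add_apply]
        · change _ = _
          have hif : (if κ ((fun z => S.ρ i (S.ρ (i + 1) z))^[2] z) then t * r else r * t) =
              (if κ z then t * r else r * t) := by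
            by_cases hk : κ z
            · rw [if_pos ((κ2 z hz).mpr hk), if_pos hk]
            · rw [if_neg (fun hh => hk ((κ2 z hz).mp hh)), if_neg hk]
          rw [hif, mul_assoc, ← pow_succ']
    obtain ⟨m, hm⟩ := per_even_aux S R hR1 hR2 κ hκ1 hκ2 x hx
    have hm2 : S.per i x = 2 * m := by omega
    have hmd : S.per i x / 2 = m := by omega
    have hp := hper x hx
    rw [hmd] at hp
    rw [hm2, many m x hx h]
    refine Prod.ext ?_ ?_
    · change _ = _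
      rw [← hm2]
      exact S.per_iter i x
    · change _ = _
      by_cases hk : κ x
      · rw [if_pos hk, ← hinv, inv_pow, hp, inv_one, mul_one]
      · rw [if_neg hk, hp, mul_one]

/-- in the situation of `pot_alt` the period is even -/
theorem FSys.per_even {i : ℕ} (R : Set X)
    (hR1 : ∀ x ∈ R, S.ρ i x ∈ R) (hR2 : ∀ x ∈ R, S.ρ (i + 1) x ∈ R) (κ : X → Prop)
    (hκ1 : ∀ x ∈ R, κ (S.ρ i x) ↔ κ x) (hκ2 : ∀ x ∈ R, κ (S.ρ (i + 1) x) ↔ ¬ κ x) :
    ∀ x ∈ R, Even (S.per i x) :=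
  per_even_aux S R hR1 hR2 κ hκ1 hκ2

private theorem pow_even_one {G : Type} [Group G] {y : G} (hy : y * y = 1) {a b : ℕ}
    (h : a = b + b) : y ^ a = 1 := by
  rw [h, ← two_mul, pow_mul, pow_two, hy, one_pow]

theorem FSys.pot_par {G : Type} [Group G] {i : ℕ} (h1 : 1 ≤ i) (h2 : i + 1 ≤ S.d) (R : Set X)
    (hR1 : ∀ x ∈ R, S.ρ i x ∈ R) (hR2 : ∀ x ∈ R, S.ρ (i + 1) x ∈ R) (pos : X → ℕ) (y : G)
    (hy : y * y = 1) (ga gb : X → G)
    (ha : ∀ x ∈ R, ga x = y ^ (1 + pos x + pos (S.ρ i x)))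
    (hb : ∀ x ∈ R, gb x = y ^ (1 + pos x + pos (S.ρ (i + 1) x))) :
    ∃ u : X → G, ∀ x ∈ R, u (S.ρ i x) = u x * ga x ∧ u (S.ρ (i + 1) x) = u x * gb x := by
  have hf : ∀ z ∈ R, S.ρ i (S.ρ (i + 1) z) ∈ R := fun z hz => hR1 _ (hR2 z hz)
  refine cyc (S.ρ i) (S.ρ (i + 1)) (S.inv i) (S.inv (i + 1)) (S.fpf i h1 (by omega))
    (S.fpf (i + 1) (by omega) h2) R hR1 hR2 ga gb ?_ ?_ ?_
  · intro x hx
    rw [ha x hx, ha _ (hR1 x hx), S.inv, ← pow_add]
    exact pow_even_one hy (b := 1 + pos x + pos (S.ρ i x)) (by ring)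
  · intro x hx
    rw [hb x hx, hb _ (hR2 x hx), S.inv, ← pow_add]
    exact pow_even_one hy (b := 1 + pos x + pos (S.ρ (i + 1) x)) (by ring)
  · intro x hx h
    change (fun p : X × G => (S.ρ i (S.ρ (i + 1) p.1), p.2 * gb p.1 * ga (S.ρ (i + 1) p.1)))^[
      S.per i x] (x, h) = (x, h)
    set Φ : X × G → X × G :=
      fun p => (S.ρ i (S.ρ (i + 1) p.1), p.2 * gb p.1 * ga (S.ρ (i + 1) p.1)) with hΦ
    have step : ∀ z ∈ R, ∀ k : G, Φ (z, k) =
        (S.ρ i (S.ρ (i + 1) z), k * y ^ (pos z + pos (S.ρ i (S.ρ (i + 1) z)))) := by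
      intro z hz k
      simp only [hΦ]
      refine Prod.ext rfl ?_
      rw [hb z hz, ha _ (hR2 z hz), mul_assoc, ← pow_add,
        show 1 + pos z + pos (S.ρ (i + 1) z) +
          (1 + pos (S.ρ (i + 1) z) + pos (S.ρ i (S.ρ (i + 1) z))) =
          (pos z + pos (S.ρ i (S.ρ (i + 1) z))) + ((1 + pos (S.ρ (i + 1) z)) +
            (1 + pos (S.ρ (i + 1) z))) by ring, pow_add,
        pow_even_one hy rfl, mul_one]
    have many : ∀ n : ℕ, Φ^[n] (x, h) = ((fun z => S.ρ i (S.ρ (i + 1) z))^[n] x,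
        h * y ^ (pos x + pos ((fun z => S.ρ i (S.ρ (i + 1) z))^[n] x))) := by
      intro n
      induction n with
      | zero =>
        refine Prod.ext rfl ?_
        change h = _
        rw [Function.iterate_zero_apply, pow_even_one hy rfl, mul_one]
      | succ n ih =>
        rw [Function.iterate_succ_apply', ih, step _ (iter_mem hf n x hx),
          Function.iterate_succ_apply']
        refine Prod.ext rfl ?_
        rw [mul_assoc, ← pow_add]
        congr 1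
        rw [show pos x + pos ((fun z => S.ρ i (S.ρ (i + 1) z))^[n] x) +
          (pos ((fun z => S.ρ i (S.ρ (i + 1) z))^[n] x) +
            pos (S.ρ i (S.ρ (i + 1) ((fun z => S.ρ i (S.ρ (i + 1) z))^[n] x)))) =
          (pos x + pos (S.ρ i (S.ρ (i + 1) ((fun z => S.ρ i (S.ρ (i + 1) z))^[n] x)))) +
          (pos ((fun z => S.ρ i (S.ρ (i + 1) z))^[n] x) +
            pos ((fun z => S.ρ i (S.ρ (i + 1) z))^[n] x)) by ring, pow_add (y)
          (pos x + pos (S.ρ i (S.ρ (i + 1) ((fun z => S.ρ i (S.ρ (i + 1) z))^[n] x)))),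
          pow_even_one hy rfl, mul_one]
    rw [many, S.per_iter, pow_even_one hy rfl, mul_one]

end H63.KO
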