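import Pool.Agent.H63.KO.Block
import Pool.Agent.H63.KO.Pos
import Pool.Agent.H63.KO.Pots

/-! # KO.MixDef : the labels of the mixed case, at least three positions (definitions, no sorry)

`q` a quotient, `(a, b)` a block, `b + 2 ≤ d`, `D` the position data for `s = q.s a`, `t = q.s (b+1)`, `o = q.s (b+2)` and the type-3 predicate. The nodes: `c i` (`i < e`) for the colour `b - e + i`, `xn j` for colour `b` at the
positions `2 j, 2 j + 1`, and `y` for the colours `b+1`, `b+2` when they do not move the position. -/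

namespace H63.KO

variable {X : Type} [Finite X] {S : FSys X} {V : Type}

/-- the type-3 predicate -/
def T3 (q : S.Quo V) (b : ℕ) (v : V) : Prop := q.per b v = 3

/-- position data for a block `(a, b)` -/
abbrev BPos (q : S.Quo V) (a b : ℕ) : Type :=
  PosData (q.s a) (q.s (b + 1)) (q.s (b + 2)) (T3 q b)

/-- the requirements on the Gram matrix -/
structure MixHyp (q : S.Quo V) (a b : ℕ) (D : BPos q a b) (e : ℕ) {N : Type} [Fintype N]
    [DecidableEq N] (A : Gram N) (c xn : ℕ → N) (y : N) : Prop where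
  he : 1 ≤ e
  hea : a + e ≤ b
  hb : b + 2 ≤ S.d
  h34 : ∀ v ∈ D.K, q.per b v = 3 ∨ q.per b v = 4
  hcc : ∀ i j, i + 2 ≤ j → j < e → A.B (c i) (c j) = 0
  hc1 : ∀ i, i + 1 < e → A.B (c i) (c (i + 1)) = -(1 / 2)
  hcx : ∀ i j, i + 1 < e → A.B (c i) (xn j) = 0
  hcx1 : ∀ j, A.B (c (e - 1)) (xn j) = -(1 / 2)
  hcy : ∀ i, i < e → A.B (c i) y = 0
  hxy : A.B (xn 0) y = -(1 / 2)
  hxx : ∀ j, (∃ v ∈ D.K, D.pos v = 2 * j + 2) → A.B (xn j) (xn (j + 1)) = 0
  hodd : ∀ v ∈ D.K, ∀ j, D.pos v = 2 * j + 1 → D.pos (q.s (b + 1) v) = 2 * j + 1 →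
    A.B (xn j) y = -Real.cos (Real.pi / q.per b v)
  heven : ∀ v ∈ D.K, ∀ j, D.pos v = 2 * j + 2 → D.pos (q.s (b + 2) v) = 2 * j + 2 →
    A.B (xn (j + 1)) y = 0

variable {N : Type} [Fintype N] [DecidableEq N]

/-- the labels -/
noncomputable def mixLab (q : S.Quo V) {a b : ℕ} (D : BPos q a b) (e : ℕ) (A : Gram N)
    (c xn : ℕ → N) (y : N) (i : ℕ) (x : X) : (N → ℝ) ≃ₗ[ℝ] (N → ℝ) :=
  if i < b then A.r (c (i - (b - e)))
  else if i = b then A.r (xn (D.pos (q.π x) / 2))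
  else if D.pos (q.s i (q.π x)) = D.pos (q.π x) then A.r y else 1

end H63.KO
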