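import Pool.Agent.H63.KO.MixDef

/-! # KO.MixLow : local potentials below `b` (paper C5, mixed case, `l ≥ 2`)

`R = {x | q.π x ∈ D.K}` is closed under `ρ i`, `b - e ≤ i ≤ b + 2`: `ρ i` acts on `V` as `s = q.s a` for `a ≤ i ≤ b` (`IsBlock.eq`), as `t`, `o` for `b+1`, `b+2`. `s` commutes with `t` and `o` (`s_comm`, `a + 2 ≤ b + 1`).
`D.pos (s v) = D.pos v`, `D.pos (t (s v)) = D.pos (s (t v)) = D.pos (t v)`, the same for `o`.
LOCAL POTENTIALS. `i + 1 < b`: `FSys.pot_const`, `r_pow` with `q = 3` (`hc1`, `cos (π/3) = 1/2`), `IsBlock.three`. `i + 1 = b`: `pot_glue` with `κ = pos`, `pot_const` on `{x ∈ R | pos = n}`, `hcx1`. -/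

namespace H63.KO

variable {X : Type} [Finite X] {S : FSys X} {V : Type}
variable {N : Type} [Fintype N] [DecidableEq N]

private theorem lowlab_lt (q : S.Quo V) {a b : ℕ} (D : BPos q a b) (e : ℕ)
    (A : Gram N) (c xn : ℕ → N) (y : N) {i : ℕ} (h : i < b) (x : X) :
    mixLab q D e A c xn y i x = A.r (c (i - (b - e))) := by
  unfold mixLab
  rw [if_pos h]

private theorem lowlab_b (q : S.Quo V) {a b : ℕ} (D : BPos q a b) (e : ℕ)
    (A : Gram N) (c xn : ℕ → N) (y : N) (x : X) :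
    mixLab q D e A c xn y b x = A.r (xn (D.pos (q.π x) / 2)) := by
  unfold mixLab
  rw [if_neg (lt_irrefl b), if_pos rfl]

private theorem low_pi (q : S.Quo V) {a b : ℕ} (hB : IsBlock q a b) {k : ℕ} (h1 : a ≤ k)
    (h2 : k ≤ b) (x : X) : q.π (S.ρ k x) = q.s a (q.π x) := by
  rw [q.hs, hB.eq k h1 h2]

private theorem cos_three : -(1 / 2 : ℝ) = -Real.cos (Real.pi / ((3 : ℕ) : ℝ)) := by
  push_cast
  rw [Real.cos_pi_div_three]

/-- the local potentials below `b` -/
theorem mix_loc_low (q : S.Quo V) {a b : ℕ} (hB : IsBlock q a b) (D : BPos q a b) {e : ℕ}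
    {A : Gram N} {c xn : ℕ → N} {y : N} (H : MixHyp q a b D e A c xn y) {i : ℕ}
    (hi : b - e ≤ i) (hib : i + 1 ≤ b) :
    ∃ u : X → ((N → ℝ) ≃ₗ[ℝ] (N → ℝ)), ∀ x, q.π x ∈ D.K →
      u (S.ρ i x) = u x * mixLab q D e A c xn y i x ∧
      u (S.ρ (i + 1) x) = u x * mixLab q D e A c xn y (i + 1) x := by
  have hea := H.hea
  have he := H.he
  have hb := H.hb
  have hpos := hB.pos
  have hai : a ≤ i := by omega
  have h1 : 1 ≤ i := by omega
  have h2 : i + 1 ≤ S.d := by omega
  rcases lt_or_eq_of_le hib with hlt | heq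
  · refine S.pot_const h1 h2 {x | q.π x ∈ D.K} ?_ ?_ (mixLab q D e A c xn y i)
      (mixLab q D e A c xn y (i + 1)) (A.r (c (i - (b - e)))) (A.r (c (i - (b - e) + 1)))
      (A.r_mul_self _) (A.r_mul_self _) ?_ ?_ ?_
    · intro x hx
      show q.π (S.ρ i x) ∈ D.K
      rw [low_pi q hB hai (by omega)]
      exact D.Ks _ hx
    · intro x hx
      show q.π (S.ρ (i + 1) x) ∈ D.K
      rw [low_pi q hB (by omega) hib]
      exact D.Ks _ hx
    · intro x _
      exact lowlab_lt q D e A c xn y (by omega) x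
    · intro x _
      have e1 : i + 1 - (b - e) = i - (b - e) + 1 := by omega
      rw [lowlab_lt q D e A c xn y hlt x, e1]
    · intro x _
      rw [hB.three i hai (by omega) x]
      exact A.r_pow (by norm_num) ((H.hc1 (i - (b - e)) (by omega)).trans cos_three)
  · subst heq
    refine pot_glue (S.ρ i) (S.ρ (i + 1)) {x | q.π x ∈ D.K} (fun x => D.pos (q.π x)) ?_ ?_
      (mixLab q D e A c xn y i) (mixLab q D e A c xn y (i + 1)) ?_
    · intro x hx
      show D.pos (q.π (S.ρ i x)) = D.pos (q.π x)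
      rw [low_pi q hB hai (by omega)]
      exact D.pos_s _ hx
    · intro x hx
      show D.pos (q.π (S.ρ (i + 1) x)) = D.pos (q.π x)
      rw [low_pi q hB (by omega) hib]
      exact D.pos_s _ hx
    · intro n
      obtain ⟨u, hu⟩ := S.pot_const h1 h2 {x | q.π x ∈ D.K ∧ D.pos (q.π x) = n} (by
          intro x hx
          show q.π (S.ρ i x) ∈ D.K ∧ D.pos (q.π (S.ρ i x)) = n
          rw [low_pi q hB hai (by omega), D.pos_s _ hx.1]
          exact ⟨D.Ks _ hx.1, hx.2⟩) (by
          intro x hx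
          show q.π (S.ρ (i + 1) x) ∈ D.K ∧ D.pos (q.π (S.ρ (i + 1) x)) = n
          rw [low_pi q hB (by omega) hib, D.pos_s _ hx.1]
          exact ⟨D.Ks _ hx.1, hx.2⟩) (mixLab q D e A c xn y i)
        (mixLab q D e A c xn y (i + 1)) (A.r (c (e - 1))) (A.r (xn (n / 2)))
        (A.r_mul_self _) (A.r_mul_self _) (by
          intro x _
          have e1 : i - (i + 1 - e) = e - 1 := by omega
          rw [lowlab_lt q D e A c xn y (by omega) x, e1]) (by
          intro x hx
          rw [lowlab_b q D e A c xn y x, hx.2]) (by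
          intro x _
          rw [hB.three i hai (by omega) x]
          exact A.r_pow (by norm_num) ((H.hcx1 (n / 2)).trans cos_three))
      exact ⟨u, fun x hx hn => hu x ⟨hx, hn⟩⟩

end H63.KO
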