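import Pool.Agent.H63.KO.MixDef

/-! # KO.MixMid : local potential for `b`, `b + 1` (paper C5, mixed case, `l ≥ 2`)

`R = {x | q.π x ∈ D.K}` is closed under `ρ i`, `b - e ≤ i ≤ b + 2`: `ρ i` acts on `V` as `s = q.s a` for `a ≤ i ≤ b` (`IsBlock.eq`), as `t`, `o` for `b+1`, `b+2`. `s` commutes with `t` and `o` (`s_comm`, `a + 2 ≤ b + 1`).
`D.pos (s v) = D.pos v`, `D.pos (t (s v)) = D.pos (s (t v)) = D.pos (t v)`, the same for `o`.
`i = b`: `pot_glue` with `κ = (pos + 1) / 2`. `n = 0`: `pos = 0`, labels `xn 0`, `y` (`zero_t`), period `3` (`type_zero`, `per_π`), `hxy`. `n = j + 1`: positions `2j+1, 2j+2`. If some `v ∈ K` of position `2j+1` has `pos (t v) = 2j+1` then (`tie_t`) there is no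
position `2j+2` and all `v` of position `2j+1` have this property (`same`, `pos_s`): labels `xn j`, `y`, `hodd`, `pot_const` (`r_pow` with `q = per ∈ {3,4}`). Otherwise `t` exchanges the positions `2j+1` and `2j+2` (`odd_t`, `even_t`), the label of `b+1` is `1`, the period is `4`
(`h34`; type 3 would give `pos (t v) = pos v` by `type`), `pot_alt` with `κ = (pos = 2j+1)`, `r = A.r (xn j)`, `t = A.r (xn (j+1))`, `(r t)^2 = 1` by `hxx` (if there is no `v` of position `2j+2` then there is none of position `2j+1` either and the set is empty). -/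

namespace H63.KO

variable {X : Type} [Finite X] {S : FSys X} {V : Type}
variable {N : Type} [Fintype N] [DecidableEq N]

private theorem midlab_b (q : S.Quo V) {a b : ℕ} (D : BPos q a b) (e : ℕ)
    (A : Gram N) (c xn : ℕ → N) (y : N) (x : X) :
    mixLab q D e A c xn y b x = A.r (xn (D.pos (q.π x) / 2)) := by
  unfold mixLab
  rw [if_neg (lt_irrefl b), if_pos rfl]

private theorem midlab_gt (q : S.Quo V) {a b : ℕ} (D : BPos q a b) (e : ℕ)
    (A : Gram N) (c xn : ℕ → N) (y : N) (x : X) :
    mixLab q D e A c xn y (b + 1) x =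
      if D.pos (q.s (b + 1) (q.π x)) = D.pos (q.π x) then A.r y else 1 := by
  unfold mixLab
  rw [if_neg (by omega), if_neg (by omega)]

/-- the local potential for the colours `b`, `b + 1` -/
theorem mix_loc_mid (q : S.Quo V) {a b : ℕ} (hB : IsBlock q a b) (D : BPos q a b) {e : ℕ}
    {A : Gram N} {c xn : ℕ → N} {y : N} (H : MixHyp q a b D e A c xn y) :
    ∃ u : X → ((N → ℝ) ≃ₗ[ℝ] (N → ℝ)), ∀ x, q.π x ∈ D.K →
      u (S.ρ b x) = u x * mixLab q D e A c xn y b x ∧
      u (S.ρ (b + 1) x) = u x * mixLab q D e A c xn y (b + 1) x := by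
  have hb := H.hb
  have hpos := hB.pos
  have hlen := hB.len
  have h1 : 1 ≤ b := by omega
  have h2 : b + 1 ≤ S.d := by omega
  have hπ : ∀ x, q.π (S.ρ b x) = q.s a (q.π x) := by
    intro x
    rw [q.hs, hB.eq b (by omega) le_rfl]
  have hswap : ∀ v, q.s (b + 1) (q.s a v) = q.s a (q.s (b + 1) v) := fun v =>
    q.s_comm (Or.inr (by omega)) v
  have hκ2 : ∀ x, q.π x ∈ D.K →
      (D.pos (q.π (S.ρ (b + 1) x)) + 1) / 2 = (D.pos (q.π x) + 1) / 2 := by
    intro x hx
    rw [q.hs]
    rcases Nat.even_or_odd (D.pos (q.π x)) with hev | hod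
    · by_cases h0 : D.pos (q.π x) = 0
      · have h3 := D.zero_t _ hx h0
        omega
      · have h3 := D.even_t _ hx hev h0
        obtain ⟨m, hm⟩ := hev
        omega
    · have h3 := D.odd_t _ hx hod
      obtain ⟨m, hm⟩ := hod
      omega
  refine pot_glue (S.ρ b) (S.ρ (b + 1)) {x | q.π x ∈ D.K} (fun x => (D.pos (q.π x) + 1) / 2) ?_ ?_
      (mixLab q D e A c xn y b) (mixLab q D e A c xn y (b + 1)) ?_
  · intro x hx
    show (D.pos (q.π (S.ρ b x)) + 1) / 2 = (D.pos (q.π x) + 1) / 2
    rw [hπ, D.pos_s _ hx]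
  · intro x hx
    exact hκ2 x hx
  · intro n
    have hR1 : ∀ x ∈ {x | q.π x ∈ D.K ∧ (D.pos (q.π x) + 1) / 2 = n},
        S.ρ b x ∈ {x | q.π x ∈ D.K ∧ (D.pos (q.π x) + 1) / 2 = n} := by
      intro x hx
      show q.π (S.ρ b x) ∈ D.K ∧ (D.pos (q.π (S.ρ b x)) + 1) / 2 = n
      rw [hπ, D.pos_s _ hx.1]
      exact ⟨D.Ks _ hx.1, hx.2⟩
    have hR2 : ∀ x ∈ {x | q.π x ∈ D.K ∧ (D.pos (q.π x) + 1) / 2 = n},
        S.ρ (b + 1) x ∈ {x | q.π x ∈ D.K ∧ (D.pos (q.π x) + 1) / 2 = n} := by
      intro x hx
      refine ⟨?_, (hκ2 x hx.1).trans hx.2⟩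
      show q.π (S.ρ (b + 1) x) ∈ D.K
      rw [q.hs]
      exact D.Kt _ hx.1
    rcases Nat.eq_zero_or_pos n with hn | hn
    · subst hn
      have hz : ∀ x ∈ {x | q.π x ∈ D.K ∧ (D.pos (q.π x) + 1) / 2 = 0}, D.pos (q.π x) = 0 := by
        intro x hx
        have := hx.2
        omega
      obtain ⟨u, hu⟩ := S.pot_const h1 h2 _ hR1 hR2 (mixLab q D e A c xn y b)
        (mixLab q D e A c xn y (b + 1)) (A.r (xn 0)) (A.r y)
        (A.r_mul_self _) (A.r_mul_self _) (by
          intro x hx
          rw [midlab_b, hz x hx]) (by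
          intro x hx
          rw [midlab_gt, if_pos]
          rw [hz x hx]
          exact D.zero_t _ hx.1 (hz x hx)) (by
          intro x hx
          have h3 : S.per b x = 3 := by
            rw [← q.per_π]
            exact D.type_zero _ hx.1 (hz x hx)
          rw [h3]
          refine A.r_pow (by norm_num) (H.hxy.trans ?_)
          push_cast
          rw [Real.cos_pi_div_three])
      exact ⟨u, fun x hx hn => hu x ⟨hx, hn⟩⟩
    · obtain ⟨j, rfl⟩ : ∃ j, n = j + 1 := ⟨n - 1, by omega⟩
      by_cases htie : ∃ v ∈ D.K, D.pos v = 2 * j + 1 ∧ D.pos (q.s (b + 1) v) = 2 * j + 1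
      · obtain ⟨v, hv, hv1, hv2⟩ := htie
        have hle := D.tie_t v hv ⟨j, by omega⟩ (hv2.trans hv1.symm)
        have hp : ∀ x ∈ {x | q.π x ∈ D.K ∧ (D.pos (q.π x) + 1) / 2 = j + 1},
            D.pos (q.π x) = 2 * j + 1 := by
          intro x hx
          have h3 := hx.2
          have h4 := hle _ hx.1
          omega
        have ht : ∀ x ∈ {x | q.π x ∈ D.K ∧ (D.pos (q.π x) + 1) / 2 = j + 1},
            D.pos (q.s (b + 1) (q.π x)) = 2 * j + 1 := by
          intro x hx
          rcases D.same v hv _ hx.1 (hv1.trans (hp x hx).symm) with h | h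
          · rw [h]
            exact hv2
          · rw [h, hswap, D.pos_s _ (D.Kt _ hv)]
            exact hv2
        obtain ⟨u, hu⟩ := S.pot_const h1 h2 _ hR1 hR2 (mixLab q D e A c xn y b)
          (mixLab q D e A c xn y (b + 1)) (A.r (xn j)) (A.r y)
          (A.r_mul_self _) (A.r_mul_self _) (by
            intro x hx
            have e1 : (2 * j + 1) / 2 = j := by omega
            rw [midlab_b, hp x hx, e1]) (by
            intro x hx
            rw [midlab_gt, if_pos]
            rw [hp x hx]
            exact ht x hx) (by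
            intro x hx
            rw [← q.per_π]
            refine A.r_pow ?_ (H.hodd _ hx.1 j (hp x hx) (ht x hx))
            rcases H.h34 _ hx.1 with h | h <;> rw [h] <;> norm_num)
        exact ⟨u, fun x hx hn => hu x ⟨hx, hn⟩⟩
      · have hcase : ∀ x ∈ {x | q.π x ∈ D.K ∧ (D.pos (q.π x) + 1) / 2 = j + 1},
            (D.pos (q.π x) = 2 * j + 1 ∧ D.pos (q.s (b + 1) (q.π x)) = 2 * j + 2) ∨
            (D.pos (q.π x) = 2 * j + 2 ∧ D.pos (q.s (b + 1) (q.π x)) = 2 * j + 1) := by
          intro x hx
          have h3 := hx.2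
          rcases (by omega : D.pos (q.π x) = 2 * j + 1 ∨ D.pos (q.π x) = 2 * j + 2) with h | h
          · left
            refine ⟨h, ?_⟩
            rcases D.odd_t _ hx.1 ⟨j, by omega⟩ with h4 | h4
            · exact absurd ⟨_, hx.1, h, h4.trans h⟩ htie
            · omega
          · right
            refine ⟨h, ?_⟩
            have := D.even_t _ hx.1 ⟨j + 1, by omega⟩ (by omega)
            omega
        obtain ⟨u, hu⟩ := S.pot_alt h1 h2 _ hR1 hR2 (fun x => D.pos (q.π x) = 2 * j + 1) (by
            intro x hx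
            show D.pos (q.π (S.ρ b x)) = 2 * j + 1 ↔ D.pos (q.π x) = 2 * j + 1
            rw [hπ, D.pos_s _ hx.1]) (by
            intro x hx
            show D.pos (q.π (S.ρ (b + 1) x)) = 2 * j + 1 ↔ ¬ D.pos (q.π x) = 2 * j + 1
            rw [q.hs]
            have := hcase x hx
            omega)
          (mixLab q D e A c xn y b) (mixLab q D e A c xn y (b + 1)) (A.r (xn j))
          (A.r (xn (j + 1))) (A.r_mul_self _) (A.r_mul_self _) (by
            intro x hx h
            have e1 : D.pos (q.π x) / 2 = j := by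
              have h' : D.pos (q.π x) = 2 * j + 1 := h
              omega
            rw [midlab_b, e1]) (by
            intro x hx h
            have e1 : D.pos (q.π x) / 2 = j + 1 := by
              have h' : ¬ D.pos (q.π x) = 2 * j + 1 := h
              have := hcase x hx
              omega
            rw [midlab_b, e1]) (by
            intro x hx
            rw [midlab_gt, if_neg]
            have := hcase x hx
            omega) (by
            intro x hx
            have hc := hcase x hx
            have h4 : S.per b x = 4 := by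
              rw [← q.per_π]
              rcases H.h34 _ hx.1 with h | h
              · have := D.type _ hx.1 (by omega) h
                omega
              · exact h
            have hex : ∃ v ∈ D.K, D.pos v = 2 * j + 2 := by
              rcases hc with h | h
              · exact ⟨_, D.Kt _ hx.1, h.2⟩
              · exact ⟨_, hx.1, h.1⟩
            have hcm := A.r_comm (H.hxx j hex)
            have e2 : 4 / 2 = 2 := rfl
            rw [h4, e2, pow_two, mul_assoc, ← mul_assoc (A.r (xn (j + 1))) (A.r (xn j)),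
              ← hcm, mul_assoc (A.r (xn j)), A.r_mul_self, mul_one, A.r_mul_self])
        exact ⟨u, fun x hx hn => hu x ⟨hx, hn⟩⟩

end H63.KO
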