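import Pool.Agent.H63.KO.MixDef

/-! # KO.MixTop : local potential for `b + 1`, `b + 2` (paper C5, mixed case, `l ≥ 2`)

`R = {x | q.π x ∈ D.K}` is closed under `ρ i`, `b - e ≤ i ≤ b + 2`: `ρ i` acts on `V` as `s = q.s a` for `a ≤ i ≤ b` (`IsBlock.eq`), as `t`, `o` for `b+1`, `b+2`. `s` commutes with `t` and `o` (`s_comm`, `a + 2 ≤ b + 1`).
`D.pos (s v) = D.pos v`, `D.pos (t (s v)) = D.pos (s (t v)) = D.pos (t v)`, the same for `o`.
`i = b + 1`: `pot_par` (`y^(1 + pos x + pos x') = y` if `pos x = pos x'`, `= 1` if they differ by one; they never differ by more). -/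

namespace H63.KO

variable {X : Type} [Finite X] {S : FSys X} {V : Type}
variable {N : Type} [Fintype N] [DecidableEq N]

private theorem toplab_gt (q : S.Quo V) {a b : ℕ} (D : BPos q a b) (e : ℕ)
    (A : Gram N) (c xn : ℕ → N) (y : N) {i : ℕ} (h : b < i) (x : X) :
    mixLab q D e A c xn y i x =
      if D.pos (q.s i (q.π x)) = D.pos (q.π x) then A.r y else 1 := by
  unfold mixLab
  rw [if_neg (not_lt.2 h.le), if_neg h.ne']

private theorem even_pow {G : Type} [Group G] {g : G} (hg : g * g = 1) {n : ℕ} (hn : Even n) :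
    g ^ n = 1 := by
  obtain ⟨m, rfl⟩ := hn
  rw [← two_mul, pow_mul, pow_two, hg, one_pow]

private theorem top_pow {G : Type} [Group G] {g : G} (hg : g * g = 1) {m n : ℕ}
    (h : m = n ∨ m = n + 1 ∨ m + 1 = n) :
    (if m = n then g else 1) = g ^ (1 + n + m) := by
  split
  · rename_i h0
    subst h0
    rw [add_assoc, pow_add, pow_one, even_pow hg ⟨m, rfl⟩, mul_one]
  · rename_i h0
    rw [even_pow hg]
    rcases h with h | h | h
    · exact absurd h h0
    · exact ⟨n + 1, by omega⟩
    · exact ⟨n, by omega⟩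

/-- the local potential for the colours `b + 1`, `b + 2` -/
theorem mix_loc_top (q : S.Quo V) {a b : ℕ} (hB : IsBlock q a b) (D : BPos q a b) {e : ℕ}
    {A : Gram N} {c xn : ℕ → N} {y : N} (H : MixHyp q a b D e A c xn y) :
    ∃ u : X → ((N → ℝ) ≃ₗ[ℝ] (N → ℝ)), ∀ x, q.π x ∈ D.K →
      u (S.ρ (b + 1) x) = u x * mixLab q D e A c xn y (b + 1) x ∧
      u (S.ρ (b + 2) x) = u x * mixLab q D e A c xn y (b + 2) x := by
  have hb := H.hb
  have hstep : ∀ v ∈ D.K, (D.pos (q.s (b + 1) v) = D.pos v ∨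
      D.pos (q.s (b + 1) v) = D.pos v + 1 ∨ D.pos (q.s (b + 1) v) + 1 = D.pos v) ∧
      (D.pos (q.s (b + 2) v) = D.pos v ∨
      D.pos (q.s (b + 2) v) = D.pos v + 1 ∨ D.pos (q.s (b + 2) v) + 1 = D.pos v) := by
    intro v hv
    rcases Nat.even_or_odd (D.pos v) with hev | hod
    · by_cases h0 : D.pos v = 0
      · have h1 := D.zero_t v hv h0
        have h2 := D.zero_o v hv h0
        omega
      · have h1 := D.even_t v hv hev h0
        have h2 := D.even_o v hv hev h0
        omega
    · have h1 := D.odd_t v hv hod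
      have h2 := D.odd_o v hv hod
      omega
  exact S.pot_par (i := b + 1) (by omega) (by omega) {x | q.π x ∈ D.K} (by
      intro x hx
      show q.π (S.ρ (b + 1) x) ∈ D.K
      rw [q.hs]
      exact D.Kt _ hx) (by
      intro x hx
      show q.π (S.ρ (b + 2) x) ∈ D.K
      rw [q.hs]
      exact D.Ko _ hx) (fun x => D.pos (q.π x)) (A.r y) (A.r_mul_self y)
    (mixLab q D e A c xn y (b + 1)) (mixLab q D e A c xn y (b + 2)) (by
      intro x hx
      rw [toplab_gt q D e A c xn y (by omega) x, q.hs]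
      exact top_pow (A.r_mul_self y) (hstep _ hx).1) (by
      intro x hx
      show mixLab q D e A c xn y (b + 2) x = A.r y ^ (1 + D.pos (q.π x) +
        D.pos (q.π (S.ρ (b + 2) x)))
      rw [toplab_gt q D e A c xn y (by omega) x, q.hs]
      exact top_pow (A.r_mul_self y) (hstep _ hx).2)

end H63.KO
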