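import Pool.Agent.H63.KO.MixComm
import Pool.Agent.H63.KO.MixLow
import Pool.Agent.H63.KO.MixMid
import Pool.Agent.H63.KO.MixTop

/-! # KO.MixFin : the reflections generate a finite group (paper C5, mixed case)

`mix_pot`: `S.univ` for `[b - e, b + 2]` and `R = {x | q.π x ∈ D.K}` with `mix_comm` and the three local potentials.
`mix_finite`: let `F` be the potential, `F_n = {F x | x ∈ R, pos (π x) = n}`. If `e_n` is the letter going up from `n` (`ρ (b+2)` for even, `ρ (b+1)` for odd `n`) and there is no tie at `n`, then `F_n = F_(n+1)` (the label is `1`, the letter maps positions `n` and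
`n+1` to each other: `even_o`, `zero_o`, `odd_o`, `odd_t`, `even_t`; no tie at `n` if some `v ∈ K` has position `> n`, by `tie_t`, `tie_o`, `same`). So `F_0 = F_n` whenever the position `n` occurs (positions below an occurring one occur: go down).
`F_0` is finite (`X` finite), nonempty (`D.u0`, surjectivity of `π`), closed under right multiplication by `A.r (c i)` (colour `b - e + i`, position unchanged), by `A.r y` (colour `b+1`, `zero_t`), by `A.r (xn j)` if position `2 j` occurs (colour `b` on `F_(2j) = F_0`).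
`Gram.closed_finite`. -/

namespace H63.KO

variable {X : Type} [Finite X] {S : FSys X} {V : Type}
variable {N : Type} [Fintype N] [DecidableEq N]

omit [Finite X] in
/-- the preimage of `K` is closed under the colours `b - e, ..., b + 2` -/
private theorem mixFin_mem (q : S.Quo V) {a b : ℕ} (hB : IsBlock q a b) (D : BPos q a b)
    {i : ℕ} (h1 : a ≤ i) (h2 : i ≤ b + 2) {x : X} (hx : q.π x ∈ D.K) : q.π (S.ρ i x) ∈ D.K := by
  rw [q.hs]
  rcases Nat.lt_or_ge b i with h | h
  · rcases Nat.lt_or_ge (b + 1) i with h' | h'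
    · have : i = b + 2 := by omega
      subst this
      exact D.Ko _ hx
    · have : i = b + 1 := by omega
      subst this
      exact D.Kt _ hx
  · rw [hB.eq i h1 h]
    exact D.Ks _ hx

theorem mix_pot (q : S.Quo V) {a b : ℕ} (hB : IsBlock q a b) (D : BPos q a b) {e : ℕ}
    {A : Gram N} {c xn : ℕ → N} {y : N} (H : MixHyp q a b D e A c xn y) :
    ∃ F : X → ((N → ℝ) ≃ₗ[ℝ] (N → ℝ)), ∀ i, b - e ≤ i → i ≤ b + 2 → ∀ x, q.π x ∈ D.K →
      F (S.ρ i x) = F x * mixLab q D e A c xn y i x := by
  have hpos := hB.pos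
  have hea := H.hea
  have he := H.he
  refine S.univ ((N → ℝ) ≃ₗ[ℝ] (N → ℝ)) (b - e) (b + 2) {x | q.π x ∈ D.K}
    (fun i x => mixLab q D e A c xn y i x) (by omega) (by omega) H.hb ?_ ?_ ?_
  · intro i h1 h2 x hx
    exact mixFin_mem q hB D (by omega) h2 hx
  · intro i j h1 h2 h3 x hx
    exact mix_comm q hB D H i j h1 h2 h3 x hx
  · intro i h1 h2
    rcases Nat.lt_or_ge i b with h | h
    · exact mix_loc_low q hB D H h1 h
    · rcases Nat.lt_or_ge b i with h' | h'
      · have : i = b + 1 := by omega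
        subst this
        exact mix_loc_top q hB D H
      · have : i = b := by omega
        subst this
        exact mix_loc_mid q hB D H

theorem mix_finite (q : S.Quo V) {a b : ℕ} (hB : IsBlock q a b) (D : BPos q a b) {e : ℕ}
    {A : Gram N} {c xn : ℕ → N} {y : N} (H : MixHyp q a b D e A c xn y)
    (hsurj : ∀ n, n = y ∨ (∃ i, i < e ∧ n = c i) ∨
      ∃ j, n = xn j ∧ ∃ v ∈ D.K, D.pos v = 2 * j) :
    (Subgroup.closure (Set.range A.r) : Set ((N → ℝ) ≃ₗ[ℝ] (N → ℝ))).Finite := by
  obtain ⟨F, hF⟩ := mix_pot q hB D H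
  have hpos := hB.pos
  have hea := H.hea
  have he := H.he
  set Fn : ℕ → Set ((N → ℝ) ≃ₗ[ℝ] (N → ℝ)) := fun n =>
    {f | ∃ x, q.π x ∈ D.K ∧ D.pos (q.π x) = n ∧ F x = f} with hFn
  -- the letters `b + 1`, `b + 2` with change of position
  have hmove : ∀ i, b < i → i ≤ b + 2 → ∀ x, q.π x ∈ D.K →
      D.pos (q.s i (q.π x)) ≠ D.pos (q.π x) → F (S.ρ i x) = F x := by
    intro i h1 h2 x hx hne
    rw [hF i (by omega) h2 x hx]
    unfold mixLab
    rw [if_neg (by omega), if_neg (by omega), if_neg hne, mul_one]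
  -- one step
  have hstep : ∀ n, (∃ v ∈ D.K, D.pos v = n + 1) →
      (∃ v ∈ D.K, D.pos v = n) ∧ Fn n = Fn (n + 1) := by
    rintro n ⟨v, hv, hvn⟩
    rcases Nat.even_or_odd n with hn | hn
    · -- `n` even, letter `b + 2`
      have hn1 : Odd (n + 1) := hn.add_one
      have hdown : ∀ w ∈ D.K, D.pos w = n + 1 → D.pos (q.s (b + 2) w) = n := by
        intro w hw hwn
        have := D.odd_o w hw (by rw [hwn]; exact hn1)
        omega
      have hup : ∀ w ∈ D.K, D.pos w = n → D.pos (q.s (b + 2) w) = n + 1 := by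
        intro w hw hwn
        rcases Nat.eq_zero_or_pos n with h0 | h0
        · subst h0
          exact D.zero_o w hw hwn
        · rcases D.even_o w hw (by rw [hwn]; exact hn) (by omega) with h | h
          · exfalso
            have := D.tie_o w hw (by rw [hwn]; exact hn) h v hv
            omega
          · omega
      refine ⟨⟨_, D.Ko v hv, hdown v hv hvn⟩, ?_⟩
      apply Set.Subset.antisymm
      · rintro f ⟨x, hx, hxn, rfl⟩
        have h1 := hup _ hx hxn
        refine ⟨S.ρ (b + 2) x, mixFin_mem q hB D (by omega) le_rfl hx, ?_, ?_⟩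
        · rw [q.hs, h1]
        · exact hmove (b + 2) (by omega) le_rfl x hx (by omega)
      · rintro f ⟨x, hx, hxn, rfl⟩
        have h1 := hdown _ hx hxn
        refine ⟨S.ρ (b + 2) x, mixFin_mem q hB D (by omega) le_rfl hx, ?_, ?_⟩
        · rw [q.hs, h1]
        · exact hmove (b + 2) (by omega) le_rfl x hx (by omega)
    · -- `n` odd, letter `b + 1`
      have hn1 : Even (n + 1) := hn.add_one
      have hdown : ∀ w ∈ D.K, D.pos w = n + 1 → D.pos (q.s (b + 1) w) = n := by
        intro w hw hwn
        have := D.even_t w hw (by rw [hwn]; exact hn1) (by omega)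
        omega
      have hup : ∀ w ∈ D.K, D.pos w = n → D.pos (q.s (b + 1) w) = n + 1 := by
        intro w hw hwn
        rcases D.odd_t w hw (by rw [hwn]; exact hn) with h | h
        · exfalso
          have := D.tie_t w hw (by rw [hwn]; exact hn) h v hv
          omega
        · omega
      refine ⟨⟨_, D.Kt v hv, hdown v hv hvn⟩, ?_⟩
      apply Set.Subset.antisymm
      · rintro f ⟨x, hx, hxn, rfl⟩
        have h1 := hup _ hx hxn
        refine ⟨S.ρ (b + 1) x, mixFin_mem q hB D (by omega) (by omega) hx, ?_, ?_⟩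
        · rw [q.hs, h1]
        · exact hmove (b + 1) (by omega) (by omega) x hx (by omega)
      · rintro f ⟨x, hx, hxn, rfl⟩
        have h1 := hdown _ hx hxn
        refine ⟨S.ρ (b + 1) x, mixFin_mem q hB D (by omega) (by omega) hx, ?_, ?_⟩
        · rw [q.hs, h1]
        · exact hmove (b + 1) (by omega) (by omega) x hx (by omega)
  have hall : ∀ n, (∃ v ∈ D.K, D.pos v = n) → Fn 0 = Fn n := by
    intro n
    induction n with
    | zero => intro _; rfl
    | succ n ih =>
      intro hex
      obtain ⟨h1, h2⟩ := hstep n hex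
      rw [ih h1, h2]
  refine A.closed_finite (Fn 0) ?_ ?_ ?_
  · refine (Set.finite_range F).subset ?_
    rintro f ⟨x, _, _, rfl⟩
    exact ⟨x, rfl⟩
  · obtain ⟨x, hx⟩ := q.surj D.u0
    exact ⟨F x, x, by rw [hx]; exact D.mem_u0, by rw [hx]; exact D.pos_u0, rfl⟩
  · intro f hf n
    rcases hsurj n with rfl | ⟨i, hi, rfl⟩ | ⟨j, rfl, hex⟩
    · obtain ⟨x, hx, hx0, rfl⟩ := hf
      have h0 := D.zero_t _ hx hx0
      refine ⟨S.ρ (b + 1) x, mixFin_mem q hB D (by omega) (by omega) hx, ?_, ?_⟩
      · rw [q.hs]; exact h0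
      · rw [hF (b + 1) (by omega) (by omega) x hx]
        unfold mixLab
        rw [if_neg (by omega), if_neg (by omega), if_pos (by rw [h0, hx0])]
    · obtain ⟨x, hx, hx0, rfl⟩ := hf
      refine ⟨S.ρ (b - e + i) x, mixFin_mem q hB D (by omega) (by omega) hx, ?_, ?_⟩
      · rw [q.hs, hB.eq _ (by omega) (by omega), D.pos_s _ hx]; exact hx0
      · rw [hF (b - e + i) (by omega) (by omega) x hx]
        unfold mixLab
        rw [if_pos (by omega), Nat.add_sub_cancel_left]
    · rw [hall _ hex] at hf ⊢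
      obtain ⟨x, hx, hx0, rfl⟩ := hf
      refine ⟨S.ρ b x, mixFin_mem q hB D (by omega) (by omega) hx, ?_, ?_⟩
      · rw [q.hs, hB.eq _ (by omega) le_rfl, D.pos_s _ hx]; exact hx0
      · rw [hF b (by omega) (by omega) x hx]
        unfold mixLab
        rw [if_neg (by omega), if_pos rfl, hx0, Nat.mul_div_cancel_left j (by norm_num)]

end H63.KO
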