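import Pool.Agent.H63.KO.MixFin

/-! # KO.MixFour : no mixed case with a position `≥ 4` (paper C5, `l ≥ 4`)

Let `vl ∈ K` have maximal position `l ≥ 4` (`V` finite), `m = q.per b vl ∈ {3, 4}`. `N = Fin 5`, `c i = 0`, `xn 0 = 1`, `xn j = 2` for odd `j`, `xn j = 3` for even `j ≥ 2`, `y = 4`, `e = 1`.
`B`: `01, 02, 03: -1/2`, `12: 0`, `23: 0`, `13: -1`, `04: 0`, `14: -1/2`, `24 : β`, `34 : γ`, where `(β, γ) = (-cos (π/m), 0)` if `l = 2 j + 1` with `j` odd, `(0, -cos (π/m))` if `l = 2 j + 1` with `j` even, `(0, 0)` if `l` is even.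
`hxx`: consecutive classes are `1,2` or `2,3`. `hodd`: a tie at `2 j + 1` means `l = 2 j + 1` (`tie_t`), `j ≥ 2`, `q.per b v = m` (`same`). `heven`: a tie at `2 j + 2` means `l = 2 j + 2`, even, so `β = γ = 0` (`j + 1 ≥ 2`).
`hsurj`: positions `0, 2, 4` occur (positions below an occurring one occur: go down with `odd_o`, `even_t`). Test vector `e_1 + e_3`: `1 + 1 - 2 = 0`. Connected through `0` (and `14`). -/

namespace H63.KO

variable {X : Type} [Finite X] {S : FSys X} {V : Type}

/-- the Gram matrix of the case `l ≥ 4` -/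
private noncomputable def fourB (β γ : ℝ) : Fin 5 → Fin 5 → ℝ :=
  ![![1, -(1 / 2), -(1 / 2), -(1 / 2), 0],
    ![-(1 / 2), 1, 0, -1, -(1 / 2)],
    ![-(1 / 2), 0, 1, 0, β],
    ![-(1 / 2), -1, 0, 1, γ],
    ![0, -(1 / 2), β, γ, 1]]

private noncomputable def fourA (β γ : ℝ) : Gram (Fin 5) where
  B := fourB β γ
  symm i j := by
    fin_cases i <;> fin_cases j <;> simp [fourB]
  diag i := by
    fin_cases i <;> simp [fourB]

/-- the nodes for colour `b` -/
private def fourX (j : ℕ) : Fin 5 := if j = 0 then 1 else if j % 2 = 1 then 2 else 3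

private theorem four_down (q : S.Quo V) {a b : ℕ} (D : BPos q a b) (n : ℕ)
    (h : ∃ v ∈ D.K, D.pos v = n + 1) : ∃ v ∈ D.K, D.pos v = n := by
  obtain ⟨v, hv, hp⟩ := h
  rcases Nat.even_or_odd (D.pos v) with he | ho
  · have := D.even_t v hv he (by omega)
    exact ⟨_, D.Kt v hv, by omega⟩
  · have := D.odd_o v hv ho
    exact ⟨_, D.Ko v hv, by omega⟩

private theorem four_below (q : S.Quo V) {a b : ℕ} (D : BPos q a b) (k n : ℕ)
    (h : ∃ v ∈ D.K, D.pos v = n + k) : ∃ v ∈ D.K, D.pos v = n := by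
  induction k with
  | zero => exact h
  | succ k ih => exact ih (four_down q D (n + k) h)

private theorem four_form (β γ : ℝ) :
    (fourA β γ).form ![0, 1, 0, 1, 0] ![0, 1, 0, 1, 0] = 0 := by
  simp [Gram.form, fourA, fourB, Fin.sum_univ_succ]

private theorem four_conn (β γ : ℝ) (w : Fin 5 → ℝ)
    (h : ∀ i j, (fourA β γ).B i j ≠ 0 → w i = w j) : ∀ i j, w i = w j := by
  have h1 : w 0 = w 1 := h 0 1 (by simp [fourA, fourB])
  have h2 : w 0 = w 2 := h 0 2 (by simp [fourA, fourB])
  have h3 : w 0 = w 3 := h 0 3 (by simp [fourA, fourB])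
  have h4 : w 1 = w 4 := h 1 4 (by simp [fourA, fourB])
  have key : ∀ i, w i = w 0 := by
    intro i
    fin_cases i
    · rfl
    · exact h1.symm
    · exact h2.symm
    · exact h3.symm
    · exact (h1.trans h4).symm
  intro i j
  rw [key i, key j]

theorem no_four [Finite V] (q : S.Quo V) {a b : ℕ} (hB : IsBlock q a b) (hb : b + 2 ≤ S.d)
    (h34 : ∀ v, q.per b v = 3 ∨ q.per b v = 4) (D : BPos q a b)
    (h4 : ∃ v ∈ D.K, 4 ≤ D.pos v) : False := by
  obtain ⟨v0, hv0, hp0⟩ := h4
  obtain ⟨vl, hvl, hmax⟩ := Set.exists_max_image D.K D.pos (Set.toFinite _) ⟨v0, hv0⟩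
  have hl4 : 4 ≤ D.pos vl := hp0.trans (hmax v0 hv0)
  have hlen := hB.len
  have hper : ∀ v ∈ D.K, D.pos v = D.pos vl → q.per b v = q.per b vl := by
    intro v hv hpv
    rcases D.same vl hvl v hv hpv.symm with h | h
    · rw [h]
    · rw [h]
      obtain ⟨x, hx⟩ := q.surj vl
      rw [← hx, ← q.hs, q.per_π, q.per_π, S.per_far (Or.inl (by omega))]
  set l := D.pos vl with hl
  set cm : ℝ := Real.cos (Real.pi / q.per b vl) with hcm
  set β : ℝ := if l % 4 = 3 then -cm else 0 with hβ
  set γ : ℝ := if l % 4 = 1 then -cm else 0 with hγ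
  have H : MixHyp q a b D 1 (fourA β γ) (fun _ => 0) fourX 4 := by
    refine ⟨le_refl _, by omega, hb, fun v _ => h34 v, ?_, ?_, ?_, ?_, ?_, ?_, ?_, ?_, ?_⟩
    · intro i j h1 h2; omega
    · intro i h1; omega
    · intro i j h1; omega
    · intro j
      by_cases h0 : j = 0
      · simp [fourX, h0, fourA, fourB]
      · rcases Nat.mod_two_eq_zero_or_one j with h1 | h1
        · simp [fourX, h0, h1, fourA, fourB]
        · simp [fourX, h0, h1, fourA, fourB]
    · intro i _
      simp [fourA, fourB]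
    · simp [fourX, fourA, fourB]
    · intro j _
      by_cases h0 : j = 0
      · simp [fourX, h0, fourA, fourB]
      · rcases Nat.mod_two_eq_zero_or_one j with h1 | h1
        · have h2 : (j + 1) % 2 = 1 := by omega
          simp [fourX, h0, h1, h2, fourA, fourB]
        · have h2 : (j + 1) % 2 = 0 := by omega
          simp [fourX, h0, h1, h2, fourA, fourB]
    · intro v hv j hpv htie
      have hle := D.tie_t v hv (by rw [hpv]; exact ⟨j, rfl⟩) (by rw [htie, hpv]) vl hvl
      have hge := hmax v hv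
      have hlv : D.pos v = l := by omega
      rw [hper v hv hlv]
      have h0 : j ≠ 0 := by omega
      rcases Nat.mod_two_eq_zero_or_one j with h1 | h1
      · have h2 : l % 4 = 1 := by omega
        have : γ = -cm := by rw [hγ, if_pos h2]
        simp [fourX, h0, h1, fourA, fourB, this, hcm]
      · have h2 : l % 4 = 3 := by omega
        have : β = -cm := by rw [hβ, if_pos h2]
        simp [fourX, h0, h1, fourA, fourB, this, hcm]
    · intro v hv j hpv htie
      have hle := D.tie_o v hv (by rw [hpv]; exact ⟨j + 1, by ring⟩) (by rw [htie, hpv]) vl hvl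
      have hge := hmax v hv
      have hlv : D.pos v = l := by omega
      have hb0 : β = 0 := by rw [hβ, if_neg (by omega)]
      have hg0 : γ = 0 := by rw [hγ, if_neg (by omega)]
      have h0 : j + 1 ≠ 0 := by omega
      rcases Nat.mod_two_eq_zero_or_one (j + 1) with h1 | h1
      · simp [fourX, h1, fourA, fourB, hg0]
      · simp [fourX, h1, fourA, fourB, hb0]
  have hsurj : ∀ n : Fin 5, n = 4 ∨ (∃ i, i < 1 ∧ n = (fun _ : ℕ => (0 : Fin 5)) i) ∨
      ∃ j, n = fourX j ∧ ∃ v ∈ D.K, D.pos v = 2 * j := by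
    intro n
    have below : ∀ n, n ≤ l → ∃ v ∈ D.K, D.pos v = n := fun n hn =>
      four_below q D (l - n) n ⟨vl, hvl, by omega⟩
    fin_cases n
    · right; left; exact ⟨0, by omega, rfl⟩
    · right; right; exact ⟨0, rfl, below 0 (by omega)⟩
    · right; right; exact ⟨1, rfl, below 2 (by omega)⟩
    · right; right; exact ⟨2, rfl, below 4 (by omega)⟩
    · left; rfl
  have hfin := mix_finite q hB D H hsurj
  have hpos := (fourA β γ).posdef hfin (four_conn β γ) ![0, 1, 0, 1, 0]
    (fun h => by simpa using congrFun h 1)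
  rw [four_form] at hpos
  exact lt_irrefl _ hpos

end H63.KO
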