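import Pool.Agent.H63.KO.MixDef

/-! # KO.MixOne : no mixed case with exactly the positions 0, 1 (paper C5, `l = 1`: the diagram Btilde_3 or worse)

`per_const_K`: `q.per (b+1)` is invariant under `q.s a` (`per_far`, `a + 2 ≤ b + 1`), `q.s (b+1)`, `q.s (b+2)`; `D.gen`.
`no_one`: `m = q.per (b+1)` on `K`. Positions: `t` fixes positions `0` and `1` (`zero_t`; at `1`: `odd_t`, `hle`), `o` exchanges them (`zero_o`, `odd_o`). `m` is even (`FSys.per_even` for `i = b + 1`, `κ = (pos = 0)`), `m ≥ 3` so `m ≥ 4`.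
`N = Fin 4` (`c = 0`, `x = 1`, `y = 2`, `z = 3`), `B`: `01: -1/2`, `12: -1/2`, `13: -cos (π/4)`, `23: -cos (π/(m/2))`, `02, 03: 0`. Labels on `R = {x | π x ∈ K}`, colours `b-1, ..., b+2`: `A.r 0`, `A.r 1`, (`A.r 2` at position `0`, `A.r 3` at position `1`), `1`.
Commutation: `b-1, b+1`: `B 0 2 = B 0 3 = 0`, position unchanged by `ρ (b-1)`; the pairs with `b+2`: its label is `1` and labels of `b-1`, `b` are constant. Local potentials: `b-1, b`: `pot_const` (`three`). `b, b+1`: `pot_glue` with `κ = pos`,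
`pot_const`: at position `0` period `3` (`type_zero`), at `1` period `4` (`type_one`, `h34`). `b+1, b+2`: `pot_alt`, `κ = (pos = 0)`, `(A.r 2 * A.r 3)^(m/2) = 1` (`r_pow`, `m / 2 ≥ 2`).
`S.univ`, `F_0 = {F x | π x ∈ K, pos = 0}` is finite, nonempty, closed under `A.r 0, A.r 1, A.r 2` (colours `b-1, b, b+1`) and `A.r 3` (`ρ (b+2)`, `ρ (b+1)`, `ρ (b+2)`: position `0, 1, 1, 0`). `closed_finite`, `posdef` with `(1, 2, 1, √2)`:
`8 - 2 - 2 - 4 - 2 √2 cos (2π/m) ≤ 0`. Connected by `01, 12, 13`. -/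

namespace H63.KO

variable {X : Type} [Finite X] {S : FSys X} {V : Type}

theorem per_const_K (q : S.Quo V) {a b : ℕ} (hB : IsBlock q a b) (D : BPos q a b) :
    ∀ v ∈ D.K, q.per (b + 1) v = q.per (b + 1) D.u0 := by
  have hlen := hB.len
  refine D.gen (fun v => q.per (b + 1) v = q.per (b + 1) D.u0) rfl ?_ ?_ ?_
  · intro v hv
    obtain ⟨x, rfl⟩ := q.surj v
    show q.per (b + 1) (q.s a (q.π x)) = _
    rw [← q.hs, q.per_π, S.per_far (Or.inl (by omega)), ← q.per_π]
    exact hv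
  · intro v hv
    obtain ⟨x, rfl⟩ := q.surj v
    show q.per (b + 1) (q.s (b + 1) (q.π x)) = _
    rw [← q.hs, q.per_π, S.per_self, ← q.per_π]
    exact hv
  · intro v hv
    obtain ⟨x, rfl⟩ := q.surj v
    show q.per (b + 1) (q.s (b + 2) (q.π x)) = _
    rw [← q.hs, q.per_π, S.per_succ, ← q.per_π]
    exact hv

/-- the Gram matrix of the diagram `Btilde_3` with one more label -/
noncomputable def gramOne (C : ℝ) : Gram (Fin 4) where
  B := ![![1, -(1 / 2), 0, 0], ![-(1 / 2), 1, -(1 / 2), -(Real.sqrt 2 / 2)],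
    ![0, -(1 / 2), 1, -C], ![0, -(Real.sqrt 2 / 2), -C, 1]]
  symm i j := by fin_cases i <;> fin_cases j <;> rfl
  diag i := by fin_cases i <;> rfl

theorem gramOne_form (C : ℝ) (hC : 0 ≤ C) :
    (gramOne C).form ![1, 2, 1, Real.sqrt 2] ![1, 2, 1, Real.sqrt 2] ≤ 0 := by
  have h2 : Real.sqrt 2 * Real.sqrt 2 = 2 := Real.mul_self_sqrt (by norm_num)
  have h0 : 0 ≤ Real.sqrt 2 := Real.sqrt_nonneg 2
  have : (gramOne C).form ![1, 2, 1, Real.sqrt 2] ![1, 2, 1, Real.sqrt 2]
      = 2 - Real.sqrt 2 * Real.sqrt 2 - 2 * (Real.sqrt 2 * C) := by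
    simp only [Gram.form, gramOne, Fin.sum_univ_four]
    simp
    nlinarith [h2]
  rw [this, h2]
  nlinarith [mul_nonneg h0 hC]

theorem gramOne_conn (C : ℝ) (w : Fin 4 → ℝ)
    (h : ∀ i j, (gramOne C).B i j ≠ 0 → w i = w j) : ∀ i j, w i = w j := by
  have h01 : w 0 = w 1 := h 0 1 (by simp [gramOne])
  have h12 : w 1 = w 2 := h 1 2 (by simp [gramOne])
  have h13 : w 1 = w 3 := h 1 3 (by simp [gramOne])
  have key : ∀ i, w i = w 1 := by
    intro i
    fin_cases i
    · exact h01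
    · rfl
    · exact h12.symm
    · exact h13.symm
  intro i j
  rw [key i, key j]

theorem no_one (q : S.Quo V) {a b : ℕ} (hB : IsBlock q a b) (hb : b + 2 ≤ S.d)
    (h34 : ∀ v, q.per b v = 3 ∨ q.per b v = 4) (D : BPos q a b)
    (hle : ∀ v ∈ D.K, D.pos v ≤ 1) : False := by
  classical
  have hpos := hB.pos
  have hlen := hB.len
  -- the set R and its closure properties
  let R : Set X := {x | q.π x ∈ D.K}
  have hsb : ∀ i, a ≤ i → i ≤ b → ∀ x, q.π (S.ρ i x) = q.s a (q.π x) := by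
    intro i h1 h2 x
    rw [q.hs, hB.eq i h1 h2]
  have hRs : ∀ i, a ≤ i → i ≤ b → ∀ x ∈ R, S.ρ i x ∈ R := by
    intro i h1 h2 x hx
    show q.π (S.ρ i x) ∈ D.K
    rw [hsb i h1 h2]
    exact D.Ks _ hx
  have hRt : ∀ x ∈ R, S.ρ (b + 1) x ∈ R := by
    intro x hx
    show q.π (S.ρ (b + 1) x) ∈ D.K
    rw [q.hs]
    exact D.Kt _ hx
  have hRo : ∀ x ∈ R, S.ρ (b + 2) x ∈ R := by
    intro x hx
    show q.π (S.ρ (b + 2) x) ∈ D.K
    rw [q.hs]
    exact D.Ko _ hx
  -- positions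
  let κ : X → ℕ := fun x => D.pos (q.π x)
  have hκle : ∀ x ∈ R, κ x = 0 ∨ κ x = 1 := by
    intro x hx
    have := hle _ hx
    show D.pos (q.π x) = 0 ∨ D.pos (q.π x) = 1
    omega
  have hκs : ∀ i, a ≤ i → i ≤ b → ∀ x ∈ R, κ (S.ρ i x) = κ x := by
    intro i h1 h2 x hx
    show D.pos (q.π (S.ρ i x)) = D.pos (q.π x)
    rw [hsb i h1 h2]
    exact D.pos_s _ hx
  have hκt : ∀ x ∈ R, κ (S.ρ (b + 1) x) = κ x := by
    intro x hx
    show D.pos (q.π (S.ρ (b + 1) x)) = D.pos (q.π x)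
    rw [q.hs]
    rcases hκle x hx with h | h
    · have h' : D.pos (q.π x) = 0 := h
      rw [h']
      exact D.zero_t _ hx h'
    · have h' : D.pos (q.π x) = 1 := h
      rw [h']
      rcases D.odd_t _ hx (by rw [h']; decide) with h1 | h1
      · rw [h1, h']
      · have := hle _ (D.Kt _ hx)
        omega
  have hκo0 : ∀ x ∈ R, κ x = 0 → κ (S.ρ (b + 2) x) = 1 := by
    intro x hx h
    show D.pos (q.π (S.ρ (b + 2) x)) = 1
    rw [q.hs]
    exact D.zero_o _ hx h
  have hκo1 : ∀ x ∈ R, κ x = 1 → κ (S.ρ (b + 2) x) = 0 := by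
    intro x hx h
    show D.pos (q.π (S.ρ (b + 2) x)) = 0
    rw [q.hs]
    have h' : D.pos (q.π x) = 1 := h
    have := D.odd_o _ hx (by rw [h']; decide)
    omega
  have hK1 : ∀ x ∈ R, (κ (S.ρ (b + 1) x) = 0) ↔ (κ x = 0) := by
    intro x hx
    rw [hκt x hx]
  have hK2 : ∀ x ∈ R, (κ (S.ρ (b + 1 + 1) x) = 0) ↔ ¬ (κ x = 0) := by
    intro x hx
    show (κ (S.ρ (b + 2) x) = 0) ↔ ¬ (κ x = 0)
    rcases hκle x hx with h | h
    · rw [hκo0 x hx h, h]; simp
    · rw [hκo1 x hx h, h]; simp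
  -- the period m
  obtain ⟨x0, hx0⟩ := q.surj D.u0
  have hx0R : x0 ∈ R := by
    show q.π x0 ∈ D.K
    rw [hx0]; exact D.mem_u0
  obtain ⟨m, hm⟩ : ∃ m, m = q.per (b + 1) D.u0 := ⟨_, rfl⟩
  have hmR : ∀ x ∈ R, S.per (b + 1) x = m := by
    intro x hx
    rw [← q.per_π, hm]
    exact per_const_K q hB D _ hx
  have hmE : Even m := by
    rw [← hmR x0 hx0R]
    exact S.per_even R hRt hRo (fun x => κ x = 0) hK1 hK2 x0 hx0R
  have hm3 : 3 ≤ m := by
    rw [← hmR x0 hx0R]
    exact S.three_le_per (by omega) (by omega) x0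
  have hm4 : 4 ≤ m := by
    obtain ⟨k, hk⟩ := hmE
    omega
  have hm2 : 2 ≤ m / 2 := by omega
  -- the Gram matrix
  obtain ⟨C, hC⟩ : ∃ C, C = Real.cos (Real.pi / ((m / 2 : ℕ) : ℝ)) := ⟨_, rfl⟩
  have hC0 : 0 ≤ C := by
    rw [hC]
    have h2 : (2 : ℝ) ≤ ((m / 2 : ℕ) : ℝ) := by exact_mod_cast hm2
    apply Real.cos_nonneg_of_mem_Icc
    constructor
    · have : 0 ≤ Real.pi / ((m / 2 : ℕ) : ℝ) := by positivity
      have := Real.pi_pos
      linarith
    · exact div_le_div_of_nonneg_left Real.pi_pos.le (by norm_num) h2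
  let A : Gram (Fin 4) := gramOne C
  have hrr : ∀ n, A.r n * A.r n = 1 := A.r_mul_self
  have hB01 : A.B 0 1 = -Real.cos (Real.pi / ((3 : ℕ) : ℝ)) := by
    show (-(1 / 2) : ℝ) = _
    rw [show ((3 : ℕ) : ℝ) = 3 by norm_num, Real.cos_pi_div_three]
  have hB12 : A.B 1 2 = -Real.cos (Real.pi / ((3 : ℕ) : ℝ)) := by
    show (-(1 / 2) : ℝ) = _
    rw [show ((3 : ℕ) : ℝ) = 3 by norm_num, Real.cos_pi_div_three]
  have hB13 : A.B 1 3 = -Real.cos (Real.pi / ((4 : ℕ) : ℝ)) := by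
    show (-(Real.sqrt 2 / 2) : ℝ) = _
    rw [show ((4 : ℕ) : ℝ) = 4 by norm_num, Real.cos_pi_div_four]
  have hB23 : A.B 2 3 = -Real.cos (Real.pi / ((m / 2 : ℕ) : ℝ)) := by
    show (-C : ℝ) = _
    rw [hC]
  have hB02 : A.B 0 2 = 0 := rfl
  have hB03 : A.B 0 3 = 0 := rfl
  have p01 : (A.r 0 * A.r 1) ^ 3 = 1 := A.r_pow (by norm_num) hB01
  have p12 : (A.r 1 * A.r 2) ^ 3 = 1 := A.r_pow (by norm_num) hB12
  have p13 : (A.r 1 * A.r 3) ^ 4 = 1 := A.r_pow (by norm_num) hB13
  have p23 : (A.r 2 * A.r 3) ^ (m / 2) = 1 := A.r_pow hm2 hB23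
  have c02 : A.r 0 * A.r 2 = A.r 2 * A.r 0 := A.r_comm hB02
  have c03 : A.r 0 * A.r 3 = A.r 3 * A.r 0 := A.r_comm hB03
  -- the labels
  let g : ℕ → X → ((Fin 4 → ℝ) ≃ₗ[ℝ] (Fin 4 → ℝ)) := fun i x =>
    if i + 1 = b then A.r 0 else if i = b then A.r 1
    else if i = b + 1 then (if κ x = 0 then A.r 2 else A.r 3) else 1
  have g0 : ∀ x, g (b - 1) x = A.r 0 := by
    intro x
    show (if b - 1 + 1 = b then A.r 0 else if b - 1 = b then A.r 1
      else if b - 1 = b + 1 then (if κ x = 0 then A.r 2 else A.r 3) else 1) = A.r 0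
    rw [if_pos (by omega)]
  have g1 : ∀ x, g b x = A.r 1 := by
    intro x
    show (if b + 1 = b then A.r 0 else if b = b then A.r 1
      else if b = b + 1 then (if κ x = 0 then A.r 2 else A.r 3) else 1) = A.r 1
    rw [if_neg (by omega), if_pos rfl]
  have g2 : ∀ x, g (b + 1) x = if κ x = 0 then A.r 2 else A.r 3 := by
    intro x
    show (if b + 1 + 1 = b then A.r 0 else if b + 1 = b then A.r 1
      else if b + 1 = b + 1 then (if κ x = 0 then A.r 2 else A.r 3) else 1) = _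
    rw [if_neg (by omega), if_neg (by omega), if_pos rfl]
  have g3 : ∀ x, g (b + 2) x = 1 := by
    intro x
    show (if b + 2 + 1 = b then A.r 0 else if b + 2 = b then A.r 1
      else if b + 2 = b + 1 then (if κ x = 0 then A.r 2 else A.r 3) else 1) = _
    rw [if_neg (by omega), if_neg (by omega), if_neg (by omega)]
  have hRall : ∀ i, b - 1 ≤ i → i ≤ b + 2 → ∀ x ∈ R, S.ρ i x ∈ R := by
    intro i h1 h2 x hx
    rcases Nat.lt_or_ge b i with h | h
    · have : i = b + 1 ∨ i = b + 2 := by omega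
      rcases this with rfl | rfl
      · exact hRt x hx
      · exact hRo x hx
    · exact hRs i (by omega) h x hx
  obtain ⟨F, hF⟩ := S.univ ((Fin 4 → ℝ) ≃ₗ[ℝ] (Fin 4 → ℝ)) (b - 1) (b + 2) R g (by omega)
    (by omega) hb hRall (by
      intro i j h1 h2 h3 x hx
      have hij : (i = b - 1 ∧ j = b + 1) ∨ (i = b - 1 ∧ j = b + 2) ∨ (i = b ∧ j = b + 2) := by
        omega
      rcases hij with ⟨rfl, rfl⟩ | ⟨rfl, rfl⟩ | ⟨rfl, rfl⟩
      · rw [g0, g0, g2, g2, hκs (b - 1) (by omega) (by omega) x hx]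
        by_cases h : κ x = 0
        · rw [if_pos h]; exact c02
        · rw [if_neg h]; exact c03
      · rw [g0, g0, g3, g3, mul_one, one_mul]
      · rw [g1, g1, g3, g3, mul_one, one_mul])
    (by
      intro i h1 h2
      have hi : i = b - 1 ∨ i = b ∨ i = b + 1 := by omega
      rcases hi with rfl | rfl | rfl
      · have e : b - 1 + 1 = b := by omega
        refine S.pot_const (by omega) (by omega) R (hRs _ (by omega) (by omega))
          (hRs _ (by omega) (by omega)) (g (b - 1)) (g (b - 1 + 1)) (A.r 0) (A.r 1) (hrr 0)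
          (hrr 1) (fun x _ => g0 x) (fun x _ => by rw [e]; exact g1 x) ?_
        intro x _
        rw [hB.three (b - 1) (by omega) (by omega) x]
        exact p01
      · refine pot_glue (S.ρ i) (S.ρ (i + 1)) R κ (hκs i (by omega) le_rfl) hκt (g i)
          (g (i + 1)) ?_
        intro n
        have hpc : ∀ (t : (Fin 4 → ℝ) ≃ₗ[ℝ] (Fin 4 → ℝ)), t * t = 1 →
            (∀ x ∈ {x | x ∈ R ∧ κ x = n}, g (i + 1) x = t) →
            (∀ x ∈ {x | x ∈ R ∧ κ x = n}, (A.r 1 * t) ^ S.per i x = 1) →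
            ∃ u : X → ((Fin 4 → ℝ) ≃ₗ[ℝ] (Fin 4 → ℝ)), ∀ x ∈ R, κ x = n →
              u (S.ρ i x) = u x * g i x ∧ u (S.ρ (i + 1) x) = u x * g (i + 1) x := by
          intro t ht h1 h2
          obtain ⟨u, hu⟩ := S.pot_const (i := i) (by omega) (by omega) {x | x ∈ R ∧ κ x = n}
            (fun x hx => ⟨hRs i (by omega) le_rfl x hx.1, by
              rw [hκs i (by omega) le_rfl x hx.1]; exact hx.2⟩)
            (fun x hx => ⟨hRt x hx.1, by rw [hκt x hx.1]; exact hx.2⟩)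
            (g i) (g (i + 1)) (A.r 1) t (hrr 1) ht (fun x _ => g1 x) h1 h2
          exact ⟨u, fun x hx hn => hu x ⟨hx, hn⟩⟩
        by_cases hn : n = 0
        · subst hn
          refine hpc (A.r 2) (hrr 2) (fun x hx => by rw [g2, if_pos hx.2]) ?_
          intro x hx
          have h3 : S.per i x = 3 := by
            rw [← q.per_π]
            exact D.type_zero _ hx.1 hx.2
          rw [h3]
          exact p12
        · by_cases hn1 : n = 1
          · subst hn1
            refine hpc (A.r 3) (hrr 3) (fun x hx => by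
              rw [g2, if_neg (by rw [hx.2]; decide)]) ?_
            intro x hx
            have h3 : S.per i x = 4 := by
              rw [← q.per_π]
              have hT : ¬ T3 q i (q.π x) := D.type_one _ hx.1 hx.2
              rcases h34 (q.π x) with h | h
              · exact absurd h hT
              · exact h
            rw [h3]
            exact p13
          · refine ⟨fun _ => 1, fun x hx h => ?_⟩
            exfalso
            rcases hκle x hx with h' | h' <;> omega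
      · refine S.pot_alt (i := b + 1) (by omega) (by omega) R hRt hRo (fun x => κ x = 0) hK1
          hK2 (g (b + 1)) (g (b + 1 + 1)) (A.r 2) (A.r 3) (hrr 2) (hrr 3)
          (fun x _ h => by rw [g2, if_pos h]) (fun x _ h => by rw [g2, if_neg h])
          (fun x _ => g3 x) ?_
        intro x hx
        rw [hmR x hx]
        exact p23)
  -- the finite set
  have hfin := A.closed_finite {f | ∃ x ∈ R, κ x = 0 ∧ F x = f}
    ((Set.finite_range F).subset (by rintro f ⟨x, _, _, rfl⟩; exact ⟨x, rfl⟩))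
    ⟨F x0, x0, hx0R, by show D.pos (q.π x0) = 0; rw [hx0]; exact D.pos_u0, rfl⟩ (by
      rintro f ⟨x, hx, h0, rfl⟩ n
      have hn : n = 0 ∨ n = 1 ∨ n = 2 ∨ n = 3 := by
        fin_cases n <;> simp
      rcases hn with rfl | rfl | rfl | rfl
      · refine ⟨S.ρ (b - 1) x, hRs _ (by omega) (by omega) x hx, ?_, ?_⟩
        · rw [hκs _ (by omega) (by omega) x hx]; exact h0
        · rw [hF (b - 1) (by omega) (by omega) x hx, g0]
      · refine ⟨S.ρ b x, hRs _ (by omega) (by omega) x hx, ?_, ?_⟩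
        · rw [hκs _ (by omega) (by omega) x hx]; exact h0
        · rw [hF b (by omega) (by omega) x hx, g1]
      · refine ⟨S.ρ (b + 1) x, hRt x hx, ?_, ?_⟩
        · rw [hκt x hx]; exact h0
        · rw [hF (b + 1) (by omega) (by omega) x hx, g2, if_pos h0]
      · have k1 := hκo0 x hx h0
        have m1 := hRo x hx
        have k2 := hκt _ m1
        rw [k1] at k2
        have m2 := hRt _ m1
        have k3 := hκo1 _ m2 k2
        refine ⟨S.ρ (b + 2) (S.ρ (b + 1) (S.ρ (b + 2) x)), hRo _ m2, k3, ?_⟩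
        rw [hF (b + 2) (by omega) (by omega) _ m2, hF (b + 1) (by omega) (by omega) _ m1,
          hF (b + 2) (by omega) (by omega) x hx, g3, g3, g2, if_neg (by rw [k1]; decide),
          mul_one, mul_one])
  have hpd := A.posdef hfin (gramOne_conn C) ![1, 2, 1, Real.sqrt 2] (by
    intro h
    have := congrFun h 0
    simp at this)
  exact absurd hpd (not_lt.mpr (gramOne_form C hC0))

end H63.KO
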