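import Pool.Agent.H63.KO.MixFin

/-! # KO.MixThree : no mixed case with exactly the positions 0, 1, 2, 3 (paper C5, `l = 3`: a cycle)

Let `v3 ∈ K` have position `3`, `m = q.per b v3 ∈ {3, 4}`. `N = Fin 4`, `c i = 0`, `xn 0 = 1`, `xn j = 2` (`j ≥ 1`), `y = 3`, `e = 1`. `B`: `01: -1/2`, `02: -1/2`, `13: -1/2`, `23: -cos (π/m)`, `12: 0`, `03: 0`.
`MixHyp`: `hxx` (`j = 0`; no other `j`), `hodd`: `j = 0`: a tie at position `1` gives `pos ≤ 1`, contradiction; `j = 1`: `q.per b v = m` for all `v` of position `3` (`same`: `w = v` or `w = q.s a v`; `q.per b` is invariant under `q.s a`, `per_far`, `a + 6 ≤ b`);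
`heven`: a tie at position `2` gives `pos ≤ 2`, contradiction. `hsurj`: position `2` occurs: `q.s (b+2) v3` (`odd_o`). Test vector `(1,1,1,1)`: `4 - 2 (3/2 + cos (π/m)) ≤ 0`, `cos (π/m) ≥ 1/2`. Connected. -/

namespace H63.KO

variable {X : Type} [Finite X] {S : FSys X} {V : Type}

private def threeX (j : ℕ) : Fin 4 := if j = 0 then 1 else 2

private noncomputable def threeA (k : ℝ) : Gram (Fin 4) where
  B := ![![1, -(1 / 2), -(1 / 2), 0], ![-(1 / 2), 1, 0, -(1 / 2)], ![-(1 / 2), 0, 1, -k],
    ![0, -(1 / 2), -k, 1]]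
  symm i j := by
    fin_cases i <;> fin_cases j <;> rfl
  diag i := by
    fin_cases i <;> rfl

private theorem three_form (k : ℝ) : (threeA k).form (fun _ => 1) (fun _ => 1) = 1 - 2 * k := by
  unfold Gram.form threeA
  simp [Fin.sum_univ_succ]
  ring

private theorem three_conn (k : ℝ) (w : Fin 4 → ℝ)
    (h : ∀ i j, (threeA k).B i j ≠ 0 → w i = w j) : ∀ i j, w i = w j := by
  have e01 := h 0 1 (by
    have h : (threeA k).B 0 1 = -(1 / 2) := rfl
    rw [h]
    norm_num)
  have e02 := h 0 2 (by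
    have h : (threeA k).B 0 2 = -(1 / 2) := rfl
    rw [h]
    norm_num)
  have e13 := h 1 3 (by
    have h : (threeA k).B 1 3 = -(1 / 2) := rfl
    rw [h]
    norm_num)
  have key : ∀ i, w i = w 0 := by
    intro i
    fin_cases i
    · rfl
    · exact e01.symm
    · exact e02.symm
    · exact (e01.trans e13).symm
  intro i j
  rw [key i, key j]

theorem no_three (q : S.Quo V) {a b : ℕ} (hB : IsBlock q a b) (hb : b + 2 ≤ S.d)
    (h34 : ∀ v, q.per b v = 3 ∨ q.per b v = 4) (D : BPos q a b)
    (h3 : ∃ v ∈ D.K, D.pos v = 3) (hle : ∀ v ∈ D.K, D.pos v ≤ 3) : False := by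
  obtain ⟨v3, hv3, hp3⟩ := h3
  have hlen := hB.len
  set k : ℝ := Real.cos (Real.pi / q.per b v3) with hk
  have hk2 : 1 / 2 ≤ k := by
    rw [hk]
    rcases h34 v3 with h | h
    · rw [h]
      push_cast
      rw [Real.cos_pi_div_three]
    · rw [h]
      push_cast
      rw [Real.cos_pi_div_four]
      have h1 : (1 : ℝ) ≤ Real.sqrt 2 := by
        rw [Real.one_le_sqrt]
        norm_num
      linarith
  have hX0 : threeX 0 = 1 := rfl
  have hX1 : ∀ j, threeX (j + 1) = 2 := fun j => by
    unfold threeX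
    rw [if_neg (by omega)]
  have hper : ∀ v ∈ D.K, D.pos v = 3 → q.per b v = q.per b v3 := by
    intro v hv hp
    rcases D.same v3 hv3 v hv (hp3.trans hp.symm) with h | h
    · rw [h]
    · rw [h]
      obtain ⟨x, hx⟩ := q.surj v3
      rw [← hx, ← q.hs, q.per_π, q.per_π]
      exact S.per_far (Or.inl (by omega)) x
  have h2 : D.pos (q.s (b + 2) v3) = 2 := by
    have := D.odd_o v3 hv3 ⟨1, by omega⟩
    omega
  have H : MixHyp q a b D 1 (threeA k) (fun _ => 0) threeX 3 := by
    refine ⟨le_rfl, by omega, hb, fun v _ => h34 v, ?_, ?_, ?_, ?_, ?_, ?_, ?_, ?_, ?_⟩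
    · intro i j hij hj
      omega
    · intro i hi
      omega
    · intro i j hi
      omega
    · intro j
      rcases Nat.eq_zero_or_pos j with hj | hj
      · subst hj
        rfl
      · obtain ⟨j', rfl⟩ : ∃ j', j = j' + 1 := ⟨j - 1, by omega⟩
        rw [hX1]
        rfl
    · intro i hi
      rfl
    · rfl
    · rintro j ⟨v, hv, hp⟩
      have hj : j = 0 := by
        have := hle v hv
        omega
      subst hj
      rw [hX1]
      rfl
    · intro v hv j h1 h2
      have hj : j = 0 ∨ j = 1 := by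
        have := hle v hv
        omega
      rcases hj with hj | hj
      · exfalso
        subst hj
        have h4 := D.tie_t v hv ⟨0, by omega⟩ (by omega) v3 hv3
        omega
      · subst hj
        rw [hper v hv (by omega)]
        rfl
    · intro v hv j h1 h2
      exfalso
      have hj : j = 0 := by
        have := hle v hv
        omega
      subst hj
      have h4 := D.tie_o v hv ⟨1, by omega⟩ (by omega) v3 hv3
      omega
  have hfin := mix_finite q hB D H (by
    intro n
    fin_cases n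
    · exact Or.inr (Or.inl ⟨0, by norm_num, rfl⟩)
    · exact Or.inr (Or.inr ⟨0, rfl, D.u0, D.mem_u0, D.pos_u0⟩)
    · exact Or.inr (Or.inr ⟨1, rfl, q.s (b + 2) v3, D.Ko _ hv3, h2⟩)
    · exact Or.inl rfl)
  have hpd := (threeA k).posdef hfin (three_conn k) (fun _ => 1) (by
    intro h
    have h0 : (1 : ℝ) = 0 := congrFun h 0
    norm_num at h0)
  rw [three_form] at hpd
  linarith

end H63.KO
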