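import Pool.Agent.H63.KO.MixFin

/-! # KO.MixTwo : no mixed case with exactly the positions 0, 1, 2 (paper C5, `l = 2`: the diagram Etilde_8)

`N = Fin 9`, `c i = i` for `i < 6`, `xn 0 = 6`, `xn j = 7` for `j ≥ 1`, `y = 8`, `e = 6` (`a + 6 ≤ b`). `B`: `-1/2` for the edges `01, 12, 23, 34, 45, 56, 57, 68`, `0` for the other pairs, `1` on the diagonal.
`MixHyp`: `hxx` (`j = 0`: `B 6 7 = 0`; no other `j`), `hodd`: position `1` with a tie would give `pos ≤ 1` (`tie_t`), contradiction; `heven`: `j = 0`: `B 7 8 = 0`. `mix_finite` (`hsurj`: position `0` is `u0`, position `2` by hypothesis),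
`Gram.posdef` (the tree is connected) for `v = (1, 2, 3, 4, 5, 6, 4, 3, 2)`: `form v v = 120 - 120 = 0`. -/

namespace H63.KO

variable {X : Type} [Finite X] {S : FSys X} {V : Type}

/-- twice the Gram matrix of the diagram Etilde_8 -/
private def twoM : Fin 9 → Fin 9 → ℤ :=
  ![![2, -1, 0, 0, 0, 0, 0, 0, 0],
    ![-1, 2, -1, 0, 0, 0, 0, 0, 0],
    ![0, -1, 2, -1, 0, 0, 0, 0, 0],
    ![0, 0, -1, 2, -1, 0, 0, 0, 0],
    ![0, 0, 0, -1, 2, -1, 0, 0, 0],
    ![0, 0, 0, 0, -1, 2, -1, -1, 0],
    ![0, 0, 0, 0, 0, -1, 2, 0, -1],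
    ![0, 0, 0, 0, 0, -1, 0, 2, 0],
    ![0, 0, 0, 0, 0, 0, -1, 0, 2]]

private def twoC (i : ℕ) : Fin 9 := Fin.ofNat 9 i

private def twoX (j : ℕ) : Fin 9 := if j = 0 then 6 else 7

private def twoW : Fin 9 → ℤ := ![1, 2, 3, 4, 5, 6, 4, 3, 2]

private noncomputable def twoA : Gram (Fin 9) where
  B i j := (twoM i j : ℝ) / 2
  symm i j := by
    have h : ∀ i j, twoM i j = twoM j i := by decide
    rw [h]
  diag i := by
    have h : ∀ i, twoM i i = 2 := by decide
    rw [h]
    norm_num

private theorem two_val {i j : Fin 9} {k : ℤ} (h : twoM i j = k) : twoA.B i j = (k : ℝ) / 2 := by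
  show (twoM i j : ℝ) / 2 = _
  rw [h]

private theorem two_zero {i j : Fin 9} (h : twoM i j = 0) : twoA.B i j = 0 := by
  rw [two_val h]
  norm_num

private theorem two_half {i j : Fin 9} (h : twoM i j = -1) : twoA.B i j = -(1 / 2) := by
  rw [two_val h]
  norm_num

private theorem two_ne {i j : Fin 9} (h : twoM i j = -1) : twoA.B i j ≠ 0 := by
  rw [two_half h]
  norm_num

private theorem two_form : twoA.form (fun i => (twoW i : ℝ)) (fun i => (twoW i : ℝ)) = 0 := by
  have h : (∑ i, ∑ j, twoW i * twoM i j * twoW j) = 0 := by decide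
  have h' : twoA.form (fun i => (twoW i : ℝ)) (fun i => (twoW i : ℝ)) =
      ((∑ i, ∑ j, twoW i * twoM i j * twoW j : ℤ) : ℝ) / 2 := by
    unfold Gram.form
    push_cast
    rw [Finset.sum_div]
    refine Finset.sum_congr rfl (fun i _ => ?_)
    rw [Finset.sum_div]
    refine Finset.sum_congr rfl (fun j _ => ?_)
    show (twoW i : ℝ) * ((twoM i j : ℝ) / 2) * (twoW j : ℝ) = _
    ring
  rw [h', h]
  norm_num

private theorem two_conn (w : Fin 9 → ℝ) (h : ∀ i j, twoA.B i j ≠ 0 → w i = w j) :
    ∀ i j, w i = w j := by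
  have e01 := h 0 1 (two_ne (by decide))
  have e12 := h 1 2 (two_ne (by decide))
  have e23 := h 2 3 (two_ne (by decide))
  have e34 := h 3 4 (two_ne (by decide))
  have e45 := h 4 5 (two_ne (by decide))
  have e56 := h 5 6 (two_ne (by decide))
  have e57 := h 5 7 (two_ne (by decide))
  have e68 := h 6 8 (two_ne (by decide))
  have key : ∀ i, w i = w 0 := by
    intro i
    fin_cases i
    · rfl
    · exact e01.symm
    · exact (e01.trans e12).symm
    · exact (e01.trans (e12.trans e23)).symm
    · exact (e01.trans (e12.trans (e23.trans e34))).symm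
    · exact (e01.trans (e12.trans (e23.trans (e34.trans e45)))).symm
    · exact (e01.trans (e12.trans (e23.trans (e34.trans (e45.trans e56))))).symm
    · exact (e01.trans (e12.trans (e23.trans (e34.trans (e45.trans e57))))).symm
    · exact (e01.trans (e12.trans (e23.trans (e34.trans (e45.trans (e56.trans e68)))))).symm
  intro i j
  rw [key i, key j]

theorem no_two (q : S.Quo V) {a b : ℕ} (hB : IsBlock q a b) (hb : b + 2 ≤ S.d)
    (h34 : ∀ v, q.per b v = 3 ∨ q.per b v = 4) (D : BPos q a b)
    (h2 : ∃ v ∈ D.K, D.pos v = 2) (hle : ∀ v ∈ D.K, D.pos v ≤ 2) : False := by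
  obtain ⟨v2, hv2, hp2⟩ := h2
  have hX : ∀ j, twoX j = 6 ∨ twoX j = 7 := by
    intro j
    unfold twoX
    split
    · exact Or.inl rfl
    · exact Or.inr rfl
  have H : MixHyp q a b D 6 twoA twoC twoX 8 := by
    refine ⟨by norm_num, hB.len, hb, fun v _ => h34 v, ?_, ?_, ?_, ?_, ?_, ?_, ?_, ?_, ?_⟩
    · have h : ∀ j < 6, ∀ i < 6, i + 2 ≤ j → twoM (twoC i) (twoC j) = 0 := by decide
      intro i j hij hj
      exact two_zero (h j hj i (by omega) hij)
    · have h : ∀ i < 5, twoM (twoC i) (twoC (i + 1)) = -1 := by decide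
      intro i hi
      exact two_half (h i (by omega))
    · have h : ∀ i < 5, twoM (twoC i) 6 = 0 ∧ twoM (twoC i) 7 = 0 := by decide
      intro i j hi
      rcases hX j with hj | hj
      · rw [hj]
        exact two_zero (h i (by omega)).1
      · rw [hj]
        exact two_zero (h i (by omega)).2
    · intro j
      rcases hX j with hj | hj
      · rw [hj]
        exact two_half (by decide)
      · rw [hj]
        exact two_half (by decide)
    · have h : ∀ i < 6, twoM (twoC i) 8 = 0 := by decide
      intro i hi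
      exact two_zero (h i hi)
    · exact two_half (by decide)
    · rintro j ⟨v, hv, hp⟩
      have hj : j = 0 := by
        have := hle v hv
        omega
      subst hj
      exact two_zero (by decide)
    · intro v hv j h1 h2
      exfalso
      have hj : j = 0 := by
        have := hle v hv
        omega
      subst hj
      have h4 := D.tie_t v hv ⟨0, by omega⟩ (by omega) v2 hv2
      omega
    · intro v hv j h1 h2
      have hj : j = 0 := by
        have := hle v hv
        omega
      subst hj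
      exact two_zero (by decide)
  have hfin := mix_finite q hB D H (by
    intro n
    fin_cases n
    · exact Or.inr (Or.inl ⟨0, by norm_num, by decide⟩)
    · exact Or.inr (Or.inl ⟨1, by norm_num, by decide⟩)
    · exact Or.inr (Or.inl ⟨2, by norm_num, by decide⟩)
    · exact Or.inr (Or.inl ⟨3, by norm_num, by decide⟩)
    · exact Or.inr (Or.inl ⟨4, by norm_num, by decide⟩)
    · exact Or.inr (Or.inl ⟨5, by norm_num, by decide⟩)
    · exact Or.inr (Or.inr ⟨0, by decide, D.u0, D.mem_u0, D.pos_u0⟩)
    · exact Or.inr (Or.inr ⟨1, by decide, v2, hv2, hp2⟩)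
    · exact Or.inl rfl)
  have hpd := twoA.posdef hfin two_conn (fun i => (twoW i : ℝ)) (by
    intro h
    have h0 : ((twoW 0 : ℤ) : ℝ) = 0 := congrFun h 0
    have h1 : twoW 0 = 1 := by decide
    rw [h1] at h0
    norm_num at h0)
  rw [two_form] at hpd
  exact lt_irrefl _ hpd

end H63.KO
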