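import Pool.Agent.H63.KO.PerLe
import Pool.Agent.H63.KO.MixOne
import Pool.Agent.H63.KO.MixTwo
import Pool.Agent.H63.KO.MixThree
import Pool.Agent.H63.KO.MixFour

/-! # KO.NoMixed : there is no mixed case (paper C5)

`no_mixed`: if `T3 q b u0` and `¬ T3 q b (q.s (b+2) u0)`: `exists_pos` (`h3`: `eq_of_three`: `q.per b v = 3` and `q.s b`, `q.s (b+1)` commute because `q.s b = q.s a`), and the maximum of the positions is `1`, `2`, `3` or `≥ 4` (position `1` occurs: `zero_o`): `no_one`, `no_two`, `no_three`, `no_four`. -/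

namespace H63.KO

variable {X : Type} [Finite X] {S : FSys X} {V : Type}

theorem no_mixed [Finite V] (q : S.Quo V) {a b : ℕ} (hB : IsBlock q a b) (hb : b + 2 ≤ S.d)
    (u0 : V) (h0 : q.per b u0 = 3) (h1 : q.per b (q.s (b + 2) u0) ≠ 3) : False := by
  have hlen := hB.len
  have hsb : ∀ v, q.s b v = q.s a v := hB.eq b (by omega) le_rfl
  have h34 : ∀ v, q.per b v = 3 ∨ q.per b v = 4 := per_b_le q hB (by omega)
  obtain ⟨D, _⟩ := exists_pos (q.s a) (q.s (b + 1)) (q.s (b + 2)) (T3 q b)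
    (q.s_inv a) (q.s_inv (b + 1)) (q.s_inv (b + 2))
    (fun v => q.s_comm (Or.inl (by omega)) v) (fun v => q.s_comm (Or.inl (by omega)) v)
    (fun v hv => by
      have h := q.eq_of_three hv fun w => by
        rw [hsb, hsb]
        exact q.s_comm (Or.inl (by omega)) w
      rw [← h, hsb])
    (fun v hv => by
      obtain ⟨x, rfl⟩ := q.surj v
      unfold T3 at hv ⊢
      rw [← q.hs, q.per_π, S.per_far (Or.inl (by omega)), ← q.per_π]
      exact hv)
    u0 h0 h1
  by_cases h4 : ∃ v ∈ D.K, 4 ≤ D.pos v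
  · exact no_four q hB hb h34 D h4
  by_cases h3 : ∃ v ∈ D.K, D.pos v = 3
  · refine no_three q hB hb h34 D h3 fun v hv => ?_
    by_contra hc
    exact h4 ⟨v, hv, by omega⟩
  by_cases h2 : ∃ v ∈ D.K, D.pos v = 2
  · refine no_two q hB hb h34 D h2 fun v hv => ?_
    by_contra hc
    rcases Nat.lt_or_ge (D.pos v) 4 with h | h
    · exact h3 ⟨v, hv, by omega⟩
    · exact h4 ⟨v, hv, h⟩
  · refine no_one q hB hb h34 D fun v hv => ?_
    by_contra hc
    rcases Nat.lt_or_ge (D.pos v) 4 with h | h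
    · rcases Nat.lt_or_ge (D.pos v) 3 with h' | h'
      · exact h2 ⟨v, hv, by omega⟩
      · exact h3 ⟨v, hv, by omega⟩
    · exact h4 ⟨v, hv, h⟩

end H63.KO
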