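import Pool.Agent.H63.KO.Block

/-! # KO.PerLe : the period at the right end of a block is 3 or 4 (paper C5)

`per_b_le`: `R = {x | q.π x ∈ orbit of v under q.s a, q.s (b+1)}`, closed under `ρ i`, `b - 3 ≤ i ≤ b + 1` (`a ≤ b - 3`); `S.per b` is constant on `R` (invariant under `ρ b`-type letters because `q.s i = q.s a` acts as `ρ a`, `per_far`; and under `ρ (b+1)`, `per_succ`);
`FSys.string` with `a := b - 3`, `m = (3, 3, 3, per b)`: `m 3 ≤ 4`; `three_le_per`. -/

namespace H63.KO

variable {X : Type} [Finite X] {S : FSys X} {V : Type}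

theorem per_b_le (q : S.Quo V) {a b : ℕ} (hB : IsBlock q a b) (hb : b + 1 ≤ S.d) (v : V) :
    q.per b v = 3 ∨ q.per b v = 4 := by
  have hlen := hB.len
  have hpos := hB.pos
  obtain ⟨x0, hx0⟩ := q.surj v
  obtain ⟨c, hc⟩ : ∃ c, c = q.per b v := ⟨_, rfl⟩
  have hc0 : S.per b x0 = c := by
    rw [hc, ← hx0, q.per_π]
  have hs := S.string (a := b - 3) (by omega) (by omega) {x | S.per b x = c} ⟨x0, hc0⟩ (by
    intro i h1 h2 x hx
    have hx' : S.per b x = c := hx
    show S.per b (S.ρ i x) = c
    rw [← hx']
    by_cases e : i = b - 1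
    · have h3 : q.π (S.ρ i x) = q.π (S.ρ a x) := by
        rw [q.hs, q.hs, hB.eq i (by omega) (by omega)]
      rw [q.hper b _ _ h3]
      exact S.per_far (Or.inl (by omega)) x
    · by_cases e1 : i = b
      · rw [e1]
        exact S.per_self b x
      · by_cases e2 : i = b + 1
        · rw [e2]
          exact S.per_succ b x
        · exact S.per_far (Or.inl (by omega)) x) ![3, 3, 3, c] (by
    intro i x hx
    have hx' : S.per b x = c := hx
    fin_cases i
    · show S.per (b - 3 + 0) x = 3
      exact hB.three _ (by omega) (by omega) x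
    · show S.per (b - 3 + 1) x = 3
      exact hB.three _ (by omega) (by omega) x
    · show S.per (b - 3 + 2) x = 3
      exact hB.three _ (by omega) (by omega) x
    · show S.per (b - 3 + 3) x = c
      rw [show b - 3 + 3 = b by omega]
      exact hx')
  have h4 : c ≤ 4 := hs.2.2.2
  have h3 : 3 ≤ c := by
    rw [← hc0]
    exact S.three_le_per (by omega) hb x0
  rw [← hc]
  omega

end H63.KO
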