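import Pool.Agent.H63.KO.Fam

/-! # KO.PolyFam : the vector family of a polytope (definitions, no sorry) -/

namespace H63.KO

open Set

variable {E : Type} [NormedAddCommGroup E] [InnerProductSpace ℝ E] [FiniteDimensional ℝ E]

/-- the vector family of the polytope `convexHull ℝ T` -/
def polyFam (T : Finset E) : T → E × ℝ := fun p => ((p : E), (1 : ℝ))

theorem polyFam_pos (T : Finset E) : ∃ l : Module.Dual ℝ (E × ℝ), ∀ i, 0 < l (polyFam T i) :=
  ⟨LinearMap.snd ℝ E ℝ, fun i => by simp [polyFam]⟩

end H63.KO
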