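import Pool.Agent.H63.KO.Refl

/-! # KO.PosDef : a finite reflection group has a positive definite Gram matrix (paper C2)

`posdef`: let `W` be the (finite) closure, `⟨u, v⟩ = ∑_{g ∈ W} ∑_i (g u) i * (g v) i`: symmetric, bilinear, `W`-invariant, `⟨v, v⟩ > 0` for `v ≠ 0`. `e_n = Pi.single n 1`, `r_n e_n = -e_n`, `r_n v = v` if
`∑_j B n j * v j = 0`. So such a `v` has `⟨v, e_n⟩ = ⟨r_n v, r_n e_n⟩ = -⟨v, e_n⟩`, so `= 0`; apply this to `v - (∑_j B n j v j) e_n`: `⟨v, e_n⟩ = (∑_j B n j v j) ⟨e_n, e_n⟩` for all `v`. For `v = e_m`: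
`⟨e_m, e_n⟩ = B n m ⟨e_n, e_n⟩ = B m n ⟨e_m, e_m⟩`, so `⟨e_m, e_m⟩ = ⟨e_n, e_n⟩` if `B m n ≠ 0`. By `hconn` all are equal to some `c > 0`, and `⟨v, v⟩ = c * ∑ v_i B i j v_j`. -/

namespace H63.KO

variable {N : Type} [Fintype N] [DecidableEq N]

private noncomputable def ip (F : Finset ((N → ℝ) ≃ₗ[ℝ] (N → ℝ))) (u : N → ℝ) :
    (N → ℝ) →ₗ[ℝ] ℝ where
  toFun v := ∑ g ∈ F, ∑ i, (g u) i * (g v) i
  map_add' v w := by
    rw [← Finset.sum_add_distrib]
    refine Finset.sum_congr rfl fun g _ => ?_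
    rw [← Finset.sum_add_distrib]
    refine Finset.sum_congr rfl fun i _ => ?_
    rw [map_add, Pi.add_apply, mul_add]
  map_smul' c v := by
    rw [RingHom.id_apply, smul_eq_mul, Finset.mul_sum]
    refine Finset.sum_congr rfl fun g _ => ?_
    rw [Finset.mul_sum]
    refine Finset.sum_congr rfl fun i _ => ?_
    rw [map_smul, Pi.smul_apply, smul_eq_mul]
    ring

omit [DecidableEq N] in
private theorem ip_apply (F : Finset ((N → ℝ) ≃ₗ[ℝ] (N → ℝ))) (u v : N → ℝ) :
    ip F u v = ∑ g ∈ F, ∑ i, (g u) i * (g v) i := rfl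

omit [DecidableEq N] in
private theorem ip_comm (F : Finset ((N → ℝ) ≃ₗ[ℝ] (N → ℝ))) (u v : N → ℝ) :
    ip F u v = ip F v u := by
  rw [ip_apply, ip_apply]
  exact Finset.sum_congr rfl fun g _ => Finset.sum_congr rfl fun i _ => mul_comm _ _

theorem Gram.posdef (A : Gram N)
    (hfin : (Subgroup.closure (Set.range A.r) : Set ((N → ℝ) ≃ₗ[ℝ] (N → ℝ))).Finite)
    (hconn : ∀ w : N → ℝ, (∀ i j, A.B i j ≠ 0 → w i = w j) → ∀ i j, w i = w j)
    (v : N → ℝ) (hv : v ≠ 0) : 0 < A.form v v := by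
  classical
  set W := Subgroup.closure (Set.range A.r) with hW
  set F : Finset ((N → ℝ) ≃ₗ[ℝ] (N → ℝ)) := hfin.toFinset with hF
  have hmem : ∀ g, g ∈ F ↔ g ∈ W := fun g => by rw [hF, Set.Finite.mem_toFinset]; rfl
  have hinv : ∀ h ∈ W, ∀ u w : N → ℝ, ip F (h u) (h w) = ip F u w := by
    intro h hh u w
    rw [ip_apply, ip_apply]
    refine Finset.sum_equiv (Equiv.mulRight h) (fun g => ?_) (fun g _ => rfl)
    rw [hmem, hmem, Equiv.coe_mulRight]
    exact (Subgroup.mul_mem_cancel_right W hh).symm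
  have hpos : ∀ u : N → ℝ, u ≠ 0 → 0 < ip F u u := by
    intro u hu
    rw [ip_apply]
    have h1 : ∀ g ∈ F, 0 ≤ ∑ i, (g u) i * (g u) i := fun g _ =>
      Finset.sum_nonneg fun i _ => mul_self_nonneg _
    refine Finset.sum_pos' h1 ⟨1, (hmem 1).2 W.one_mem, ?_⟩
    obtain ⟨i, hi⟩ := Function.ne_iff.1 hu
    exact Finset.sum_pos' (fun i _ => mul_self_nonneg _) ⟨i, Finset.mem_univ i, mul_self_pos.2 hi⟩
  set e : N → (N → ℝ) := fun n => Pi.single n 1 with he
  have hrW : ∀ n, A.r n ∈ W := fun n => Subgroup.subset_closure ⟨n, rfl⟩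
  have hbe : ∀ n m, ∑ j, A.B n j * e m j = A.B n m := by
    intro n m
    rw [Finset.sum_eq_single m]
    · rw [he]; simp
    · intro j _ hj
      rw [he]; simp [Pi.single_eq_of_ne hj]
    · intro h; exact absurd (Finset.mem_univ m) h
  have hren : ∀ n, A.r n (e n) = - e n := by
    intro n
    rw [Gram.r_apply, hbe, A.diag, mul_one, two_smul]
    change e n - (e n + e n) = - e n
    abel
  have h1 : ∀ n (u : N → ℝ), ip F (e n) u = (∑ j, A.B n j * u j) * ip F (e n) (e n) := by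
    intro n u
    have h2 := hinv (A.r n) (hrW n) (e n) u
    rw [hren, Gram.r_apply] at h2
    have h3 : ip F (-e n) = - ip F (e n) := by
      ext w
      simp [ip_apply]
    rw [h3, LinearMap.neg_apply, map_sub, map_smul, smul_eq_mul] at h2
    change -(ip F (e n) u - 2 * (∑ j, A.B n j * u j) * ip F (e n) (e n)) = _ at h2
    linarith
  set c : N → ℝ := fun n => ip F (e n) (e n) with hc
  have hcc : ∀ i j, c i = c j := by
    refine hconn c ?_
    intro i j hij
    have h2 := h1 i (e j)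
    have h3 := h1 j (e i)
    rw [hbe] at h2 h3
    rw [ip_comm, h3, A.symm j i] at h2
    exact (mul_left_cancel₀ hij h2).symm
  obtain ⟨n0, hn0⟩ := Function.ne_iff.1 hv
  have hcpos : 0 < c n0 := by
    refine hpos (e n0) ?_
    intro h
    have := congrFun h n0
    rw [he] at this
    simp at this
  have hvv : ip F v v = c n0 * A.form v v := by
    have h2 := LinearMap.pi_apply_eq_sum_univ (ip F v) v
    rw [h2, Gram.form, Finset.mul_sum]
    refine Finset.sum_congr rfl fun i _ => ?_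
    have h3 : (fun j => if i = j then (1 : ℝ) else 0) = e i := by
      funext j
      rw [he]
      by_cases hij : i = j
      · subst hij; simp
      · simp [hij]
    rw [h3, ip_comm, h1 i v]
    change v i • ((∑ j, A.B i j * v j) * c i) = _
    have h5 : ∑ j, v i * A.B i j * v j = v i * ∑ j, A.B i j * v j := by
      rw [Finset.mul_sum]
      exact Finset.sum_congr rfl fun j _ => by ring
    rw [hcc i n0, smul_eq_mul, h5]
    ring
  have h4 := hpos v hv
  rw [hvv] at h4
  exact (mul_pos_iff_of_pos_left hcpos).1 h4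

end H63.KO
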