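import Pool.Agent.H63.KO.Conn
import Pool.Agent.H63.KO.Gen

/-! # KO.Pot : potentials on the atoms of an interval (definitions only, no sorry) -/

namespace H63.KO

open Set

variable {V : Type} [AddCommGroup V] [Module ℝ V] {ι : Type} {G : Type} [Group G]

/-- `E` is an edge of the interval `[x, y]` with the two atoms `v` and `w` -/
def EdgeIn (s : ι → V) (x y E v w : Set ι) : Prop :=
  IsFace s E ∧ E ⊆ y ∧ rkF s E = rkF s x + 2 ∧ AtomOver s x v ∧ v ⊂ E ∧ AtomOver s x w ∧ w ⊂ E ∧
    v ≠ w

/-- `t` is a potential for the labels `h` on the interval `[x, y]` -/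
def Pot (s : ι → V) (x y : Set ι) (h : Set ι → Set ι → Set ι → G) (t : Set ι → G) : Prop :=
  ∀ E v w, EdgeIn s x y E v w → t w = t v * h E v w

/-- `t` is a potential for the labels `h` on the edges of `[x, y]` whose two atoms have ratio `> c` -/
def PotUp (s : ι → V) (lx l : Module.Dual ℝ V) (x y : Set ι) (h : Set ι → Set ι → Set ι → G)
    (t : Set ι → G) (c : ℝ) : Prop :=
  ∀ E v w, EdgeIn s x y E v w → c < rat s lx l x v → c < rat s lx l x w → t w = t v * h E v w

end H63.KO
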