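import Mathlib

/-! # KO.Refl : reflections of a Gram matrix (paper C2)

`rl_rl`, `r_mul_self`, `r_comm` are direct computations (`LinearEquiv.ext`, `∑ j, B n j * Pi.single m 1 j = B n m`, `diag`, `symm`). -/

namespace H63.KO

/-- a symmetric matrix with ones on the diagonal -/
structure Gram (N : Type) where
  B : N → N → ℝ
  symm : ∀ i j, B i j = B j i
  diag : ∀ i, B i i = 1

variable {N : Type} [Fintype N] [DecidableEq N]

/-- the bilinear form -/
def Gram.form (A : Gram N) (u v : N → ℝ) : ℝ := ∑ i, ∑ j, u i * A.B i j * v j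

/-- the reflection in the basis vector `n`, as a linear map -/
noncomputable def Gram.rl (A : Gram N) (n : N) : (N → ℝ) →ₗ[ℝ] (N → ℝ) where
  toFun v := v - (2 * ∑ j, A.B n j * v j) • Pi.single n (1 : ℝ)
  map_add' u v := by
    have : ∑ j, A.B n j * (u + v) j = (∑ j, A.B n j * u j) + ∑ j, A.B n j * v j := by
      rw [← Finset.sum_add_distrib]
      exact Finset.sum_congr rfl (fun j _ => by rw [Pi.add_apply]; ring)
    rw [this, mul_add, add_smul]; abel
  map_smul' c v := by
    have : ∑ j, A.B n j * (c • v) j = c * ∑ j, A.B n j * v j := by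
      rw [Finset.mul_sum]
      exact Finset.sum_congr rfl (fun j _ => by rw [Pi.smul_apply, smul_eq_mul]; ring)
    rw [this, RingHom.id_apply, smul_sub, smul_smul]
    congr 2
    ring

private theorem Gram.rl_ap (A : Gram N) (n : N) (v : N → ℝ) :
    A.rl n v = v - (2 * ∑ j, A.B n j * v j) • Pi.single n (1 : ℝ) := rfl

private theorem sum_single (A : Gram N) (m n : N) (v : N → ℝ) (c : ℝ) :
    ∑ j, A.B m j * (v - c • (Pi.single n (1 : ℝ) : N → ℝ)) j = (∑ j, A.B m j * v j) - c * A.B m n := by
  have : ∀ j, A.B m j * (v - c • (Pi.single n (1 : ℝ) : N → ℝ)) j =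
      A.B m j * v j - (if j = n then c * A.B m n else 0) := by
    intro j
    by_cases h : j = n
    · subst h
      simp
      ring
    · simp [h]
  simp only [this, Finset.sum_sub_distrib, Finset.sum_ite_eq', Finset.mem_univ, if_true]

theorem Gram.rl_rl (A : Gram N) (n : N) (v : N → ℝ) : A.rl n (A.rl n v) = v := by
  rw [A.rl_ap n (A.rl n v), A.rl_ap n v, sum_single, A.diag]
  rw [sub_sub, ← add_smul]
  have : 2 * ∑ j, A.B n j * v j + 2 * (∑ j, A.B n j * v j - 2 * (∑ j, A.B n j * v j) * 1) = 0 := by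
    ring
  rw [this, zero_smul, sub_zero]

/-- the reflection in the basis vector `n` -/
noncomputable def Gram.r (A : Gram N) (n : N) : (N → ℝ) ≃ₗ[ℝ] (N → ℝ) :=
  LinearEquiv.ofInvolutive (A.rl n) (A.rl_rl n)

theorem Gram.r_apply (A : Gram N) (n : N) (v : N → ℝ) :
    A.r n v = v - (2 * ∑ j, A.B n j * v j) • Pi.single n (1 : ℝ) := rfl

theorem Gram.r_mul_self (A : Gram N) (n : N) : A.r n * A.r n = 1 := by
  apply LinearEquiv.ext
  intro v
  rw [LinearEquiv.mul_apply]
  exact A.rl_rl n v

theorem Gram.r_comm (A : Gram N) {m n : N} (h : A.B m n = 0) : A.r m * A.r n = A.r n * A.r m := by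
  have h' : A.B n m = 0 := by rw [A.symm]; exact h
  apply LinearEquiv.ext
  intro v
  rw [LinearEquiv.mul_apply, LinearEquiv.mul_apply, A.r_apply m, A.r_apply n v, A.r_apply n,
    A.r_apply m v, sum_single, sum_single, h, h', mul_zero, mul_zero, sub_zero, sub_zero]
  abel

end H63.KO
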