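import Pool.Agent.H63.KO.Refl

/-! # KO.ReflPow : the product of two reflections has finite order (paper C2)

`r_pow`: with `c = cos (π / q)`, `B m n = -c`. Mathlib has `Module.reflection_mul_reflection_pow_apply` (Chebyshev polynomials `S`, `Polynomial.Chebyshev.S`, `S_eval_two_mul_cos`-type lemmas); or directly:
for `v`, `(r_m r_n)^k v = v + a_k e_m + b_k e_n`, with the explicit `a_k, b_k` in terms of `sin (k θ)`, `θ = π / q` (`r_m r_n` acts on the plane spanned by `e_m, e_n` as the rotation by `2 θ`, and every `v` is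
a vector of the plane plus a vector orthogonal to it, because `B` is positive definite on the plane: `sin θ ≠ 0`). -/

namespace H63.KO

variable {N : Type} [Fintype N] [DecidableEq N]

private theorem reflPow_sum (A : Gram N) (l m n : N) (v : N → ℝ) (a b : ℝ) :
    ∑ j, A.B l j * (v + a • (Pi.single m (1 : ℝ) : N → ℝ) + b • (Pi.single n (1 : ℝ) : N → ℝ)) j =
      (∑ j, A.B l j * v j) + a * A.B l m + b * A.B l n := by
  have : ∀ j, A.B l j *
      (v + a • (Pi.single m (1 : ℝ) : N → ℝ) + b • (Pi.single n (1 : ℝ) : N → ℝ)) j =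
      A.B l j * v j + (if j = m then a * A.B l m else 0) + (if j = n then b * A.B l n else 0) := by
    intro j
    simp only [Pi.add_apply, Pi.smul_apply, smul_eq_mul, Pi.single_apply]
    by_cases h1 : j = m
    · by_cases h2 : j = n
      · subst h1; subst h2; simp; ring
      · subst h1; simp [h2]; ring
    · by_cases h2 : j = n
      · subst h2; simp [h1]; ring
      · simp [h1, h2]
  simp only [this, Finset.sum_add_distrib, Finset.sum_ite_eq', Finset.mem_univ, if_true]

private theorem reflPow_step (A : Gram N) {m n : N} {c : ℝ} (h : A.B m n = -c) (v : N → ℝ)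
    (a b : ℝ) :
    (A.r m * A.r n) (v + a • (Pi.single m (1 : ℝ) : N → ℝ) + b • (Pi.single n (1 : ℝ) : N → ℝ)) =
      v + (a - 2 * (((∑ j, A.B m j * v j) + a - c * b) +
        2 * c * ((∑ j, A.B n j * v j) - c * a + b))) • (Pi.single m (1 : ℝ) : N → ℝ) +
      (b - 2 * ((∑ j, A.B n j * v j) - c * a + b)) • (Pi.single n (1 : ℝ) : N → ℝ) := by
  have h' : A.B n m = -c := by rw [A.symm]; exact h
  have e1 : ∑ j, A.B n j * (v + a • (Pi.single m (1 : ℝ) : N → ℝ) +
      b • (Pi.single n (1 : ℝ) : N → ℝ)) j = (∑ j, A.B n j * v j) - c * a + b := by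
    rw [reflPow_sum, h', A.diag]; ring
  have e2 : A.r n (v + a • (Pi.single m (1 : ℝ) : N → ℝ) + b • (Pi.single n (1 : ℝ) : N → ℝ)) =
      v + a • (Pi.single m (1 : ℝ) : N → ℝ) +
        (b - 2 * ((∑ j, A.B n j * v j) - c * a + b)) • (Pi.single n (1 : ℝ) : N → ℝ) := by
    rw [A.r_apply, e1, sub_smul]
    abel
  rw [LinearEquiv.mul_apply, e2, A.r_apply, reflPow_sum, h, A.diag]
  rw [show a - 2 * (((∑ j, A.B m j * v j) + a - c * b) +
        2 * c * ((∑ j, A.B n j * v j) - c * a + b)) =
      a - 2 * ((∑ j, A.B m j * v j) + a * 1 +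
        (b - 2 * ((∑ j, A.B n j * v j) - c * a + b)) * -c) by ring, sub_smul a]
  abel

theorem Gram.r_pow (A : Gram N) {m n : N} {q : ℕ} (hq : 2 ≤ q)
    (h : A.B m n = -Real.cos (Real.pi / q)) : (A.r m * A.r n) ^ q = 1 := by
  have hq0 : (0 : ℝ) < q := by
    have : 0 < q := by omega
    exact_mod_cast this
  have hq1 : (1 : ℝ) < q := by
    have : 1 < q := by omega
    exact_mod_cast this
  set θ : ℝ := Real.pi / q with hθ
  have hθ0 : 0 < θ := div_pos Real.pi_pos hq0
  have hθ1 : θ < Real.pi := by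
    rw [hθ, div_lt_iff₀ hq0]
    nlinarith [Real.pi_pos]
  have hs0 : Real.sin θ ≠ 0 := (Real.sin_pos_of_pos_of_lt_pi hθ0 hθ1).ne'
  set c := Real.cos θ with hc
  set s := Real.sin θ with hs
  have hcs : s ^ 2 + c ^ 2 = 1 := Real.sin_sq_add_cos_sq θ
  apply LinearEquiv.ext
  intro v
  set α := ∑ j, A.B m j * v j with hα
  set β := ∑ j, A.B n j * v j with hβ
  obtain ⟨G, hG⟩ : ∃ G, s * G = α := ⟨α / s, by field_simp⟩
  obtain ⟨E, hE⟩ : ∃ E, s * E = β := ⟨β / s, by field_simp⟩
  obtain ⟨Wm, hWm⟩ : ∃ W, s * W = G + c * E := ⟨(G + c * E) / s, by field_simp⟩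
  obtain ⟨Wn, hWn⟩ : ∃ W, s * W = E + c * G := ⟨(E + c * G) / s, by field_simp⟩
  have h5 : Wm - c * Wn = α := by
    apply mul_left_cancel₀ hs0
    linear_combination hWm - c * hWn + s * hG - G * hcs
  have h6 : Wn - c * Wm = β := by
    apply mul_left_cancel₀ hs0
    linear_combination hWn - c * hWm + s * hE - E * hcs
  have key : ∀ k : ℕ, ((A.r m * A.r n) ^ k) v = v +
      ((Real.cos (2 * k * θ) - 1) * Wm - Real.sin (2 * k * θ) * E) •
        (Pi.single m (1 : ℝ) : N → ℝ) +
      ((Real.cos (2 * k * θ) - 1) * Wn + Real.sin (2 * k * θ) * G) •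
        (Pi.single n (1 : ℝ) : N → ℝ) := by
    intro k
    induction k with
    | zero => simp
    | succ k ih =>
      rw [pow_succ', LinearEquiv.mul_apply, ih, reflPow_step A h]
      have ec : Real.cos (2 * ((k + 1 : ℕ) : ℝ) * θ) =
          Real.cos (2 * k * θ) * (1 - 2 * s ^ 2) - Real.sin (2 * k * θ) * (2 * s * c) := by
        have : 2 * ((k + 1 : ℕ) : ℝ) * θ = 2 * k * θ + 2 * θ := by push_cast; ring
        rw [this, Real.cos_add, Real.cos_two_mul', Real.sin_two_mul]
        linear_combination (Real.cos (2 * k * θ)) * hcs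
      have es : Real.sin (2 * ((k + 1 : ℕ) : ℝ) * θ) =
          Real.sin (2 * k * θ) * (1 - 2 * s ^ 2) + Real.cos (2 * k * θ) * (2 * s * c) := by
        have : 2 * ((k + 1 : ℕ) : ℝ) * θ = 2 * k * θ + 2 * θ := by push_cast; ring
        rw [this, Real.sin_add, Real.cos_two_mul', Real.sin_two_mul]
        linear_combination (Real.sin (2 * k * θ)) * hcs
      rw [ec, es]
      set C := Real.cos (2 * k * θ)
      set D := Real.sin (2 * k * θ)
      congr 2
      · congr 1
        linear_combination (2 * s * C + 2 * c * D) * hWm + 2 * C * hG + 4 * c * C * hE -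
          2 * D * E * hcs - 2 * (C - 1) * h5 - 4 * c * (C - 1) * h6
      · linear_combination (2 * s * C + 2 * c * D) * hWn + 2 * C * hE + 2 * D * G * hcs -
          2 * (C - 1) * h6
  have hk := key q
  have e : 2 * (q : ℝ) * θ = 2 * Real.pi := by
    rw [hθ]; field_simp
  rw [hk, e, Real.cos_two_pi, Real.sin_two_pi]
  simp

end H63.KO
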