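import Pool.Agent.H63.KO.NoMixed

/-! # KO.Right : a block extends to the right (paper C5)

`all_three`: let `q.per b v = 4`. `K` = points reachable from `v` by `q.s a, q.s (b+1), q.s (b+2)`; by `no_mixed` (and `per_b_le`) all points of `K` have `q.per b = 4` (`q.s a`, `q.s (b+1)` do not change `q.per b`). `q.per (b+1)` is constant on `K`. `FSys.string` for `R = π⁻¹ K`, `a := b - 2`,
`m = (3, 3, 4, q.per (b+1) v)`: `m 2 = 3`, contradiction.
`right_step`: `per b = 3` everywhere, `q.s a = q.s b` commutes with `q.s (b+1)` (`s_comm`), `eq_of_three`.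
`right_all`: induction on `S.d - b`. `i < b`: `three`. `b = d`: done. `b + 1 = d`: `per b` is invariant under all `ρ j` (`j = b - 1`: `q.s (b-1) = q.s b`, `hper`, `per_self`; `j ≥ b + 2`: `ρ j = id`), `S.conn`. -/

namespace H63.KO

variable {X : Type} [Finite X] {S : FSys X} {V : Type}

private theorem right_aux (q : S.Quo V) {i j : ℕ} (h : ∀ x, S.per i (S.ρ j x) = S.per i x) (w : V) :
    q.per i (q.s j w) = q.per i w := by
  obtain ⟨x, rfl⟩ := q.surj w
  rw [← q.hs, q.per_π, q.per_π, h]

theorem all_three [Finite V] (q : S.Quo V) {a b : ℕ} (hB : IsBlock q a b) (hb : b + 2 ≤ S.d)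
    (x : X) : S.per b x = 3 := by
  by_contra hx
  have hlen := hB.len
  have hpos := hB.pos
  have h4 : q.per b (q.π x) = 4 := by
    rcases per_b_le q hB (by omega) (q.π x) with h | h
    · rw [q.per_π] at h; exact absurd h hx
    · exact h
  obtain ⟨v, hv⟩ : ∃ v, v = q.π x := ⟨_, rfl⟩
  rw [← hv] at h4
  obtain ⟨K, hK⟩ : ∃ K : Set V, K = {w | Relation.ReflTransGen
    (fun p r => r = q.s a p ∨ r = q.s (b + 1) p ∨ r = q.s (b + 2) p) v w} := ⟨_, rfl⟩
  have hvK : v ∈ K := by rw [hK]; exact Relation.ReflTransGen.refl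
  have hKa : ∀ w ∈ K, q.s a w ∈ K := by
    rw [hK]; intro w hw; exact Relation.ReflTransGen.tail hw (Or.inl rfl)
  have hKb1 : ∀ w ∈ K, q.s (b + 1) w ∈ K := by
    rw [hK]; intro w hw; exact Relation.ReflTransGen.tail hw (Or.inr (Or.inl rfl))
  have hKb2 : ∀ w ∈ K, q.s (b + 2) w ∈ K := by
    rw [hK]; intro w hw; exact Relation.ReflTransGen.tail hw (Or.inr (Or.inr rfl))
  have hind : ∀ w ∈ K, q.per b w = 4 ∧ q.per (b + 1) w = q.per (b + 1) v := by
    rw [hK]
    intro w hw
    induction hw with
    | refl => exact ⟨h4, rfl⟩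
    | @tail p r _ hr ih =>
      obtain ⟨ih1, ih2⟩ := ih
      rcases hr with rfl | rfl | rfl
      · rw [right_aux q (fun x => S.per_far (Or.inl (by omega)) x),
          right_aux q (fun x => S.per_far (Or.inl (by omega)) x)]
        exact ⟨ih1, ih2⟩
      · rw [right_aux q (fun x => S.per_succ b x), right_aux q (fun x => S.per_self (b + 1) x)]
        exact ⟨ih1, ih2⟩
      · refine ⟨?_, ?_⟩
        · rcases per_b_le q hB (by omega) (q.s (b + 2) p) with h | h
          · exfalso
            refine no_mixed q hB hb _ h ?_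
            rw [q.s_inv, ih1]
            norm_num
          · exact h
        · rw [right_aux q (fun x => S.per_succ (b + 1) x)]
          exact ih2
  have hstr := S.string (a := b - 2) (by omega) (by omega) {y | q.π y ∈ K} ⟨x, by
    show q.π x ∈ K
    rw [← hv]; exact hvK⟩ (by
    intro i hi1 hi2 y hy
    show q.π (S.ρ i y) ∈ K
    have hy' : q.π y ∈ K := hy
    rw [q.hs]
    by_cases hib : i ≤ b
    · rw [hB.eq i (by omega) hib]; exact hKa _ hy'
    · have h1 : i = b + 1 ∨ i = b + 2 := by omega
      rcases h1 with rfl | rfl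
      · exact hKb1 _ hy'
      · exact hKb2 _ hy') ![3, 3, 4, q.per (b + 1) v] (by
    intro i y hy
    have hy' : q.π y ∈ K := hy
    obtain ⟨h1, h2⟩ := hind _ hy'
    rw [q.per_π] at h1 h2
    fin_cases i
    · show S.per (b - 2 + 0) y = 3
      exact hB.three _ (by omega) (by omega) y
    · show S.per (b - 2 + 1) y = 3
      exact hB.three _ (by omega) (by omega) y
    · show S.per (b - 2 + 2) y = 4
      rw [show b - 2 + 2 = b by omega]; exact h1
    · show S.per (b - 2 + 3) y = q.per (b + 1) v
      rw [show b - 2 + 3 = b + 1 by omega]; exact h2)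
  have h5 : (4 : ℕ) = 3 := hstr.2.1
  norm_num at h5

theorem right_step [Finite V] (q : S.Quo V) {a b : ℕ} (hB : IsBlock q a b) (hb : b + 2 ≤ S.d) :
    IsBlock q a (b + 1) := by
  have hlen := hB.len
  refine ⟨hB.pos, by omega, by omega, ?_, ?_⟩
  · intro i hi1 hi2 v
    by_cases hib : i ≤ b
    · exact hB.eq i hi1 hib v
    · obtain rfl : i = b + 1 := by omega
      have h3 : q.per b v = 3 := by
        obtain ⟨x, rfl⟩ := q.surj v
        rw [q.per_π]; exact all_three q hB hb x
      have h := q.eq_of_three h3 (fun w => by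
        rw [hB.eq b (by omega) le_rfl, hB.eq b (by omega) le_rfl]
        exact q.s_comm (Or.inl (by omega)) w)
      rw [← h]
      exact hB.eq b (by omega) le_rfl v
  · intro i hi1 hi2 x
    by_cases hib : i < b
    · exact hB.three i hi1 hib x
    · obtain rfl : i = b := by omega
      exact all_three q hB hb x

theorem right_all [Finite V] (q : S.Quo V) {a b : ℕ} (hB : IsBlock q a b) :
    ∀ i, a ≤ i → i + 1 ≤ S.d → ∀ x y, S.per i x = S.per i y := by
  obtain ⟨n, hn⟩ : ∃ n, n = S.d - b := ⟨_, rfl⟩
  induction n generalizing b with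
  | zero =>
    intro i hi1 hi2 x y
    have := hB.le
    rw [hB.three i hi1 (by omega), hB.three i hi1 (by omega)]
  | succ n ih =>
    by_cases hb : b + 2 ≤ S.d
    · exact ih (right_step q hB hb) (by omega)
    · intro i hi1 hi2 x y
      have hle := hB.le
      have hlen := hB.len
      have hpos := hB.pos
      by_cases hib : i < b
      · rw [hB.three i hi1 hib, hB.three i hi1 hib]
      · obtain rfl : i = b := by omega
        have hinv : ∀ j, 1 ≤ j → j ≤ S.d → ∀ z, S.per i (S.ρ j z) = S.per i z := by
          intro j hj1 hj2 z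
          by_cases h1 : j + 2 ≤ i
          · exact S.per_far (Or.inl h1) z
          · have h2 : j = i - 1 ∨ j = i ∨ j = i + 1 := by omega
            rcases h2 with h2 | h2 | h2
            · have e1 : q.π (S.ρ j z) = q.π (S.ρ i z) := by
                rw [q.hs, q.hs, hB.eq j (by omega) (by omega), hB.eq i (by omega) le_rfl]
              rw [q.hper i _ _ e1, S.per_self]
            · rw [h2, S.per_self]
            · rw [h2, S.per_succ]
        have hc := S.conn x y
        induction hc with
        | refl => rfl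
        | tail _ hr ih2 =>
          obtain ⟨j, hj1, hj2, rfl⟩ := hr
          rw [ih2, hinv j hj1 hj2]

end H63.KO
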