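import Pool.Agent.H63.KO.IncConn

/-! # KO.ScF : simple connectedness (paper A7)

`generic` gives `l` with pairwise different ratios. CLAIM: for every `c : ℝ` there is `t` with `PotUp s lx l x y h t c`. Induction on the number of atoms `v ⊆ y` over `x` with
`c < rat v` (finite: `ι` finite). None: nothing to prove. Otherwise let `v0` be the one of smallest ratio, `c' = rat v0`, `t'` from the induction hypothesis for `c'`. If
there is an edge `EdgeIn s x y E0 v0 w0` with `rat v0 < rat w0`, put `t = update t' v0 (t' w0 * h E0 w0 v0)`, otherwise `t = t'`. An edge with both ratios `> c`: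
if `v, w ≠ v0` both ratios are `> c'` (`hinj`, minimality): IH. If `w = v0`: `t v0 = t' v * h E v v0` by `inc_conn` (edge `E0` against `E`). If `v = v0`: `t v0 = t' w * h E w v0` by
`inc_conn`, and `h E v0 w = (h E w v0)⁻¹` from the local potential of a face `S`, `E ⊂ S ⊆ y`, `rkF s S = rkF s x + 3` (`step` for `E ⊂ y`: `E ≠ y` by rank).
Finally choose `c` smaller than all ratios. -/

namespace H63.KO

open Set

variable {V : Type} [AddCommGroup V] [Module ℝ V] {ι : Type} {G : Type} [Group G]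
variable {s : ι → V} {x y z v w : Set ι}

private theorem EdgeIn.swap {E : Set ι} (h : EdgeIn s x y E v w) : EdgeIn s x y E w v :=
  ⟨h.1, h.2.1, h.2.2.1, h.2.2.2.2.2.1, h.2.2.2.2.2.2.1, h.2.2.2.1, h.2.2.2.2.1,
    h.2.2.2.2.2.2.2.symm⟩

private theorem edge_inv [FiniteDimensional ℝ V] [Finite ι] (hx : IsFace s x) (hy : IsFace s y)
    (hrk : rkF s x + 4 ≤ rkF s y) (h : Set ι → Set ι → Set ι → G)
    (hloc : ∀ S, IsFace s S → x ⊂ S → S ⊆ y → rkF s S = rkF s x + 3 → ∃ tS, Pot s x S h tS)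
    {E : Set ι} (hE : EdgeIn s x y E v w) : h E w v * h E v w = 1 := by
  obtain ⟨hE1, hEy, hEr, hv, hvE, hw, hwE, hvw⟩ := hE
  have hEy' : E ⊂ y := by
    refine lt_of_le_of_ne hEy (fun e => ?_)
    rw [e] at hEr
    omega
  obtain ⟨S, ⟨hS, hES, hSr⟩, hSy⟩ := step hE1 hy hEy'
  have hxS : x ⊂ S := (hv.2.1.trans hvE).trans hES
  obtain ⟨tS, htS⟩ := hloc S hS hxS hSy (by omega)
  have h1 := htS E v w ⟨hE1, hES.1, hEr, hv, hvE, hw, hwE, hvw⟩
  have h2 := htS E w v ⟨hE1, hES.1, hEr, hw, hwE, hv, hvE, hvw.symm⟩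
  rw [h2, mul_assoc] at h1
  exact (mul_eq_left.mp h1.symm)

private theorem potUp_exists [FiniteDimensional ℝ V] [Finite ι] {lx : Module.Dual ℝ V}
    (hx : Defn s x lx) (hy : IsFace s y) (hrk : rkF s x + 4 ≤ rkF s y)
    (l : Module.Dual ℝ V) (hl : ∀ i ∈ x, l (s i) = 0)
    (hinj : ∀ v w, AtomOver s x v → AtomOver s x w → v ≠ w → rat s lx l x v ≠ rat s lx l x w)
    (h : Set ι → Set ι → Set ι → G)
    (hloc : ∀ S, IsFace s S → x ⊂ S → S ⊆ y → rkF s S = rkF s x + 3 → ∃ tS, Pot s x S h tS) :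
    ∀ (n : ℕ) (c : ℝ), Set.ncard {v | AtomOver s x v ∧ v ⊆ y ∧ c < rat s lx l x v} ≤ n →
      ∃ t : Set ι → G, PotUp s lx l x y h t c := by
  classical
  intro n
  induction n with
  | zero =>
    intro c hc
    refine ⟨fun _ => 1, ?_⟩
    intro E v w hE hcv hcw
    exfalso
    have h1 : {v | AtomOver s x v ∧ v ⊆ y ∧ c < rat s lx l x v} = ∅ :=
      (Set.ncard_eq_zero (Set.toFinite _)).mp (Nat.le_zero.mp hc)
    have h2 : v ∈ {v | AtomOver s x v ∧ v ⊆ y ∧ c < rat s lx l x v} :=
      ⟨hE.2.2.2.1, hE.2.2.2.2.1.1.trans hE.2.1, hcv⟩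
    rw [h1] at h2
    exact h2
  | succ n ih =>
    intro c hc
    set A := {v | AtomOver s x v ∧ v ⊆ y ∧ c < rat s lx l x v} with hA
    have hmem : ∀ {E v w}, EdgeIn s x y E v w → c < rat s lx l x v → v ∈ A := by
      intro E v w hE hcv
      exact ⟨hE.2.2.2.1, hE.2.2.2.2.1.1.trans hE.2.1, hcv⟩
    rcases Set.eq_empty_or_nonempty A with hAe | hAne
    · refine ⟨fun _ => 1, ?_⟩
      intro E v w hE hcv hcw
      have := hmem hE hcv
      rw [hAe] at this
      exact this.elim
    · obtain ⟨v0, hv0, hmin⟩ := (Set.toFinite A).exists_minimalFor (rat s lx l x) A hAne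
      have hmin' : ∀ v ∈ A, v ≠ v0 → rat s lx l x v0 < rat s lx l x v := by
        intro v hv hne
        have h1 := hinj v v0 hv.1 hv0.1 hne
        by_contra hcon
        push Not at hcon
        have h2 := hmin hv hcon
        exact h1 (le_antisymm hcon h2)
      have hsub : {v | AtomOver s x v ∧ v ⊆ y ∧ rat s lx l x v0 < rat s lx l x v} ⊂ A := by
        rw [Set.ssubset_iff_of_subset]
        · exact ⟨v0, hv0, fun h => lt_irrefl _ h.2.2⟩
        · intro v hv
          exact ⟨hv.1, hv.2.1, hv0.2.2.trans hv.2.2⟩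
      have hlt := Set.ncard_lt_ncard hsub (Set.toFinite _)
      obtain ⟨t', ht'⟩ := ih (rat s lx l x v0) (by omega)
      by_cases hex : ∃ E0 w0, EdgeIn s x y E0 v0 w0 ∧ rat s lx l x v0 < rat s lx l x w0
      · obtain ⟨E0, w0, hE0, hw0⟩ := hex
        refine ⟨Function.update t' v0 (t' w0 * h E0 w0 v0), ?_⟩
        have key : ∀ {E w}, EdgeIn s x y E v0 w → rat s lx l x v0 < rat s lx l x w →
            t' w0 * h E0 w0 v0 = t' w * h E w v0 := by
          intro E w hE hw
          exact inc_conn hx hy l hl hinj hloc ht' hE0 hE hw0 hw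
        intro E v w hE hcv hcw
        have hvA := hmem hE hcv
        have hwA := hmem hE.swap hcw
        have hvw : v ≠ w := hE.2.2.2.2.2.2.2
        by_cases hv : v = v0
        · subst hv
          have h1 := hmin' w hwA hvw.symm
          rw [Function.update_self, Function.update_of_ne hvw.symm, key hE h1, mul_assoc,
            edge_inv ⟨lx, hx⟩ hy hrk h hloc hE, mul_one]
        · by_cases hw : w = v0
          · subst hw
            have h1 := hmin' v hvA hv
            rw [Function.update_self, Function.update_of_ne hv, key hE.swap h1]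
          · rw [Function.update_of_ne hv, Function.update_of_ne hw]
            exact ht' E v w hE (hmin' v hvA hv) (hmin' w hwA hw)
      · push Not at hex
        refine ⟨t', ?_⟩
        intro E v w hE hcv hcw
        have hvA := hmem hE hcv
        have hwA := hmem hE.swap hcw
        have hvw : v ≠ w := hE.2.2.2.2.2.2.2
        by_cases hv : v = v0
        · subst hv
          exact absurd (hmin' w hwA hvw.symm) (not_lt.mpr (hex E w hE))
        · by_cases hw : w = v0
          · subst hw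
            exact absurd (hmin' v hvA hv) (not_lt.mpr (hex E v hE.swap))
          · exact ht' E v w hE (hmin' v hvA hv) (hmin' w hwA hw)

/-- (A7) SC -/
theorem scF [FiniteDimensional ℝ V] [Finite ι] (hx : IsFace s x) (hy : IsFace s y) (hxy : x ⊂ y)
    (hrk : rkF s x + 4 ≤ rkF s y) (h : Set ι → Set ι → Set ι → G)
    (hloc : ∀ S, IsFace s S → x ⊂ S → S ⊆ y → rkF s S = rkF s x + 3 → ∃ tS, Pot s x S h tS) :
    ∃ t : Set ι → G, Pot s x y h t := by
  obtain ⟨lx, hlx⟩ := hx
  obtain ⟨l, hl, hinj⟩ := generic hlx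
  have hb : BddBelow (rat s lx l x '' {v | AtomOver s x v ∧ v ⊆ y}) :=
    ((Set.toFinite {v | AtomOver s x v ∧ v ⊆ y}).image (rat s lx l x)).bddBelow
  obtain ⟨c0, hc0⟩ := hb
  obtain ⟨t, ht⟩ := potUp_exists hlx hy hrk l hl hinj h hloc _ (c0 - 1) le_rfl
  refine ⟨t, ?_⟩
  intro E v w hE
  refine ht E v w hE ?_ ?_
  · have := hc0 ⟨v, ⟨hE.2.2.2.1, hE.2.2.2.2.1.1.trans hE.2.1⟩, rfl⟩
    linarith
  · have := hc0 ⟨w, ⟨hE.2.2.2.2.2.1, hE.2.2.2.2.2.2.1.1.trans hE.2.1⟩, rfl⟩
    linarith

end H63.KO
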