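import Pool.Agent.H63.KO.Fam

/-! # KO.Step : existence of a face one rank higher, and the ratio at an atom (paper A2)

`step`: let `z` be minimal (finite set of faces) among the faces with `x ⊂ z ⊆ y`. For a functional `l` vanishing on `x`, `IsFace.ratio` for
`x ⊂ z` gives `t` and a face between, which by minimality is `z`: so `l = t * lx` on ALL of `z`. Fix `i ∈ z \ x`. If `span (s '' z)` were not
`span (s '' x) + ℝ s i` there would be `j ∈ z` with `s j` outside that sum, and a functional `l` vanishing on the sum with `l (s j) = 1`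
(`Submodule.exists_dual_map_eq_bot_of_notMem` or similar); but `l (s i) = 0 = t * lx (s i)` with `lx (s i) > 0` gives `t = 0` and
`l (s j) = t * lx (s j) = 0`. So the dimension is `rkF s x + 1` (`s i` is not in `span (s '' x)` because `lx` vanishes there).

`atom_eq`: if `v` is an atom over `x` and `i ∈ v \ x` then `span (s '' v) = span (s '' x) + ℝ s i` (dimensions), so a functional `l` vanishing
on `x` is determined on `v` by `l (s i)`: `l = (l (s i) / lx (s i)) * lx` on `v`. `rat_spec` is the same statement for the number `rat`. -/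

namespace H63.KO

open Set

variable {V : Type} [AddCommGroup V] [Module ℝ V] {ι : Type}
variable {s : ι → V} {x y z v w : Set ι}

/-- adding a vector outside raises the dimension by one -/
private theorem step_dim [FiniteDimensional ℝ V] {W : Submodule ℝ V} {v : V} (hv : v ∉ W) :
    Module.finrank ℝ (W ⊔ Submodule.span ℝ {v} : Submodule ℝ V) = Module.finrank ℝ W + 1 := by
  have hv0 : v ≠ 0 := by
    rintro rfl
    exact hv W.zero_mem
  have h1 := Submodule.finrank_sup_add_finrank_inf_eq W (Submodule.span ℝ {v})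
  have h2 : W ⊓ Submodule.span ℝ {v} = ⊥ :=
    ((Submodule.disjoint_span_singleton' hv0).2 hv).eq_bot
  rw [h2, finrank_bot, add_zero, finrank_span_singleton hv0] at h1
  exact h1

private theorem step_notMem {lx : Module.Dual ℝ V} (hx : Defn s x lx) {i : ι} (hi : i ∉ x) :
    s i ∉ Submodule.span ℝ (s '' x) := by
  intro h
  have h2 : Submodule.span ℝ (s '' x) ≤ LinearMap.ker lx := by
    rw [Submodule.span_le]
    rintro _ ⟨j, hj, rfl⟩
    exact (hx.2 j).1 hj
  exact hi ((hx.2 i).2 (h2 h))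

private theorem step_pos {lx : Module.Dual ℝ V} (hx : Defn s x lx) {i : ι} (hi : i ∉ x) :
    0 < lx (s i) :=
  lt_of_le_of_ne (hx.1 i) (fun h => hi ((hx.2 i).2 h.symm))

/-- (A2) a face one rank above `x`, below `y` -/
theorem step [FiniteDimensional ℝ V] [Finite ι] (hx : IsFace s x) (hy : IsFace s y) (hxy : x ⊂ y) :
    ∃ z, AtomOver s x z ∧ z ⊆ y := by
  obtain ⟨z, hz⟩ := exists_minimal_of_wellFoundedLT
    (fun z : Set ι => IsFace s z ∧ x ⊂ z ∧ z ⊆ y) ⟨y, hy, hxy, Subset.rfl⟩
  obtain ⟨⟨hzf, hxz, hzy⟩, hmin⟩ := hz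
  refine ⟨z, ⟨hzf, hxz, ?_⟩, hzy⟩
  obtain ⟨lx, hlx⟩ := hx
  have hrat : ∀ l : Module.Dual ℝ V, (∀ i ∈ x, l (s i) = 0) →
      ∃ t : ℝ, ∀ i ∈ z, l (s i) = t * lx (s i) := by
    intro l hl
    obtain ⟨t, -, h2, h3⟩ := IsFace.ratio hlx hzf hxz l hl
    refine ⟨t, fun i hi => ?_⟩
    have h4 : {i | i ∈ z ∧ l (s i) = t * lx (s i)} ⊆ z := fun j hj => hj.1
    have h5 := hmin ⟨h2, h3, h4.trans hzy⟩ h4
    exact (h5 hi).2
  obtain ⟨i, hi, hi'⟩ := (Set.ssubset_iff_of_subset hxz.1).1 hxz
  have hle : Submodule.span ℝ (s '' x) ⊔ Submodule.span ℝ {s i} ≤ Submodule.span ℝ (s '' z) := by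
    refine sup_le (Submodule.span_mono (Set.image_mono hxz.1)) ?_
    rw [Submodule.span_singleton_le_iff_mem]
    exact Submodule.subset_span ⟨i, hi, rfl⟩
  have hge : Submodule.span ℝ (s '' z) ≤ Submodule.span ℝ (s '' x) ⊔ Submodule.span ℝ {s i} := by
    rw [Submodule.span_le]
    rintro _ ⟨j, hj, rfl⟩
    by_contra hcon
    obtain ⟨f, hf, hfk⟩ := Submodule.exists_le_ker_of_notMem hcon
    have hfx : ∀ k ∈ x, f (s k) = 0 := fun k hk =>
      hfk (Submodule.mem_sup_left (Submodule.subset_span ⟨k, hk, rfl⟩))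
    have hfi : f (s i) = 0 :=
      hfk (Submodule.mem_sup_right (Submodule.mem_span_singleton_self _))
    obtain ⟨t, ht⟩ := hrat f hfx
    have h1 := ht i hi
    rw [hfi] at h1
    have h2 : t = 0 := by
      rcases mul_eq_zero.1 h1.symm with h | h
      · exact h
      · exact absurd h (step_pos hlx hi').ne'
    apply hf
    rw [ht j hj, h2, zero_mul]
  unfold rkF
  rw [le_antisymm hge hle]
  exact step_dim (step_notMem hlx hi')

/-- a functional vanishing on `x` is a multiple of `lx` on an atom over `x` -/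
theorem atom_eq [FiniteDimensional ℝ V] {lx : Module.Dual ℝ V} (hx : Defn s x lx)
    (hv : AtomOver s x v) (l : Module.Dual ℝ V) (hl : ∀ i ∈ x, l (s i) = 0) :
    ∃ t : ℝ, ∀ i ∈ v, l (s i) = t * lx (s i) := by
  obtain ⟨hvf, hxv, hrk⟩ := hv
  obtain ⟨i, hi, hi'⟩ := (Set.ssubset_iff_of_subset hxv.1).1 hxv
  have hle : Submodule.span ℝ (s '' x) ⊔ Submodule.span ℝ {s i} ≤ Submodule.span ℝ (s '' v) := by
    refine sup_le (Submodule.span_mono (Set.image_mono hxv.1)) ?_
    rw [Submodule.span_singleton_le_iff_mem]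
    exact Submodule.subset_span ⟨i, hi, rfl⟩
  have heq : Submodule.span ℝ (s '' x) ⊔ Submodule.span ℝ {s i} = Submodule.span ℝ (s '' v) := by
    apply Submodule.eq_of_le_of_finrank_eq hle
    rw [step_dim (step_notMem hx hi')]
    exact hrk.symm
  have hpos := step_pos hx hi'
  refine ⟨l (s i) / lx (s i), ?_⟩
  have hker : Submodule.span ℝ (s '' v) ≤ LinearMap.ker (l - (l (s i) / lx (s i)) • lx) := by
    rw [← heq]
    refine sup_le ?_ ?_
    · rw [Submodule.span_le]
      rintro _ ⟨j, hj, rfl⟩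
      rw [SetLike.mem_coe, LinearMap.mem_ker, LinearMap.sub_apply, LinearMap.smul_apply, hl j hj,
        (hx.2 j).1 hj, smul_zero, sub_zero]
    · rw [Submodule.span_singleton_le_iff_mem, LinearMap.mem_ker, LinearMap.sub_apply,
        LinearMap.smul_apply, smul_eq_mul, div_mul_cancel₀ _ hpos.ne', sub_self]
  intro j hj
  have := hker (Submodule.subset_span ⟨j, hj, rfl⟩)
  rw [LinearMap.mem_ker, LinearMap.sub_apply, LinearMap.smul_apply, smul_eq_mul] at this
  linarith

/-- the number `rat` is the ratio at the atom -/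
theorem rat_spec [FiniteDimensional ℝ V] {lx : Module.Dual ℝ V} (hx : Defn s x lx)
    (hv : AtomOver s x v) (l : Module.Dual ℝ V) (hl : ∀ i ∈ x, l (s i) = 0) :
    ∀ i ∈ v, l (s i) = rat s lx l x v * lx (s i) := by
  obtain ⟨t, ht⟩ := atom_eq hx hv l hl
  have hex : ∃ i, i ∈ v ∧ i ∉ x := (Set.ssubset_iff_of_subset hv.2.1.1).1 hv.2.1
  have hrt : rat s lx l x v = t := by
    unfold rat
    rw [dif_pos hex, ht _ hex.choose_spec.1,
      mul_div_cancel_right₀ _ (step_pos hx hex.choose_spec.2).ne']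
  intro i hi
  rw [hrt]
  exact ht i hi

/-- if `l = t * lx` at one index of `v` outside `x` then `t` is the ratio -/
theorem rat_eq [FiniteDimensional ℝ V] {lx : Module.Dual ℝ V} (hx : Defn s x lx)
    (hv : AtomOver s x v) (l : Module.Dual ℝ V) (hl : ∀ i ∈ x, l (s i) = 0)
    {i : ι} (hi : i ∈ v) (hi' : i ∉ x) {t : ℝ} (ht : l (s i) = t * lx (s i)) :
    rat s lx l x v = t := by
  have h1 := rat_spec hx hv l hl i hi
  rw [ht] at h1
  exact (mul_right_cancel₀ (step_pos hx hi').ne' h1).symm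

end H63.KO
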