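import Pool.Agent.H63.KO.Refl

/-! # KO.StrNum : the numerical part of the string lemma (paper C3)

For `v = (v0, ..., v4)`: `form v v = ∑ v_i² - 2 ∑_{i<4} c_i v_i v_{i+1}`. All test vectors are positive and `cos (π/m) ≥ 1/2` for `m ≥ 3`, `≥ √2/2` for `m ≥ 4`, `≥ cos (π/5) = (1+√5)/4 ≥ 0.809` for `m ≥ 5`.
`m 1 ≥ 4`: `v = (√2, 2√2, 3, 2, 1)`, value `≤ 24 - (4 + 12 + 6 + 2) = 0`. `m 2 ≥ 4`: reversed. `m 3 ≥ 5`: `v = (1, 2, 3, 4, 13/4)`: `40.5625 - 20 - 26 * 0.809 < 0`. `m 0 ≥ 5`: reversed. -/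

namespace H63.KO

/-- the Gram matrix of a path with five nodes -/
def pathGram (c : Fin 4 → ℝ) : Gram (Fin 5) where
  B i j := if i = j then 1
    else if h : (i : ℕ) + 1 = j then -c ⟨i, by have := j.2; omega⟩
    else if h : (j : ℕ) + 1 = i then -c ⟨j, by have := i.2; omega⟩
    else 0
  symm i j := by
    by_cases h1 : i = j
    · rw [h1]
    · have h1' : ¬ j = i := fun h => h1 h.symm
      by_cases h2 : (i : ℕ) + 1 = j
      · have h3 : ¬ ((j : ℕ) + 1 = i) := by omega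
        simp only [h1, h1', if_false, h2, h3, dif_pos, dif_neg, not_false_iff]
      · by_cases h3 : (j : ℕ) + 1 = i
        · simp only [h1, h1', if_false, h2, h3, dif_pos, dif_neg, not_false_iff]
        · simp only [h1, h1', if_false, h2, h3, dif_neg, not_false_iff]
  diag i := by simp

private theorem form_path (c : Fin 4 → ℝ) (v : Fin 5 → ℝ) :
    (pathGram c).form v v = v 0 ^ 2 + v 1 ^ 2 + v 2 ^ 2 + v 3 ^ 2 + v 4 ^ 2 -
      2 * (c 0 * v 0 * v 1 + c 1 * v 1 * v 2 + c 2 * v 2 * v 3 + c 3 * v 3 * v 4) := by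
  unfold Gram.form
  have e00 : (pathGram c).B 0 0 = 1 := rfl
  have e01 : (pathGram c).B 0 1 = -c 0 := rfl
  have e02 : (pathGram c).B 0 2 = 0 := rfl
  have e03 : (pathGram c).B 0 3 = 0 := rfl
  have e04 : (pathGram c).B 0 4 = 0 := rfl
  have e10 : (pathGram c).B 1 0 = -c 0 := rfl
  have e11 : (pathGram c).B 1 1 = 1 := rfl
  have e12 : (pathGram c).B 1 2 = -c 1 := rfl
  have e13 : (pathGram c).B 1 3 = 0 := rfl
  have e14 : (pathGram c).B 1 4 = 0 := rfl
  have e20 : (pathGram c).B 2 0 = 0 := rfl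
  have e21 : (pathGram c).B 2 1 = -c 1 := rfl
  have e22 : (pathGram c).B 2 2 = 1 := rfl
  have e23 : (pathGram c).B 2 3 = -c 2 := rfl
  have e24 : (pathGram c).B 2 4 = 0 := rfl
  have e30 : (pathGram c).B 3 0 = 0 := rfl
  have e31 : (pathGram c).B 3 1 = 0 := rfl
  have e32 : (pathGram c).B 3 2 = -c 2 := rfl
  have e33 : (pathGram c).B 3 3 = 1 := rfl
  have e34 : (pathGram c).B 3 4 = -c 3 := rfl
  have e40 : (pathGram c).B 4 0 = 0 := rfl
  have e41 : (pathGram c).B 4 1 = 0 := rfl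
  have e42 : (pathGram c).B 4 2 = 0 := rfl
  have e43 : (pathGram c).B 4 3 = -c 3 := rfl
  have e44 : (pathGram c).B 4 4 = 1 := rfl
  simp only [Fin.sum_univ_five, e00, e01, e02, e03, e04, e10, e11, e12, e13, e14, e20, e21, e22, e23, e24, e30, e31, e32, e33, e34, e40, e41, e42, e43, e44]
  ring

private theorem cos_ge {a b : ℕ} (ha : 1 ≤ a) (h : a ≤ b) :
    Real.cos (Real.pi / a) ≤ Real.cos (Real.pi / b) := by
  have h1 : (0 : ℝ) < a := by exact_mod_cast ha
  have h2 : (a : ℝ) ≤ b := by exact_mod_cast h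
  have h3 : (1 : ℝ) ≤ a := by exact_mod_cast ha
  apply Real.cos_le_cos_of_nonneg_of_le_pi
  · exact div_nonneg Real.pi_pos.le (by linarith)
  · exact div_le_self Real.pi_pos.le h3
  · exact div_le_div_of_nonneg_left Real.pi_pos.le h1 h2

private theorem c3 {m : ℕ} (h : 3 ≤ m) : (1 / 2 : ℝ) ≤ Real.cos (Real.pi / m) := by
  have := cos_ge (by norm_num : 1 ≤ 3) h
  rwa [Nat.cast_ofNat, Real.cos_pi_div_three] at this

private theorem c4 {m : ℕ} (h : 4 ≤ m) : Real.sqrt 2 / 2 ≤ Real.cos (Real.pi / m) := by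
  have := cos_ge (by norm_num : 1 ≤ 4) h
  rwa [Nat.cast_ofNat, Real.cos_pi_div_four] at this

private theorem c5 {m : ℕ} (h : 5 ≤ m) : (809 / 1000 : ℝ) ≤ Real.cos (Real.pi / m) := by
  have h1 := cos_ge (by norm_num : 1 ≤ 5) h
  rw [Nat.cast_ofNat, Real.cos_pi_div_five] at h1
  have h2 : (2.236 : ℝ) ≤ Real.sqrt 5 := by
    apply Real.le_sqrt_of_sq_le
    norm_num
  linarith

theorem path_num (m : Fin 4 → ℕ) (hm : ∀ i, 3 ≤ m i)
    (hpos : ∀ v : Fin 5 → ℝ, v ≠ 0 →
      0 < (pathGram (fun i => Real.cos (Real.pi / m i))).form v v) :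
    m 1 = 3 ∧ m 2 = 3 ∧ m 0 ≤ 4 ∧ m 3 ≤ 4 := by
  have h0 := c3 (hm 0)
  have h1 := c3 (hm 1)
  have h2 := c3 (hm 2)
  have h3 := c3 (hm 3)
  have hs : Real.sqrt 2 * Real.sqrt 2 = 2 := Real.mul_self_sqrt (by norm_num)
  refine ⟨?_, ?_, ?_, ?_⟩
  · by_contra hc
    have hc4 := c4 (show 4 ≤ m 1 by have := hm 1; omega)
    have hp := hpos ![Real.sqrt 2, 2 * Real.sqrt 2, 3, 2, 1] (by
      intro h
      have := congrFun h 4
      simp at this)
    rw [form_path] at hp
    simp at hp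
    nlinarith [mul_le_mul_of_nonneg_right hc4 (Real.sqrt_nonneg 2)]
  · by_contra hc
    have hc4 := c4 (show 4 ≤ m 2 by have := hm 2; omega)
    have hp := hpos ![1, 2, 3, 2 * Real.sqrt 2, Real.sqrt 2] (by
      intro h
      have := congrFun h 0
      simp at this)
    rw [form_path] at hp
    simp at hp
    nlinarith [mul_le_mul_of_nonneg_right hc4 (Real.sqrt_nonneg 2)]
  · by_contra hc
    have hc5 := c5 (show 5 ≤ m 0 by omega)
    have hp := hpos ![13 / 4, 4, 3, 2, 1] (by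
      intro h
      have := congrFun h 4
      simp at this)
    rw [form_path] at hp
    simp at hp
    nlinarith
  · by_contra hc
    have hc5 := c5 (show 5 ≤ m 3 by omega)
    have hp := hpos ![1, 2, 3, 4, 13 / 4] (by
      intro h
      have := congrFun h 0
      simp at this)
    rw [form_path] at hp
    simp at hp
    nlinarith

end H63.KO
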