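import Pool.Agent.H63.KO.StrNum
import Pool.Agent.H63.KO.PosDef
import Pool.Agent.H63.KO.ClosedFin
import Pool.Agent.H63.KO.ReflPow
import Pool.Agent.H63.KO.Cyc
import Pool.Agent.H63.KO.Per

/-! # KO.String : five consecutive colours with constant periods (paper C3)

`A = pathGram (fun i => cos (π / m i))`, `G = (Fin 5 → ℝ) ≃ₗ (Fin 5 → ℝ)`, labels `g i x = A.r (i - a)` (for `a ≤ i ≤ a + 4`). `S.univ` (with `a < b = a+4`): commutation is `Gram.r_comm` (`B = 0`), the local potentials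
are `FSys.pot_const` with `Gram.r_mul_self`, `Gram.r_pow` (`S.per (a + i) x = m i`). The set `F '' R` is finite, nonempty, closed under right multiplication by all `A.r n` (`F (ρ i x) = F x * A.r (i-a)`), so
`Gram.closed_finite`, `Gram.posdef` (the path is connected: `B ≠ 0` for neighbours because `cos (π/m) > 0` for `m ≥ 3`) and `path_num`. `3 ≤ m i` is `three_le_per` for a point of `R`. -/

namespace H63.KO

variable {X : Type} [Finite X] (S : FSys X)

/-- (C3) STRING -/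
theorem FSys.string {a : ℕ} (ha : 1 ≤ a) (hb : a + 4 ≤ S.d) (R : Set X) (hne : R.Nonempty)
    (hR : ∀ i, a ≤ i → i ≤ a + 4 → ∀ x ∈ R, S.ρ i x ∈ R) (m : Fin 4 → ℕ)
    (hm : ∀ i : Fin 4, ∀ x ∈ R, S.per (a + i) x = m i) :
    m 1 = 3 ∧ m 2 = 3 ∧ m 0 ≤ 4 ∧ m 3 ≤ 4 := by
  classical
  obtain ⟨x0, hx0⟩ := hne
  have hm3 : ∀ i, 3 ≤ m i := by
    intro i
    rw [← hm i x0 hx0]
    have := i.2
    exact S.three_le_per (by omega) (by omega) x0
  have hcos : ∀ i, 0 < Real.cos (Real.pi / m i) := by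
    intro i
    have h3 : (3 : ℝ) ≤ (m i : ℝ) := by exact_mod_cast hm3 i
    apply Real.cos_pos_of_mem_Ioo
    constructor
    · have : 0 < Real.pi / m i := div_pos Real.pi_pos (by linarith)
      linarith [Real.pi_pos]
    · rw [div_lt_div_iff₀ (by linarith) (by norm_num)]
      nlinarith [Real.pi_pos]
  obtain ⟨A, hA⟩ : ∃ A : Gram (Fin 5), A = pathGram (fun i => Real.cos (Real.pi / m i)) := ⟨_, rfl⟩
  have hBnext : ∀ (i : ℕ) (h0 : i < 5) (h1 : i + 1 < 5) (h2 : i < 4),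
      A.B ⟨i, h0⟩ ⟨i + 1, h1⟩ = -Real.cos (Real.pi / m ⟨i, h2⟩) := by
    intro i h0 h1 h2
    rw [hA]
    unfold pathGram
    simp
  have hBfar : ∀ (i j : ℕ) (h0 : i < 5) (h1 : j < 5), i + 2 ≤ j → A.B ⟨i, h0⟩ ⟨j, h1⟩ = 0 := by
    intro i j h0 h1 h2
    rw [hA]
    unfold pathGram
    have e1 : ¬ ((⟨i, h0⟩ : Fin 5) = ⟨j, h1⟩) := by
      intro h; have := congrArg Fin.val h; simp at this; omega
    have e2 : ¬ (i + 1 = j) := by omega
    have e3 : ¬ (j + 1 = i) := by omega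
    simp only [e1, e2, e3, if_false, dif_neg, not_false_iff]
  -- the labels
  obtain ⟨lab, hlab⟩ : ∃ lab : ℕ → (Fin 5 → ℝ) ≃ₗ[ℝ] (Fin 5 → ℝ),
      ∀ (i : ℕ) (h : i < 5), lab (a + i) = A.r ⟨i, h⟩ := by
    refine ⟨fun i => if h : i - a < 5 then A.r ⟨i - a, h⟩ else 1, ?_⟩
    intro i h
    have h1 : a + i - a = i := by omega
    have h2 : a + i - a < 5 := by omega
    simp only [h2, dif_pos]
    congr 1
    exact Fin.ext h1
  obtain ⟨F, hF⟩ : ∃ F : X → (Fin 5 → ℝ) ≃ₗ[ℝ] (Fin 5 → ℝ),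
      ∀ i, a ≤ i → i ≤ a + 4 → ∀ x ∈ R, F (S.ρ i x) = F x * lab i := by
    refine S.univ ((Fin 5 → ℝ) ≃ₗ[ℝ] (Fin 5 → ℝ)) a (a + 4) R (fun i _ => lab i) ha (by omega) hb
      hR ?_ ?_
    · intro i j hi hij hj x _
      obtain ⟨i', rfl⟩ := Nat.exists_eq_add_of_le hi
      obtain ⟨j', rfl⟩ := Nat.exists_eq_add_of_le (show a ≤ j by omega)
      show lab (a + i') * lab (a + j') = lab (a + j') * lab (a + i')
      rw [hlab i' (by omega), hlab j' (by omega)]
      exact A.r_comm (hBfar i' j' (by omega) (by omega) (by omega))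
    · intro i hi hi1
      obtain ⟨i', rfl⟩ := Nat.exists_eq_add_of_le hi
      have hi5 : i' < 5 := by omega
      have hi15 : i' + 1 < 5 := by omega
      have hi4 : i' < 4 := by omega
      have e1 : lab (a + i') = A.r ⟨i', hi5⟩ := hlab i' hi5
      have e2 : lab (a + i' + 1) = A.r ⟨i' + 1, hi15⟩ := hlab (i' + 1) hi15
      refine S.pot_const (by omega) (by omega) R (hR (a + i') hi (by omega))
        (hR (a + i' + 1) (by omega) hi1) (fun _ => lab (a + i')) (fun _ => lab (a + i' + 1))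
        (lab (a + i')) (lab (a + i' + 1)) ?_ ?_ (fun _ _ => rfl) (fun _ _ => rfl) ?_
      · rw [e1]; exact A.r_mul_self _
      · rw [e2]; exact A.r_mul_self _
      · intro x hx
        have h1 : S.per (a + i') x = m ⟨i', hi4⟩ := hm ⟨i', hi4⟩ x hx
        rw [h1, e1, e2]
        exact A.r_pow (le_trans (by norm_num) (hm3 _)) (hBnext i' hi5 hi15 hi4)
  have hfin := A.closed_finite (F '' R) (Set.toFinite _) ⟨F x0, x0, hx0, rfl⟩ (by
    rintro _ ⟨x, hx, rfl⟩ n
    refine ⟨S.ρ (a + n) x, hR (a + n) (by omega) (by have := n.2; omega) x hx, ?_⟩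
    rw [hF (a + n) (by omega) (by have := n.2; omega) x hx, hlab n n.2])
  have hconn : ∀ w : Fin 5 → ℝ, (∀ i j, A.B i j ≠ 0 → w i = w j) → ∀ i j, w i = w j := by
    intro w hw
    have hstep : ∀ (i : ℕ) (h0 : i < 5) (h1 : i + 1 < 5), w ⟨i, h0⟩ = w ⟨i + 1, h1⟩ := by
      intro i h0 h1
      apply hw
      rw [hBnext i h0 h1 (by omega)]
      exact neg_ne_zero.2 (hcos _).ne'
    have hz : ∀ (i : ℕ) (h0 : i < 5), w ⟨i, h0⟩ = w 0 := by
      intro i
      induction i with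
      | zero => intro _; rfl
      | succ k ih =>
        intro h0
        rw [← hstep k (by omega) h0, ih (by omega)]
    intro i j
    exact (hz i i.2).trans (hz j j.2).symm
  refine path_num m hm3 (fun v hv => ?_)
  rw [← hA]
  exact A.posdef hfin hconn v hv

end H63.KO
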