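import Pool.Agent.H63.KO.Pot

/-! # KO.TwoFace : one two-face whose lowest atom is `v` (paper A7 (i))

`climb` (in `S`, functional `l`) from `w` for the predicate `P u := rat v < rat u ∧ t u * (tS u)⁻¹ = t w * (tS w)⁻¹`: an upward edge `E'' ⊆ S`
with atoms `u, u'`, `rat v < rat u < rat u'`, has `t u' = t u * h E'' u u'` (`PotUp`, `E'' ⊆ S ⊆ y`) and `tS u' = tS u * h E'' u u'`. So there is an atom
`u1 ⊆ S` of maximal ratio on `S` with `t u1 (tS u1)⁻¹ = t w (tS w)⁻¹`, and the same for `w'`: `u1'`. Both have maximal ratio on `S`, so equal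
ratios (look at an index of `u1 \ x` and of `u1' \ x`, `rat_spec`), so `u1 = u1'` by `hinj`. Hence `t w (tS w)⁻¹ = t w' (tS w')⁻¹`. Finally
`tS v = tS w * h E w v = tS w' * h E' w' v`. -/

namespace H63.KO

open Set

variable {V : Type} [AddCommGroup V] [Module ℝ V] {ι : Type} {G : Type} [Group G]
variable {s : ι → V} {x y z v w : Set ι}

private theorem TwoFace_max [FiniteDimensional ℝ V] [Finite ι] {lx : Module.Dual ℝ V}
    (hx : Defn s x lx) (l : Module.Dual ℝ V) (hl : ∀ i ∈ x, l (s i) = 0)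
    {S : Set ι} (hS : IsFace s S) (hSy : S ⊆ y)
    (hmin : ∀ w, AtomOver s x w → w ⊆ S → w ≠ v → rat s lx l x v < rat s lx l x w)
    {h : Set ι → Set ι → Set ι → G} {t tS : Set ι → G}
    (ht : PotUp s lx l x y h t (rat s lx l x v)) (htS : Pot s x S h tS)
    {E w : Set ι} (hE : EdgeIn s x S E v w) :
    ∃ u, AtomOver s x u ∧ u ⊆ S ∧ t u * (tS u)⁻¹ = t w * (tS w)⁻¹ ∧
      ∀ i ∈ S, l (s i) ≤ rat s lx l x u * lx (s i) := by
  obtain ⟨h1, h2, h3, h4, h5, h6, h7, h8⟩ := hE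
  have hwS : w ⊆ S := h7.1.trans h2
  obtain ⟨u, hu1, hu2, hu3, -, hu5⟩ := climb hx hS l hl
    (fun u => rat s lx l x v < rat s lx l x u ∧ t u * (tS u)⁻¹ = t w * (tS w)⁻¹)
    (by
      intro E'' a b hE1 hE2 hE3 ha1 ha2 hb1 hb2 hab hPa
      obtain ⟨hPa1, hPa2⟩ := hPa
      have hne : a ≠ b := by
        rintro rfl
        exact lt_irrefl _ hab
      have e1 := ht E'' a b ⟨hE1, hE2.trans hSy, hE3, ha1, ha2, hb1, hb2, hne⟩ hPa1
        (hPa1.trans hab)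
      have e2 := htS E'' a b ⟨hE1, hE2, hE3, ha1, ha2, hb1, hb2, hne⟩
      refine ⟨hPa1.trans hab, ?_⟩
      rw [e1, e2, ← hPa2]
      group)
    h6 hwS ⟨hmin w h6 hwS (Ne.symm h8), rfl⟩
  exact ⟨u, hu1, hu2, hu3.2, hu5⟩

private theorem TwoFace_le [FiniteDimensional ℝ V] {lx : Module.Dual ℝ V}
    (hx : Defn s x lx) (l : Module.Dual ℝ V) (hl : ∀ i ∈ x, l (s i) = 0)
    {S u u' : Set ι} (hu : AtomOver s x u) (huS : u ⊆ S)
    (hmax : ∀ i ∈ S, l (s i) ≤ rat s lx l x u' * lx (s i)) :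
    rat s lx l x u ≤ rat s lx l x u' := by
  obtain ⟨i, hi, hi'⟩ := (Set.ssubset_iff_of_subset hu.2.1.1).1 hu.2.1
  have h1 := rat_spec hx hu l hl i hi
  have h2 := hmax i (huS hi)
  rw [h1] at h2
  have h3 : 0 < lx (s i) := lt_of_le_of_ne (hx.1 i) (fun h => hi' ((hx.2 i).2 h.symm))
  exact le_of_mul_le_mul_right h2 h3

theorem two_face [FiniteDimensional ℝ V] [Finite ι] {lx : Module.Dual ℝ V} (hx : Defn s x lx)
    (l : Module.Dual ℝ V) (hl : ∀ i ∈ x, l (s i) = 0)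
    (hinj : ∀ v w, AtomOver s x v → AtomOver s x w → v ≠ w → rat s lx l x v ≠ rat s lx l x w)
    {S : Set ι} (hS : IsFace s S) (hSy : S ⊆ y)
    (hmin : ∀ w, AtomOver s x w → w ⊆ S → w ≠ v → rat s lx l x v < rat s lx l x w)
    {h : Set ι → Set ι → Set ι → G} {t tS : Set ι → G}
    (ht : PotUp s lx l x y h t (rat s lx l x v)) (htS : Pot s x S h tS)
    {E w E' w' : Set ι} (hE : EdgeIn s x S E v w) (hE' : EdgeIn s x S E' v w') :
    t w * h E w v = t w' * h E' w' v := by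
  obtain ⟨u, hu1, hu2, hu3, hu4⟩ := TwoFace_max hx l hl hS hSy hmin ht htS hE
  obtain ⟨u', hu1', hu2', hu3', hu4'⟩ := TwoFace_max hx l hl hS hSy hmin ht htS hE'
  have huu : u = u' := by
    by_contra hne
    exact hinj u u' hu1 hu1' hne (le_antisymm (TwoFace_le hx l hl hu1 hu2 hu4')
      (TwoFace_le hx l hl hu1' hu2' hu4))
  have hc : t w * (tS w)⁻¹ = t w' * (tS w')⁻¹ := by
    rw [← hu3, ← hu3', huu]
  have e1 : tS v = tS w * h E w v := by
    obtain ⟨h1, h2, h3, h4, h5, h6, h7, h8⟩ := hE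
    exact htS E w v ⟨h1, h2, h3, h6, h7, h4, h5, Ne.symm h8⟩
  have e2 : tS v = tS w' * h E' w' v := by
    obtain ⟨h1, h2, h3, h4, h5, h6, h7, h8⟩ := hE'
    exact htS E' w' v ⟨h1, h2, h3, h6, h7, h4, h5, Ne.symm h8⟩
  have f1 : t w * h E w v = (t w * (tS w)⁻¹) * tS v := by
    rw [e1]; group
  have f2 : t w' * h E' w' v = (t w' * (tS w')⁻¹) * tS v := by
    rw [e2]; group
  rw [f1, f2, hc]

end H63.KO
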