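import Pool.Agent.H63.KO.UnivStep

/-! # KO.UnivAll : the potential theorem UNIV (paper B3)

Downward induction on `c` from `b - 1` to `a`: there is a potential for the colours `c, ..., b` on `R`. `c = b - 1`: hypothesis `hloc`. Step from `c+1` to `c` (`c + 2 ≤ b`): for `φ0 ∈ R` all flags agreeing
with `φ0` outside `[c, b]` are in `R` (`conn_res`, `R` closed), so `univ_res` gives a potential on the residue of `φ0`. `Agree c b` is an equivalence relation; choose a representative `r φ` of every class
(`Quotient.out`) and for each representative in `R` a potential `Fr`; put `F φ := F_(r φ) φ`. As `rho i φ` is in the class of `φ` this is a potential on `R`. -/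

namespace H63.KO

variable {L : Type} [PartialOrder L] {P : PolyLat L}

/-- (B3) UNIV -/
theorem univ_all {G : Type} [Group G] {a b : ℕ} (ha : 1 ≤ a) (hab : a < b) (hb : b ≤ P.d)
    (R : Set P.Fl) (g : ℕ → P.Fl → G)
    (hR : ∀ i, a ≤ i → i ≤ b → ∀ φ ∈ R, rho i φ ∈ R)
    (hcomm : ∀ i j, a ≤ i → i + 2 ≤ j → j ≤ b → ∀ φ ∈ R,
      g i φ * g j (rho i φ) = g j φ * g i (rho j φ))
    (hloc : ∀ i, a ≤ i → i + 1 ≤ b → ∃ u : P.Fl → G, ∀ φ ∈ R,
      u (rho i φ) = u φ * g i φ ∧ u (rho (i + 1) φ) = u φ * g (i + 1) φ) :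
    ∃ F : P.Fl → G, ∀ i, a ≤ i → i ≤ b → ∀ φ ∈ R, F (rho i φ) = F φ * g i φ := by
  classical
  have key : ∀ n c, a ≤ c → c + 1 + n = b →
      ∃ F : P.Fl → G, ∀ i, c ≤ i → i ≤ b → ∀ φ ∈ R, F (rho i φ) = F φ * g i φ := by
    intro n
    induction n with
    | zero =>
      intro c hac hcb
      obtain ⟨u, hu⟩ := hloc c hac (by omega)
      refine ⟨u, fun i h1 h2 φ hφ => ?_⟩
      have h3 : i = c ∨ i = c + 1 := by omega
      rcases h3 with rfl | rfl
      · exact (hu φ hφ).1
      · exact (hu φ hφ).2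
    | succ n ih =>
      intro c hac hcb
      obtain ⟨F', hF'⟩ := ih (c + 1) (by omega) (by omega)
      obtain ⟨u, hu⟩ := hloc c hac (by omega)
      have hres : ∀ φ0 ∈ R, ∀ φ, Agree c b φ0 φ → φ ∈ R := by
        intro φ0 h0 φ hφ
        have hl : Linked c b φ0 φ := conn_res (by omega) hb hφ
        unfold Linked at hl
        clear hφ
        induction hl with
        | refl => exact h0
        | tail _ hs ih' =>
          obtain ⟨i, h1, h2, h3⟩ := hs
          rw [h3]
          exact hR i (by omega) h2 _ ih'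
      have hstep : ∀ φ0 : P.Fl, φ0 ∈ R → ∃ F : P.Fl → G, ∀ i, c ≤ i → i ≤ b → ∀ φ,
          Agree c b φ0 φ → F (rho i φ) = F φ * g i φ := by
        intro φ0 h0
        refine univ_res (by omega) (by omega) hb φ0 g F' u ?_ ?_ ?_
        · intro i j h1 h2 h3 φ hφ
          exact hcomm i j (by omega) h2 h3 φ (hres φ0 h0 φ hφ)
        · intro i h1 h2 φ hφ
          exact hF' i h1 h2 φ (hres φ0 h0 φ hφ)
        · intro φ hφ
          exact hu φ (hres φ0 h0 φ hφ)
      choose Fr hFr using hstep
      let S : Setoid P.Fl := ⟨Agree c b, ⟨fun φ j _ => rfl, fun h j hj => (h j hj).symm,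
        fun h1 h2 j hj => (h1 j hj).trans (h2 j hj)⟩⟩
      refine ⟨fun φ => if h : (Quotient.mk S φ).out ∈ R then Fr _ h φ else 1, ?_⟩
      intro i h1 h2 φ hφ
      have e1 : Quotient.mk S (rho i φ) = Quotient.mk S φ := by
        apply Quotient.sound
        intro j hj
        exact rho_ne (by omega) φ
      have e2 : Agree c b (Quotient.mk S φ).out φ := Quotient.mk_out (s := S) φ
      have e3 : (Quotient.mk S φ).out ∈ R :=
        hres φ hφ _ (fun j hj => (e2 j hj).symm)
      have gen : ∀ q : Quotient S, q = Quotient.mk S φ →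
          (if h : q.out ∈ R then Fr _ h (rho i φ) else 1) =
          (if h : (Quotient.mk S φ).out ∈ R then Fr _ h φ else 1) * g i φ := by
        intro q hq
        subst hq
        rw [dif_pos e3, dif_pos e3]
        exact hFr _ e3 i h1 h2 φ e2
      exact gen _ e1
  obtain ⟨n, hn⟩ : ∃ n, a + 1 + n = b := ⟨b - (a + 1), by omega⟩
  exact key n a le_rfl hn

end H63.KO
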