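import Pool.Agent.H63.KO.FlagConn

/-! # KO.UnivStep : one step of the potential theorem (paper B3)

Setting: `c + 2 ≤ b ≤ d`, `φ0` a flag, all flags below agree with `φ0` outside `[c, b]` (`Agree c b φ0 φ`); labels `g i φ`; `F'` is a potential for the colours `c+1, ..., b`, `u` for `c, c+1`.

`lab φ := F' φ * g c φ * (F' (rho c φ))⁻¹`.
`lab_rho`: for `j` with `c + 2 ≤ j ≤ b`: `lab (rho j φ) = lab φ` : `F' (rho j φ) = F' φ * g j φ`; `rho c (rho j φ) = rho j (rho c φ)`, `F' (rho j (rho c φ)) = F' (rho c φ) * g j (rho c φ)`;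
commutation `g c φ * g j (rho c φ) = g j φ * g c (rho j φ)`.
`lab_eq`: so `lab φ = lab ψ` whenever `φ, ψ` (both agreeing with `φ0` outside `[c,b]`) have the same elements at ranks `c` and `c+1` (`conn_res` for `[c+2, b]`; if `c + 2 > b` they are equal).
`univ_res`: `x = φ0.f (c-1)`, `y = φ0.f (b+1)`, `P.rk y = P.rk x + (b - c + 2) ≥ P.rk x + 4` if `c + 2 ≤ b`. Labels `h E v w := lab φ` for any `φ` with `Agree c b φ0 φ`, `φ.f c = v`, `φ.f (c+1) = E` (choice, `1` if there is none).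
Local potentials: let `x < S ≤ y`, `rk S = rk x + 3 = c + 2`. Fix `φS` with `Agree c b φ0 φS`, `φS.f (c+2) = S` (if `b = c+1`.. does not occur; if `S = y` then `b = c+1`, does not occur either, so `S < y`).
For an atom `v` of `[x, S]` choose `χ` with `Agree c (c+1) φS χ`, `χ.f c = v` and put `tS v := u χ * (F' χ)⁻¹`; it does not depend on `χ`: another one is `χ` or `rho (c+1) χ`, and `u, F'` both get the factor `g (c+1) χ`.
For an edge `v, w < E ≤ S`, `v ≠ w`: `χ` with `χ.f c = v`, `χ.f (c+1) = E`; `rho c χ` has `w, E`; `tS w = u (rho c χ) (F' (rho c χ))⁻¹ = u χ * g c χ * (F' (rho c χ))⁻¹ = tS v * lab χ`.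
`P.sc` gives `t`, and `F φ := t (φ.f c) * F' φ` is the potential. -/

namespace H63.KO

variable {L : Type} [PartialOrder L] {P : PolyLat L}

private theorem agree_rho {a b j : ℕ} (h1 : a ≤ j) (h2 : j ≤ b) {φ0 φ : P.Fl}
    (h : Agree a b φ0 φ) : Agree a b φ0 (rho j φ) := by
  intro m hm
  rw [rho_ne (by omega), h m hm]

private theorem lab_rho {G : Type} [Group G] {c b : ℕ}
    (φ0 : P.Fl) (g : ℕ → P.Fl → G) (F' : P.Fl → G)
    (hcomm : ∀ i j, c ≤ i → i + 2 ≤ j → j ≤ b → ∀ φ, Agree c b φ0 φ →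
      g i φ * g j (rho i φ) = g j φ * g i (rho j φ))
    (hF' : ∀ i, c + 1 ≤ i → i ≤ b → ∀ φ, Agree c b φ0 φ → F' (rho i φ) = F' φ * g i φ)
    {j : ℕ} (h1 : c + 2 ≤ j) (h2 : j ≤ b) {φ : P.Fl} (hφ : Agree c b φ0 φ) :
    F' (rho j φ) * g c (rho j φ) * (F' (rho c (rho j φ)))⁻¹ =
      F' φ * g c φ * (F' (rho c φ))⁻¹ := by
  rw [hF' j (by omega) h2 φ hφ, rho_comm h1,
    hF' j (by omega) h2 _ (agree_rho le_rfl (by omega) hφ), mul_inv_rev]
  have e := hcomm c j le_rfl h1 h2 φ hφ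
  have e2 : g c (rho j φ) = (g j φ)⁻¹ * (g c φ * g j (rho c φ)) := by
    rw [e, inv_mul_cancel_left]
  rw [e2]
  group

private theorem lab_eq {G : Type} [Group G] {c b : ℕ} (hb : b ≤ P.d)
    (φ0 : P.Fl) (g : ℕ → P.Fl → G) (F' : P.Fl → G)
    (hcomm : ∀ i j, c ≤ i → i + 2 ≤ j → j ≤ b → ∀ φ, Agree c b φ0 φ →
      g i φ * g j (rho i φ) = g j φ * g i (rho j φ))
    (hF' : ∀ i, c + 1 ≤ i → i ≤ b → ∀ φ, Agree c b φ0 φ → F' (rho i φ) = F' φ * g i φ)
    {φ ψ : P.Fl} (hφ : Agree c b φ0 φ) (hψ : Agree c b φ0 ψ) (h1 : φ.f c = ψ.f c)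
    (h2 : φ.f (c + 1) = ψ.f (c + 1)) :
    F' ψ * g c ψ * (F' (rho c ψ))⁻¹ = F' φ * g c φ * (F' (rho c φ))⁻¹ := by
  have hag : Agree (c + 2) b φ ψ := by
    intro j hj
    by_cases hj1 : j < c ∨ b < j
    · rw [← hφ j hj1, hψ j hj1]
    · have : j = c ∨ j = c + 1 := by omega
      rcases this with rfl | rfl
      · exact h1
      · exact h2
  have hl := conn_res (by omega) hb hag
  have key : ∀ χ : P.Fl, Linked (c + 2) b φ χ → Agree c b φ0 χ ∧
      F' χ * g c χ * (F' (rho c χ))⁻¹ = F' φ * g c φ * (F' (rho c φ))⁻¹ := by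
    intro χ hχ
    unfold Linked at hχ
    induction hχ with
    | refl => exact ⟨hφ, rfl⟩
    | @tail p q hpq hq ih =>
      obtain ⟨i, hi1, hi2, rfl⟩ := hq
      exact ⟨agree_rho (by omega) hi2 ih.1,
        (lab_rho φ0 g F' hcomm hF' hi1 hi2 ih.1).trans ih.2⟩
  exact (key ψ hl).2

/-- one downward step of the potential theorem, on one residue -/
theorem univ_res {G : Type} [Group G] {c b : ℕ} (hc : 1 ≤ c) (hcb : c + 2 ≤ b) (hb : b ≤ P.d)
    (φ0 : P.Fl) (g : ℕ → P.Fl → G) (F' u : P.Fl → G)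
    (hcomm : ∀ i j, c ≤ i → i + 2 ≤ j → j ≤ b → ∀ φ, Agree c b φ0 φ →
      g i φ * g j (rho i φ) = g j φ * g i (rho j φ))
    (hF' : ∀ i, c + 1 ≤ i → i ≤ b → ∀ φ, Agree c b φ0 φ → F' (rho i φ) = F' φ * g i φ)
    (hu : ∀ φ, Agree c b φ0 φ → u (rho c φ) = u φ * g c φ ∧
      u (rho (c + 1) φ) = u φ * g (c + 1) φ) :
    ∃ F : P.Fl → G, ∀ i, c ≤ i → i ≤ b → ∀ φ, Agree c b φ0 φ → F (rho i φ) = F φ * g i φ := by
  classical
  set x : L := φ0.f (c - 1) with hx
  set y : L := φ0.f (b + 1) with hy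
  have hrx : P.rk x = c - 1 := φ0.rk (by omega)
  have hry : P.rk y = b + 1 := φ0.rk (by omega)
  have hxy : x < y := φ0.lt (by omega) (by omega)
  let lab : P.Fl → G := fun φ => F' φ * g c φ * (F' (rho c φ))⁻¹
  let h : L → L → L → G := fun E v _ =>
    if hex : ∃ φ : P.Fl, Agree c b φ0 φ ∧ φ.f c = v ∧ φ.f (c + 1) = E then lab hex.choose else 1
  have hspec : ∀ (φ : P.Fl) (E v w : L), Agree c b φ0 φ → φ.f c = v → φ.f (c + 1) = E →
      h E v w = lab φ := by
    intro φ E v w hφ hv hE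
    have hex : ∃ φ : P.Fl, Agree c b φ0 φ ∧ φ.f c = v ∧ φ.f (c + 1) = E := ⟨φ, hφ, hv, hE⟩
    have h1 : h E v w = lab hex.choose := dif_pos hex
    rw [h1]
    obtain ⟨h2, h3, h4⟩ := hex.choose_spec
    exact lab_eq hb φ0 g F' hcomm hF' hφ h2 (by rw [hv, h3]) (by rw [hE, h4])
  -- the other atom of an edge
  have hoth : ∀ (χ : P.Fl) (w : L), χ.f (c - 1) = x → x < w → w < χ.f (c + 1) → w ≠ χ.f c →
      (rho c χ).f c = w := by
    intro χ w hχx hxw hwE hne
    have h1 : χ.f (c - 1) < χ.f c := χ.lt (by omega) (by omega)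
    have h2 : χ.f c < χ.f (c + 1) := χ.lt (by omega) (by omega)
    have hr : P.rk (χ.f (c + 1)) = P.rk (χ.f (c - 1)) + 2 := by
      rw [χ.rk (by omega), χ.rk (by omega)]; omega
    obtain ⟨z', -, -, -, hz'⟩ := P.diam _ _ _ h1 h2 hr
    have h3 : (rho c χ).f (c - 1) < (rho c χ).f c := (rho c χ).lt (by omega) (by omega)
    have h4 : (rho c χ).f c < (rho c χ).f (c + 1) := (rho c χ).lt (by omega) (by omega)
    rw [rho_ne (show c - 1 ≠ c by omega)] at h3
    rw [rho_ne (show c + 1 ≠ c by omega)] at h4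
    have e1 := (hz' _ h3 h4).resolve_left (rho_self hc (by omega) χ)
    have e2 := (hz' w (by rw [hχx]; exact hxw) hwE).resolve_left hne
    rw [e1, e2]
  obtain ⟨t, ht⟩ := P.sc x y hxy (by omega) G h (by
    intro S hxS hSy hrS
    have hSy' : S < y := by
      refine lt_of_le_of_ne hSy (fun e => ?_)
      rw [e, hry, hrx] at hrS
      omega
    obtain ⟨v0, hxv0, hv0S, hrv0⟩ := P.step x S hxS
    have hv0S' : v0 < S := by
      refine lt_of_le_of_ne hv0S (fun e => ?_)
      rw [e] at hrv0; omega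
    obtain ⟨E0, hv0E0, hE0S, hrE0⟩ := P.step v0 S hv0S'
    have hE0S' : E0 < S := by
      refine lt_of_le_of_ne hE0S (fun e => ?_)
      rw [e] at hrE0; omega
    obtain ⟨ψ1, hψ1, hψ1v⟩ := exists_through φ0 hc (show c ≤ b by omega) hb hxv0
      (hv0S'.trans hSy') (by omega)
    obtain ⟨ψ2, hψ2, hψ2v⟩ := exists_through ψ1 (show 1 ≤ c + 1 by omega)
      (show c + 1 ≤ b by omega) hb (v := E0)
      (by rw [show c + 1 - 1 = c by omega, hψ1v]; exact hv0E0)
      (by rw [← hψ1 (b + 1) (by omega)]; exact hE0S'.trans hSy') (by omega)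
    obtain ⟨φS, hφS, hφSv⟩ := exists_through ψ2 (show 1 ≤ c + 2 by omega)
      (show c + 2 ≤ b by omega) hb (v := S)
      (by rw [show c + 2 - 1 = c + 1 by omega, hψ2v]; exact hE0S')
      (by rw [← hψ2 (b + 1) (by omega), ← hψ1 (b + 1) (by omega)]; exact hSy') (by omega)
    have hφS0 : Agree c b φ0 φS := by
      intro j hj
      rw [hψ1 j (by omega), hψ2 j (by omega), hφS j (by omega)]
    have hag : ∀ χ, Agree c (c + 1) φS χ → Agree c b φ0 χ := by
      intro χ hχ j hj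
      rw [hφS0 j hj, hχ j (by omega)]
    have hφSx : φS.f (c - 1) = x := (hφS0 (c - 1) (by omega)).symm
    let tS : L → G := fun v =>
      if hex : ∃ χ : P.Fl, Agree c (c + 1) φS χ ∧ χ.f c = v then
        u hex.choose * (F' hex.choose)⁻¹ else 1
    have htS : ∀ (χ : P.Fl) (v : L), Agree c (c + 1) φS χ → χ.f c = v →
        tS v = u χ * (F' χ)⁻¹ := by
      intro χ v hχ hv
      have hex : ∃ χ : P.Fl, Agree c (c + 1) φS χ ∧ χ.f c = v := ⟨χ, hχ, hv⟩
      have h1 : tS v = u hex.choose * (F' hex.choose)⁻¹ := dif_pos hex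
      rw [h1]
      obtain ⟨h2, h3⟩ := hex.choose_spec
      by_cases he : (hex.choose).f (c + 1) = χ.f (c + 1)
      · have : hex.choose = χ := by
          apply PolyLat.Fl.ext'
          intro j
          by_cases hj : j < c ∨ c + 1 < j
          · rw [← h2 j hj, hχ j hj]
          · have : j = c ∨ j = c + 1 := by omega
            rcases this with rfl | rfl
            · rw [h3, hv]
            · exact he
        rw [this]
      · have h4 : hex.choose = rho (c + 1) χ := by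
          refine eq_rho ?_ he
          intro j hj
          by_cases hj : j < c ∨ c + 1 < j
          · rw [← h2 j hj, hχ j hj]
          · have : j = c := by omega
            subst this
            rw [h3, hv]
        rw [h4, (hu χ (hag χ hχ)).2, hF' (c + 1) le_rfl (by omega) χ (hag χ hχ), mul_inv_rev]
        group
    refine ⟨tS, ?_⟩
    intro E v w hES hrE hxv hvE hxw hwE hvw
    have hES' : E < S := by
      refine lt_of_le_of_ne hES (fun e => ?_)
      rw [e] at hrE; omega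
    have hrv : P.rk v = c := by
      have h1 := P.rk_lt _ _ hxv
      have h2 := P.rk_lt _ _ hvE
      omega
    obtain ⟨χ1, hχ1, hχ1v⟩ := exists_through φS hc (show c ≤ c + 1 by omega)
      (show c + 1 ≤ P.d by omega) (v := v) (by rw [hφSx]; exact hxv)
      (by rw [show c + 1 + 1 = c + 2 by omega, hφSv]; exact hvE.trans hES') hrv
    obtain ⟨χ, hχ, hχv⟩ := exists_through χ1 (show 1 ≤ c + 1 by omega)
      (le_refl (c + 1)) (show c + 1 ≤ P.d by omega) (v := E)
      (by rw [show c + 1 - 1 = c by omega, hχ1v]; exact hvE)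
      (by rw [← hχ1 (c + 1 + 1) (by omega), show c + 1 + 1 = c + 2 by omega, hφSv]; exact hES')
      (by omega)
    have hχS : Agree c (c + 1) φS χ := by
      intro j hj
      rw [hχ1 j hj, hχ j (by omega)]
    have hχc : χ.f c = v := by rw [← hχ c (by omega), hχ1v]
    have hχx : χ.f (c - 1) = x := by rw [← hχS (c - 1) (by omega), hφSx]
    have hw : (rho c χ).f c = w :=
      hoth χ w hχx hxw (by rw [hχv]; exact hwE) (by rw [hχc]; exact hvw.symm)
    rw [htS (rho c χ) w (agree_rho le_rfl (by omega) hχS) hw, htS χ v hχS hχc,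
      hspec χ E v w (hag χ hχS) hχc hχv, (hu χ (hag χ hχS)).1]
    show _ = u χ * (F' χ)⁻¹ * (F' χ * g c χ * (F' (rho c χ))⁻¹)
    group)
  refine ⟨fun φ => t (φ.f c) * F' φ, ?_⟩
  intro i hi1 hi2 φ hφ
  by_cases hic : i = c
  · subst hic
    have hφx : φ.f (i - 1) = x := (hφ (i - 1) (by omega)).symm
    have hφy : φ.f (b + 1) = y := (hφ (b + 1) (by omega)).symm
    have h1 : φ.f (i - 1) < φ.f i := φ.lt (by omega) (by omega)
    have h2 : φ.f i < φ.f (i + 1) := φ.lt (by omega) (by omega)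
    have h3 : (rho i φ).f (i - 1) < (rho i φ).f i := (rho i φ).lt (by omega) (by omega)
    have h4 : (rho i φ).f i < (rho i φ).f (i + 1) := (rho i φ).lt (by omega) (by omega)
    rw [rho_ne (show i - 1 ≠ i by omega), hφx] at h3
    rw [rho_ne (show i + 1 ≠ i by omega)] at h4
    rw [hφx] at h1
    have h5 : φ.f (i + 1) ≤ y := by rw [← hφy]; exact φ.mono (by omega)
    have h6 := ht (φ.f (i + 1)) (φ.f i) ((rho i φ).f i) h5
      (by rw [φ.rk (by omega), hrx]; omega) h1 h2 h3 h4 (rho_self hc (by omega) φ).symm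
    rw [hspec φ (φ.f (i + 1)) (φ.f i) ((rho i φ).f i) hφ rfl rfl] at h6
    show t ((rho i φ).f i) * F' (rho i φ) = t (φ.f i) * F' φ * g i φ
    rw [h6]
    show t (φ.f i) * (F' φ * g i φ * (F' (rho i φ))⁻¹) * F' (rho i φ) = _
    group
  · show t ((rho i φ).f c) * F' (rho i φ) = t (φ.f c) * F' φ * g i φ
    rw [rho_ne (show c ≠ i by omega), hF' i (by omega) hi2 φ hφ, mul_assoc]

end H63.KO
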