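import Pool.Agent.H63.KO.Diam

/-! # KO.Up : the improvement lemma of the simplex method (paper A4)

`m = l - rat v * lx` vanishes on `v` (`rat_spec`), `lv` defines `v`. `IsFace.ratio` for `v ⊂ y` (if `v = y` the hypothesis `hex` contradicts
`rat_spec`; so `v ⊂ y`) and `m`: maximum `T > 0` (by `hex`: the index of `hex` is not in `v`, and `0 < m ≤ T lv`), on the face `z ⊋ v`.
`step` gives `E` (atom over `v`) with `E ⊆ z`; `m = T lv` on `E`. `diamF` for `x ⊂ v ⊂ E` gives `w ≠ v` (rank `rkF s x + 1` because it is strictly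
between). For `i ∈ w \ x`: `i ∉ v` (`AtomOver.inter`), so `m (s i) = T lv (s i) > 0`, i.e. `rat v * lx (s i) < l (s i) = rat w * lx (s i)`. -/

namespace H63.KO

open Set

variable {V : Type} [AddCommGroup V] [Module ℝ V] {ι : Type}
variable {s : ι → V} {x y z v w : Set ι}

/-- (A4) UP -/
theorem up [FiniteDimensional ℝ V] [Finite ι] {lx : Module.Dual ℝ V} (hx : Defn s x lx)
    (hy : IsFace s y) (hv : AtomOver s x v) (hvy : v ⊆ y) (l : Module.Dual ℝ V)
    (hl : ∀ i ∈ x, l (s i) = 0) (hex : ∃ i ∈ y, rat s lx l x v * lx (s i) < l (s i)) :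
    ∃ E w, IsFace s E ∧ v ⊂ E ∧ w ⊂ E ∧ E ⊆ y ∧ rkF s E = rkF s x + 2 ∧
      AtomOver s x w ∧ w ≠ v ∧ rat s lx l x v < rat s lx l x w := by
  have hxF : IsFace s x := ⟨lx, hx⟩
  have hrv := rat_spec hx hv l hl
  set ρ := rat s lx l x v with hρ
  obtain ⟨lv, hlv⟩ := hv.1
  have hm : ∀ i, (l - ρ • lx) (s i) = l (s i) - ρ * lx (s i) := fun i => by
    rw [LinearMap.sub_apply, LinearMap.smul_apply, smul_eq_mul]
  obtain ⟨i0, hi0, hlt0⟩ := hex
  have hvy' : v ⊂ y := by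
    refine lt_of_le_of_ne hvy ?_
    rintro rfl
    exact absurd (hrv i0 hi0) hlt0.ne'
  obtain ⟨t, ht1, ht2, ht3⟩ := IsFace.ratio hlv hy hvy' (l - ρ • lx) (fun i hi => by
    rw [hm, hrv i hi, sub_self])
  have hT : 0 < t := by
    by_contra hcon
    push Not at hcon
    have h1 := ht1 i0 hi0
    rw [hm] at h1
    have h2 := mul_nonpos_of_nonpos_of_nonneg hcon (hlv.1 i0)
    linarith
  obtain ⟨E, hE, hEz⟩ := step hv.1 ht2 ht3
  have hrkE : rkF s E = rkF s x + 2 := by rw [hE.2.2, hv.2.2]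
  obtain ⟨w, hw, hxw, hwE, hwv, -⟩ := diamF hxF hE.1 hv.1 hv.2.1 hE.2.1 hrkE
  have hwA : AtomOver s x w := by
    refine ⟨hw, hxw, ?_⟩
    have h1 := rkF_lt hxF hxw
    have h2 := rkF_lt hw hwE
    omega
  refine ⟨E, w, hE.1, hE.2.1, hwE, fun i hi => (hEz hi).1, hrkE, hwA, hwv, ?_⟩
  obtain ⟨i, hi, hix⟩ := (Set.ssubset_iff_of_subset hxw.1).1 hxw
  have hiv : i ∉ v := by
    intro h
    have h1 := AtomOver.inter hxF hv hwA (Ne.symm hwv)
    exact hix (by rw [← h1]; exact ⟨h, hi⟩)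
  have h1 : 0 < lv (s i) := lt_of_le_of_ne (hlv.1 i) (fun h => hiv ((hlv.2 i).2 h.symm))
  have h2 : 0 < lx (s i) := lt_of_le_of_ne (hx.1 i) (fun h => hix ((hx.2 i).2 h.symm))
  have h3 := (hEz (hwE.1 hi)).2
  rw [hm] at h3
  have h4 := rat_spec hx hwA l hl i hi
  rw [h4] at h3
  have h5 : 0 < t * lv (s i) := mul_pos hT h1
  have h6 : 0 < (rat s lx l x w - ρ) * lx (s i) := by
    have : (rat s lx l x w - ρ) * lx (s i) = rat s lx l x w * lx (s i) - ρ * lx (s i) := by ring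
    rw [this, h3]
    exact h5
  have h7 := (pos_iff_pos_of_mul_pos h6).2 h2
  linarith

/-- climbing: a predicate which is preserved by every upward edge below `y` and holds at `v` holds at some atom
below `y` at which the ratio is maximal on `y` -/
theorem climb [FiniteDimensional ℝ V] [Finite ι] {lx : Module.Dual ℝ V} (hx : Defn s x lx)
    (hy : IsFace s y) (l : Module.Dual ℝ V) (hl : ∀ i ∈ x, l (s i) = 0) (P : Set ι → Prop)
    (hP : ∀ E v w, IsFace s E → E ⊆ y → rkF s E = rkF s x + 2 → AtomOver s x v → v ⊂ E →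
      AtomOver s x w → w ⊂ E → rat s lx l x v < rat s lx l x w → P v → P w)
    (hv : AtomOver s x v) (hvy : v ⊆ y) (hPv : P v) :
    ∃ w, AtomOver s x w ∧ w ⊆ y ∧ P w ∧ rat s lx l x v ≤ rat s lx l x w ∧
      ∀ i ∈ y, l (s i) ≤ rat s lx l x w * lx (s i) := by
  obtain ⟨w, ⟨hw1, hw2, hw3, hw4⟩, hmax⟩ := Set.Finite.exists_maximalFor
    (fun w : Set ι => rat s lx l x w)
    {w | AtomOver s x w ∧ w ⊆ y ∧ P w ∧ rat s lx l x v ≤ rat s lx l x w} (Set.toFinite _)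
    ⟨v, hv, hvy, hPv, le_rfl⟩
  refine ⟨w, hw1, hw2, hw3, hw4, ?_⟩
  by_contra hcon
  push Not at hcon
  obtain ⟨E, w', hE, hwE, hwE', hEy, hrk, hA, -, hlt⟩ := up hx hy hw1 hw2 l hl hcon
  have h1 := hmax (j := w') ⟨hA, hwE'.1.trans hEy,
    hP E w w' hE hEy hrk hw1 hwE hA hwE' hlt hw3, hw4.trans hlt.le⟩ hlt.le
  exact absurd h1 (not_le.2 hlt)

end H63.KO
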